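import Pool.Agent.MHN.Final

/-!
Module Broken: broken geodesics in a hyperbolic metric, and limits of geodesics.

`gp d a b x` is the Gromov product `(a|b)_x`; `gp_min : min (a|c)_x (c|b)_x - δ ≤ (a|b)_x`.

`broken_up`: `(p 0 | p (n+1))_(p n) ≤ C + δ` by induction on `n ≥ 1`: if
`(p 0 | p n)_(p (n-1)) ≤ C + δ` then `(p (n-1) | p 0)_(p n) = d (p (n-1)) (p n) - (p 0 | p n)_(p (n-1))
≥ L - C - δ > C + δ`; as `(p (n-1) | p (n+1))_(p n) ≤ C`, `gp_min` gives the claim.

`broken`: first `(p n | p i)_(p (i+1)) ≤ C + δ` for `i + 1 < n`.. (the claim `broken_up` for the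
reversed sequence; prove a general version `(p i | p (n+1))_(p n) ≤ C + δ` for `i < n` and its mirror
`(p n | p i)_(p (i+1)) ≤ C + δ` for `i + 1 < n`, by induction). Then
`(p (i+1) | p n)_(p i) = d (p i) (p (i+1)) - (p i | p n)_(p (i+1)) ≥ L - C - δ` and
`(p 0 | p (i+1))_(p i) ≤ C + δ`, so `(p 0 | p n)_(p i) ≤ C + 2 δ` by `gp_min` (`0 < i < n`; the cases
`i = 0`, `i = n` are trivial: the product is `0`).

`broken_grow`: `d (p 0) (p (n+1)) = d (p 0) (p n) + d (p n) (p (n+1)) - 2 (p 0 | p (n+1))_(p n)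
≥ d (p 0) (p n) + L - 2 C - 2 δ`.

`exists_ray`: let `g n` be a geodesic from `1` to `p n` (`hd.geod`). For each `k` the values `g n k`,
`n ≥ k` (use `hinf`), are in the finite ball of radius `k`, so by `hyperfilter_const` there is
`ρ k` with `g n k = ρ k` for hyperfilter-many `n` (modify `g n k := 1` for `n < k`). `ρ` is a geodesic
ray. For `i ≤ n` let `j = ⌊(p i | p n)_1⌋₊ ≤ min (d 1 (p i)) (d 1 (p n))`; the four-point condition
for `p i, 1, g n j, p n`:
`d (p i) (g n j) + d 1 (p n) ≤ max (d (p i) 1 + d (g n j) (p n)) (d (p i) (p n) + d 1 (g n j)) + 2 δ`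
gives `d (p i) (g n j) ≤ (1 | p n)_(p i) + 1 + 2 δ`. `j` takes finitely many values, so
(`hyperfilter_const`) one `j` works for hyperfilter-many `n`, and `g n j = ρ j` for these.
-/

set_option autoImplicit false

namespace Pool.Agent.HMB

open Pool.Agent.MHN Filter

variable {H : Type*} [Group H] {δ : ℝ} {d : H → H → ℕ}

private theorem Broken_swap (hd : LMet H δ d) (a b x : H) : gp d a b x = gp d b a x := by
  have h1 : (d a b : ℝ) = d b a := by rw [hd.symm]
  unfold gp
  rw [h1]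
  ring

private theorem Broken_flip (hd : LMet H δ d) (a x y : H) :
    gp d a x y = d x y - gp d a y x := by
  have h1 : (d x a : ℝ) = d a x := by rw [hd.symm]
  have h2 : (d y a : ℝ) = d a y := by rw [hd.symm]
  have h3 : (d y x : ℝ) = d x y := by rw [hd.symm]
  unfold gp
  rw [h1, h2, h3]
  ring

private theorem Broken_nonneg (hd : LMet H δ d) (a b x : H) : 0 ≤ gp d a b x := by
  have h1 : (d a b : ℝ) ≤ d a x + d x b := by exact_mod_cast hd.tri a x b
  have h2 : (d a x : ℝ) = d x a := by rw [hd.symm]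
  unfold gp
  linarith

/-- one application of the four-point condition -/
private theorem Broken_min (hd : LMet H δ d) {a b c x : H} {r s : ℝ} (h1 : gp d a b x ≤ r)
    (h2 : s < gp d c b x) (h3 : r + δ ≤ s) : gp d a c x ≤ r + δ := by
  have h4 := gp_min hd.toGMet hd.hyp a b c x
  by_contra hcon
  push Not at hcon
  have h5 : r + δ < min (gp d a c x) (gp d c b x) := lt_min hcon (lt_of_le_of_lt h3 h2)
  linarith

private theorem Broken_up (hd : LMet H δ d) {p : ℕ → H} {C L : ℝ} (hL : 2 * C + 3 * δ < L)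
    (h1 : ∀ i, gp d (p i) (p (i + 2)) (p (i + 1)) ≤ C) (h2 : ∀ i, L ≤ d (p i) (p (i + 1)))
    (i : ℕ) : ∀ n, i < n → gp d (p i) (p (n + 1)) (p n) ≤ C + δ := by
  have hδ := hd.delta_nonneg
  intro n hn
  obtain ⟨k, rfl⟩ := Nat.exists_eq_add_of_lt hn
  clear hn
  induction k with
  | zero =>
    have h3 := h1 i
    simp only [add_zero]
    linarith
  | succ k ih =>
    set m := i + k + 1 with hm
    have e1 : i + (k + 1) + 1 = m + 1 := by omega
    rw [e1]
    have h3 := Broken_flip hd (p i) (p m) (p (m + 1))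
    have h4 := h2 m
    have h5 : C + 2 * δ < gp d (p i) (p m) (p (m + 1)) := by linarith
    have h6 := h1 m
    have h7 : gp d (p (m + 2)) (p m) (p (m + 1)) ≤ C := by
      rw [Broken_swap hd]; exact h6
    rw [Broken_swap hd]
    exact Broken_min hd h7 h5 (by linarith)

private theorem Broken_down (hd : LMet H δ d) {p : ℕ → H} {C L : ℝ} (hL : 2 * C + 3 * δ < L)
    (h1 : ∀ i, gp d (p i) (p (i + 2)) (p (i + 1)) ≤ C) (h2 : ∀ i, L ≤ d (p i) (p (i + 1)))
    (k : ℕ) : ∀ i, gp d (p (i + 2 + k)) (p i) (p (i + 1)) ≤ C + δ := by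
  have hδ := hd.delta_nonneg
  induction k with
  | zero =>
    intro i
    have h3 := h1 i
    rw [Broken_swap hd]
    simp only [add_zero]
    linarith
  | succ k ih =>
    intro i
    have h3 := ih (i + 1)
    have e1 : i + 1 + 2 + k = i + 2 + (k + 1) := by omega
    have e2 : i + 1 + 1 = i + 2 := by omega
    rw [e1, e2] at h3
    have h4 := Broken_flip hd (p (i + 2 + (k + 1))) (p (i + 2)) (p (i + 1))
    have h5 := h2 (i + 1)
    rw [e2] at h5
    have h5' : (d (p (i + 2)) (p (i + 1)) : ℝ) = d (p (i + 1)) (p (i + 2)) := by rw [hd.symm]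
    have h6 : C + 2 * δ < gp d (p (i + 2 + (k + 1))) (p (i + 2)) (p (i + 1)) := by
      rw [h4, h5']
      linarith
    rw [Broken_swap hd]
    exact Broken_min hd (h1 i) h6 (by linarith)

theorem broken (hd : LMet H δ d) {p : ℕ → H} {C L : ℝ} (hL : 2 * C + 3 * δ < L)
    (h1 : ∀ i, gp d (p i) (p (i + 2)) (p (i + 1)) ≤ C) (h2 : ∀ i, L ≤ d (p i) (p (i + 1))) :
    ∀ i n, i ≤ n → gp d (p 0) (p n) (p i) ≤ max 0 (C + 2 * δ) := by
  have hδ := hd.delta_nonneg
  intro i n hin
  rcases Nat.eq_zero_or_pos i with rfl | hi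
  · refine le_trans (le_of_eq ?_) (le_max_left _ _)
    unfold gp
    rw [hd.self]
    simp
  · rcases Nat.eq_or_lt_of_le hin with rfl | hin'
    · refine le_trans (le_of_eq ?_) (le_max_left _ _)
      unfold gp
      rw [hd.self, hd.symm (p i) (p 0)]
      simp
    · refine le_trans ?_ (le_max_right _ _)
      have h3 := Broken_up hd hL h1 h2 0 i hi
      rcases Nat.eq_or_lt_of_le (Nat.succ_le_of_lt hin') with h4 | h4
      · rw [← h4]
        simp only [Nat.succ_eq_add_one]
        linarith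
      · obtain ⟨k, hk⟩ := Nat.exists_eq_add_of_le (show i + 2 ≤ n from h4)
        have h5 := Broken_down hd hL h1 h2 k i
        rw [← hk] at h5
        have h6 := Broken_flip hd (p n) (p (i + 1)) (p i)
        have h7 := h2 i
        have h7' : (d (p (i + 1)) (p i) : ℝ) = d (p i) (p (i + 1)) := by rw [hd.symm]
        have h8 : C + 2 * δ < gp d (p n) (p (i + 1)) (p i) := by
          rw [h6, h7']
          linarith
        have h9 := Broken_min hd h3 h8 (by linarith)
        linarith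

theorem broken_grow (hd : LMet H δ d) {p : ℕ → H} {C L : ℝ} (hC : 0 ≤ C)
    (hL : 2 * C + 2 * δ + 1 ≤ L) (hL' : 2 * C + 3 * δ < L)
    (h1 : ∀ i, gp d (p i) (p (i + 2)) (p (i + 1)) ≤ C) (h2 : ∀ i, L ≤ d (p i) (p (i + 1))) :
    ∀ n, n ≤ d (p 0) (p n) := by
  have hδ := hd.delta_nonneg
  intro n
  induction n with
  | zero => exact Nat.zero_le _
  | succ n ih =>
    have h3 : gp d (p 0) (p (n + 1)) (p n) ≤ C + δ := by
      rcases Nat.eq_zero_or_pos n with rfl | hn
      · have : gp d (p 0) (p (0 + 1)) (p 0) = 0 := by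
          unfold gp
          rw [hd.self]
          simp
        rw [this]
        linarith
      · exact Broken_up hd hL' h1 h2 0 n hn
    have h4 := h2 n
    have h5 : (d (p n) (p 0) : ℝ) = d (p 0) (p n) := by rw [hd.symm]
    unfold gp at h3
    rw [h5] at h3
    have h6 : (n : ℝ) ≤ d (p 0) (p n) := by exact_mod_cast ih
    have h7 : ((n + 1 : ℕ) : ℝ) ≤ d (p 0) (p (n + 1)) := by
      push_cast
      linarith
    exact_mod_cast h7

theorem exists_ray (hd : LMet H δ d) {p : ℕ → H} (hinf : ∀ n, n ≤ d 1 (p n)) {C : ℝ}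
    (h : ∀ i n, i ≤ n → gp d 1 (p n) (p i) ≤ C) :
    ∃ ρ : ℕ → H, ρ 0 = 1 ∧ (∀ i j, i ≤ j → d (ρ i) (ρ j) = j - i) ∧
      ∀ i, ∃ j, (d (ρ j) (p i) : ℝ) ≤ C + 2 * δ + 1 := by
  have hδ := hd.delta_nonneg
  choose g hg0 hg1 hg using fun n => hd.geod 1 (p n)
  have hge : ∀ k : ℕ, ∀ᶠ n in (hyperfilter ℕ : Filter ℕ), k ≤ n := by
    intro k
    have h1 : ∀ᶠ n in (cofinite : Filter ℕ), k ≤ n := by
      rw [Nat.cofinite_eq_atTop]
      exact eventually_ge_atTop k
    exact hyperfilter_le_cofinite h1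
  -- distance of the points of the geodesics
  have hdk : ∀ n k, k ≤ n → d 1 (g n k) = k := by
    intro n k hk
    have h1 := hg n 0 k (Nat.zero_le _) (hk.trans (hinf n))
    rw [hg0] at h1
    simpa using h1
  have hlim : ∀ k : ℕ, ∃ x : H, ∀ᶠ n in (hyperfilter ℕ : Filter ℕ), k ≤ n ∧ g n k = x := by
    intro k
    have h1 : ∀ n, (if k ≤ n then g n k else 1) ∈ {a : H | d 1 a ≤ k} := by
      intro n
      by_cases hk : k ≤ n
      · rw [if_pos hk]
        exact (hdk n k hk).le
      · rw [if_neg hk]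
        show d 1 1 ≤ k
        rw [hd.self]
        exact Nat.zero_le _
    obtain ⟨x, _, hx⟩ := hyperfilter_const (hd.fin k) h1
    refine ⟨x, (hx.and (hge k)).mono fun n hn => ⟨hn.2, ?_⟩⟩
    have h2 := hn.1
    rw [if_pos hn.2] at h2
    exact h2
  choose ρ hρ using hlim
  refine ⟨ρ, ?_, ?_, ?_⟩
  · obtain ⟨n, _, hn⟩ := (hρ 0).exists
    rw [← hn, hg0]
  · intro i j hij
    obtain ⟨n, ⟨_, hn1⟩, ⟨hn2, hn3⟩⟩ := ((hρ i).and (hρ j)).exists
    rw [← hn1, ← hn3]
    exact hg n i j hij (hn2.trans (hinf n))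
  · intro i
    -- the index of the point near `p i`
    set J : ℕ → ℕ := fun n => if i ≤ n then ⌊gp d (p i) (p n) 1⌋₊ else 0 with hJ
    have hJfin : ∀ n, J n ∈ (Set.Iic (d 1 (p i)) : Set ℕ) := by
      intro n
      simp only [hJ, Set.mem_Iic]
      split_ifs
      · apply Nat.floor_le_of_le
        have h1 : (d 1 (p n) : ℝ) ≤ d 1 (p i) + d (p i) (p n) := by
          exact_mod_cast hd.tri 1 (p i) (p n)
        unfold gp
        linarith
      · exact Nat.zero_le _
    obtain ⟨j, _, hj⟩ := hyperfilter_const (Set.finite_Iic _) hJfin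
    refine ⟨j, ?_⟩
    obtain ⟨n, ⟨hn1, hn2⟩, hn3, hn4⟩ := ((hρ j).and (hj.and (hge i))).exists
    rw [← hn2]
    simp only [hJ] at hn3
    rw [if_pos hn4] at hn3
    have h0 := Broken_nonneg hd (p i) (p n) 1
    have h1 : (j : ℝ) ≤ gp d (p i) (p n) 1 := by
      rw [← hn3]
      exact Nat.floor_le h0
    have h2 : gp d (p i) (p n) 1 < j + 1 := by
      rw [← hn3]
      exact Nat.lt_floor_add_one _
    have h3 := h i n hn4
    have h4 := hd.hyp (p i) 1 (g n j) (p n)
    have h5 : (d 1 (g n j) : ℝ) = j := by rw [hdk n j hn1]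
    have h6 : (d (g n j) (p n) : ℝ) = d 1 (p n) - j := by
      have h7 : j ≤ d 1 (p n) := hn1.trans (hinf n)
      have h8 := hg n j (d 1 (p n)) h7 le_rfl
      rw [hg1] at h8
      rw [h8, Nat.cast_sub h7]
    have h9 : (d (p i) 1 : ℝ) = d 1 (p i) := by rw [hd.symm]
    have h10 : (d (p i) (g n j) : ℝ) = d (g n j) (p i) := by rw [hd.symm]
    rw [h5, h6, h9, h10] at h4
    unfold gp at h1 h2 h3
    rw [h9] at h3
    rcases max_cases ((d 1 (p i) : ℝ) + (d 1 (p n) - j)) ((j : ℝ) + d (p i) (p n)) with h11 | h11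
    · rw [h11.1] at h4
      linarith
    · rw [h11.1] at h4
      linarith

end Pool.Agent.HMB
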