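import Pool.Agent.HMB.Three
import Pool.Agent.HMB.Broken

set_option autoImplicit false

namespace Pool.Agent.HMB

open Pool.Agent.MHN

variable {H : Type*} [Group H] {δ : ℝ} {d : H → H → ℕ} {f : H}

private theorem Conn_left (hd : LMet H δ d) (x u v w : H) :
    gp d (x * u) (x * v) (x * w) = gp d u v w := by
  unfold gp
  rw [hd.left, hd.left, hd.left]

private theorem Conn_swap (hd : LMet H δ d) (a b x : H) : gp d a b x = gp d b a x := by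
  have h1 : (d a b : ℝ) = d b a := by rw [hd.symm]
  unfold gp
  rw [h1]
  ring

private theorem Conn_or (hd : LMet H δ d) {a b c : H} {C₀ : ℝ} (h : gp d a b 1 ≤ C₀) :
    gp d c a 1 ≤ C₀ + δ ∨ gp d c b 1 ≤ C₀ + δ := by
  have h1 := gp_min hd.toGMet hd.hyp a b c 1
  rw [Conn_swap hd a c] at h1
  rcases le_total (gp d c a 1) (gp d c b 1) with h2 | h2
  · left
    rw [min_eq_left h2] at h1
    linarith
  · right
    rw [min_eq_right h2] at h1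
    linarith

private theorem Conn_step (hd : LMet H δ d) (x u : H) : d x (x * u) = d 1 u := by
  have := hd.left x 1 u
  rwa [mul_one] at this

private theorem Conn_prop {A1 A2 A3 B1 B2 B3 : Prop} (a12 : A1 ∨ A2) (a13 : A1 ∨ A3)
    (a23 : A2 ∨ A3) (b12 : B1 ∨ B2) (b13 : B1 ∨ B3) (b23 : B2 ∨ B3) :
    (A1 ∧ B1) ∨ (A2 ∧ B2) ∨ (A3 ∧ B3) := by
  tauto

theorem conn (hd : LMet H δ d) (hf : ¬ IsOfFinOrder f)
    (hne : ∀ n : ℕ, ∃ z : H, ∀ i : ℤ, n ≤ d z (f ^ i)) :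
    ∃ (F : Finset H) (L D : ℕ), ∀ g h : H, L ≤ d 1 g → L ≤ d 1 h →
      ∃ a ∈ F, ∃ ρ : ℕ → H, ρ 0 = 1 ∧ (∀ i j, i ≤ j → d (ρ i) (ρ j) = j - i) ∧
        d (ρ (d 1 g)) g ≤ D ∧ ∃ j, d (ρ j) (g * a * h) ≤ D := by
  classical
  have hδ := hd.delta_nonneg
  obtain ⟨y, C₁, t1, t2⟩ := three hd hf hne
  obtain ⟨C₀, hC₀⟩ : ∃ C₀ : ℝ, C₀ = max C₁ 0 := ⟨_, rfl⟩
  have hC1 : C₁ ≤ C₀ := by rw [hC₀]; exact le_max_left _ _
  have hC0 : 0 ≤ C₀ := by rw [hC₀]; exact le_max_right _ _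
  obtain ⟨L, hL⟩ := exists_nat_gt (2 * (C₀ + δ) + 3 * δ + 1)
  obtain ⟨N, hN1, hN2⟩ := (pow_large hd hf (L + d 1 y⁻¹ + d 1 y)).exists
  have s1 : ∀ n m : ℤ, gp d (f ^ n) (y * f ^ m * y⁻¹) 1 ≤ C₀ := fun n m => (t1 n m).trans hC1
  have s2 : gp d (f ^ N) ((f ^ N)⁻¹) 1 ≤ C₀ := (t2 N N).trans hC1
  have s2' : gp d ((f ^ N)⁻¹) (f ^ N) 1 ≤ C₀ := by rw [Conn_swap hd]; exact s2
  have s3 : gp d (f ^ N) (y * f ^ N * y⁻¹) 1 ≤ C₀ := by
    have := s1 N N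
    rwa [zpow_natCast] at this
  have s4 : gp d ((f ^ N)⁻¹) (y * f ^ N * y⁻¹) 1 ≤ C₀ := by
    have := s1 (-(N : ℤ)) N
    rwa [zpow_neg, zpow_natCast] at this
  have s5 : gp d ((f ^ N)⁻¹) ((y * f ^ N * y⁻¹)⁻¹) 1 ≤ C₀ := by
    have := s1 (-(N : ℤ)) (-(N : ℤ))
    rw [zpow_neg, zpow_natCast] at this
    have e : (y * f ^ N * y⁻¹)⁻¹ = y * (f ^ N)⁻¹ * y⁻¹ := by group
    rwa [e]
  have s6 : gp d (f ^ N) ((y * f ^ N * y⁻¹)⁻¹) 1 ≤ C₀ := by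
    have := s1 (N : ℤ) (-(N : ℤ))
    rw [zpow_neg, zpow_natCast] at this
    have e : (y * f ^ N * y⁻¹)⁻¹ = y * (f ^ N)⁻¹ * y⁻¹ := by group
    rwa [e]
  have hL3 : L ≤ d 1 (y * f ^ N * y⁻¹) := by
    have e1 := hd.tri 1 y⁻¹ (f ^ N)
    have e2 := hd.tri y⁻¹ (y⁻¹ * (y * f ^ N * y⁻¹)) (f ^ N)
    have e3 := Conn_step hd y⁻¹ (y * f ^ N * y⁻¹)
    have e4 := Conn_step hd (y⁻¹ * (y * f ^ N * y⁻¹)) y
    have e5 : y⁻¹ * (y * f ^ N * y⁻¹) * y = f ^ N := by group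
    rw [e5] at e4
    omega
  obtain ⟨D', hD'⟩ : ∃ D' : ℝ, D' = max 0 (C₀ + δ + 2 * δ) + 2 * δ + 1 := ⟨_, rfl⟩
  have hD'0 : 0 ≤ D' := by
    rw [hD']
    have := le_max_left 0 (C₀ + δ + 2 * δ)
    linarith
  refine ⟨{f ^ N, (f ^ N)⁻¹, y * f ^ N * y⁻¹}, L, ⌈2 * D'⌉₊, fun g h hg hh => ?_⟩
  -- the connecting element
  obtain ⟨a, haF, ha1, ha2, haL⟩ : ∃ a ∈ ({f ^ N, (f ^ N)⁻¹, y * f ^ N * y⁻¹} : Finset H),
      gp d g⁻¹ a 1 ≤ C₀ + δ ∧ gp d a⁻¹ h 1 ≤ C₀ + δ ∧ L ≤ d 1 a := by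
    have g12 := Conn_or hd (c := g⁻¹) s2
    have g13 := Conn_or hd (c := g⁻¹) s3
    have g23 := Conn_or hd (c := g⁻¹) s4
    have h12 := Conn_or hd (c := h) s2
    have h13 := Conn_or hd (c := h) s5
    have h23 := Conn_or hd (c := h) s6
    rw [Conn_swap hd h, Conn_swap hd h] at h12 h13 h23
    have m1 : f ^ N ∈ ({f ^ N, (f ^ N)⁻¹, y * f ^ N * y⁻¹} : Finset H) := by simp
    have m2 : (f ^ N)⁻¹ ∈ ({f ^ N, (f ^ N)⁻¹, y * f ^ N * y⁻¹} : Finset H) := by simp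
    have m3 : y * f ^ N * y⁻¹ ∈ ({f ^ N, (f ^ N)⁻¹, y * f ^ N * y⁻¹} : Finset H) := by simp
    have l1 : L ≤ d 1 (f ^ N) := by omega
    have l2 : L ≤ d 1 (f ^ N)⁻¹ := by omega
    have key : (gp d g⁻¹ (f ^ N) 1 ≤ C₀ + δ ∧ gp d (f ^ N)⁻¹ h 1 ≤ C₀ + δ) ∨
        (gp d g⁻¹ (f ^ N)⁻¹ 1 ≤ C₀ + δ ∧ gp d (f ^ N) h 1 ≤ C₀ + δ) ∨
        (gp d g⁻¹ (y * f ^ N * y⁻¹) 1 ≤ C₀ + δ ∧ gp d (y * f ^ N * y⁻¹)⁻¹ h 1 ≤ C₀ + δ) :=
      Conn_prop g12 g13 g23 h12.symm h13 h23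
    rcases key with ⟨k1, k2⟩ | ⟨k1, k2⟩ | ⟨k1, k2⟩
    · exact ⟨_, m1, k1, k2, l1⟩
    · exact ⟨_, m2, k1, by rwa [inv_inv], l2⟩
    · exact ⟨_, m3, k1, k2, hL3⟩
  -- the tail
  obtain ⟨b, hb1, hb2, hbL⟩ : ∃ b : H, gp d h⁻¹ b 1 ≤ C₀ + δ ∧ gp d b⁻¹ b 1 ≤ C₀ + δ ∧
      L ≤ d 1 b := by
    rcases Conn_or hd (c := h⁻¹) s2 with h1 | h1
    · exact ⟨f ^ N, h1, by linarith, by omega⟩
    · exact ⟨(f ^ N)⁻¹, h1, by rw [inv_inv]; linarith, by omega⟩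
  -- the broken path
  obtain ⟨p, p0, p1, p2, p3⟩ : ∃ p : ℕ → H, p 0 = 1 ∧ p 1 = g ∧ p 2 = g * a ∧
      ∀ k, p (k + 3) = g * a * h * b ^ k :=
    ⟨fun n => if n = 0 then 1 else if n = 1 then g else if n = 2 then g * a else
      g * a * h * b ^ (n - 3), by simp, by simp, by simp, fun k => by simp⟩
  have h1 : ∀ i, gp d (p i) (p (i + 2)) (p (i + 1)) ≤ C₀ + δ := by
    intro i
    match i with
    | 0 =>
      rw [p0, p1, p2]
      have e := Conn_left hd g g⁻¹ a 1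
      rw [mul_inv_cancel, mul_one] at e
      rw [e]; exact ha1
    | 1 =>
      have e3 := p3 0
      rw [pow_zero, mul_one] at e3
      show gp d (p 1) (p (0 + 3)) (p 2) ≤ _
      rw [p1, e3, p2]
      have e := Conn_left hd (g * a) a⁻¹ h 1
      rw [mul_inv_cancel_right, mul_one] at e
      rw [e]; exact ha2
    | 2 =>
      have e3 := p3 0
      have e4 := p3 1
      rw [pow_zero, mul_one] at e3
      rw [pow_one] at e4
      show gp d (p 2) (p (1 + 3)) (p (0 + 3)) ≤ _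
      rw [p2, e4, e3]
      have e := Conn_left hd (g * a * h) h⁻¹ b 1
      rw [mul_inv_cancel_right, mul_one] at e
      rw [e]; exact hb1
    | (k + 3) =>
      show gp d (p (k + 3)) (p ((k + 2) + 3)) (p ((k + 1) + 3)) ≤ _
      rw [p3, p3, p3]
      have e := Conn_left hd (g * a * h * b ^ (k + 1)) b⁻¹ b 1
      have e1 : g * a * h * b ^ (k + 1) * b⁻¹ = g * a * h * b ^ k := by
        rw [pow_succ]; group
      have e2 : g * a * h * b ^ (k + 1) * b = g * a * h * b ^ (k + 2) := by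
        rw [pow_succ b (k + 1)]; group
      rw [e1, e2, mul_one] at e
      rw [e]; exact hb2
  have h2 : ∀ i, (L : ℝ) ≤ d (p i) (p (i + 1)) := by
    intro i
    have : L ≤ d (p i) (p (i + 1)) := by
      match i with
      | 0 => rw [p0, p1]; exact hg
      | 1 => rw [p1, p2, Conn_step hd]; exact haL
      | 2 =>
        have e3 := p3 0
        rw [pow_zero, mul_one] at e3
        show L ≤ d (p 2) (p (0 + 3))
        rw [p2, e3, Conn_step hd]; exact hh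
      | (k + 3) =>
        show L ≤ d (p (k + 3)) (p ((k + 1) + 3))
        rw [p3, p3, pow_succ, ← mul_assoc, Conn_step hd]; exact hbL
    exact_mod_cast this
  have hC : 0 ≤ C₀ + δ := by linarith
  have hbr := broken hd (p := p) (C := C₀ + δ) (L := L) (by linarith) h1 h2
  have hgr := broken_grow hd (p := p) (C := C₀ + δ) (L := L) hC (by linarith) (by linarith) h1 h2
  rw [p0] at hbr hgr
  obtain ⟨ρ, r0, r1, r2⟩ := exists_ray hd hgr hbr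
  rw [← hD'] at r2
  refine ⟨a, haF, ρ, r0, r1, ?_, ?_⟩
  · obtain ⟨j, hj⟩ := r2 1
    rw [p1] at hj
    have e1 : d 1 (ρ j) = j := by
      have := r1 0 j (Nat.zero_le _)
      rwa [r0, Nat.sub_zero] at this
    have e2 := hd.tri 1 (ρ j) g
    have e3 := hd.tri 1 g (ρ j)
    rw [hd.symm g (ρ j)] at e3
    rw [e1] at e2 e3
    have e2' : (d 1 g : ℝ) ≤ j + d (ρ j) g := by exact_mod_cast e2
    have e3' : (j : ℝ) ≤ d 1 g + d (ρ j) g := by exact_mod_cast e3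
    have e4 : (d (ρ (d 1 g)) (ρ j) : ℝ) ≤ D' := by
      rcases le_total (d 1 g) j with hle | hle
      · rw [r1 _ _ hle, Nat.cast_sub hle]; linarith
      · rw [hd.symm, r1 _ _ hle, Nat.cast_sub hle]; linarith
    have e5 : (d (ρ (d 1 g)) g : ℝ) ≤ d (ρ (d 1 g)) (ρ j) + d (ρ j) g := by
      exact_mod_cast hd.tri (ρ (d 1 g)) (ρ j) g
    have e6 : (d (ρ (d 1 g)) g : ℝ) ≤ ⌈2 * D'⌉₊ :=
      le_trans (by linarith) (Nat.le_ceil _)
    exact_mod_cast e6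
  · obtain ⟨j, hj⟩ := r2 3
    have e3 := p3 0
    rw [pow_zero, mul_one] at e3
    rw [show (3 : ℕ) = 0 + 3 from rfl, e3] at hj
    refine ⟨j, ?_⟩
    have e6 : (d (ρ j) (g * a * h) : ℝ) ≤ ⌈2 * D'⌉₊ :=
      le_trans (by linarith) (Nat.le_ceil _)
    exact_mod_cast e6

end Pool.Agent.HMB
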