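import Pool.Agent.MHN.Stmt

set_option autoImplicit false

/-!
# Boundary points of a hyperbolic normal subgroup that are Morse in the ambient group

Definitions for the statement.
-/

namespace Pool.Agent.HMB

open Pool.Agent.MHN

/-- `γ 0, ..., γ n`, `n = d(x, y)`, is a geodesic from `x` to `y` in `Cay(G, S)`. -/
def IsGeo {G : Type*} [Group G] (S : Finset G) (x y : G) (γ : ℕ → G) : Prop :=
  γ 0 = x ∧ γ (wdist S x y) = y ∧
    ∀ i j, i ≤ j → j ≤ wdist S x y → wdist S (γ i) (γ j) = j - i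

/-- The geodesic `γ` from `x` to `y` in `Cay(G, S)` is Morse with gauge `M`: for all `K ≥ 1`,
`C ≥ 0`, every `(K, C)`-quasi-geodesic with both endpoints on `γ` stays in the
`M K C`-neighbourhood of `γ`. -/
def IsMorseGeo {G : Type*} [Group G] (S : Finset G) (M : ℝ → ℝ → ℝ) (x y : G) (γ : ℕ → G) :
    Prop :=
  ∀ K C : ℝ, 1 ≤ K → 0 ≤ C → ∀ (T : ℝ) (c : ℝ → G), 0 ≤ T → IsQuasiGeodesic S K C T c →
    (∃ m ≤ wdist S x y, c 0 = γ m) → (∃ n ≤ wdist S x y, c T = γ n) →
      ∀ t ∈ Set.Icc 0 T, ∃ i ≤ wdist S x y, (wdist S (c t) (γ i) : ℝ) ≤ M K C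

/-- The geodesic rays of `H` issuing from `1`, in the word metric of `A`. -/
def Ray {H : Type*} [Group H] (A : Finset H) : Type _ :=
  {ρ : ℕ → H // ρ 0 = 1 ∧ ∀ i j, i ≤ j → wdist A (ρ i) (ρ j) = j - i}

/-- The topology of pointwise convergence on the set of geodesic rays (`H` is discrete). -/
instance {H : Type*} [Group H] (A : Finset H) : TopologicalSpace (Ray A) :=
  TopologicalSpace.induced Subtype.val (@Pi.topologicalSpace ℕ (fun _ => H) (fun _ => ⊥))

/-- Two geodesic rays are asymptotic if they stay at bounded distance. -/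
def Asym {H : Type*} [Group H] (A : Finset H) (ρ ρ' : Ray A) : Prop :=
  ∃ D : ℕ, ∀ i, wdist A (ρ.1 i) (ρ'.1 i) ≤ D

/-- The Gromov boundary `∂H`: geodesic rays from `1` up to bounded distance. -/
def Bdry {H : Type*} [Group H] (A : Finset H) : Type _ := Quot (Asym A)

/-- `∂H` carries the quotient topology. -/
instance {H : Type*} [Group H] (A : Finset H) : TopologicalSpace (Bdry A) :=
  inferInstanceAs (TopologicalSpace (Quot (Asym A)))

/-- The point `ξ` of `∂H` is Morse in `G`: `ξ` is represented by a geodesic ray `ρ` of `H` such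
that all geodesics of `Cay(G, S)` from `1` to the points `ρ 0, ρ 1, ρ 2, ...` are Morse with a
common gauge. -/
def IsMorsePoint {G : Type*} [Group G] (S : Finset G) {H : Subgroup G} (A : Finset H)
    (ξ : Bdry A) : Prop :=
  ∃ ρ : Ray A, Quot.mk (Asym A) ρ = ξ ∧ ∃ M : ℝ → ℝ → ℝ, ∀ (i : ℕ) (γ : ℕ → G),
    IsGeo S 1 (ρ.1 i : G) γ → IsMorseGeo S M 1 (ρ.1 i : G) γ

/-! ### internal definitions -/

/-- every `(K, C)`-quasi-geodesic from `x` to `y` is in the `M`-neighbourhood of every geodesic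
from `x` to `y` -/
def USeg {G : Type*} [Group G] (S : Finset G) (K C M : ℝ) (x y : G) : Prop :=
  ∀ (T : ℝ) (c : ℝ → G), 0 ≤ T → IsQuasiGeodesic S K C T c → c 0 = x → c T = y →
    ∀ γ : ℕ → G, IsGeo S x y γ → ∀ t ∈ Set.Icc 0 T, ∃ i ≤ wdist S x y,
      (wdist S (c t) (γ i) : ℝ) ≤ M

/-- new multiplicative constant after one surgery -/
def kk (K : ℝ) : ℝ := 2 * K + 1

/-- new additive constant after one surgery -/
def cc (K C : ℝ) : ℝ := K * C + C + 2

/-- displacement constant of the two-sided surgery -/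
def bb (K C R : ℝ) : ℝ :=
  kk K * (kk K * (2 * R + cc K C)) + cc K C + K * (K * (2 * R + C)) + C

end Pool.Agent.HMB
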