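import Pool.Agent.HMB.Defs

set_option autoImplicit false

/-!
# Elements and rays that are Morse with a given gauge: definitions
-/

namespace Pool.Agent.HMB

open Pool.Agent.MHN

/-- The element `g` of `G` is `M`-Morse: all geodesics of `Cay(G, S)` from `1` to `g` are Morse with
gauge `M`. -/
def IsMorseElt {G : Type*} [Group G] (S : Finset G) (M : ℝ → ℝ → ℝ) (g : G) : Prop :=
  ∀ γ : ℕ → G, IsGeo S 1 g γ → IsMorseGeo S M 1 g γ

/-- The geodesic ray `ρ` of `H` is `M`-Morse in `G`: the points `ρ 0, ρ 1, ρ 2, ...` are `M`-Morse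
elements of `G`. -/
def IsMorseRay {G : Type*} [Group G] (S : Finset G) (M : ℝ → ℝ → ℝ) {H : Subgroup G} {A : Finset H}
    (ρ : Ray A) : Prop :=
  ∀ i : ℕ, IsMorseElt S M (ρ.1 i : G)

end Pool.Agent.HMB
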