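import Pool.Agent.HMB.Defs

set_option autoImplicit false

/-!
# Sublinearly Morse boundary points: definitions
-/

namespace Pool.Agent.HMB

open Pool.Agent.MHN

/-- The point `ξ` of `∂H` is sublinearly Morse in `G`: it is represented by a geodesic ray `ρ` of `H`
such that for all `K ≥ 1`, `C ≥ 0` there is a sublinear function `κ` (`κ n / n → 0`) such that for
every `i` and every geodesic `γ` of `Cay(G, S)` from `1` to `ρ i`, each point `x` of a
`(K, C)`-quasi-geodesic with both endpoints on `γ` has distance at most `κ |x|` from `γ`. -/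
def IsSubMorsePoint {G : Type*} [Group G] (S : Finset G) {H : Subgroup G} (A : Finset H)
    (ξ : Bdry A) : Prop :=
  ∃ ρ : Ray A, Quot.mk (Asym A) ρ = ξ ∧ ∀ K C : ℝ, 1 ≤ K → 0 ≤ C → ∃ κ : ℕ → ℝ,
    Filter.Tendsto (fun n : ℕ => κ n / n) Filter.atTop (nhds 0) ∧
    ∀ (i : ℕ) (γ : ℕ → G), IsGeo S 1 (ρ.1 i : G) γ →
      ∀ (T : ℝ) (c : ℝ → G), 0 ≤ T → IsQuasiGeodesic S K C T c →
        (∃ m ≤ wdist S 1 (ρ.1 i : G), c 0 = γ m) → (∃ n ≤ wdist S 1 (ρ.1 i : G), c T = γ n) →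
          ∀ t ∈ Set.Icc 0 T, ∃ j ≤ wdist S 1 (ρ.1 i : G),
            (wdist S (c t) (γ j) : ℝ) ≤ κ (wlen S (c t))

/-- every `(K, C)`-quasi-geodesic `c` from `x` to `y` is near every geodesic from `x` to `y`, with
error `ε d(x, c t) + m` at the point `c t` -/
def VSeg {G : Type*} [Group G] (S : Finset G) (K C ε m : ℝ) (x y : G) : Prop :=
  ∀ (T : ℝ) (c : ℝ → G), 0 ≤ T → IsQuasiGeodesic S K C T c → c 0 = x → c T = y →
    ∀ γ : ℕ → G, IsGeo S x y γ → ∀ t ∈ Set.Icc 0 T, ∃ i ≤ wdist S x y,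
      (wdist S (c t) (γ i) : ℝ) ≤ ε * wdist S x (c t) + m

end Pool.Agent.HMB
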