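import Pool.Agent.MHN.Final

/-!
Module Elem: a group with an infinite cyclic subgroup `⟨f⟩` of finite index is word-hyperbolic.

`ElemA_tau` in `MHN/ElemA.lean` (private; copy it): `x = f ^ (a x) * τ x`, `τ x ∈ F` finite,
`τ (f^n x) = τ x`. So `a (f^n x) = n + a x`, and `|a (x s) - a x| ≤ L` for `s` a generator
(`x s = f^(a x) τ(x) s`, finitely many `τ(x) s`).
`d x (f^(a x)) ≤ D`. So it suffices to prove the four-point condition for `φ n = |f^n|`,
`d (f^m) (f^n) = φ (n - m)`. `φ (n + m) ≥ φ n + φ m - C` for `n m ≥ 0`: a geodesic from `1` to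
`f^(n+m)` has a point `x` with `|a x - n| ≤ L` (discrete intermediate value theorem), so `x` is
within `C/2` of `f^n`. With subadditivity: `|φ n - λ |n|| ≤ C` for `λ = lim φ n / n`
(`MHN/TL.lean` has the same kind of argument; `Subadditive.lim`), and the four-point condition for
`λ |m - n|` on `ℤ` is exact.
-/

set_option autoImplicit false

namespace Pool.Agent.HMB

open Pool.Agent.MHN

private theorem Elem_tau {G : Type*} [Group G] {h : G} (hi : (Subgroup.zpowers h).index ≠ 0) :
    ∃ (f : G → ℤ) (τ : G → G) (F : Finset G), (∀ x, x = h ^ (f x) * τ x) ∧ (∀ x, τ x ∈ F) ∧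
      ∀ (x : G) (n : ℤ), τ (h ^ n * x) = τ x := by
  classical
  let _ := Subgroup.fintypeOfIndexNeZero hi
  have hex : ∀ x : G, ∃ n : ℤ,
      x = h ^ n * (Quotient.out ((x⁻¹ : G) : G ⧸ Subgroup.zpowers h))⁻¹ := by
    intro x
    obtain ⟨k, hk⟩ := QuotientGroup.mk_out_eq_mul (Subgroup.zpowers h) x⁻¹
    obtain ⟨m, hm⟩ := Subgroup.mem_zpowers_iff.1 k.2
    refine ⟨m, ?_⟩
    rw [hk, ← hm]
    group
  choose f hf using hex
  refine ⟨f, fun x => (Quotient.out ((x⁻¹ : G) : G ⧸ Subgroup.zpowers h))⁻¹,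
    Finset.univ.image (fun q : G ⧸ Subgroup.zpowers h => (Quotient.out q)⁻¹), hf,
    fun x => Finset.mem_image.2 ⟨_, Finset.mem_univ _, rfl⟩, fun x n => ?_⟩
  have : (((h ^ n * x)⁻¹ : G) : G ⧸ Subgroup.zpowers h) = ((x⁻¹ : G) : G ⧸ Subgroup.zpowers h) := by
    rw [QuotientGroup.eq]
    refine Subgroup.mem_zpowers_iff.2 ⟨n, ?_⟩
    group
  simp only [this]

private theorem Elem_nat {G : Type*} [Group G] {S : Finset G} (hS : Gen S) (h : G) (k : ℕ) :
    wlen S (h ^ k) ≤ wlen S h * k := by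
  induction k with
  | zero => simp [wlen_one]
  | succ k ih =>
    rw [pow_succ, mul_add, mul_one]
    exact (wlen_mul hS _ _).trans (Nat.add_le_add_right ih _)

private theorem Elem_int {G : Type*} [Group G] {S : Finset G} (hS : Gen S) (h : G) (n : ℤ) :
    wlen S (h ^ n) ≤ wlen S h * n.natAbs := by
  rcases Int.eq_nat_or_neg n with ⟨k, hk | hk⟩
  · rw [hk, zpow_natCast, Int.natAbs_natCast]
    exact Elem_nat hS h k
  · rw [hk, zpow_neg, zpow_natCast, wlen_inv, Int.natAbs_neg, Int.natAbs_natCast]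
    exact Elem_nat hS h k

/-- the coordinate `a`: equivariance, Lipschitz, bounded distance to the axis -/
private theorem Elem_coord {G : Type*} [Group G] {S : Finset G} {f : G}
    (hf : ¬ IsOfFinOrder f) (hi : (Subgroup.zpowers f).index ≠ 0) :
    ∃ (a : G → ℤ) (L D : ℕ), (∀ (x : G) (n : ℤ), a (f ^ n * x) = n + a x) ∧
      (∀ x s : G, (s ∈ S ∨ s⁻¹ ∈ S) → |a (x * s) - a x| ≤ L) ∧
      ∀ x, wdist S x (f ^ a x) ≤ D := by
  classical
  obtain ⟨a, τ, F, h1, h2, h3⟩ := Elem_tau hi
  have hinj := injective_zpow_iff_not_isOfFinOrder.2 hf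
  have ha : ∀ (x : G) (n : ℤ), a (f ^ n * x) = n + a x := by
    intro x n
    apply hinj
    show f ^ a (f ^ n * x) = f ^ (n + a x)
    have e1 := h1 (f ^ n * x)
    rw [h3] at e1
    have e2 := h1 x
    have e3 : f ^ a (f ^ n * x) * τ x = f ^ (n + a x) * τ x := by
      rw [← e1, zpow_add, mul_assoc, ← e2]
    exact mul_right_cancel e3
  set T : Finset G := S ∪ S.image (fun s => s⁻¹) with hT
  set L : ℕ := (F ×ˢ T).sup (fun p => (a (p.1 * p.2)).natAbs) with hL
  have hmemT : ∀ s : G, (s ∈ S ∨ s⁻¹ ∈ S) → s ∈ T := by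
    intro s hs
    rw [hT, Finset.mem_union, Finset.mem_image]
    rcases hs with hs | hs
    · exact Or.inl hs
    · exact Or.inr ⟨s⁻¹, hs, inv_inv s⟩
  refine ⟨a, L, F.sup (fun t => wlen S t), ha, fun x s hs => ?_, fun x => ?_⟩
  · have e : a (x * s) = a x + a (τ x * s) := by
      conv_lhs => rw [h1 x, mul_assoc]
      exact ha _ _
    rw [e, add_sub_cancel_left]
    have := Finset.le_sup (f := fun p : G × G => (a (p.1 * p.2)).natAbs)
      (Finset.mk_mem_product (h2 x) (hmemT s hs))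
    rw [← hL] at this
    simp only at this
    rw [Int.abs_eq_natAbs]
    exact_mod_cast this
  · have e : wdist S x (f ^ a x) = wlen S (τ x) := by
      unfold wdist
      rw [← wlen_inv]
      congr 1
      have := h1 x
      rw [mul_inv_rev, inv_inv, inv_mul_eq_iff_eq_mul]
      exact this
    rw [e]
    exact Finset.le_sup (f := fun t => wlen S t) (h2 x)

private theorem Elem_dist {G : Type*} [Group G] (S : Finset G) (f : G) (m n : ℤ) :
    wdist S (f ^ m) (f ^ n) = wlen S (f ^ (n - m)) := by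
  unfold wdist
  congr 1
  rw [← zpow_neg, ← zpow_add]
  congr 1
  ring

/-- superadditivity up to a constant -/
private theorem Elem_super {G : Type*} [Group G] {S : Finset G} (hS : Gen S) {f : G}
    {a : G → ℤ} {L D : ℕ} (h1 : ∀ (x : G) (n : ℤ), a (f ^ n * x) = n + a x)
    (h2 : ∀ x s : G, (s ∈ S ∨ s⁻¹ ∈ S) → |a (x * s) - a x| ≤ L)
    (h3 : ∀ x, wdist S x (f ^ a x) ≤ D) :
    ∃ E : ℕ, ∀ n m : ℕ, wlen S (f ^ n) + wlen S (f ^ m) ≤ wlen S (f ^ (n + m)) + E := by
  refine ⟨2 * (D + wlen S f * (L + (a 1).natAbs)), fun n m => ?_⟩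
  obtain ⟨c, c0, cN, cg⟩ := (gmet hS).geod 1 (f ^ (n + m))
  set N := wdist S 1 (f ^ (n + m)) with hN
  have hNw : N = wlen S (f ^ (n + m)) := wdist_one S _
  have haN : a (c N) = (n : ℤ) + m + a 1 := by
    have := h1 1 ((n : ℤ) + m)
    rw [mul_one] at this
    rw [cN, ← this]
    congr 1
    rw [← Nat.cast_add, zpow_natCast]
  have hex : ∃ i, i ≤ N ∧ (n : ℤ) + a 1 ≤ a (c i) := ⟨N, le_rfl, by rw [haN]; omega⟩
  classical
  obtain ⟨hi1, hi2⟩ := Nat.find_spec hex
  have hi3 : ∀ j, j < Nat.find hex → ¬ (j ≤ N ∧ (n : ℤ) + a 1 ≤ a (c j)) :=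
    fun j hj => Nat.find_min hex hj
  set i := Nat.find hex with hidef
  have hstep : a (c i) ≤ (n : ℤ) + a 1 + L := by
    rcases Nat.eq_zero_or_pos i with h0 | h0
    · rw [h0, c0]
      have : (0 : ℤ) ≤ n := Int.natCast_nonneg n
      have : (0 : ℤ) ≤ L := Int.natCast_nonneg L
      linarith
    · obtain ⟨j, hj⟩ : ∃ j, i = j + 1 := ⟨i - 1, by omega⟩
      have hj1 := hi3 j (by omega)
      have hj2 : a (c j) < (n : ℤ) + a 1 := by
        by_contra hcon
        exact hj1 ⟨by omega, not_lt.1 hcon⟩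
      have hd : wdist S (c j) (c (j + 1)) = 1 := by
        rw [cg j (j + 1) (by omega) (by omega)]
        omega
      have hs : wlen S ((c j)⁻¹ * c (j + 1)) ≤ 1 := le_of_eq hd
      have hle : |a (c (j + 1)) - a (c j)| ≤ L := by
        rcases wlen_le_one hS hs with h | h
        · have : c (j + 1) = c j := by
            rw [inv_mul_eq_one] at h
            exact h.symm
          rw [this, sub_self, abs_zero]
          exact Int.natCast_nonneg L
        · have := h2 (c j) _ h
          rwa [mul_inv_cancel_left] at this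
      have := (abs_le.1 hle).2
      rw [hj]
      linarith
  -- the distance from `c i` to `f ^ n`
  have hE : wdist S (c i) (f ^ n) ≤ D + wlen S f * (L + (a 1).natAbs) := by
    have e1 := wdist_tri hS (c i) (f ^ a (c i)) (f ^ (n : ℤ))
    rw [Elem_dist, zpow_natCast] at e1
    have e2 := h3 (c i)
    have e3 := Elem_int hS f ((n : ℤ) - a (c i))
    have e4 : ((n : ℤ) - a (c i)).natAbs ≤ L + (a 1).natAbs := by omega
    have e5 := Nat.mul_le_mul_left (wlen S f) e4
    omega
  have hleft : wlen S (f ^ n) ≤ i + (D + wlen S f * (L + (a 1).natAbs)) := by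
    have e1 := wdist_tri hS 1 (c i) (f ^ n)
    rw [wdist_one] at e1
    have e2 := cg 0 i (Nat.zero_le _) hi1
    rw [c0] at e2
    omega
  have hright : wlen S (f ^ m) ≤ (N - i) + (D + wlen S f * (L + (a 1).natAbs)) := by
    have e1 := wdist_tri hS (f ^ n) (c i) (f ^ (n + m))
    have e2 := cg i N hi1 le_rfl
    rw [cN] at e2
    have e3 : wdist S (f ^ n) (f ^ (n + m)) = wlen S (f ^ m) := by
      unfold wdist
      rw [pow_add, inv_mul_cancel_left]
    rw [wdist_comm S (f ^ n) (c i)] at e1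
    omega
  rw [← hNw]
  omega

/-- the word length of `f ^ n` is `λ n` up to a bounded error -/
private theorem Elem_lin {u : ℕ → ℝ} {C : ℝ} (hC : 0 ≤ C) (u0 : u 0 = 0) (hu : ∀ n, 0 ≤ u n)
    (h1 : ∀ m n, u (m + n) ≤ u m + u n) (h2 : ∀ m n, u m + u n ≤ u (m + n) + C) :
    ∃ l : ℝ, 0 ≤ l ∧ ∀ n : ℕ, l * n ≤ u n ∧ u n ≤ l * n + C := by
  have hs : Subadditive u := h1
  have hb : BddBelow (Set.range fun n : ℕ => u n / n) := by
    refine ⟨0, ?_⟩
    rintro _ ⟨n, rfl⟩
    exact div_nonneg (hu n) (Nat.cast_nonneg n)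
  have ht := hs.tendsto_lim hb
  have hlin : ∀ n : ℕ, u n ≤ n * u 1 := by
    intro n
    induction n with
    | zero => simp [u0]
    | succ n ih =>
      have := h1 n 1
      push_cast
      linarith
  set v : ℕ → ℝ := fun n => C - u n with hv
  have hs' : Subadditive v := by
    intro m n
    simp only [hv]
    have := h2 m n
    linarith
  have hb' : BddBelow (Set.range fun n : ℕ => v n / n) := by
    refine ⟨-u 1, ?_⟩
    rintro _ ⟨n, rfl⟩
    rcases Nat.eq_zero_or_pos n with h0 | h0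
    · subst h0
      simp [hu 1]
    · have hn : (0 : ℝ) < n := Nat.cast_pos.2 h0
      show -u 1 ≤ v n / n
      rw [le_div_iff₀ hn]
      simp only [hv]
      have := hlin n
      linarith
  have ht' := hs'.tendsto_lim hb'
  have hlim : hs'.lim = - hs.lim := by
    have h3 : Filter.Tendsto (fun n : ℕ => v n / n) Filter.atTop (nhds (0 - hs.lim)) := by
      have h4 : Filter.Tendsto (fun n : ℕ => C / (n : ℝ)) Filter.atTop (nhds 0) :=
        tendsto_const_div_atTop_nhds_zero_nat C
      refine (h4.sub ht).congr (fun n => ?_)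
      simp only [hv]
      rw [sub_div]
    rw [zero_sub] at h3
    exact tendsto_nhds_unique ht' h3
  refine ⟨hs.lim, ?_, fun n => ?_⟩
  · exact ge_of_tendsto' ht (fun n => div_nonneg (hu n) (Nat.cast_nonneg n))
  · rcases Nat.eq_zero_or_pos n with h0 | h0
    · subst h0
      simp [u0, hC]
    · have hn : (0 : ℝ) < n := Nat.cast_pos.2 h0
      have a1 := hs.lim_le_div hb h0.ne'
      have a2 := hs'.lim_le_div hb' h0.ne'
      rw [hlim] at a2
      rw [le_div_iff₀ hn] at a1 a2
      simp only [hv] at a2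
      constructor
      · exact a1
      · linarith

private theorem Elem_four (i j k l : ℝ) :
    |k - i| + |l - j| ≤ max (|j - i| + |l - k|) (|k - j| + |l - i|) := by
  rcases abs_cases (k - i) with h1 | h1 <;> rcases abs_cases (l - j) with h2 | h2 <;>
  rcases abs_cases (j - i) with h3 | h3 <;> rcases abs_cases (l - k) with h4 | h4 <;>
  rcases abs_cases (k - j) with h5 | h5 <;> rcases abs_cases (l - i) with h6 | h6 <;>
  rw [h1.1, h2.1, h3.1, h4.1, h5.1, h6.1, le_max_iff] <;>
  first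
    | (left; linarith)
    | (right; linarith)

theorem hyp_of_index {G : Type*} [Group G] {S : Finset G} (hS : Gen S) {f : G}
    (hf : ¬ IsOfFinOrder f) (hi : (Subgroup.zpowers f).index ≠ 0) : IsHyperbolicGroup G := by
  obtain ⟨a, L, D, h1, h2, h3⟩ := Elem_coord (S := S) hf hi
  obtain ⟨E, hE⟩ := Elem_super hS h1 h2 h3
  obtain ⟨l, l0, hl⟩ := Elem_lin (u := fun n : ℕ => (wlen S (f ^ n) : ℝ)) (C := (E : ℝ))
    (Nat.cast_nonneg E) (by simp [wlen_one]) (fun n => Nat.cast_nonneg _)
    (fun m n => by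
      have := wlen_mul hS (f ^ m) (f ^ n)
      rw [← pow_add] at this
      show (wlen S (f ^ (m + n)) : ℝ) ≤ wlen S (f ^ m) + wlen S (f ^ n)
      exact_mod_cast this)
    (fun m n => by
      have := hE m n
      show (wlen S (f ^ m) : ℝ) + wlen S (f ^ n) ≤ wlen S (f ^ (m + n)) + E
      exact_mod_cast this)
  -- the integer powers
  have hz : ∀ n : ℤ, l * |(n : ℝ)| ≤ wlen S (f ^ n) ∧ (wlen S (f ^ n) : ℝ) ≤ l * |(n : ℝ)| + E := by
    intro n
    rcases Int.eq_nat_or_neg n with ⟨k, hk | hk⟩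
    · rw [hk, zpow_natCast, Int.cast_natCast, Nat.abs_cast]
      exact hl k
    · rw [hk, zpow_neg, zpow_natCast, wlen_inv, Int.cast_neg, abs_neg, Int.cast_natCast,
        Nat.abs_cast]
      exact hl k
  have hd : ∀ x y : G, l * |(a y : ℝ) - a x| ≤ wdist S x y + 2 * D ∧
      (wdist S x y : ℝ) ≤ l * |(a y : ℝ) - a x| + E + 2 * D := by
    intro x y
    obtain ⟨z1, z2⟩ := hz (a y - a x)
    rw [← Elem_dist] at z1 z2
    push_cast at z1 z2
    have e1 : (wdist S (f ^ a x) (f ^ a y) : ℝ) ≤ wdist S x y + 2 * D := by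
      have t1 := wdist_tri hS (f ^ a x) x (f ^ a y)
      have t2 := wdist_tri hS x y (f ^ a y)
      have t3 := h3 x
      have t4 := h3 y
      rw [wdist_comm S (f ^ a x) x] at t1
      have : wdist S (f ^ a x) (f ^ a y) ≤ wdist S x y + 2 * D := by omega
      exact_mod_cast this
    have e2 : (wdist S x y : ℝ) ≤ wdist S (f ^ a x) (f ^ a y) + 2 * D := by
      have t1 := wdist_tri hS x (f ^ a x) y
      have t2 := wdist_tri hS (f ^ a x) (f ^ a y) y
      have t3 := h3 x
      have t4 := h3 y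
      rw [wdist_comm S (f ^ a y) y] at t2
      have : wdist S x y ≤ wdist S (f ^ a x) (f ^ a y) + 2 * D := by omega
      exact_mod_cast this
    constructor <;> linarith
  refine ⟨S, hS, E + 4 * D, fun x y z w => ?_⟩
  have q := Elem_four (a x) (a y) (a z) (a w)
  have q1 := mul_le_mul_of_nonneg_left q l0
  rw [mul_max_of_nonneg _ _ l0, mul_add, mul_add, mul_add] at q1
  have dxz := (hd x z).2
  have dyw := (hd y w).2
  have dxy := (hd x y).1
  have dzw := (hd z w).1
  have dyz := (hd y z).1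
  have dxw := (hd x w).1
  have m1 : (wdist S x y : ℝ) + wdist S z w ≤
    max ((wdist S x y : ℝ) + wdist S z w) ((wdist S y z : ℝ) + wdist S x w) := le_max_left _ _
  have m2 : (wdist S y z : ℝ) + wdist S x w ≤
    max ((wdist S x y : ℝ) + wdist S z w) ((wdist S y z : ℝ) + wdist S x w) := le_max_right _ _
  rcases le_max_iff.1 q1 with q2 | q2
  · linarith
  · linarith

end Pool.Agent.HMB
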