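import Pool.Agent.MHN.Word

/-!
Module Four: two purely metric facts.

`four_of_star`: let `γ` be a geodesic from `x` to `z`, `p = γ i` a point of it nearest to `y`,
`q = γ j` nearest to `w`. `hs` at `p`, `q` gives `d x p + d p y ≤ d x y + E`,
`d z p + d p y ≤ d z y + E` etc. (`hs` is applied to `γ` and to the same minimiser; it gives both
inequalities). `d x z + d y w ≤ n + d y p + |i - j| + d q w`.
If `i ≤ j`: `d x w + d y z ≥ j + d q w - E + (n - i) + d p y - E`. If `j ≤ i`: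
`d x y + d z w ≥ i + d p y - E + (n - j) + d q w - E`. So `2 δ = 2 E`.

`hyp_of_net`: for `(x, z)` choose `h₁ ∈ Y` by `hb`, then `h₂ ∈ Y` by `ha` for `(h₁, x)`; for `(y, w)`
choose `h₃`, then `h₄` for `(h₃, y)`.
`d x z ≤ d h₁ h₂ - d x h₂ - d z h₁ + E₁ + E₂`, `d y w ≤ d h₃ h₄ - d y h₄ - d w h₃ + E₁ + E₂`,
`d h₁ h₂ + d h₃ h₄ ≤ max (d h₁ h₄ + d h₂ h₃) (d h₁ h₃ + d h₂ h₄) + 2 δ` and the triangle inequality
(`d h₁ h₄ ≤ d h₁ z + d z y + d y h₄`, ...). New constant `δ + E₁ + E₂`.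
-/

set_option autoImplicit false

namespace Pool.Agent.HMB

open Pool.Agent.MHN

variable {X : Type*} {d : X → X → ℕ}

theorem four_of_star (hg : GMet X d) (Y : Set X) (E : ℝ)
    (hs : ∀ x ∈ Y, ∀ z ∈ Y, ∀ y ∈ Y, ∀ γ : ℕ → X, γ 0 = x → γ (d x z) = z →
      (∀ i j, i ≤ j → j ≤ d x z → d (γ i) (γ j) = j - i) →
      ∀ i ≤ d x z, (∀ j ≤ d x z, d (γ i) y ≤ d (γ j) y) →
        (d x (γ i) : ℝ) + d (γ i) y ≤ d x y + E ∧ (d z (γ i) : ℝ) + d (γ i) y ≤ d z y + E) :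
    ∀ x ∈ Y, ∀ y ∈ Y, ∀ z ∈ Y, ∀ w ∈ Y,
      (d x z : ℝ) + d y w ≤ max ((d x y : ℝ) + d z w) ((d y z : ℝ) + d x w) + 2 * E := by
  intro x hx y hy z hz w hw
  obtain ⟨γ, g0, gn, gg⟩ := hg.geod x z
  have key : ∀ u : X, ∃ i, i ≤ d x z ∧ ∀ j ≤ d x z, d (γ i) u ≤ d (γ j) u := by
    intro u
    obtain ⟨i, hi, hmin⟩ := Finset.exists_min_image (Finset.range (d x z + 1))
      (fun i => d (γ i) u) ⟨0, by simp⟩
    refine ⟨i, ?_, ?_⟩
    · have := Finset.mem_range.1 hi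
      omega
    · intro j hj
      exact hmin j (Finset.mem_range.2 (by omega))
  obtain ⟨i, hi, himin⟩ := key y
  obtain ⟨j, hj, hjmin⟩ := key w
  obtain ⟨a1, a2⟩ := hs x hx z hz y hy γ g0 gn gg i hi himin
  obtain ⟨b1, b2⟩ := hs x hx z hz w hw γ g0 gn gg j hj hjmin
  have xi : d x (γ i) = i := by
    have := gg 0 i (Nat.zero_le i) hi
    rwa [g0, Nat.sub_zero] at this
  have xj : d x (γ j) = j := by
    have := gg 0 j (Nat.zero_le j) hj
    rwa [g0, Nat.sub_zero] at this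
  have zi : d z (γ i) + i = d x z := by
    have := gg i (d x z) hi le_rfl
    rw [gn] at this
    rw [hg.symm z (γ i)]
    omega
  have zj : d z (γ j) + j = d x z := by
    have := gg j (d x z) hj le_rfl
    rw [gn] at this
    rw [hg.symm z (γ j)]
    omega
  have zi' : (d z (γ i) : ℝ) + i = d x z := by exact_mod_cast zi
  have zj' : (d z (γ j) : ℝ) + j = d x z := by exact_mod_cast zj
  have xi' : (d x (γ i) : ℝ) = i := by exact_mod_cast xi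
  have xj' : (d x (γ j) : ℝ) = j := by exact_mod_cast xj
  have t1 : (d y w : ℝ) ≤ d (γ i) y + d (γ i) (γ j) + d (γ j) w := by
    have h1 := hg.tri y (γ i) w
    have h2 := hg.tri (γ i) (γ j) w
    rw [hg.symm y (γ i)] at h1
    have h3 : d y w ≤ d (γ i) y + d (γ i) (γ j) + d (γ j) w := by omega
    exact_mod_cast h3
  have sy : (d z y : ℝ) = d y z := by rw [hg.symm]
  rcases le_total i j with hij | hij
  · have e : d (γ i) (γ j) + i = j := by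
      have := gg i j hij hj
      omega
    have e' : (d (γ i) (γ j) : ℝ) + i = j := by exact_mod_cast e
    have m := le_max_right ((d x y : ℝ) + d z w) ((d y z : ℝ) + d x w)
    linarith
  · have e : d (γ i) (γ j) + j = i := by
      have := gg j i hij hi
      rw [hg.symm]
      omega
    have e' : (d (γ i) (γ j) : ℝ) + j = i := by exact_mod_cast e
    have m := le_max_left ((d x y : ℝ) + d z w) ((d y z : ℝ) + d x w)
    linarith

theorem hyp_of_net (hg : GMet X d) (Y : Set X) (δ E₁ E₂ : ℝ)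
    (hY : ∀ x ∈ Y, ∀ y ∈ Y, ∀ z ∈ Y, ∀ w ∈ Y,
      (d x z : ℝ) + d y w ≤ max ((d x y : ℝ) + d z w) ((d y z : ℝ) + d x w) + 2 * δ)
    (ha : ∀ h₁ ∈ Y, ∀ x, ∃ h₂ ∈ Y, (d h₁ x : ℝ) + d x h₂ ≤ d h₁ h₂ + E₁)
    (hb : ∀ x x', ∃ h₁ ∈ Y, (d x x' : ℝ) + d x' h₁ ≤ d x h₁ + E₂) :
    Hyp (δ + E₁ + E₂) d := by
  intro x y z w
  obtain ⟨h₁, m₁, c₁⟩ := hb x z
  obtain ⟨h₂, m₂, c₂⟩ := ha h₁ m₁ x
  obtain ⟨h₃, m₃, c₃⟩ := hb y w
  obtain ⟨h₄, m₄, c₄⟩ := ha h₃ m₃ y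
  have k := hY h₂ m₂ h₄ m₄ h₁ m₁ h₃ m₃
  have tri : ∀ a b c e : X, (d a e : ℝ) ≤ d a b + d b c + d c e := by
    intro a b c e
    have h1 := hg.tri a b e
    have h2 := hg.tri b c e
    have h3 : d a e ≤ d a b + d b c + d c e := by omega
    exact_mod_cast h3
  have sy : ∀ a b : X, (d a b : ℝ) = d b a := by
    intro a b
    rw [hg.symm]
  have t1 := tri h₂ x y h₄
  have t2 := tri h₁ z w h₃
  have t3 := tri h₄ y z h₁
  have t4 := tri h₂ x w h₃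
  rw [sy h₁ x, sy h₁ h₂] at c₂
  rw [sy h₃ y, sy h₃ h₄] at c₄
  rw [sy h₂ x] at t1 t4
  rw [sy h₁ z] at t2
  rw [sy h₄ y] at t3
  rcases max_cases ((d h₂ h₄ : ℝ) + d h₁ h₃) ((d h₄ h₁ : ℝ) + d h₂ h₃) with ⟨e, _⟩ | ⟨e, _⟩
  · rw [e] at k
    have m := le_max_left ((d x y : ℝ) + d z w) ((d y z : ℝ) + d x w)
    linarith
  · rw [e] at k
    have m := le_max_right ((d x y : ℝ) + d z w) ((d y z : ℝ) + d x w)
    linarith

end Pool.Agent.HMB
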