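import Pool.Agent.MHN.Word

/-!
Module FourS: `Four` with errors depending on the size. See the proof of `four_of_star` in `Four`.

`four_of_star_S`: nearest points `γ i` to `y`, `γ j` to `w`; errors `η D + B`.
If `i ≤ j`: `d x w ≥ j + d q w - (η D + B)`, `d z y ≥ (n - i) + d p y - (η D + B)`.

`net_S`: fix `ε > 0`. Let `x y z w` have distance `≤ D` from `o`. `hb` gives `h₁` for `(x, z)`, `h₃`
for `(y, w)`, at distance `≤ κ (D + 1)` from `o`. `ha` for `(h₁, x)` with `D₁ = ⌈κ (D + 1)⌉₊ + D`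
gives `h₂`, for `(h₃, y)` gives `h₄`; these are at distance `≤ D₁ + κ (D₁ + 1)` from `o`. `hY` for
`h₁ h₃ h₂ h₄`. All errors are `≤ (small) * (D + 1) + const`: apply `ha, hb, hY` with `ε` divided by a
large constant depending only on `κ`.
-/

set_option autoImplicit false

namespace Pool.Agent.HMB

open Pool.Agent.MHN

variable {X : Type*} {d : X → X → ℕ}

theorem four_of_star_S (hg : GMet X d) (Y : Set X) {η B : ℝ} (hη : 0 ≤ η)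
    (hs : ∀ x ∈ Y, ∀ z ∈ Y, ∀ y ∈ Y, ∀ γ : ℕ → X, γ 0 = x → γ (d x z) = z →
      (∀ i j, i ≤ j → j ≤ d x z → d (γ i) (γ j) = j - i) →
      ∀ i ≤ d x z, (∀ j ≤ d x z, d (γ i) y ≤ d (γ j) y) →
        (d x (γ i) : ℝ) + d (γ i) y ≤ d x y + (η * d x y + B) ∧
        (d z (γ i) : ℝ) + d (γ i) y ≤ d z y + (η * d z y + B)) :
    ∀ x ∈ Y, ∀ y ∈ Y, ∀ z ∈ Y, ∀ w ∈ Y, ∀ D : ℕ, d x y ≤ D → d x w ≤ D → d y z ≤ D → d z w ≤ D →
      (d x z : ℝ) + d y w ≤ max ((d x y : ℝ) + d z w) ((d y z : ℝ) + d x w)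
        + 2 * (η * D + B) := by
  intro x hx y hy z hz w hw D hxy hxw hyz hzw
  obtain ⟨γ, g0, gn, gg⟩ := hg.geod x z
  have key : ∀ u : X, ∃ i, i ≤ d x z ∧ ∀ j ≤ d x z, d (γ i) u ≤ d (γ j) u := by
    intro u
    obtain ⟨i, hi, hmin⟩ := Finset.exists_min_image (Finset.range (d x z + 1))
      (fun i => d (γ i) u) ⟨0, by simp⟩
    refine ⟨i, ?_, ?_⟩
    · have := Finset.mem_range.1 hi
      omega
    · intro j hj
      exact hmin j (Finset.mem_range.2 (by omega))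
  obtain ⟨i, hi, himin⟩ := key y
  obtain ⟨j, hj, hjmin⟩ := key w
  obtain ⟨a1, a2⟩ := hs x hx z hz y hy γ g0 gn gg i hi himin
  obtain ⟨b1, b2⟩ := hs x hx z hz w hw γ g0 gn gg j hj hjmin
  have xi : d x (γ i) = i := by
    have := gg 0 i (Nat.zero_le i) hi
    rwa [g0, Nat.sub_zero] at this
  have xj : d x (γ j) = j := by
    have := gg 0 j (Nat.zero_le j) hj
    rwa [g0, Nat.sub_zero] at this
  have zi : d z (γ i) + i = d x z := by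
    have := gg i (d x z) hi le_rfl
    rw [gn] at this
    rw [hg.symm z (γ i)]
    omega
  have zj : d z (γ j) + j = d x z := by
    have := gg j (d x z) hj le_rfl
    rw [gn] at this
    rw [hg.symm z (γ j)]
    omega
  have zi' : (d z (γ i) : ℝ) + i = d x z := by exact_mod_cast zi
  have zj' : (d z (γ j) : ℝ) + j = d x z := by exact_mod_cast zj
  have xi' : (d x (γ i) : ℝ) = i := by exact_mod_cast xi
  have xj' : (d x (γ j) : ℝ) = j := by exact_mod_cast xj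
  have t1 : (d y w : ℝ) ≤ d (γ i) y + d (γ i) (γ j) + d (γ j) w := by
    have h1 := hg.tri y (γ i) w
    have h2 := hg.tri (γ i) (γ j) w
    rw [hg.symm y (γ i)] at h1
    have h3 : d y w ≤ d (γ i) y + d (γ i) (γ j) + d (γ j) w := by omega
    exact_mod_cast h3
  have sy : (d z y : ℝ) = d y z := by rw [hg.symm]
  have exy : η * (d x y : ℝ) ≤ η * D := mul_le_mul_of_nonneg_left (by exact_mod_cast hxy) hη
  have exw : η * (d x w : ℝ) ≤ η * D := mul_le_mul_of_nonneg_left (by exact_mod_cast hxw) hη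
  have eyz : η * (d y z : ℝ) ≤ η * D := mul_le_mul_of_nonneg_left (by exact_mod_cast hyz) hη
  have ezw : η * (d z w : ℝ) ≤ η * D := mul_le_mul_of_nonneg_left (by exact_mod_cast hzw) hη
  rw [sy] at a2
  rcases le_total i j with hij | hij
  · have e : d (γ i) (γ j) + i = j := by
      have := gg i j hij hj
      omega
    have e' : (d (γ i) (γ j) : ℝ) + i = j := by exact_mod_cast e
    have m := le_max_right ((d x y : ℝ) + d z w) ((d y z : ℝ) + d x w)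
    linarith
  · have e : d (γ i) (γ j) + j = i := by
      have := gg j i hij hi
      rw [hg.symm]
      omega
    have e' : (d (γ i) (γ j) : ℝ) + j = i := by exact_mod_cast e
    have m := le_max_left ((d x y : ℝ) + d z w) ((d y z : ℝ) + d x w)
    linarith

theorem net_S (hg : GMet X d) (o : X) (Y : Set X) (κ : ℝ) (hκ : 0 ≤ κ)
    (hY : ∀ ε : ℝ, 0 < ε → ∃ E : ℝ, ∀ x ∈ Y, ∀ y ∈ Y, ∀ z ∈ Y, ∀ w ∈ Y, ∀ D : ℕ,
      d x y ≤ D → d x w ≤ D → d y z ≤ D → d z w ≤ D →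
      (d x z : ℝ) + d y w ≤ max ((d x y : ℝ) + d z w) ((d y z : ℝ) + d x w) + (ε * D + E))
    (ha : ∀ ε : ℝ, 0 < ε → ∃ E : ℝ, ∀ h₁ ∈ Y, ∀ (x : X) (D : ℕ), d h₁ x ≤ D →
      ∃ h₂ ∈ Y, (d h₁ h₂ : ℝ) ≤ κ * (D + 1) ∧
        (d h₁ x : ℝ) + d x h₂ ≤ d h₁ h₂ + (ε * (D + 1) + E))
    (hb : ∀ ε : ℝ, 0 < ε → ∃ E : ℝ, ∀ (x x' : X) (D : ℕ), d o x ≤ D → d o x' ≤ D →
      ∃ h₁ ∈ Y, (d o h₁ : ℝ) ≤ κ * (D + 1) ∧
        (d x x' : ℝ) + d x' h₁ ≤ d x h₁ + (ε * (D + 1) + E)) :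
    ∀ ε : ℝ, 0 < ε → ∃ E : ℝ, ∀ (x y z w : X) (D : ℕ), d o x ≤ D → d o y ≤ D → d o z ≤ D →
      d o w ≤ D →
      (d x z : ℝ) + d y w ≤ max ((d x y : ℝ) + d z w) ((d y z : ℝ) + d x w) + (ε * D + E) := by
  intro ε hε
  have hc : 0 < 2 + 2 * (κ + 2) + 2 * ((κ + 1) * (κ + 2)) := by positivity
  obtain ⟨δ, hδ, hδc⟩ : ∃ δ : ℝ, 0 < δ ∧
      δ * (2 + 2 * (κ + 2) + 2 * ((κ + 1) * (κ + 2))) = ε :=
    ⟨ε / (2 + 2 * (κ + 2) + 2 * ((κ + 1) * (κ + 2))), by positivity, by field_simp⟩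
  obtain ⟨EY, HY⟩ := hY δ hδ
  obtain ⟨Ea, Ha⟩ := ha δ hδ
  obtain ⟨Eb, Hb⟩ := hb δ hδ
  refine ⟨ε + 2 * Eb + 2 * Ea + EY, ?_⟩
  intro x y z w D hx hy hz hw
  obtain ⟨h₁, m₁, r₁, c₁⟩ := Hb x z D hx hz
  obtain ⟨h₃, m₃, r₃, c₃⟩ := Hb y w D hy hw
  have hD0 : (0 : ℝ) ≤ D := Nat.cast_nonneg D
  have ceil1 : ((⌈κ * ((D : ℝ) + 1)⌉₊ : ℕ) : ℝ) ≤ κ * (D + 1) + 1 :=
    (Nat.ceil_lt_add_one (by positivity)).le
  have q₁ : d o h₁ ≤ ⌈κ * ((D : ℝ) + 1)⌉₊ := by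
    have h := r₁.trans (Nat.le_ceil _)
    exact_mod_cast h
  have q₃ : d o h₃ ≤ ⌈κ * ((D : ℝ) + 1)⌉₊ := by
    have h := r₃.trans (Nat.le_ceil _)
    exact_mod_cast h
  obtain ⟨D₁, hD₁⟩ : ∃ D₁ : ℕ, D₁ = ⌈κ * ((D : ℝ) + 1)⌉₊ + D := ⟨_, rfl⟩
  have hD₁' : (D₁ : ℝ) = ((⌈κ * ((D : ℝ) + 1)⌉₊ : ℕ) : ℝ) + D := by
    rw [hD₁]; push_cast; rfl
  have e₁ : d h₁ x ≤ D₁ := by
    have h := hg.tri h₁ o x
    rw [hg.symm h₁ o] at h
    omega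
  have e₃ : d h₃ y ≤ D₁ := by
    have h := hg.tri h₃ o y
    rw [hg.symm h₃ o] at h
    omega
  obtain ⟨h₂, m₂, r₂, c₂⟩ := Ha h₁ m₁ x D₁ e₁
  obtain ⟨h₄, m₄, r₄, c₄⟩ := Ha h₃ m₃ y D₁ e₃
  have hD10 : (0 : ℝ) ≤ D₁ := Nat.cast_nonneg D₁
  have ceil2 : ((⌈κ * ((D₁ : ℝ) + 1)⌉₊ : ℕ) : ℝ) ≤ κ * (D₁ + 1) + 1 :=
    (Nat.ceil_lt_add_one (by positivity)).le
  have q₂ : d h₁ h₂ ≤ ⌈κ * ((D₁ : ℝ) + 1)⌉₊ := by
    have h := r₂.trans (Nat.le_ceil _)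
    exact_mod_cast h
  have q₄ : d h₃ h₄ ≤ ⌈κ * ((D₁ : ℝ) + 1)⌉₊ := by
    have h := r₄.trans (Nat.le_ceil _)
    exact_mod_cast h
  obtain ⟨R, hR⟩ : ∃ R : ℕ, R = ⌈κ * ((D : ℝ) + 1)⌉₊ + ⌈κ * ((D₁ : ℝ) + 1)⌉₊ := ⟨_, rfl⟩
  have hR' : (R : ℝ) = ((⌈κ * ((D : ℝ) + 1)⌉₊ : ℕ) : ℝ) +
      ((⌈κ * ((D₁ : ℝ) + 1)⌉₊ : ℕ) : ℝ) := by
    rw [hR]; push_cast; rfl
  have o₁ : d o h₁ ≤ R := by omega
  have o₃ : d o h₃ ≤ R := by omega
  have o₂ : d o h₂ ≤ R := by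
    have h := hg.tri o h₁ h₂
    omega
  have o₄ : d o h₄ ≤ R := by
    have h := hg.tri o h₃ h₄
    omega
  have two : ∀ a b : X, d o a ≤ R → d o b ≤ R → d a b ≤ 2 * R := by
    intro a b h1 h2
    have h := hg.tri a o b
    rw [hg.symm a o] at h
    omega
  have k := HY h₂ m₂ h₄ m₄ h₁ m₁ h₃ m₃ (2 * R) (two _ _ o₂ o₄) (two _ _ o₂ o₃) (two _ _ o₄ o₁)
    (two _ _ o₁ o₃)
  have tri : ∀ a b c e : X, (d a e : ℝ) ≤ d a b + d b c + d c e := by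
    intro a b c e
    have h1 := hg.tri a b e
    have h2 := hg.tri b c e
    have h3 : d a e ≤ d a b + d b c + d c e := by omega
    exact_mod_cast h3
  have sy : ∀ a b : X, (d a b : ℝ) = d b a := by
    intro a b
    rw [hg.symm]
  have t1 := tri h₂ x y h₄
  have t2 := tri h₁ z w h₃
  have t3 := tri h₄ y z h₁
  have t4 := tri h₂ x w h₃
  rw [sy h₁ x, sy h₁ h₂] at c₂
  rw [sy h₃ y, sy h₃ h₄] at c₄
  rw [sy h₂ x] at t1 t4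
  rw [sy h₁ z] at t2
  rw [sy h₄ y] at t3
  -- sizes
  have s1 : (D₁ : ℝ) + 1 ≤ (κ + 2) * (D + 1) := by nlinarith
  have s2 : κ * ((D₁ : ℝ) + 1) ≤ κ * ((κ + 2) * (D + 1)) := mul_le_mul_of_nonneg_left s1 hκ
  have s3 : (R : ℝ) ≤ (κ + 1) * (κ + 2) * (D + 1) := by nlinarith
  have s4 : δ * ((D₁ : ℝ) + 1) ≤ δ * ((κ + 2) * (D + 1)) := mul_le_mul_of_nonneg_left s1 hδ.le
  have s5 : δ * ((2 * R : ℕ) : ℝ) ≤ δ * (2 * ((κ + 1) * (κ + 2) * (D + 1))) := by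
    apply mul_le_mul_of_nonneg_left _ hδ.le
    push_cast
    linarith
  have s6 : 2 * (δ * (D + 1)) + 2 * (δ * ((κ + 2) * (D + 1))) +
      δ * (2 * ((κ + 1) * (κ + 2) * (D + 1))) = ε * (D + 1) := by
    rw [← hδc]; ring
  rcases max_cases ((d h₂ h₄ : ℝ) + d h₁ h₃) ((d h₄ h₁ : ℝ) + d h₂ h₃) with ⟨e, _⟩ | ⟨e, _⟩
  · rw [e] at k
    have m := le_max_left ((d x y : ℝ) + d z w) ((d y z : ℝ) + d x w)
    linarith
  · rw [e] at k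
    have m := le_max_right ((d x y : ℝ) + d z w) ((d y z : ℝ) + d x w)
    linarith

end Pool.Agent.HMB
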