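import Pool.Agent.MHN.Final

/-!
Module Gap: a graph-like metric with sublinear four-point defect is hyperbolic.

Fix `ε = 1/300` and the constant `E` of `h` for it; enlarge to `E ≥ 1`.

(a) Product form. If all distances of `a b c x` are `≤ D` and `e = ε D + E`:
`min (a|c)_x (c|b)_x - e/2 ≤ (a|b)_x` (`gp d a c x` etc.). Near geodesics: if `β` is a geodesic from
`b₀` to `b₁` (`β` on `{0..l}`) and all distances between `a, b₀, b₁, β j` are `≤ D` then for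
`j = ⌊(a|b₁)_(b₀)⌋₊ ≤ l`: `d a (β j) ≤ (b₀|b₁)_a + 1 + e`.

(b) `P N ψ` (`ψ : ℕ`): for all `x`, geodesics `α, β` from `x` (`α 0 = x`, `d (α i) (α j) = j - i`
for `i ≤ j ≤ m`; same for `β`, `n`), with `m, n, d (α m) (β n) ≤ N`, and all `s` with
`2 s + d (α m) (β n) ≤ m + n`: `d (α s) (β s) ≤ ψ`. Trivially `P N (2N)`. Claim: if `P N ψ` and
`ψ > ψ₀ := 46 E + 26` then `P N (ψ - 1)`. Hence `P N ψ₀` for all `N`.

Case 1: `2 (s + 2ψ) + d (α m) (β n) ≤ m + n`. Then `d (α s) (β s) ≤ e' := 4 e + 2`, where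
`e = 6 ε ψ + E`. Let `s₁ = s - 2ψ` (truncated), `s₂ = s + 2ψ`, `a = α s`, `a₀ = α s₁`, `a₁ = α s₂`,
`b₀ = β s₁`, `b₁ = β s₂`; `d a₀ b₀ ≤ ψ`, `d a₁ b₁ ≤ ψ` by `P N ψ`; all distances `≤ 6ψ`.
`(a₀|a₁)_a = 0` and `(b₁|a₁)_a ≥ d a a₁ - d a₁ b₁ ≥ ψ > e/2` give `(a₀|b₁)_a ≤ e/2`. If `s₁ = 0` then
`a₀ = b₀ = x`; otherwise `(a₀|b₀)_a ≥ 2ψ - ψ = ψ > e` and so `(b₀|b₁)_a ≤ e`. By (a)
`d a (β j) ≤ 2 e + 1` for some `j`, and `|j - s| = |d x (β j) - d x a| ≤ 2 e + 1`.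

Case 2: `2 (s + 2ψ) + d y z > m + n`, `y = α m`, `z = β n`; let `γ` be a geodesic from `y` to `z`,
`l = d y z`. `k_x = ⌊(y|z)_x⌋`, `k_y, k_z` similarly; `s₀ = k_x - 4ψ` (truncated), `t₀ = k_y - 4ψ`,
`u₀ = k_z - 4ψ`; `p = α s₀`, `p' = β s₀`, `q = α (m - t₀)`, `q' = γ t₀`, `r = β (n - u₀)`,
`r' = γ (l - u₀)`. By case 1 (or because the index is `0`) applied at the corners `x, y, z` (reversed
geodesics) `d p p', d q q', d r r' ≤ e'`. `s ≥ s₀`. Put `A = (y|z)_x - s₀`, `B = (x|z)_y - t₀`,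
`C = (x|y)_z - u₀`, all in `[0, 4ψ + 1]`; `d p q = A + B`, `d p' r = A + C`, `d q' r' = B + C`.
All distances are `≤ 10ψ`; `e₂ = 10 ε ψ + E`. `a = α s`, `u = (y|z)_x - s ≥ 0`, `d p a = A - u`,
`d a q = B + u`. `(p|q)_a = 0` so `(p|r)_a ≤ e₂/2` or `(r|q)_a ≤ e₂/2`. In the second case
`d a r + d a q ≤ d q r + e₂ ≤ B + C + 2 e' + e₂`, so `d a r ≤ C - u + 2 e' + e₂` and
`d p a + d a r - d p r ≤ 3 e' + e₂` (`d p r ≥ A + C - e'`). So in both cases
`(p|r)_a ≤ (3 e' + e₂)/2`, `(p'|r)_a ≤ (5 e' + e₂)/2`, and by (a) for `β` between `s₀` and `n - u₀`: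
`d a (β j) ≤ (5 e' + e₂)/2 + 1 + e₂`, hence `d a (β s) ≤ 5 e' + 3 e₂ + 2 ≤ ψ - 1`.

(c) `P N ψ₀` for all `N` gives `min (x|y)_w (y|z)_w - (ψ₀ + 1) ≤ (x|z)_w` (geodesics from `w` to
`x, y, z`, the points at distance `⌊min⌋` from `w`), which is `Hyp (ψ₀ + 1) d`.
-/

set_option autoImplicit false

namespace Pool.Agent.HMB

open Pool.Agent.MHN

variable {X : Type*} {d : X → X → ℕ}

/-- `α` is a geodesic on `{0, ..., m}` -/
private def Gap_Geo (d : X → X → ℕ) (α : ℕ → X) (m : ℕ) : Prop :=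
  ∀ i j, i ≤ j → j ≤ m → d (α i) (α j) = j - i

/-- four-point condition with defect `e` at the scale `D` -/
private def Gap_four (d : X → X → ℕ) (D e : ℕ) : Prop :=
  ∀ x y z w, d x y ≤ D → d x z ≤ D → d x w ≤ D → d y z ≤ D → d y w ≤ D → d z w ≤ D →
    d x z + d y w ≤ max (d x y + d z w) (d y z + d x w) + e

/-- two geodesics with the same origin are `ψ`-close up to the Gromov product, at the scale `N` -/
private def Gap_P (d : X → X → ℕ) (N ψ : ℕ) : Prop :=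
  ∀ (α β : ℕ → X) (m n : ℕ), α 0 = β 0 → Gap_Geo d α m → Gap_Geo d β n → m ≤ N → n ≤ N →
    d (α m) (β n) ≤ N → ∀ s, 2 * s + d (α m) (β n) ≤ m + n → d (α s) (β s) ≤ ψ

private lemma Gap_near (hg : GMet X d) {e D : ℕ} (H : Gap_four d D e) {β : ℕ → X} {n s₁ s₂ : ℕ}
    (hβ : Gap_Geo d β n) (h12 : s₁ ≤ s₂) (h2 : s₂ ≤ n) {a : X} (hL : s₂ - s₁ ≤ D)
    (hD : ∀ j, s₁ ≤ j → j ≤ s₂ → d a (β j) ≤ D) :
    ∃ j, s₁ ≤ j ∧ j ≤ s₂ ∧ 2 * d a (β j) + (s₂ - s₁) ≤ d a (β s₁) + d a (β s₂) + 1 + 2 * e := by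
  have e1 : d (β s₁) (β s₂) = s₂ - s₁ := hβ s₁ s₂ h12 h2
  have t1 := hg.tri a (β s₁) (β s₂)
  have t2 := hg.tri a (β s₂) (β s₁)
  rw [hg.symm (β s₂) (β s₁)] at t2
  rw [e1] at t1 t2
  obtain ⟨G, hG⟩ : ∃ G, G + d a (β s₂) = d a (β s₁) + (s₂ - s₁) :=
    ⟨d a (β s₁) + (s₂ - s₁) - d a (β s₂), by omega⟩
  have hG2 : G ≤ 2 * (s₂ - s₁) := by omega
  set j := s₁ + G / 2 with hj
  have hj1 : s₁ ≤ j := by omega
  have hj2 : j ≤ s₂ := by omega
  refine ⟨j, hj1, hj2, ?_⟩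
  have e2 : d (β s₁) (β j) = j - s₁ := hβ s₁ j hj1 (hj2.trans h2)
  have e3 : d (β j) (β s₂) = s₂ - j := hβ j s₂ hj2 h2
  have h4 := H a (β s₁) (β j) (β s₂) (hD _ le_rfl h12) (hD _ hj1 hj2) (hD _ h12 le_rfl)
    (by rw [e2]; omega) (by rw [e1]; exact hL) (by rw [e3]; omega)
  rw [e1, e2, e3] at h4
  rcases max_cases (d a (β s₁) + (s₂ - j)) (j - s₁ + d a (β s₂)) with h5 | h5
  · rw [h5.1] at h4
    omega
  · rw [h5.1] at h4
    omega

private lemma Gap_slide (hg : GMet X d) {α β : ℕ → X} {m n s j : ℕ} (h0 : α 0 = β 0)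
    (hα : Gap_Geo d α m) (hβ : Gap_Geo d β n) (hs : s ≤ m) (hs' : s ≤ n) (hj : j ≤ n) :
    d (α s) (β s) ≤ 2 * d (α s) (β j) := by
  have e1 : d (α 0) (α s) = s := by rw [hα 0 s (Nat.zero_le _) hs]; omega
  have e2 : d (β 0) (β j) = j := by rw [hβ 0 j (Nat.zero_le _) hj]; omega
  have t1 := hg.tri (α 0) (β j) (α s)
  have t2 := hg.tri (β 0) (α s) (β j)
  rw [h0, e2] at t1
  rw [← h0, e1, h0, e2] at t2
  rw [h0] at e1
  rw [e1, hg.symm (β j) (α s)] at t1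
  have t3 := hg.tri (α s) (β j) (β s)
  rcases le_total j s with h | h
  · have e3 := hβ j s h hs'
    omega
  · have e3 := hβ s j h hj
    rw [hg.symm] at e3
    omega

private lemma Gap_rev {α : ℕ → X} {m : ℕ} (hg : GMet X d) (hα : Gap_Geo d α m) :
    Gap_Geo d (fun i => α (m - i)) m := by
  intro i j hij hj
  have h1 := hα (m - j) (m - i) (by omega) (by omega)
  simp only
  rw [hg.symm, h1]
  omega

private lemma Gap_len (hg : GMet X d) {α β : ℕ → X} {m n : ℕ} (h0 : α 0 = β 0)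
    (hα : Gap_Geo d α m) (hβ : Gap_Geo d β n) :
    m ≤ n + d (α m) (β n) ∧ n ≤ m + d (α m) (β n) ∧ d (α m) (β n) ≤ m + n := by
  have e1 : d (α 0) (α m) = m := by rw [hα 0 m (Nat.zero_le _) le_rfl]; omega
  have e2 : d (β 0) (β n) = n := by rw [hβ 0 n (Nat.zero_le _) le_rfl]; omega
  have t1 := hg.tri (α 0) (β n) (α m)
  have t2 := hg.tri (β 0) (α m) (β n)
  have t3 := hg.tri (α m) (α 0) (β n)
  rw [hg.symm (β n) (α m)] at t1
  rw [hg.symm (α m) (α 0)] at t3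
  rw [h0] at t1 t3 e1
  rw [e2] at t1 t2 t3
  rw [e1] at t1 t2 t3
  exact ⟨by omega, by omega, by omega⟩

private lemma Gap_case1 (hg : GMet X d) {ψ e N : ℕ} (he : 23 * e + 2 ≤ ψ)
    (H : Gap_four d (20 * ψ) e) (hP : Gap_P d N ψ) {α β : ℕ → X} {m n : ℕ} (h0 : α 0 = β 0)
    (hα : Gap_Geo d α m) (hβ : Gap_Geo d β n) (hm : m ≤ N) (hn : n ≤ N)
    (hmn : d (α m) (β n) ≤ N) {s : ℕ} (hs : 2 * (s + 2 * ψ) + d (α m) (β n) ≤ m + n) :
    d (α s) (β s) ≤ 4 * e := by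
  obtain ⟨l1, l2, l3⟩ := Gap_len hg h0 hα hβ
  set s₂ := s + 2 * ψ with hs2
  set s₁ := s - 2 * ψ with hs1
  have hs2m : s₂ ≤ m := by omega
  have hs2n : s₂ ≤ n := by omega
  have q2 := hP α β m n h0 hα hβ hm hn hmn s₂ (by omega)
  have q1 := hP α β m n h0 hα hβ hm hn hmn s₁ (by omega)
  -- distances on the two geodesics
  have a0a : d (α s₁) (α s) = s - s₁ := hα _ _ (by omega) (by omega)
  have aa1 : d (α s) (α s₂) = 2 * ψ := by rw [hα _ _ (by omega) (by omega)]; omega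
  have a0a1 : d (α s₁) (α s₂) = s₂ - s₁ := hα _ _ (by omega) (by omega)
  have b0b1 : d (β s₁) (β s₂) = s₂ - s₁ := hβ _ _ (by omega) (by omega)
  -- the mixed distances
  have ab1 : d (α s) (β s₂) ≤ 3 * ψ := by
    have := hg.tri (α s) (α s₂) (β s₂)
    omega
  have ab1' : 2 * ψ ≤ d (α s) (β s₂) + d (α s₂) (β s₂) := by
    have := hg.tri (α s) (β s₂) (α s₂)
    rw [hg.symm (β s₂) (α s₂)] at this
    omega
  have ab0 : d (α s) (β s₁) ≤ s - s₁ + ψ := by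
    have := hg.tri (α s) (α s₁) (β s₁)
    rw [hg.symm (α s) (α s₁)] at this
    omega
  have ab0' : s - s₁ ≤ d (α s) (β s₁) + d (α s₁) (β s₁) := by
    have := hg.tri (α s₁) (β s₁) (α s)
    rw [hg.symm (β s₁) (α s)] at this
    omega
  have a0b1 : d (α s₁) (β s₂) ≤ 5 * ψ := by
    have := hg.tri (α s₁) (α s₂) (β s₂)
    omega
  have hss : s - s₁ ≤ 2 * ψ := by omega
  -- step 1
  have st1 : d (α s₁) (α s) + d (α s) (β s₂) ≤ d (α s₁) (β s₂) + e := by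
    have h4 := H (α s₁) (β s₂) (α s₂) (α s) (by omega) (by omega) (by omega)
      (by rw [hg.symm]; omega) (by rw [hg.symm]; omega) (by rw [hg.symm]; omega)
    rw [hg.symm (β s₂) (α s), hg.symm (β s₂) (α s₂), hg.symm (α s₂) (α s)] at h4
    rcases max_cases (d (α s₁) (β s₂) + d (α s) (α s₂)) (d (α s₂) (β s₂) + d (α s₁) (α s))
      with h5 | h5
    · rw [h5.1] at h4
      omega
    · rw [h5.1] at h4
      omega
  -- step 2
  have st2 : d (α s) (β s₁) + d (α s) (β s₂) ≤ s₂ - s₁ + 2 * e := by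
    rcases Nat.eq_zero_or_pos s₁ with h | h
    · have e0 : α s₁ = β s₁ := by rw [h, h0]
      rw [e0] at st1
      rw [hg.symm (β s₁) (α s)] at st1
      omega
    · have h4 := H (α s₁) (β s₁) (β s₂) (α s) (by omega) (by omega) (by omega) (by omega)
        (by rw [hg.symm]; omega) (by rw [hg.symm]; omega)
      rw [hg.symm (β s₁) (α s), hg.symm (β s₂) (α s)] at h4
      rcases max_cases (d (α s₁) (β s₁) + d (α s) (β s₂)) (d (β s₁) (β s₂) + d (α s₁) (α s))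
        with h5 | h5
      · rw [h5.1] at h4
        omega
      · rw [h5.1] at h4
        omega
  -- step 3
  obtain ⟨j, hj1, hj2, hj3⟩ := Gap_near hg H hβ (a := α s) (show s₁ ≤ s₂ by omega) hs2n
    (by omega) (by
      intro j hj1 hj2
      have := hg.tri (α s) (β s₁) (β j)
      rw [hβ s₁ j hj1 (by omega)] at this
      omega)
  have h6 := Gap_slide hg h0 hα hβ (s := s) (j := j) (by omega) (by omega) (by omega)
  omega

private lemma Gap_corner (hg : GMet X d) {ψ e N : ℕ} (he : 23 * e + 2 ≤ ψ)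
    (H : Gap_four d (20 * ψ) e) (hP : Gap_P d N ψ) {α β : ℕ → X} {m n : ℕ} (h0 : α 0 = β 0)
    (hα : Gap_Geo d α m) (hβ : Gap_Geo d β n) (hm : m ≤ N) (hn : n ≤ N)
    (hmn : d (α m) (β n) ≤ N) :
    d (α ((m + n - d (α m) (β n)) / 2 - 4 * ψ)) (β ((m + n - d (α m) (β n)) / 2 - 4 * ψ)) ≤
      4 * e := by
  obtain ⟨l1, l2, l3⟩ := Gap_len hg h0 hα hβ
  set k := (m + n - d (α m) (β n)) / 2 with hk
  rcases Nat.eq_zero_or_pos (k - 4 * ψ) with h | h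
  · rw [h, h0, hg.self]
    exact Nat.zero_le _
  · exact Gap_case1 hg he H hP h0 hα hβ hm hn hmn (by omega)

private lemma Gap_step (hg : GMet X d) {ψ e N : ℕ} (he : 23 * e + 2 ≤ ψ)
    (H : Gap_four d (20 * ψ) e) (hP : Gap_P d N ψ) : Gap_P d N (ψ - 1) := by
  intro α β m n h0 hα hβ hm hn hmn s hs
  obtain ⟨l1, l2, l3⟩ := Gap_len hg h0 hα hβ
  by_cases hc : 2 * (s + 2 * ψ) + d (α m) (β n) ≤ m + n
  · have := Gap_case1 hg he H hP h0 hα hβ hm hn hmn hc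
    omega
  obtain ⟨γ, hγ0, hγ1, hγ⟩ := hg.geod (α m) (β n)
  set l := d (α m) (β n) with hl
  have hγ' : Gap_Geo d γ l := hγ
  -- the three corners
  have c1 := Gap_corner hg he H hP h0 hα hβ hm hn hmn
  rw [← hl] at c1
  set s₀ := (m + n - l) / 2 - 4 * ψ with hs0
  have c2 := Gap_corner hg he H hP (α := fun i => α (m - i)) (β := γ) (m := m) (n := l)
    (by simp only [Nat.sub_zero]; exact hγ0.symm) (Gap_rev hg hα) hγ' hm hmn
    (by
      simp only [Nat.sub_self]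
      rw [hγ1, h0, hβ 0 n (Nat.zero_le _) le_rfl]
      omega)
  have d2 : d ((fun i => α (m - i)) m) (γ l) = n := by
    simp only [Nat.sub_self]
    rw [hγ1, h0, hβ 0 n (Nat.zero_le _) le_rfl]
    omega
  rw [d2] at c2
  set t₀ := (m + l - n) / 2 - 4 * ψ with ht0
  have c2' : d (α (m - t₀)) (γ t₀) ≤ 4 * e := c2
  have c3 := Gap_corner hg he H hP (α := fun i => β (n - i)) (β := fun i => γ (l - i)) (m := n)
    (n := l) (by simp only [Nat.sub_zero]; exact hγ1.symm) (Gap_rev hg hβ) (Gap_rev hg hγ') hn hmn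
    (by
      simp only [Nat.sub_self]
      rw [hγ0, ← h0, hα 0 m (Nat.zero_le _) le_rfl]
      omega)
  have d3 : d ((fun i => β (n - i)) n) ((fun i => γ (l - i)) l) = m := by
    simp only [Nat.sub_self]
    rw [hγ0, ← h0, hα 0 m (Nat.zero_le _) le_rfl]
    omega
  rw [d3] at c3
  set u₀ := (n + l - m) / 2 - 4 * ψ with hu0
  have c3' : d (β (n - u₀)) (γ (l - u₀)) ≤ 4 * e := c3
  -- names: p = α s₀, p' = β s₀, q = α (m - t₀), q' = γ t₀, r = β (n - u₀), r' = γ (l - u₀)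
  have w1 : 2 * s₀ + l ≤ m + n := by omega
  have w2 : m + n ≤ l + 2 * s₀ + 8 * ψ + 1 := by omega
  have w3 : 2 * t₀ + n ≤ m + l := by omega
  have w4 : m + l ≤ n + 2 * t₀ + 8 * ψ + 1 := by omega
  have w5 : 2 * u₀ + m ≤ n + l := by omega
  have w6 : n + l ≤ m + 2 * u₀ + 8 * ψ + 1 := by omega
  have w7 : s₀ ≤ s := by omega
  clear hs0 ht0 hu0 c2 c3 d2 d3
  clear_value s₀ t₀ u₀ l
  have pa : d (α s₀) (α s) = s - s₀ := hα _ _ (by omega) (by omega)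
  have aq : d (α s) (α (m - t₀)) = m - t₀ - s := hα _ _ (by omega) (by omega)
  have pq : d (α s₀) (α (m - t₀)) = m - t₀ - s₀ := hα _ _ (by omega) (by omega)
  have p'r : d (β s₀) (β (n - u₀)) = n - u₀ - s₀ := hβ _ _ (by omega) (by omega)
  have q'r' : d (γ t₀) (γ (l - u₀)) = l - u₀ - t₀ := hγ _ _ (by omega) (by omega)
  have pr : d (α s₀) (β (n - u₀)) ≤ 4 * e + (n - u₀ - s₀) := by
    have := hg.tri (α s₀) (β s₀) (β (n - u₀))
    omega
  have pr' : n - u₀ - s₀ ≤ d (α s₀) (β (n - u₀)) + 4 * e := by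
    have := hg.tri (β s₀) (α s₀) (β (n - u₀))
    rw [hg.symm (β s₀) (α s₀)] at this
    omega
  have qr : d (α (m - t₀)) (β (n - u₀)) ≤ 8 * e + (l - u₀ - t₀) := by
    have t1 := hg.tri (α (m - t₀)) (γ t₀) (β (n - u₀))
    have t2 := hg.tri (γ t₀) (γ (l - u₀)) (β (n - u₀))
    rw [hg.symm (γ (l - u₀)) (β (n - u₀))] at t2
    omega
  have ar : d (α s) (β (n - u₀)) ≤ (s - s₀) + (4 * e + (n - u₀ - s₀)) := by
    have := hg.tri (α s) (α s₀) (β (n - u₀))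
    rw [hg.symm (α s) (α s₀)] at this
    omega
  have ap' : d (α s) (β s₀) ≤ (s - s₀) + 4 * e := by
    have := hg.tri (α s) (α s₀) (β s₀)
    rw [hg.symm (α s) (α s₀)] at this
    omega
  have key : d (α s₀) (α s) + d (α s) (β (n - u₀)) ≤ d (α s₀) (β (n - u₀)) + 13 * e := by
    have h4 := H (α s₀) (β (n - u₀)) (α (m - t₀)) (α s) (by omega) (by omega) (by omega)
      (by rw [hg.symm]; omega) (by rw [hg.symm]; omega) (by rw [hg.symm]; omega)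
    rw [hg.symm (β (n - u₀)) (α s), hg.symm (β (n - u₀)) (α (m - t₀)),
      hg.symm (α (m - t₀)) (α s)] at h4
    rcases max_cases (d (α s₀) (β (n - u₀)) + d (α s) (α (m - t₀)))
      (d (α (m - t₀)) (β (n - u₀)) + d (α s₀) (α s)) with h5 | h5
    · rw [h5.1] at h4
      omega
    · rw [h5.1] at h4
      omega
  obtain ⟨j, hj1, hj2, hj3⟩ := Gap_near hg H hβ (a := α s) (show s₀ ≤ n - u₀ by omega)
    (by omega) (by omega) (by
      intro j hj1 hj2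
      have := hg.tri (α s) (β s₀) (β j)
      rw [hβ s₀ j hj1 (by omega)] at this
      omega)
  have h6 := Gap_slide hg h0 hα hβ (s := s) (j := j) (by omega) (by omega) (by omega)
  omega

private lemma Gap_hyp (hg : GMet X d) {ψ : ℕ} (hP : ∀ N, Gap_P d N ψ) :
    Hyp ((ψ : ℝ) + 1) d := by
  intro x y z w
  obtain ⟨α, hα0, hα1, hα⟩ := hg.geod w x
  obtain ⟨β, hβ0, hβ1, hβ⟩ := hg.geod w y
  obtain ⟨γ, hγ0, hγ1, hγ⟩ := hg.geod w z
  set m := d w x with hm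
  set n := d w y with hn
  set l := d w z with hl
  set N := m + n + l + d x y + d y z with hN
  have e1 : d (α m) (β n) = d x y := by rw [hα1, hβ1]
  have e2 : d (β n) (γ l) = d y z := by rw [hβ1, hγ1]
  obtain ⟨a1, a2, a3⟩ := Gap_len hg (hα0.trans hβ0.symm) hα hβ
  obtain ⟨b1, b2, b3⟩ := Gap_len hg (hβ0.trans hγ0.symm) hβ hγ
  rw [e1] at a1 a2 a3
  rw [e2] at b1 b2 b3
  set t := min ((m + n - d x y) / 2) ((n + l - d y z) / 2) with ht
  have ht1 : t ≤ (m + n - d x y) / 2 := min_le_left _ _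
  have ht2 : t ≤ (n + l - d y z) / 2 := min_le_right _ _
  have c1 := hP N α β m n (hα0.trans hβ0.symm) hα hβ (by omega) (by omega) (by rw [e1]; omega) t
    (by rw [e1]; omega)
  have c2 := hP N β γ n l (hβ0.trans hγ0.symm) hβ hγ (by omega) (by omega) (by rw [e2]; omega) t
    (by rw [e2]; omega)
  have f1 : d (α t) x = m - t := by
    have := hα t m (by omega) le_rfl
    rwa [hα1] at this
  have f2 : d (γ t) z = l - t := by
    have := hγ t l (by omega) le_rfl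
    rwa [hγ1] at this
  have t1 := hg.tri x (α t) z
  have t2 := hg.tri (α t) (γ t) z
  have t3 := hg.tri (α t) (β t) (γ t)
  rw [hg.symm x (α t)] at t1
  have s1 := hg.symm z w
  have s2 := hg.symm x w
  have s3 := hg.symm y w
  have key : d x z + d y w ≤ max (d x y + d z w) (d y z + d x w) + 2 * (ψ + 1) := by
    rw [s1, s2, s3, ← hm, ← hn, ← hl]
    rcases min_cases ((m + n - d x y) / 2) ((n + l - d y z) / 2) with h5 | h5
    · have := le_max_left (d x y + l) (d y z + m)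
      omega
    · have := le_max_right (d x y + l) (d y z + m)
      omega
  have key' : ((d x z + d y w : ℕ) : ℝ) ≤
      ((max (d x y + d z w) (d y z + d x w) + 2 * (ψ + 1) : ℕ) : ℝ) := by exact_mod_cast key
  push_cast at key'
  exact key'

theorem gap (hg : GMet X d)
    (h : ∀ ε : ℝ, 0 < ε → ∃ E : ℝ, ∀ (x y z w : X) (D : ℕ), d x y ≤ D → d x z ≤ D → d x w ≤ D →
      d y z ≤ D → d y w ≤ D → d z w ≤ D →
      (d x z : ℝ) + d y w ≤ max ((d x y : ℝ) + d z w) ((d y z : ℝ) + d x w) + (ε * D + E)) :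
    ∃ δ : ℝ, Hyp δ d := by
  obtain ⟨E₀, hE₀⟩ := h (1 / 920) (by norm_num)
  set E : ℝ := max E₀ 0 with hE
  have hE0 : 0 ≤ E := le_max_right _ _
  have hEE : E₀ ≤ E := le_max_left _ _
  set ψ₀ : ℕ := ⌈46 * E + 50⌉₊ with hψ₀
  have hψE : 46 * E + 50 ≤ ψ₀ := Nat.le_ceil _
  -- the defect at the scale `20 ψ`
  have hfour : ∀ ψ : ℕ, ψ₀ ≤ ψ → ∃ e : ℕ, 23 * e + 2 ≤ ψ ∧ Gap_four d (20 * ψ) e := by
    intro ψ hψ
    have hψ' : (ψ₀ : ℝ) ≤ ψ := by exact_mod_cast hψ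
    refine ⟨⌈(1 / 920 : ℝ) * ((20 * ψ : ℕ) : ℝ) + E⌉₊, ?_, ?_⟩
    · have h1 := Nat.ceil_lt_add_one
        (show (0 : ℝ) ≤ (1 / 920 : ℝ) * ((20 * ψ : ℕ) : ℝ) + E by positivity)
      have h2 : ((23 * ⌈(1 / 920 : ℝ) * ((20 * ψ : ℕ) : ℝ) + E⌉₊ + 2 : ℕ) : ℝ) ≤ ψ := by
        push_cast at h1 ⊢
        linarith
      exact_mod_cast h2
    · intro x y z w h1 h2 h3 h4 h5 h6
      have h7 := hE₀ x y z w (20 * ψ) h1 h2 h3 h4 h5 h6
      have h8 := Nat.le_ceil ((1 / 920 : ℝ) * ((20 * ψ : ℕ) : ℝ) + E)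
      have h9 : ((d x z + d y w : ℕ) : ℝ) ≤ ((max (d x y + d z w) (d y z + d x w) +
          ⌈(1 / 920 : ℝ) * ((20 * ψ : ℕ) : ℝ) + E⌉₊ : ℕ) : ℝ) := by
        rw [Nat.cast_add, Nat.cast_add, Nat.cast_max, Nat.cast_add, Nat.cast_add]
        linarith
      exact_mod_cast h9
  refine ⟨_, Gap_hyp hg (ψ := ψ₀) fun N => ?_⟩
  -- descending induction
  have hall : ∀ k ψ : ℕ, ψ₀ + k = ψ → Gap_P d N ψ → Gap_P d N ψ₀ := by
    intro k
    induction k with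
    | zero =>
      intro ψ h1 h2
      rw [add_zero] at h1
      rw [h1]
      exact h2
    | succ k ih =>
      intro ψ h1 h2
      obtain ⟨e, he, H⟩ := hfour ψ (by omega)
      exact ih (ψ - 1) (by omega) (Gap_step hg he H h2)
  refine hall (2 * N) (ψ₀ + 2 * N) rfl ?_
  intro α β m n h0 hα hβ hm hn hmn s hs
  obtain ⟨l1, l2, l3⟩ := Gap_len hg h0 hα hβ
  have e1 : d (α 0) (α s) = s := by rw [hα 0 s (Nat.zero_le _) (by omega)]; omega
  have e2 : d (β 0) (β s) = s := by rw [hβ 0 s (Nat.zero_le _) (by omega)]; omega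
  have t1 := hg.tri (α s) (α 0) (β s)
  rw [hg.symm (α s) (α 0), e1, h0, e2] at t1
  omega

end Pool.Agent.HMB
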