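import Pool.Agent.HMB.QG
import Pool.Agent.HMB.DefsS

/-!
The quasi-geodesic from `1` through `g` to an element of `H` of length comparable to `|g|`.
-/

set_option autoImplicit false

namespace Pool.Agent.HMB

open Pool.Agent.MHN

universe u

variable {G : Type u} [Group G] {S : Finset G}

/-- the powers of `f` are quasi-isometrically embedded in `G` -/
def IsUndist (S : Finset G) (f : G) : Prop :=
  ∃ K C : ℝ, 1 ≤ K ∧ 0 ≤ C ∧ ∀ m n : ℤ,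
    |(m : ℝ) - n| / K - C ≤ (wdist S (f ^ m) (f ^ n) : ℝ) ∧
      (wdist S (f ^ m) (f ^ n) : ℝ) ≤ K * |(m : ℝ) - n| + C

private theorem NearCore_line {f : G} {Kf Cf : ℝ} (hKf : 1 ≤ Kf)
    (hq : ∀ m n : ℤ, |(m : ℝ) - n| / Kf - Cf ≤ (wdist S (f ^ m) (f ^ n) : ℝ) ∧
      (wdist S (f ^ m) (f ^ n) : ℝ) ≤ Kf * |(m : ℝ) - n| + Cf) (g : G) (n : ℕ) (T : ℝ) :
    IsQuasiGeodesic S Kf (Kf + Cf + 1) T (fun t : ℝ => g * f ^ (⌊t⌋ - (n : ℤ))) := by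
  intro s _ t _
  have h1 := hq (⌊s⌋ - (n : ℤ)) (⌊t⌋ - (n : ℤ))
  simp only [wdist_left]
  push_cast at h1
  have h2 : (⌊s⌋ : ℝ) - n - ((⌊t⌋ : ℝ) - n) = (⌊s⌋ : ℝ) - ⌊t⌋ := by ring
  rw [h2] at h1
  have s1 := Int.floor_le s
  have s2 := Int.lt_floor_add_one s
  have t1 := Int.floor_le t
  have t2 := Int.lt_floor_add_one t
  have h3 : |s - t| ≤ |(⌊s⌋ : ℝ) - ⌊t⌋| + 1 := by
    rw [abs_le]
    have a1 := le_abs_self ((⌊s⌋ : ℝ) - ⌊t⌋)
    have a2 := neg_abs_le ((⌊s⌋ : ℝ) - ⌊t⌋)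
    constructor <;> linarith
  have h4 : |(⌊s⌋ : ℝ) - ⌊t⌋| ≤ |s - t| + 1 := by
    rw [abs_le]
    have a1 := le_abs_self (s - t)
    have a2 := neg_abs_le (s - t)
    constructor <;> linarith
  have hK0 : 0 < Kf := by linarith
  constructor
  · refine le_trans ?_ h1.1
    have h5 : |s - t| / Kf ≤ (|(⌊s⌋ : ℝ) - ⌊t⌋| + 1) / Kf := div_le_div_of_nonneg_right h3 hK0.le
    rw [add_div] at h5
    have h6 : 1 / Kf ≤ 1 := by rw [div_le_one hK0]; exact hKf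
    linarith
  · refine h1.2.trans ?_
    have := mul_le_mul_of_nonneg_left h4 hK0.le
    linarith

theorem near_core (hS : Gen S) (H : Subgroup G) [H.Normal] {f : G} (hfH : f ∈ H)
    (hf : IsUndist S f) :
    ∃ K C κ : ℝ, 1 ≤ K ∧ 0 ≤ C ∧ 0 ≤ κ ∧ ∀ (g : G) (N : ℕ), ∃ h' ∈ H,
      N ≤ wdist S 1 h' ∧ (wdist S 1 h' : ℝ) ≤ κ * (wdist S 1 g + N + 1) ∧
      ∃ (T : ℝ) (c : ℝ → G), 0 ≤ T ∧ IsQuasiGeodesic S K C T c ∧ c 0 = 1 ∧ c T = h' ∧
        ∃ t ∈ Set.Icc 0 T, c t = g := by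
  obtain ⟨Kf, Cf, hKf, hCf, hq⟩ := hf
  have hK0 : 0 < Kf := by linarith
  obtain ⟨C0, hC0⟩ : ∃ C0 : ℝ, C0 = Kf + Cf + 1 := ⟨_, rfl⟩
  have hC0' : 0 ≤ C0 := by rw [hC0]; linarith
  have hk1 : 1 ≤ kk Kf := by unfold kk; linarith
  have hk2 : 1 ≤ kk (kk Kf) := by unfold kk at hk1 ⊢; linarith
  have hc1 : 0 ≤ cc Kf C0 := by unfold cc; positivity
  have hk1' : 0 ≤ kk Kf := by linarith
  have hc2 : 0 ≤ cc (kk Kf) (cc Kf C0) := by unfold cc at hc1 ⊢; positivity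
  have hk2' : 0 ≤ kk (kk Kf) := by linarith
  obtain ⟨lam, hlam⟩ : ∃ lam : ℝ, lam = max (kk Kf * (2 + cc Kf C0))
    (max (Kf * (2 + C0)) (Kf * (3 + Cf))) := ⟨_, rfl⟩
  have l1 : kk Kf * (2 + cc Kf C0) ≤ lam := by rw [hlam]; exact le_max_left _ _
  have l2 : Kf * (2 + C0) ≤ lam := by
    rw [hlam]; exact (le_max_left _ _).trans (le_max_right _ _)
  have l3 : Kf * (3 + Cf) ≤ lam := by
    rw [hlam]; exact (le_max_right _ _).trans (le_max_right _ _)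
  have hlam0 : 0 ≤ lam := le_trans (by positivity) l3
  refine ⟨kk (kk (kk Kf)), cc (kk (kk Kf)) (cc (kk Kf) (cc Kf C0)), Kf * (lam + 1) + Cf + 2,
    by unfold kk at hk2 ⊢; linarith, by unfold cc at hc2 ⊢; positivity, by positivity,
    fun g N => ?_⟩
  obtain ⟨R, hR⟩ : ∃ R : ℝ, R = wdist S 1 g := ⟨_, rfl⟩
  have hR0 : 0 ≤ R := by rw [hR]; positivity
  have hN0 : (0 : ℝ) ≤ N := Nat.cast_nonneg N
  obtain ⟨n, hn⟩ : ∃ n : ℕ, n = ⌈lam * (R + N + 1)⌉₊ := ⟨_, rfl⟩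
  have hn1 : lam * (R + N + 1) ≤ n := by rw [hn]; exact Nat.le_ceil _
  have hn2 : (n : ℝ) ≤ lam * (R + N + 1) + 1 := by
    rw [hn]; exact (Nat.ceil_lt_add_one (by positivity)).le
  have hRN : 0 ≤ R + N + 1 := by positivity
  have hRN1 : 1 ≤ R + N + 1 := by linarith
  -- the line through `g`
  have hline := NearCore_line hKf hq g n (2 * (n : ℝ))
  rw [← hC0] at hline
  set c₀ : ℝ → G := fun t : ℝ => g * f ^ (⌊t⌋ - (n : ℤ)) with hc₀
  obtain ⟨u, hu⟩ : ∃ u, u = g * f ^ (-(n : ℤ)) * g⁻¹ := ⟨_, rfl⟩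
  obtain ⟨v, hv⟩ : ∃ v, v = g * f ^ (n : ℤ) * g⁻¹ := ⟨_, rfl⟩
  have huH : u ∈ H := by rw [hu]; exact ‹H.Normal›.conj_mem _ (H.zpow_mem hfH _) _
  have hvH : v ∈ H := by rw [hv]; exact ‹H.Normal›.conj_mem _ (H.zpow_mem hfH _) _
  have e0 : c₀ 0 = g * f ^ (-(n : ℤ)) := by simp [hc₀]
  have e1 : c₀ (2 * (n : ℝ)) = g * f ^ (n : ℤ) := by
    have : ⌊(2 * (n : ℝ))⌋ = 2 * (n : ℤ) := by
      have : (2 * (n : ℝ)) = ((2 * (n : ℤ) : ℤ) : ℝ) := by push_cast; ring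
      rw [this, Int.floor_intCast]
    simp only [hc₀, this]
    rw [show (2 * (n : ℤ) - n) = (n : ℤ) by ring]
  have e2 : c₀ (n : ℝ) = g := by simp [hc₀]
  have hx : (wdist S u (c₀ 0) : ℝ) ≤ R := by
    rw [e0, hu, hR, wdist_one]
    apply le_of_eq
    congr 1
    unfold wdist
    congr 1
    group
  have hy : (wdist S (c₀ (2 * (n : ℝ))) v : ℝ) ≤ R := by
    rw [e1, hv, hR, wdist_one, ← wlen_inv S g]
    apply le_of_eq
    congr 1
    unfold wdist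
    congr 1
    group
  obtain ⟨T', c', hT', hq', h0', hT1', -, hlast⟩ := qg_two hS hKf hC0' (by positivity) hline u v
    hx hy
  obtain ⟨t', ht', hct'⟩ := hlast (n : ℝ) (by
      refine le_trans ?_ hn1
      refine le_trans ?_ (mul_le_mul_of_nonneg_right l1 hRN)
      rw [mul_assoc]
      refine mul_le_mul_of_nonneg_left ?_ hk1'
      nlinarith) (by
      have : Kf * (2 * R + C0) ≤ n := by
        refine le_trans ?_ hn1
        refine le_trans ?_ (mul_le_mul_of_nonneg_right l2 hRN)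
        rw [mul_assoc]
        refine mul_le_mul_of_nonneg_left ?_ hK0.le
        nlinarith
      linarith)
  rw [e2] at hct'
  -- lengths
  have hfn := hq 0 n
  have hfn' := hq 0 (-(n : ℤ))
  rw [zpow_zero] at hfn hfn'
  have habs : |((0 : ℤ) : ℝ) - ((n : ℤ) : ℝ)| = n := by
    push_cast; rw [zero_sub, abs_neg, abs_of_nonneg (Nat.cast_nonneg _)]
  have habs' : |((0 : ℤ) : ℝ) - ((-(n : ℤ) : ℤ) : ℝ)| = n := by
    push_cast; rw [zero_sub, neg_neg, abs_of_nonneg (Nat.cast_nonneg _)]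
  rw [habs] at hfn
  rw [habs'] at hfn'
  have hlen : ∀ z w : G, w = g * z * g⁻¹ →
      (wdist S 1 z : ℝ) ≤ wdist S 1 w + 2 * R ∧ (wdist S 1 w : ℝ) ≤ wdist S 1 z + 2 * R := by
    intro z w hw
    simp only [wdist_one, hR]
    constructor
    · have h1 := wlen_mul hS (g⁻¹ * w) g
      have h2 := wlen_mul hS g⁻¹ w
      rw [wlen_inv] at h2
      have h3 : g⁻¹ * w * g = z := by rw [hw]; group
      rw [h3] at h1
      have : wlen S z ≤ wlen S w + 2 * wlen S g := by omega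
      exact_mod_cast this
    · have h1 := wlen_mul hS (g * z) g⁻¹
      have h2 := wlen_mul hS g z
      rw [wlen_inv] at h1
      rw [← hw] at h1
      have : wlen S w ≤ wlen S z + 2 * wlen S g := by omega
      exact_mod_cast this
  have hlow : ∀ z w : G, w = g * z * g⁻¹ → (n : ℝ) / Kf - Cf ≤ wdist S 1 z →
      (wdist S 1 z : ℝ) ≤ Kf * n + Cf →
      N ≤ wdist S 1 w ∧ (wdist S 1 w : ℝ) ≤ (Kf * (lam + 1) + Cf + 2) * (wdist S 1 g + N + 1) := by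
    intro z w hw h1 h2
    obtain ⟨h3, h4⟩ := hlen z w hw
    rw [← hR]
    constructor
    · have h5 : (3 + Cf) * (R + N + 1) ≤ (n : ℝ) / Kf := by
        rw [le_div_iff₀ hK0]
        refine le_trans ?_ hn1
        refine le_trans ?_ (mul_le_mul_of_nonneg_right l3 hRN)
        apply le_of_eq; ring
      have h6 : Cf ≤ Cf * (R + N + 1) := le_mul_of_one_le_right hCf hRN1
      have h8 : (3 + Cf) * (R + N + 1) = 3 * (R + N + 1) + Cf * (R + N + 1) := by ring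
      rw [h8] at h5
      have h7 : (N : ℝ) ≤ wdist S 1 w := by linarith
      exact_mod_cast h7
    · have h5 : Kf * n ≤ Kf * (lam * (R + N + 1) + 1) := mul_le_mul_of_nonneg_left hn2 hK0.le
      have h6 : Kf ≤ Kf * (R + N + 1) := le_mul_of_one_le_right hK0.le hRN1
      have h7 : Cf ≤ Cf * (R + N + 1) := le_mul_of_one_le_right hCf hRN1
      have h8 : Kf * (lam * (R + N + 1) + 1) = Kf * lam * (R + N + 1) + Kf := by ring
      have h9 : (Kf * (lam + 1) + Cf + 2) * (R + N + 1) = Kf * lam * (R + N + 1) +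
        Kf * (R + N + 1) + Cf * (R + N + 1) + 2 * (R + N + 1) := by ring
      rw [h8] at h5
      rw [h9]
      linarith
  obtain ⟨τ, hτ, hmin⟩ := exists_min (S := S) hT' c' 1
  rcases le_total τ t' with hle | hle
  · -- from `1` to `v`
    obtain ⟨s, c'', hs, hq'', h0'', hag⟩ := qg_pre hS hk2 hc2 hq' 1 hτ hmin
    obtain ⟨a1, a2⟩ := hlow (f ^ (n : ℤ)) v hv hfn.1 hfn.2
    refine ⟨v, hvH, a1, a2, s + (T' - τ), c'', by linarith [hτ.2], hq'', h0'', ?_,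
      s + (t' - τ), ⟨by linarith, by linarith [ht'.2]⟩, ?_⟩
    · rw [hag T' ⟨hτ.2, le_rfl⟩, hT1']
    · rw [hag t' ⟨hle, ht'.2⟩, hct']
  · -- from `1` to `u`
    have hqr := qg_rev hq'
    have hτr : T' - τ ∈ Set.Icc 0 T' := ⟨by linarith [hτ.2], by linarith [hτ.1]⟩
    have hminr : ∀ t ∈ Set.Icc 0 T', wdist S ((fun t => c' (T' - t)) (T' - τ)) 1 ≤
        wdist S ((fun t => c' (T' - t)) t) 1 := by
      intro t ht
      simp only [sub_sub_cancel]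
      exact hmin (T' - t) ⟨by linarith [ht.2], by linarith [ht.1]⟩
    obtain ⟨s, c'', hs, hq'', h0'', hag⟩ := qg_pre hS hk2 hc2 hqr 1 hτr hminr
    obtain ⟨a1, a2⟩ := hlow (f ^ (-(n : ℤ))) u hu hfn'.1 hfn'.2
    refine ⟨u, huH, a1, a2, s + (T' - (T' - τ)), c'', by linarith [hτ.1], hq'', h0'', ?_,
      s + ((T' - t') - (T' - τ)), ⟨by linarith, by linarith [ht'.1]⟩, ?_⟩
    · rw [hag T' ⟨hτr.2, le_rfl⟩]
      simp only [sub_self]
      exact h0'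
    · rw [hag (T' - t') ⟨by linarith, by linarith [ht'.1]⟩]
      simp only [sub_sub_cancel]
      exact hct'

theorem near_S' (hS : Gen S) (H : Subgroup G) [H.Normal] {f : G} (hfH : f ∈ H)
    (hf : IsUndist S f)
    (hU : ∀ K C : ℝ, 1 ≤ K → 0 ≤ C → ∀ ε : ℝ, 0 < ε → ∃ B : ℝ, ∀ h ∈ H,
      USeg S K C (ε * wdist S 1 h + B) 1 h) :
    ∃ κ : ℝ, 0 ≤ κ ∧ ∀ ε : ℝ, 0 < ε → ∃ E : ℝ, 0 ≤ E ∧ ∀ (g : G) (N : ℕ), ∃ h' ∈ H,
      N ≤ wdist S 1 h' ∧ (wdist S 1 h' : ℝ) ≤ κ * (wdist S 1 g + N + 1) ∧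
      ∀ γ : ℕ → G, IsGeo S 1 h' γ → ∃ i ≤ wdist S 1 h',
        (wdist S g (γ i) : ℝ) ≤ ε * (wdist S 1 g + N + 1) + E := by
  obtain ⟨K, C, κ, hK, hC, hκ, hcore⟩ := near_core hS H hfH hf
  refine ⟨κ, hκ, fun ε hε => ?_⟩
  obtain ⟨B, hB⟩ := hU K C hK hC (ε / (κ + 1)) (by positivity)
  refine ⟨max B 0, le_max_right _ _, fun g N => ?_⟩
  obtain ⟨h', hh', h1, h2, T, c, hT, hc, h0, hT1, t, ht, hct⟩ := hcore g N
  refine ⟨h', hh', h1, h2, fun γ hγ => ?_⟩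
  obtain ⟨i, hi, hi'⟩ := hB h' hh' T c hT hc h0 hT1 γ hγ t ht
  rw [hct] at hi'
  refine ⟨i, hi, hi'.trans ?_⟩
  have h3 : ε / (κ + 1) * wdist S 1 h' ≤ ε / (κ + 1) * (κ * (wdist S 1 g + N + 1)) :=
    mul_le_mul_of_nonneg_left h2 (by positivity)
  have h4 : ε / (κ + 1) * (κ * (wdist S 1 g + N + 1)) ≤ ε * (wdist S 1 g + N + 1) := by
    have h5 : ε / (κ + 1) * (κ * ((wdist S 1 g : ℝ) + N + 1)) =
      ε * ((wdist S 1 g : ℝ) + N + 1) * (κ / (κ + 1)) := by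
      field_simp
    rw [h5]
    have h6 : κ / (κ + 1) ≤ 1 := by rw [div_le_one (by linarith)]; linarith
    have h7 : 0 ≤ ε * ((wdist S 1 g : ℝ) + N + 1) := by positivity
    nlinarith
  have := le_max_left B 0
  linarith

theorem near_H' (hS : Gen S) (H : Subgroup G) [H.Normal] {f : G} (hfH : f ∈ H)
    (hf : IsUndist S f)
    (hU : ∀ K C : ℝ, 1 ≤ K → 0 ≤ C → ∃ M : ℝ, ∀ h ∈ H, USeg S K C M 1 h) :
    ∃ E : ℝ, 0 ≤ E ∧ ∀ (g : G) (B : ℕ), ∃ h' ∈ H, B ≤ wdist S 1 h' ∧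
      ∀ γ : ℕ → G, IsGeo S 1 h' γ → ∃ i ≤ wdist S 1 h', (wdist S g (γ i) : ℝ) ≤ E := by
  obtain ⟨K, C, κ, hK, hC, hκ, hcore⟩ := near_core hS H hfH hf
  obtain ⟨M, hM⟩ := hU K C hK hC
  refine ⟨max M 0, le_max_right _ _, fun g N => ?_⟩
  obtain ⟨h', hh', h1, h2, T, c, hT, hc, h0, hT1, t, ht, hct⟩ := hcore g N
  refine ⟨h', hh', h1, fun γ hγ => ?_⟩
  obtain ⟨i, hi, hi'⟩ := hM h' hh' T c hT hc h0 hT1 γ hγ t ht
  rw [hct] at hi'
  exact ⟨i, hi, hi'.trans (le_max_left _ _)⟩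

end Pool.Agent.HMB
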