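import Pool.Agent.HMB.QG
import Pool.Agent.HMB.NearCore
import Pool.Agent.HMB.Four
import Pool.Agent.MHN.Final

/-!
Module StepTwo: if all elements of `H` are uniformly Morse then `G` is hyperbolic.

`hU` and left invariance: for `h₁ h₂ ∈ H`, `USeg S K C M h₁ h₂` (translate `c` and `γ` by `h₁⁻¹`).

`near_H` : for `g ∈ G`, `B` there is `h' ∈ H` with `|h'| ≥ B` such that `g` is within `E` of every
geodesic from `1` to `h'`; `E` does not depend on `g`, `B`. Proof: `IsMorse f` gives `Kf, Cf` with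
`|m - n| / Kf - Cf ≤ d (f^m) (f^n) ≤ Kf |m - n| + Cf`. For `n` large let
`c₀ t = g * f ^ (⌊t⌋ - n)`, `t ∈ [0, 2n]`: a `(Kf, Kf + Cf + 1)`-quasi-geodesic with `c₀ n = g`.
`u = g f^(-n) g⁻¹`, `v = g f^n g⁻¹` are in `H` and at distance `|g|` from `c₀ 0`, `c₀ (2n)`.
`qg_two` (with `R = |g|`, last clause, `t = n` is in the allowed range for `n` large) gives a
quasi-geodesic `c` from `u` to `v` with `c t' = g`. Let `τ` be a minimiser for `1` on `c`
(`exists_min`). If `τ ≤ t'`: `qg_pre` with `z = 1`: a quasi-geodesic from `1` to `v` through `g`. If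
`t' ≤ τ`: the same for the reversed path: from `1` to `u` through `g`. Its constants depend only on
`Kf, Cf`; `hU` gives `E`. `|u|, |v| ≥ |f^n| - 2|g| ≥ n / Kf - Cf - 2|g|`.

`star_H` : the hypothesis `hs` of `four_of_star` for `Y = H`, `E = 2 M`, `M` = bound from `hU` for
`kk 1, cc 1 1`: the geodesic `γ` is a `(1,1)`-quasi-geodesic (`qg_geo`), `i` is a minimiser for `y`
also among real parameters; `qg_app` with `z = y` gives a quasi-geodesic from `x` to `y` through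
`γ i`, so `γ i` is within `M` of a point `r` of a geodesic from `x` to `y`, hence
`d x (γ i) + d (γ i) y ≤ d x r + d r y + 2 M = d x y + 2 M`. Same with `qg_pre` for `z`.

`far_H` : hypothesis `hb` of `hyp_of_net`, `E₂ = 2 M + 2 E`: `g = x⁻¹ x'`; `near_H` gives `h'` with
`|h'| ≥ |g| + |x|` (`+ 1`); `a = h' x⁻¹`, `h₁ = x a = x h' x⁻¹ ∈ H`. `γ` a geodesic from `1` to `a`,
`i` the index nearest to `h'`: `d (γ i) h' ≤ d a h' = |x|`, `i ≥ |h'| - |x| ≥ |g|`. By `qg_app` the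
point `z = γ |g|` is on a `(kk 1, cc 1 1)`-quasi-geodesic from `1` to `h'`; so `z` is within `M` of
`γ' i₁` and `g` within `E` of `γ' i₂` (`γ'` a geodesic from `1` to `h'`). `|i₁ - |g|| ≤ M`,
`|i₂ - |g|| ≤ E`, so `d z g ≤ 2 (M + E)` and `|g| + d g a ≤ |g| + d g z + d z a = |a| + d g z`.

`ha` with `E₁ = 2 E`: `near_H` for `h₁⁻¹ x`.
-/

set_option autoImplicit false

namespace Pool.Agent.HMB

open Pool.Agent.MHN

universe u

variable {G : Type u} [Group G] {S : Finset G}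

theorem useg_left {K C M : ℝ} {x y : G} (g : G) (h : USeg S K C M x y) :
    USeg S K C M (g * x) (g * y) := by
  intro T c hT hc h0 h1 γ hγ t ht
  have hd := wdist_left S g x y
  have hγ' : IsGeo S x y (fun i => g⁻¹ * γ i) := by
    obtain ⟨a0, a1, a2⟩ := hγ
    rw [hd] at a1 a2
    refine ⟨?_, ?_, fun i j hij hj => ?_⟩
    · simp only [a0]; group
    · simp only [a1]; group
    · rw [wdist_left]; exact a2 i j hij hj
  obtain ⟨i, hi, hi'⟩ := h T (fun t => g⁻¹ * c t) hT (qg_left g⁻¹ hc) (by simp only [h0]; group)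
    (by simp only [h1]; group) _ hγ' t ht
  rw [wdist_left] at hi'
  exact ⟨i, by rw [hd]; exact hi, hi'⟩

theorem near_H (hS : Gen S) (H : Subgroup G) [H.Normal] {f : G} (hfH : f ∈ H)
    (hf : IsMorse S f)
    (hU : ∀ K C : ℝ, 1 ≤ K → 0 ≤ C → ∃ M : ℝ, ∀ h ∈ H, USeg S K C M 1 h) :
    ∃ E : ℝ, 0 ≤ E ∧ ∀ (g : G) (B : ℕ), ∃ h' ∈ H, B ≤ wdist S 1 h' ∧
      ∀ γ : ℕ → G, IsGeo S 1 h' γ → ∃ i ≤ wdist S 1 h', (wdist S g (γ i) : ℝ) ≤ E :=
  near_H' hS H hfH hf.1 hU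

/-- the pairs of elements of `H` are uniformly Morse -/
theorem StepTwoB_useg (H : Subgroup G) {K C M : ℝ} (hU : ∀ h ∈ H, USeg S K C M 1 h) {x y : G}
    (hx : x ∈ H) (hy : y ∈ H) : USeg S K C M x y := by
  have h := useg_left x (hU (x⁻¹ * y) (H.mul_mem (H.inv_mem hx) hy))
  rwa [mul_one, mul_inv_cancel_left] at h

theorem StepTwoB_geo (hS : Gen S) (x y : G) : ∃ γ : ℕ → G, IsGeo S x y γ := by
  obtain ⟨c, h0, h1, h2⟩ := (gmet hS).geod x y
  exact ⟨c, h0, h1, h2⟩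

/-- a point within `M` of a geodesic almost realises the triangle equality -/
theorem StepTwoB_tri (hS : Gen S) {M : ℝ} {x y p : G} {γ : ℕ → G} (hγ : IsGeo S x y γ) {r : ℕ}
    (hr : r ≤ wdist S x y) (h : (wdist S p (γ r) : ℝ) ≤ M) :
    (wdist S x p : ℝ) + wdist S p y ≤ wdist S x y + 2 * M := by
  obtain ⟨h0, h1, h2⟩ := hγ
  have a1 : wdist S x (γ r) = r := by
    have := h2 0 r (Nat.zero_le _) hr
    rwa [h0, Nat.sub_zero] at this
  have a2 : wdist S (γ r) y = wdist S x y - r := by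
    have := h2 r (wdist S x y) hr le_rfl
    rwa [h1] at this
  have t1 : wdist S x p ≤ wdist S x (γ r) + wdist S (γ r) p := wdist_tri hS _ _ _
  have t2 : wdist S p y ≤ wdist S p (γ r) + wdist S (γ r) y := wdist_tri hS _ _ _
  rw [wdist_comm S (γ r) p, a1] at t1
  rw [a2] at t2
  have e1 : (wdist S x p : ℝ) ≤ r + wdist S p (γ r) := by exact_mod_cast t1
  have e2 : (wdist S p y : ℝ) ≤ wdist S p (γ r) + ((wdist S x y - r : ℕ) : ℝ) := by
    exact_mod_cast t2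
  rw [Nat.cast_sub hr] at e2
  linarith

theorem star_H (hS : Gen S) (H : Subgroup G) {M : ℝ}
    (hU : ∀ h ∈ H, USeg S (kk 1) (cc 1 1) M 1 h) :
    ∀ x ∈ H, ∀ z ∈ H, ∀ y ∈ H, ∀ γ : ℕ → G, γ 0 = x → γ (wdist S x z) = z →
      (∀ i j, i ≤ j → j ≤ wdist S x z → wdist S (γ i) (γ j) = j - i) →
      ∀ i ≤ wdist S x z, (∀ j ≤ wdist S x z, wdist S (γ i) y ≤ wdist S (γ j) y) →
        (wdist S x (γ i) : ℝ) + wdist S (γ i) y ≤ wdist S x y + 2 * M ∧
        (wdist S z (γ i) : ℝ) + wdist S (γ i) y ≤ wdist S z y + 2 * M := by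
  intro x hx z hz y hy γ h0 h1 h2 i hi hmin
  have hγ : IsGeo S x z γ := ⟨h0, h1, h2⟩
  have hc := qg_geo hγ
  have hiR : ((i : ℝ)) ∈ Set.Icc (0 : ℝ) (wdist S x z) :=
    ⟨Nat.cast_nonneg _, by exact_mod_cast hi⟩
  have hmin' : ∀ t ∈ Set.Icc (0 : ℝ) (wdist S x z),
      wdist S ((fun t : ℝ => γ ⌊t⌋₊) (i : ℝ)) y ≤ wdist S ((fun t : ℝ => γ ⌊t⌋₊) t) y := by
    intro t ht
    have h3 : ⌊t⌋₊ ≤ wdist S x z := by
      have := Nat.floor_le_floor ht.2
      rwa [Nat.floor_natCast] at this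
    simpa using hmin _ h3
  constructor
  · obtain ⟨T', c', hT, hq, hend, hag⟩ := qg_app hS le_rfl zero_le_one hc y hiR hmin'
    obtain ⟨γ', hγ'⟩ := StepTwoB_geo hS x y
    have hc0 : c' 0 = x := by
      rw [hag 0 ⟨le_rfl, Nat.cast_nonneg _⟩]
      simpa using h0
    have hci : c' (i : ℝ) = γ i := by
      rw [hag (i : ℝ) ⟨Nat.cast_nonneg _, le_rfl⟩]
      simp
    obtain ⟨r, hr, hr2⟩ := StepTwoB_useg H hU hx hy T' c' ((Nat.cast_nonneg _).trans hT) hq hc0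
      hend γ' hγ' (i : ℝ) ⟨Nat.cast_nonneg _, hT⟩
    rw [hci] at hr2
    exact StepTwoB_tri hS hγ' hr hr2
  · obtain ⟨s, c', hs, hq, hc0, hag⟩ := qg_pre hS le_rfl zero_le_one hc y hiR hmin'
    obtain ⟨γ', hγ'⟩ := StepTwoB_geo hS y z
    have hci : c' s = γ i := by
      have := hag (i : ℝ) ⟨le_rfl, hiR.2⟩
      rw [sub_self, add_zero] at this
      rw [this]
      simp
    have hcT : c' (s + ((wdist S x z : ℝ) - i)) = z := by
      rw [hag _ ⟨hiR.2, le_rfl⟩]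
      simpa using h1
    have hT : 0 ≤ (wdist S x z : ℝ) - i := by linarith [hiR.2]
    obtain ⟨r, hr, hr2⟩ := StepTwoB_useg H hU hy hz _ c' (add_nonneg hs hT) hq hc0 hcT γ' hγ' s
      ⟨hs, by linarith⟩
    rw [hci] at hr2
    have := StepTwoB_tri hS hγ' hr hr2
    rw [wdist_comm S z (γ i), wdist_comm S z y, wdist_comm S (γ i) y]
    rw [add_comm]
    exact this

theorem far_H (hS : Gen S) (H : Subgroup G) [H.Normal] {M E : ℝ} (hM : 0 ≤ M) (hE : 0 ≤ E)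
    (hU : ∀ h ∈ H, USeg S (kk 1) (cc 1 1) M 1 h)
    (hn : ∀ (g : G) (B : ℕ), ∃ h' ∈ H, B ≤ wdist S 1 h' ∧
      ∀ γ : ℕ → G, IsGeo S 1 h' γ → ∃ i ≤ wdist S 1 h', (wdist S g (γ i) : ℝ) ≤ E) :
    ∀ x x' : G, ∃ h₁ ∈ H,
      (wdist S x x' : ℝ) + wdist S x' h₁ ≤ wdist S x h₁ + (2 * M + 2 * E) := by
  intro x x'
  set g : G := x⁻¹ * x' with hg
  obtain ⟨h', hh', hB, hgeo⟩ := hn g (wdist S 1 g + wdist S 1 x)
  set a : G := h' * x⁻¹ with ha
  refine ⟨x * a, ?_, ?_⟩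
  · have : x * a = x * h' * x⁻¹ := by rw [ha, mul_assoc]
    rw [this]
    exact Subgroup.Normal.conj_mem inferInstance h' hh' x
  have e1 : wdist S x x' = wdist S 1 g := by
    have := wdist_left S x 1 g
    rwa [mul_one, hg, mul_inv_cancel_left] at this
  have e2 : wdist S x' (x * a) = wdist S g a := by
    have := wdist_left S x g a
    rwa [hg, mul_inv_cancel_left, ← hg] at this
  have e3 : wdist S x (x * a) = wdist S 1 a := by
    have := wdist_left S x 1 a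
    rwa [mul_one] at this
  rw [e1, e2, e3]
  obtain ⟨γ, hγ⟩ := StepTwoB_geo hS 1 a
  obtain ⟨γ', hγ'⟩ := StepTwoB_geo hS 1 h'
  have h0 := hγ.1
  have h1 := hγ.2.1
  have h2 := hγ.2.2
  have hah : wdist S a h' = wdist S 1 x := by
    rw [wdist_one]
    unfold wdist
    congr 1
    rw [ha]
    group
  -- the nearest point
  obtain ⟨i, hi, hmin⟩ : ∃ i ≤ wdist S 1 a, ∀ j ≤ wdist S 1 a,
      wdist S (γ i) h' ≤ wdist S (γ j) h' := by
    obtain ⟨i, hi, hmin⟩ := Finset.exists_min_image (Finset.range (wdist S 1 a + 1))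
      (fun j => wdist S (γ j) h') ⟨0, by simp⟩
    rw [Finset.mem_range, Nat.lt_succ_iff] at hi
    exact ⟨i, hi, fun j hj => hmin j (Finset.mem_range.2 (Nat.lt_succ_iff.2 hj))⟩
  have hi1 : wdist S (γ i) h' ≤ wdist S 1 x := by
    have := hmin _ le_rfl
    rwa [h1, hah] at this
  have hi0 : wdist S 1 (γ i) = i := by
    have := h2 0 i (Nat.zero_le _) hi
    rwa [h0, Nat.sub_zero] at this
  have hgi : wdist S 1 g ≤ i := by
    have t := wdist_tri hS 1 (γ i) h'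
    omega
  have hc := qg_geo hγ
  have hiR : ((i : ℝ)) ∈ Set.Icc (0 : ℝ) (wdist S 1 a) :=
    ⟨Nat.cast_nonneg _, by exact_mod_cast hi⟩
  have hmin' : ∀ t ∈ Set.Icc (0 : ℝ) (wdist S 1 a),
      wdist S ((fun t : ℝ => γ ⌊t⌋₊) (i : ℝ)) h' ≤ wdist S ((fun t : ℝ => γ ⌊t⌋₊) t) h' := by
    intro t ht
    have h3 : ⌊t⌋₊ ≤ wdist S 1 a := by
      have := Nat.floor_le_floor ht.2
      rwa [Nat.floor_natCast] at this
    simpa using hmin _ h3
  obtain ⟨T', c', hT, hq, hend, hag⟩ := qg_app hS le_rfl zero_le_one hc h' hiR hmin'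
  have hc0 : c' 0 = 1 := by
    rw [hag 0 ⟨le_rfl, Nat.cast_nonneg _⟩]
    simpa using h0
  have hgR : ((wdist S 1 g : ℕ) : ℝ) ≤ i := by exact_mod_cast hgi
  have hcg : c' (wdist S 1 g : ℝ) = γ (wdist S 1 g) := by
    rw [hag _ ⟨Nat.cast_nonneg _, hgR⟩]
    simp
  obtain ⟨i₁, hi₁, hi₁'⟩ := hU h' hh' T' c' ((Nat.cast_nonneg _).trans hT) hq hc0 hend γ' hγ'
    (wdist S 1 g : ℝ) ⟨Nat.cast_nonneg _, hgR.trans hT⟩
  rw [hcg] at hi₁'
  obtain ⟨i₂, hi₂, hi₂'⟩ := hgeo γ' hγ'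
  set z : G := γ (wdist S 1 g) with hz
  have b0 : wdist S 1 z = wdist S 1 g := by
    have := h2 0 (wdist S 1 g) (Nat.zero_le _) (hgi.trans hi)
    rwa [h0, Nat.sub_zero] at this
  have b1 : wdist S z a = wdist S 1 a - wdist S 1 g := by
    have := h2 (wdist S 1 g) (wdist S 1 a) (hgi.trans hi) le_rfl
    rwa [h1] at this
  have g0 := hγ'.1
  have g2 := hγ'.2.2
  have c1 : wdist S 1 (γ' i₁) = i₁ := by
    have := g2 0 i₁ (Nat.zero_le _) hi₁
    rwa [g0, Nat.sub_zero] at this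
  have c2 : wdist S 1 (γ' i₂) = i₂ := by
    have := g2 0 i₂ (Nat.zero_le _) hi₂
    rwa [g0, Nat.sub_zero] at this
  -- `|i₁ - |g|| ≤ M`, `|i₂ - |g|| ≤ E`
  have t1 : wdist S 1 (γ' i₁) ≤ wdist S 1 z + wdist S z (γ' i₁) := wdist_tri hS _ _ _
  have t2 : wdist S 1 z ≤ wdist S 1 (γ' i₁) + wdist S (γ' i₁) z := wdist_tri hS _ _ _
  have t3 : wdist S 1 (γ' i₂) ≤ wdist S 1 g + wdist S g (γ' i₂) := wdist_tri hS _ _ _
  have t4 : wdist S 1 g ≤ wdist S 1 (γ' i₂) + wdist S (γ' i₂) g := wdist_tri hS _ _ _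
  rw [wdist_comm S (γ' i₁) z] at t2
  rw [wdist_comm S (γ' i₂) g] at t4
  rw [c1, b0] at t1 t2
  rw [c2] at t3 t4
  have d12 : (wdist S (γ' i₁) (γ' i₂) : ℝ) ≤ M + E := by
    have u1 : (i₁ : ℝ) ≤ wdist S 1 g + wdist S z (γ' i₁) := by exact_mod_cast t1
    have u2 : (wdist S 1 g : ℝ) ≤ i₁ + wdist S z (γ' i₁) := by exact_mod_cast t2
    have u3 : (i₂ : ℝ) ≤ wdist S 1 g + wdist S g (γ' i₂) := by exact_mod_cast t3
    have u4 : (wdist S 1 g : ℝ) ≤ i₂ + wdist S g (γ' i₂) := by exact_mod_cast t4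
    rcases le_total i₁ i₂ with h | h
    · rw [g2 i₁ i₂ h hi₂, Nat.cast_sub h]
      linarith
    · rw [wdist_comm, g2 i₂ i₁ h hi₁, Nat.cast_sub h]
      linarith
  have s1 : wdist S g a ≤ wdist S g (γ' i₂) + wdist S (γ' i₂) a := wdist_tri hS _ _ _
  have s2 : wdist S (γ' i₂) a ≤ wdist S (γ' i₂) (γ' i₁) + wdist S (γ' i₁) a := wdist_tri hS _ _ _
  have s3 : wdist S (γ' i₁) a ≤ wdist S (γ' i₁) z + wdist S z a := wdist_tri hS _ _ _
  rw [wdist_comm S (γ' i₂) (γ' i₁)] at s2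
  rw [wdist_comm S (γ' i₁) z, b1] at s3
  have s1' : (wdist S g a : ℝ) ≤ wdist S g (γ' i₂) + wdist S (γ' i₂) a := by exact_mod_cast s1
  have s2' : (wdist S (γ' i₂) a : ℝ) ≤ wdist S (γ' i₁) (γ' i₂) + wdist S (γ' i₁) a := by
    exact_mod_cast s2
  have s3' : (wdist S (γ' i₁) a : ℝ) ≤ wdist S z (γ' i₁) +
      ((wdist S 1 a - wdist S 1 g : ℕ) : ℝ) := by exact_mod_cast s3
  rw [Nat.cast_sub (hgi.trans hi)] at s3'
  linarith

theorem hyp_of_useg (hS : Gen S) (H : Subgroup G) [H.Normal] {f : G} (hfH : f ∈ H)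
    (hf : IsMorse S f)
    (hU : ∀ K C : ℝ, 1 ≤ K → 0 ≤ C → ∃ M : ℝ, ∀ h ∈ H, USeg S K C M 1 h) :
    IsHyperbolicGroup G := by
  obtain ⟨E, hE, hn⟩ := near_H hS H hfH hf hU
  obtain ⟨M₀, hM₀⟩ := hU (kk 1) (cc 1 1) (by norm_num [kk]) (by norm_num [cc])
  set M : ℝ := max M₀ 0 with hM
  have hM0 : 0 ≤ M := le_max_right _ _
  have hUM : ∀ h ∈ H, USeg S (kk 1) (cc 1 1) M 1 h := by
    intro h hh T c hT hc h0 h1 γ hγ t ht
    obtain ⟨i, hi, hi'⟩ := hM₀ h hh T c hT hc h0 h1 γ hγ t ht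
    exact ⟨i, hi, hi'.trans (le_max_left _ _)⟩
  have h4 := four_of_star (gmet hS) (H : Set G) (2 * M)
    (fun x hx z hz y hy => star_H hS H hUM x hx z hz y hy)
  have hyp : Hyp (2 * M + 2 * E + (2 * M + 2 * E)) (wdist S) := by
    refine hyp_of_net (gmet hS) (H : Set G) (2 * M) (2 * E) (2 * M + 2 * E) h4 ?_
      (fun x x' => ?_)
    · intro h₁ hh₁ x
      obtain ⟨h', hh', -, hgeo⟩ := hn (h₁⁻¹ * x) 0
      obtain ⟨γ, hγ⟩ := StepTwoB_geo hS 1 h'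
      obtain ⟨i, hi, hi'⟩ := hgeo γ hγ
      have key := StepTwoB_tri hS hγ hi hi'
      refine ⟨h₁ * h', H.mul_mem hh₁ hh', ?_⟩
      have e1 : wdist S h₁ x = wdist S 1 (h₁⁻¹ * x) := by
        have := wdist_left S h₁ 1 (h₁⁻¹ * x)
        rwa [mul_one, mul_inv_cancel_left] at this
      have e2 : wdist S x (h₁ * h') = wdist S (h₁⁻¹ * x) h' := by
        have := wdist_left S h₁ (h₁⁻¹ * x) h'
        rwa [mul_inv_cancel_left] at this
      have e3 : wdist S h₁ (h₁ * h') = wdist S 1 h' := by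
        have := wdist_left S h₁ 1 h'
        rwa [mul_one] at this
      rw [e1, e2, e3]
      exact key
    · exact far_H hS H hM0 hE hUM hn x x'
  exact ⟨S, hS, _, hyp⟩

end Pool.Agent.HMB
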