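import Pool.Agent.HMB.QG
import Pool.Agent.HMB.Four
import Pool.Agent.HMB.FourS
import Pool.Agent.HMB.Gap
import Pool.Agent.HMB.DefsS
import Pool.Agent.HMB.StepTwo

/-!
Module StepTwoS: the sublinear version of `StepTwo` (see its comment; the constructions are the
same, only the sizes have to be controlled).

`near_S`: `κ` depends only on the constants `Kf, Cf` of `f`. With `R = |g|` take
`n = ⌈λ (|g| + N + 1)⌉₊`, `λ` a constant with `λ ≥ kk K₀ (2 + cc K₀ C₀)`, `λ ≥ K₀ (2 + C₀)`,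
`λ ≥ Kf (3 + Cf)`, where `K₀ = Kf`, `C₀ = Kf + Cf + 1`. Then `N ≤ |h'| ≤ κ (|g| + N + 1)`. Apply `hU`
with `ε / (κ + 1)`.

`star_S`: as `star_H` with `M` replaced by `ε d x y + B` resp. `ε d z y + B` (`USeg` for the pair
`x, y` comes from the pair `1, x⁻¹ y` by `useg_left`; `d 1 (x⁻¹ y) = d x y`).

`far_S`: as `far_H`. `|x|, |x'| ≤ D`, `g = x⁻¹ x'`, `|g| ≤ 2 D`, `N = 3 D`; `h₁ = x h' x⁻¹`,
`|h₁| ≤ |h'| + 2 D`.

`hyp_of_usub`: `net_S` with `o = 1`, `Y = H` gives the four-point condition with sublinear defect for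
points in the ball of radius `D` around `1`; by left invariance (translate by `x⁻¹`) for all
quadruples with mutual distances `≤ D`. Then `gap`.
-/

set_option autoImplicit false

namespace Pool.Agent.HMB

open Pool.Agent.MHN

universe u

variable {G : Type u} [Group G] {S : Finset G}

theorem near_S (hS : Gen S) (H : Subgroup G) [H.Normal] {f : G} (hfH : f ∈ H)
    (hf : IsUndist S f)
    (hU : ∀ K C : ℝ, 1 ≤ K → 0 ≤ C → ∀ ε : ℝ, 0 < ε → ∃ B : ℝ, ∀ h ∈ H,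
      USeg S K C (ε * wdist S 1 h + B) 1 h) :
    ∃ κ : ℝ, 0 ≤ κ ∧ ∀ ε : ℝ, 0 < ε → ∃ E : ℝ, 0 ≤ E ∧ ∀ (g : G) (N : ℕ), ∃ h' ∈ H,
      N ≤ wdist S 1 h' ∧ (wdist S 1 h' : ℝ) ≤ κ * (wdist S 1 g + N + 1) ∧
      ∀ γ : ℕ → G, IsGeo S 1 h' γ → ∃ i ≤ wdist S 1 h',
        (wdist S g (γ i) : ℝ) ≤ ε * (wdist S 1 g + N + 1) + E :=
  near_S' hS H hfH hf hU

/-- left translation by `x` -/
theorem StepTwoSB_dist (x g : G) : wdist S x (x * g) = wdist S 1 g := by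
  have := wdist_left S x 1 g
  rwa [mul_one] at this

theorem StepTwoSB_dist' (x y : G) : wdist S 1 (x⁻¹ * y) = wdist S x y := by
  rw [← StepTwoSB_dist x (x⁻¹ * y), mul_inv_cancel_left]

/-- the pairs of elements of `H` are uniformly sublinearly Morse -/
theorem StepTwoSB_useg (H : Subgroup G) {K C ε B : ℝ}
    (hU : ∀ h ∈ H, USeg S K C (ε * wdist S 1 h + B) 1 h) {x y : G}
    (hx : x ∈ H) (hy : y ∈ H) : USeg S K C (ε * wdist S x y + B) x y := by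
  have h := useg_left x (hU (x⁻¹ * y) (H.mul_mem (H.inv_mem hx) hy))
  rwa [mul_one, mul_inv_cancel_left, StepTwoSB_dist'] at h

theorem StepTwoSB_floor {n : ℕ} {t : ℝ} (ht : t ≤ n) : ⌊t⌋₊ ≤ n := by
  have := Nat.floor_le_floor ht
  rwa [Nat.floor_natCast] at this

theorem star_S (hS : Gen S) (H : Subgroup G) {ε B : ℝ}
    (hU : ∀ h ∈ H, USeg S (kk 1) (cc 1 1) (ε * wdist S 1 h + B) 1 h) :
    ∀ x ∈ H, ∀ z ∈ H, ∀ y ∈ H, ∀ γ : ℕ → G, γ 0 = x → γ (wdist S x z) = z →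
      (∀ i j, i ≤ j → j ≤ wdist S x z → wdist S (γ i) (γ j) = j - i) →
      ∀ i ≤ wdist S x z, (∀ j ≤ wdist S x z, wdist S (γ i) y ≤ wdist S (γ j) y) →
        (wdist S x (γ i) : ℝ) + wdist S (γ i) y ≤ wdist S x y
          + (2 * ε * wdist S x y + 2 * B) ∧
        (wdist S z (γ i) : ℝ) + wdist S (γ i) y ≤ wdist S z y
          + (2 * ε * wdist S z y + 2 * B) := by
  intro x hx z hz y hy γ h0 h1 h2 i hi hmin
  have hγ : IsGeo S x z γ := ⟨h0, h1, h2⟩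
  have hc := qg_geo hγ
  have hiR : ((i : ℝ)) ∈ Set.Icc (0 : ℝ) (wdist S x z) :=
    ⟨Nat.cast_nonneg _, by exact_mod_cast hi⟩
  have hmin' : ∀ t ∈ Set.Icc (0 : ℝ) (wdist S x z),
      wdist S ((fun t : ℝ => γ ⌊t⌋₊) (i : ℝ)) y ≤ wdist S ((fun t : ℝ => γ ⌊t⌋₊) t) y := by
    intro t ht
    simpa using hmin _ (StepTwoSB_floor ht.2)
  constructor
  · obtain ⟨T', c', hT, hq, hend, hag⟩ := qg_app hS le_rfl zero_le_one hc y hiR hmin'
    obtain ⟨γ', hγ'⟩ := StepTwoB_geo hS x y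
    have hc0 : c' 0 = x := by
      rw [hag 0 ⟨le_rfl, Nat.cast_nonneg _⟩]
      simpa using h0
    have hci : c' (i : ℝ) = γ i := by
      rw [hag (i : ℝ) ⟨Nat.cast_nonneg _, le_rfl⟩]
      simp
    obtain ⟨r, hr, hr2⟩ := StepTwoSB_useg H hU hx hy T' c' ((Nat.cast_nonneg _).trans hT) hq hc0
      hend γ' hγ' (i : ℝ) ⟨Nat.cast_nonneg _, hT⟩
    rw [hci] at hr2
    have := StepTwoB_tri hS hγ' hr hr2
    linarith
  · obtain ⟨s, c', hs, hq, hc0, hag⟩ := qg_pre hS le_rfl zero_le_one hc y hiR hmin'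
    obtain ⟨γ', hγ'⟩ := StepTwoB_geo hS y z
    have hci : c' s = γ i := by
      have := hag (i : ℝ) ⟨le_rfl, hiR.2⟩
      rw [sub_self, add_zero] at this
      rw [this]
      simp
    have hcT : c' (s + ((wdist S x z : ℝ) - i)) = z := by
      rw [hag _ ⟨hiR.2, le_rfl⟩]
      simpa using h1
    have hT : 0 ≤ (wdist S x z : ℝ) - i := by linarith [hiR.2]
    obtain ⟨r, hr, hr2⟩ := StepTwoSB_useg H hU hy hz _ c' (add_nonneg hs hT) hq hc0 hcT γ' hγ' s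
      ⟨hs, by linarith⟩
    rw [hci] at hr2
    have := StepTwoB_tri hS hγ' hr hr2
    rw [wdist_comm S z (γ i), wdist_comm S z y, wdist_comm S (γ i) y]
    linarith

/-- the construction of `far_H` for one triple `x`, `x'`, `h'` -/
theorem StepTwoSB_far (hS : Gen S) {M E : ℝ} {x x' h' : G}
    (hU : USeg S (kk 1) (cc 1 1) M 1 h')
    (hB : wdist S 1 (x⁻¹ * x') + wdist S 1 x ≤ wdist S 1 h')
    (hgeo : ∀ γ : ℕ → G, IsGeo S 1 h' γ → ∃ i ≤ wdist S 1 h',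
      (wdist S (x⁻¹ * x') (γ i) : ℝ) ≤ E) :
    (wdist S x x' : ℝ) + wdist S x' (x * (h' * x⁻¹)) ≤
      wdist S x (x * (h' * x⁻¹)) + (2 * M + 2 * E) := by
  set g : G := x⁻¹ * x' with hg
  set a : G := h' * x⁻¹ with ha
  have e1 : wdist S x x' = wdist S 1 g := (StepTwoSB_dist' x x').symm
  have e2 : wdist S x' (x * a) = wdist S g a := by
    have := wdist_left S x g a
    rwa [hg, mul_inv_cancel_left, ← hg] at this
  have e3 : wdist S x (x * a) = wdist S 1 a := StepTwoSB_dist x a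
  rw [e1, e2, e3]
  obtain ⟨γ, hγ⟩ := StepTwoB_geo hS 1 a
  obtain ⟨γ', hγ'⟩ := StepTwoB_geo hS 1 h'
  have h0 := hγ.1
  have h1 := hγ.2.1
  have h2 := hγ.2.2
  have hah : wdist S a h' = wdist S 1 x := by
    rw [wdist_one]
    unfold wdist
    congr 1
    rw [ha]
    group
  -- the nearest point
  obtain ⟨i, hi, hmin⟩ : ∃ i ≤ wdist S 1 a, ∀ j ≤ wdist S 1 a,
      wdist S (γ i) h' ≤ wdist S (γ j) h' := by
    obtain ⟨i, hi, hmin⟩ := Finset.exists_min_image (Finset.range (wdist S 1 a + 1))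
      (fun j => wdist S (γ j) h') ⟨0, by simp⟩
    rw [Finset.mem_range, Nat.lt_succ_iff] at hi
    exact ⟨i, hi, fun j hj => hmin j (Finset.mem_range.2 (Nat.lt_succ_iff.2 hj))⟩
  have hi1 : wdist S (γ i) h' ≤ wdist S 1 x := by
    have := hmin _ le_rfl
    rwa [h1, hah] at this
  have hi0 : wdist S 1 (γ i) = i := by
    have := h2 0 i (Nat.zero_le _) hi
    rwa [h0, Nat.sub_zero] at this
  have hgi : wdist S 1 g ≤ i := by
    have t := wdist_tri hS 1 (γ i) h'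
    omega
  have hc := qg_geo hγ
  have hiR : ((i : ℝ)) ∈ Set.Icc (0 : ℝ) (wdist S 1 a) :=
    ⟨Nat.cast_nonneg _, by exact_mod_cast hi⟩
  have hmin' : ∀ t ∈ Set.Icc (0 : ℝ) (wdist S 1 a),
      wdist S ((fun t : ℝ => γ ⌊t⌋₊) (i : ℝ)) h' ≤ wdist S ((fun t : ℝ => γ ⌊t⌋₊) t) h' := by
    intro t ht
    simpa using hmin _ (StepTwoSB_floor ht.2)
  obtain ⟨T', c', hT, hq, hend, hag⟩ := qg_app hS le_rfl zero_le_one hc h' hiR hmin'
  have hc0 : c' 0 = 1 := by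
    rw [hag 0 ⟨le_rfl, Nat.cast_nonneg _⟩]
    simpa using h0
  have hgR : ((wdist S 1 g : ℕ) : ℝ) ≤ i := by exact_mod_cast hgi
  have hcg : c' (wdist S 1 g : ℝ) = γ (wdist S 1 g) := by
    rw [hag _ ⟨Nat.cast_nonneg _, hgR⟩]
    simp
  obtain ⟨i₁, hi₁, hi₁'⟩ := hU T' c' ((Nat.cast_nonneg _).trans hT) hq hc0 hend γ' hγ'
    (wdist S 1 g : ℝ) ⟨Nat.cast_nonneg _, hgR.trans hT⟩
  rw [hcg] at hi₁'
  obtain ⟨i₂, hi₂, hi₂'⟩ := hgeo γ' hγ'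
  set z : G := γ (wdist S 1 g) with hz
  have b0 : wdist S 1 z = wdist S 1 g := by
    have := h2 0 (wdist S 1 g) (Nat.zero_le _) (hgi.trans hi)
    rwa [h0, Nat.sub_zero] at this
  have b1 : wdist S z a = wdist S 1 a - wdist S 1 g := by
    have := h2 (wdist S 1 g) (wdist S 1 a) (hgi.trans hi) le_rfl
    rwa [h1] at this
  have g0 := hγ'.1
  have g2 := hγ'.2.2
  have c1 : wdist S 1 (γ' i₁) = i₁ := by
    have := g2 0 i₁ (Nat.zero_le _) hi₁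
    rwa [g0, Nat.sub_zero] at this
  have c2 : wdist S 1 (γ' i₂) = i₂ := by
    have := g2 0 i₂ (Nat.zero_le _) hi₂
    rwa [g0, Nat.sub_zero] at this
  have t1 : wdist S 1 (γ' i₁) ≤ wdist S 1 z + wdist S z (γ' i₁) := wdist_tri hS _ _ _
  have t2 : wdist S 1 z ≤ wdist S 1 (γ' i₁) + wdist S (γ' i₁) z := wdist_tri hS _ _ _
  have t3 : wdist S 1 (γ' i₂) ≤ wdist S 1 g + wdist S g (γ' i₂) := wdist_tri hS _ _ _
  have t4 : wdist S 1 g ≤ wdist S 1 (γ' i₂) + wdist S (γ' i₂) g := wdist_tri hS _ _ _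
  rw [wdist_comm S (γ' i₁) z] at t2
  rw [wdist_comm S (γ' i₂) g] at t4
  rw [c1, b0] at t1 t2
  rw [c2] at t3 t4
  have d12 : (wdist S (γ' i₁) (γ' i₂) : ℝ) ≤ M + E := by
    have u1 : (i₁ : ℝ) ≤ wdist S 1 g + wdist S z (γ' i₁) := by exact_mod_cast t1
    have u2 : (wdist S 1 g : ℝ) ≤ i₁ + wdist S z (γ' i₁) := by exact_mod_cast t2
    have u3 : (i₂ : ℝ) ≤ wdist S 1 g + wdist S g (γ' i₂) := by exact_mod_cast t3
    have u4 : (wdist S 1 g : ℝ) ≤ i₂ + wdist S g (γ' i₂) := by exact_mod_cast t4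
    rcases le_total i₁ i₂ with h | h
    · rw [g2 i₁ i₂ h hi₂, Nat.cast_sub h]
      linarith
    · rw [wdist_comm, g2 i₂ i₁ h hi₁, Nat.cast_sub h]
      linarith
  have s1 : wdist S g a ≤ wdist S g (γ' i₂) + wdist S (γ' i₂) a := wdist_tri hS _ _ _
  have s2 : wdist S (γ' i₂) a ≤ wdist S (γ' i₂) (γ' i₁) + wdist S (γ' i₁) a := wdist_tri hS _ _ _
  have s3 : wdist S (γ' i₁) a ≤ wdist S (γ' i₁) z + wdist S z a := wdist_tri hS _ _ _
  rw [wdist_comm S (γ' i₂) (γ' i₁)] at s2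
  rw [wdist_comm S (γ' i₁) z, b1] at s3
  have s1' : (wdist S g a : ℝ) ≤ wdist S g (γ' i₂) + wdist S (γ' i₂) a := by exact_mod_cast s1
  have s2' : (wdist S (γ' i₂) a : ℝ) ≤ wdist S (γ' i₁) (γ' i₂) + wdist S (γ' i₁) a := by
    exact_mod_cast s2
  have s3' : (wdist S (γ' i₁) a : ℝ) ≤ wdist S z (γ' i₁) +
      ((wdist S 1 a - wdist S 1 g : ℕ) : ℝ) := by exact_mod_cast s3
  rw [Nat.cast_sub (hgi.trans hi)] at s3'
  linarith

theorem far_S (hS : Gen S) (H : Subgroup G) [H.Normal] {κ : ℝ} (hκ : 0 ≤ κ)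
    (hU : ∀ ε : ℝ, 0 < ε → ∃ B : ℝ, ∀ h ∈ H,
      USeg S (kk 1) (cc 1 1) (ε * wdist S 1 h + B) 1 h)
    (hn : ∀ ε : ℝ, 0 < ε → ∃ E : ℝ, 0 ≤ E ∧ ∀ (g : G) (N : ℕ), ∃ h' ∈ H,
      N ≤ wdist S 1 h' ∧ (wdist S 1 h' : ℝ) ≤ κ * (wdist S 1 g + N + 1) ∧
      ∀ γ : ℕ → G, IsGeo S 1 h' γ → ∃ i ≤ wdist S 1 h',
        (wdist S g (γ i) : ℝ) ≤ ε * (wdist S 1 g + N + 1) + E) :
    ∃ κ' : ℝ, 0 ≤ κ' ∧ ∀ ε : ℝ, 0 < ε → ∃ E : ℝ, ∀ (x x' : G) (D : ℕ), wdist S 1 x ≤ D →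
      wdist S 1 x' ≤ D → ∃ h₁ ∈ H, (wdist S 1 h₁ : ℝ) ≤ κ' * (D + 1) ∧
        (wdist S x x' : ℝ) + wdist S x' h₁ ≤ wdist S x h₁ + (ε * (D + 1) + E) := by
  refine ⟨5 * κ + 2, by positivity, fun ε hε => ?_⟩
  obtain ⟨B₁, hB₁⟩ := hU (ε / (20 * (κ + 1))) (by positivity)
  obtain ⟨E₂, hE₂, hn₂⟩ := hn (ε / 20) (by positivity)
  refine ⟨2 * B₁ + 2 * E₂, fun x x' D hx hx' => ?_⟩
  obtain ⟨h', hh', hN, hle, hgeo⟩ := hn₂ (x⁻¹ * x') (3 * D)
  have hg : wdist S 1 (x⁻¹ * x') ≤ 2 * D := by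
    rw [StepTwoSB_dist']
    have := wdist_tri hS x 1 x'
    rw [wdist_comm S x 1] at this
    omega
  have hgR : (wdist S 1 (x⁻¹ * x') : ℝ) ≤ 2 * D := by exact_mod_cast hg
  have hD : (0 : ℝ) ≤ D := Nat.cast_nonneg _
  have hsum : (wdist S 1 (x⁻¹ * x') : ℝ) + ((3 * D : ℕ) : ℝ) + 1 ≤ 5 * (D + 1) := by
    push_cast
    linarith
  have hh'le : (wdist S 1 h' : ℝ) ≤ 5 * κ * (D + 1) := by
    calc (wdist S 1 h' : ℝ) ≤ κ * (wdist S 1 (x⁻¹ * x') + ((3 * D : ℕ) : ℝ) + 1) := hle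
      _ ≤ κ * (5 * (D + 1)) := by gcongr
      _ = 5 * κ * (D + 1) := by ring
  refine ⟨x * (h' * x⁻¹), ?_, ?_, ?_⟩
  · have : x * (h' * x⁻¹) = x * h' * x⁻¹ := by rw [mul_assoc]
    rw [this]
    exact Subgroup.Normal.conj_mem inferInstance h' hh' x
  · have t1 : wlen S (x * (h' * x⁻¹)) ≤ wlen S x + wlen S (h' * x⁻¹) := wlen_mul hS _ _
    have t2 : wlen S (h' * x⁻¹) ≤ wlen S h' + wlen S x⁻¹ := wlen_mul hS _ _
    rw [wlen_inv] at t2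
    rw [wdist_one] at hx
    have t3 : wdist S 1 (x * (h' * x⁻¹)) ≤ wdist S 1 h' + 2 * D := by
      rw [wdist_one, wdist_one]
      omega
    have t4 : (wdist S 1 (x * (h' * x⁻¹)) : ℝ) ≤ wdist S 1 h' + 2 * D := by exact_mod_cast t3
    nlinarith
  · have key := StepTwoSB_far hS (x := x) (x' := x') (h' := h') (hB₁ h' hh') (by omega) hgeo
    have m1 : ε / (20 * (κ + 1)) * (wdist S 1 h' : ℝ) ≤ ε / 4 * (D + 1) := by
      calc ε / (20 * (κ + 1)) * (wdist S 1 h' : ℝ)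
          ≤ ε / (20 * (κ + 1)) * (5 * κ * (D + 1)) := by gcongr
        _ ≤ ε / (20 * (κ + 1)) * (5 * (κ + 1) * (D + 1)) := by gcongr; linarith
        _ = ε / 4 * (D + 1) := by
          field_simp
          ring
    have m2 : ε / 20 * ((wdist S 1 (x⁻¹ * x') : ℝ) + ((3 * D : ℕ) : ℝ) + 1) ≤
        ε / 4 * (D + 1) := by
      calc ε / 20 * ((wdist S 1 (x⁻¹ * x') : ℝ) + ((3 * D : ℕ) : ℝ) + 1)
          ≤ ε / 20 * (5 * (D + 1)) := by gcongr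
        _ = ε / 4 * (D + 1) := by ring
    linarith

theorem hyp_of_near (hS : Gen S) (H : Subgroup G) [H.Normal] {κ : ℝ} (hκ : 0 ≤ κ)
    (hn : ∀ ε : ℝ, 0 < ε → ∃ E : ℝ, 0 ≤ E ∧ ∀ (g : G) (N : ℕ), ∃ h' ∈ H,
      N ≤ wdist S 1 h' ∧ (wdist S 1 h' : ℝ) ≤ κ * (wdist S 1 g + N + 1) ∧
      ∀ γ : ℕ → G, IsGeo S 1 h' γ → ∃ i ≤ wdist S 1 h',
        (wdist S g (γ i) : ℝ) ≤ ε * (wdist S 1 g + N + 1) + E)
    (hU1 : ∀ ε : ℝ, 0 < ε → ∃ B : ℝ, ∀ h ∈ H,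
      USeg S (kk 1) (cc 1 1) (ε * wdist S 1 h + B) 1 h) :
    IsHyperbolicGroup G := by
  obtain ⟨κ', hκ', hfar⟩ := far_S hS H hκ hU1 hn
  have hnet := net_S (gmet hS) (1 : G) (H : Set G) (max κ κ') (hκ.trans (le_max_left _ _))
    (fun ε hε => ?_) (fun ε hε => ?_) (fun ε hε => ?_)
  · have hhyp : ∃ δ : ℝ, Hyp δ (wdist S) := by
      refine gap (gmet hS) (fun ε hε => ?_)
      obtain ⟨E, hE⟩ := hnet ε hε
      refine ⟨E, fun x y z w D hxy hxz hxw _ _ _ => ?_⟩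
      have := hE 1 (x⁻¹ * y) (x⁻¹ * z) (x⁻¹ * w) D (by rw [wdist_self]; exact Nat.zero_le _)
        (by rwa [StepTwoSB_dist']) (by rwa [StepTwoSB_dist']) (by rwa [StepTwoSB_dist'])
      rwa [StepTwoSB_dist', StepTwoSB_dist', StepTwoSB_dist', wdist_left, wdist_left,
        wdist_left] at this
    obtain ⟨δ, hδ⟩ := hhyp
    exact ⟨S, hS, δ, hδ⟩
  · obtain ⟨B, hB⟩ := hU1 (ε / 4) (by positivity)
    have hstar := star_S hS H hB
    have hfour := four_of_star_S (gmet hS) (H : Set G) (η := 2 * (ε / 4)) (B := 2 * B)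
      (by positivity) (fun x hx z hz y hy => hstar x hx z hz y hy)
    refine ⟨4 * B, fun x hx y hy z hz w hw D h1 h2 h3 h4 => ?_⟩
    have := hfour x hx y hy z hz w hw D h1 h2 h3 h4
    calc (wdist S x z : ℝ) + wdist S y w ≤ max ((wdist S x y : ℝ) + wdist S z w)
          ((wdist S y z : ℝ) + wdist S x w) + 2 * (2 * (ε / 4) * D + 2 * B) := this
      _ = max ((wdist S x y : ℝ) + wdist S z w)
          ((wdist S y z : ℝ) + wdist S x w) + (ε * D + 4 * B) := by ring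
  · obtain ⟨E, hE, hn₁⟩ := hn (ε / 2) (by positivity)
    refine ⟨2 * E, fun h₁ hh₁ x D hD => ?_⟩
    obtain ⟨h', hh', -, hle, hgeo⟩ := hn₁ (h₁⁻¹ * x) 0
    obtain ⟨γ, hγ⟩ := StepTwoB_geo hS 1 h'
    obtain ⟨i, hi, hi'⟩ := hgeo γ hγ
    have key := StepTwoB_tri hS hγ hi hi'
    have e1 : wdist S 1 (h₁⁻¹ * x) = wdist S h₁ x := StepTwoSB_dist' h₁ x
    have e2 : wdist S x (h₁ * h') = wdist S (h₁⁻¹ * x) h' := by
      have := wdist_left S h₁ (h₁⁻¹ * x) h'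
      rwa [mul_inv_cancel_left] at this
    have e3 : wdist S h₁ (h₁ * h') = wdist S 1 h' := StepTwoSB_dist h₁ h'
    have hDR : (wdist S h₁ x : ℝ) ≤ D := by exact_mod_cast hD
    refine ⟨h₁ * h', H.mul_mem hh₁ hh', ?_, ?_⟩
    · rw [e3]
      calc (wdist S 1 h' : ℝ) ≤ κ * (wdist S 1 (h₁⁻¹ * x) + ((0 : ℕ) : ℝ) + 1) := hle
        _ ≤ max κ κ' * (D + 1) := by
          rw [e1]
          push_cast
          gcongr
          · exact le_max_left _ _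
          · linarith
    · rw [e2, e3]
      rw [e1] at key
      have : ε / 2 * ((wdist S h₁ x : ℝ) + ((0 : ℕ) : ℝ) + 1) ≤ ε / 2 * (D + 1) := by
        push_cast
        gcongr
        linarith
      linarith
  · obtain ⟨E, hE⟩ := hfar ε hε
    refine ⟨E, fun x x' D hx hx' => ?_⟩
    obtain ⟨h₁, hh₁, hle, h2⟩ := hE x x' D hx hx'
    refine ⟨h₁, hh₁, hle.trans ?_, h2⟩
    gcongr
    exact le_max_right _ _

theorem hyp_of_usub (hS : Gen S) (H : Subgroup G) [H.Normal] {f : G} (hfH : f ∈ H)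
    (hf : IsUndist S f)
    (hU : ∀ K C : ℝ, 1 ≤ K → 0 ≤ C → ∀ ε : ℝ, 0 < ε → ∃ B : ℝ, ∀ h ∈ H,
      USeg S K C (ε * wdist S 1 h + B) 1 h) :
    IsHyperbolicGroup G := by
  obtain ⟨κ, hκ, hn⟩ := near_S hS H hfH hf hU
  exact hyp_of_near hS H hκ hn (hU (kk 1) (cc 1 1) (by norm_num [kk]) (by norm_num [cc]))

end Pool.Agent.HMB
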