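import Pool.Agent.HMB.LoxD
import Pool.Agent.HMB.StepTwoS

set_option autoImplicit false

/-!
The elementary case of the sublinear theorem.

`exists_central`: if `⟨h⟩` has finite index in the normal subgroup `H` of `G` then a power `F` of `h`
satisfies `x⁻¹ F x = F^(±1)` for all `x : G`. Hence all points of `G` are moved by `F^k` by the same
amount `|F^k|`. `ElemS_step`: therefore `1` is near a geodesic from `F^(-k)` to `F^k`, or `F^(2k)` is
short. `ElemS_scale`: the first happens at all scales.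
-/

namespace Pool.Agent.HMB

open Pool.Agent.MHN

universe u

private theorem ElemS_index_pow {K : Type*} [Group K] {k : K} (hk : ¬ IsOfFinOrder k) (m : ℤ) :
    (Subgroup.zpowers (k ^ m)).index = m.natAbs * (Subgroup.zpowers k).index := by
  have hinj : Function.Injective (zpowersHom K k) := by
    intro a b hab
    have h1 : k ^ (Multiplicative.toAdd a) = k ^ (Multiplicative.toAdd b) := by
      simpa [zpowersHom_apply] using hab
    have h2 := injective_zpow_iff_not_isOfFinOrder.2 hk h1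
    exact Multiplicative.toAdd.injective h2
  have hle : Subgroup.zpowers (k ^ m) ≤ Subgroup.zpowers k := by
    rw [Subgroup.zpowers_le]
    exact Subgroup.zpow_mem _ (Subgroup.mem_zpowers k) m
  rw [← Subgroup.relIndex_mul_index hle]
  congr 1
  have e1 : Subgroup.zpowers (k ^ m) =
      Subgroup.map (zpowersHom K k) (Subgroup.zpowers (Multiplicative.ofAdd m)) := by
    rw [MonoidHom.map_zpowers]
    simp [zpowersHom_apply]
  have e2 : Subgroup.zpowers k = Subgroup.map (zpowersHom K k) ⊤ := by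
    ext z
    simp only [Subgroup.mem_zpowers_iff, Subgroup.mem_map, Subgroup.mem_top, true_and]
    constructor
    · rintro ⟨n, hn⟩
      exact ⟨Multiplicative.ofAdd n, by simpa [zpowersHom_apply] using hn⟩
    · rintro ⟨n, hn⟩
      exact ⟨Multiplicative.toAdd n, by simpa [zpowersHom_apply] using hn⟩
  rw [e1, e2, Subgroup.relIndex_map_map_of_injective _ _ hinj, Subgroup.relIndex_top_right]
  have := Int.index_zmultiples m
  rw [← this]
  rfl

variable {G : Type u} [Group G] {S : Finset G}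

theorem exists_central {H : Subgroup G} [H.Normal] {h : H} (hh : ¬ IsOfFinOrder h)
    (hi : (Subgroup.zpowers h).index ≠ 0) : ∃ F : H, ¬ IsOfFinOrder F ∧
      ∀ x : G, x⁻¹ * (F : G) * x = F ∨ x⁻¹ * (F : G) * x = (F : G)⁻¹ := by
  obtain ⟨N, hN⟩ : ∃ N, N = (Subgroup.zpowers h).index.factorial := ⟨_, rfl⟩
  have hN0 : N ≠ 0 := by rw [hN]; exact Nat.factorial_ne_zero _
  refine ⟨h ^ N, fun hf => hh (hf.of_pow hN0), fun x => ?_⟩
  set φ : H ≃* H := MulAut.conjNormal x⁻¹ with hφ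
  set k : H := φ h with hk
  have hkinf : ¬ IsOfFinOrder k := by
    intro hf
    have := (φ.symm : H →* H).isOfFinOrder hf
    apply hh
    simpa [hk] using this
  have hidx : (Subgroup.zpowers k).index = (Subgroup.zpowers h).index := by
    have := Subgroup.index_map_equiv (Subgroup.zpowers h) φ
    rw [← this]
    congr 1
    exact (MonoidHom.map_zpowers (φ : H →* H) h).symm
  obtain ⟨m, hm0, hmle, hm⟩ := Subgroup.exists_pow_mem_of_index_ne_zero hi k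
  obtain ⟨m', hm'⟩ := Subgroup.mem_zpowers_iff.1 hm
  have hcard : m'.natAbs = m := by
    have h1 := ElemS_index_pow hh m'
    have h2 := ElemS_index_pow hkinf (m : ℤ)
    rw [hm', zpow_natCast] at *
    rw [h1, hidx] at h2
    have := Nat.eq_of_mul_eq_mul_right (Nat.pos_of_ne_zero hi) h2
    simpa using this
  obtain ⟨t, ht⟩ : m ∣ N := by rw [hN]; exact Nat.dvd_factorial hm0 hmle
  have e1 : φ (h ^ N) = k ^ N := by rw [map_pow]
  have e2 : ((φ (h ^ N) : H) : G) = x⁻¹ * ((h ^ N : H) : G) * x := by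
    rw [hφ, MulAut.conjNormal_apply, inv_inv]
  have e3 : k ^ N = h ^ N ∨ k ^ N = (h ^ N)⁻¹ := by
    rw [ht, pow_mul, ← hm']
    rcases Int.natAbs_eq m' with h1 | h1
    · left
      rw [h1, hcard, zpow_natCast, ← pow_mul]
    · right
      rw [h1, hcard, zpow_neg, zpow_natCast, inv_pow, ← pow_mul]
  rw [← e2, e1]
  rcases e3 with h1 | h1
  · left; rw [h1]
  · right; rw [h1, Subgroup.coe_inv]

/-- all points are moved by the same amount -/
private theorem ElemS_disp {F : G} (hF : ∀ x : G, x⁻¹ * F * x = F ∨ x⁻¹ * F * x = F⁻¹) (k : ℕ)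
    (x : G) : wdist S x (F ^ k * x) = wdist S 1 (F ^ k) := by
  have e1 : x⁻¹ * (F ^ k * x) = (x⁻¹ * F * x) ^ k := by
    have := conj_pow (a := x⁻¹) (b := F) (i := k)
    rw [inv_inv] at this
    rw [this, mul_assoc]
  rw [wdist_one]
  unfold wdist
  rw [e1]
  rcases hF x with h | h
  · rw [h]
  · rw [h, inv_pow, wlen_inv]

private theorem ElemS_step (hS : Gen S) {F : G}
    (hF : ∀ x : G, x⁻¹ * F * x = F ∨ x⁻¹ * F * x = F⁻¹) {k : ℕ} {M : ℝ}
    (hU : USeg S (kk 1) (cc 1 1) M 1 (F ^ k)) {γ : ℕ → G}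
    (hγ : IsGeo S (F ^ k)⁻¹ (F ^ k) γ) :
    (∃ i ≤ wdist S (F ^ k)⁻¹ (F ^ k), (wdist S 1 (γ i) : ℝ) ≤ 2 * M) ∨
      (wdist S 1 (F ^ k * F ^ k) : ℝ) ≤ 8 * M := by
  obtain ⟨h, hh⟩ : ∃ h, h = F ^ k := ⟨_, rfl⟩
  have hdisp := ElemS_disp (S := S) hF k
  rw [← hh] at hU hγ ⊢
  simp only [← hh] at hdisp
  have hU' : USeg S (kk 1) (cc 1 1) M h⁻¹ 1 := by
    have := useg_left h⁻¹ hU
    rwa [mul_one, inv_mul_cancel] at this
  have hc := qg_geo hγ
  obtain ⟨τ', hτ', hmin'⟩ := exists_min (S := S)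
    (Nat.cast_nonneg (wdist S h⁻¹ h) : (0 : ℝ) ≤ wdist S h⁻¹ h) (fun t : ℝ => γ ⌊t⌋₊) 1
  obtain ⟨j, hj⟩ : ∃ j, j = ⌊τ'⌋₊ := ⟨_, rfl⟩
  have hjn : j ≤ wdist S h⁻¹ h := by rw [hj]; exact StepTwoSB_floor hτ'.2
  have hjR : ((j : ℝ)) ∈ Set.Icc (0 : ℝ) (wdist S h⁻¹ h) :=
    ⟨Nat.cast_nonneg _, by exact_mod_cast hjn⟩
  have hmin : ∀ t ∈ Set.Icc (0 : ℝ) (wdist S h⁻¹ h),
      wdist S ((fun t : ℝ => γ ⌊t⌋₊) (j : ℝ)) 1 ≤ wdist S ((fun t : ℝ => γ ⌊t⌋₊) t) 1 := by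
    intro t ht
    have := hmin' t ht
    simp only [Nat.floor_natCast]
    rw [hj]
    exact this
  obtain ⟨β, hβ⟩ := StepTwoB_geo hS h⁻¹ 1
  have hα := geo_left h hβ
  rw [mul_inv_cancel, mul_one] at hα
  -- near `β`
  obtain ⟨v, hv, hv'⟩ : ∃ v ≤ wdist S h⁻¹ 1, (wdist S (γ j) (β v) : ℝ) ≤ M := by
    obtain ⟨T', c', hT, hq, hend, hag⟩ := qg_app hS le_rfl zero_le_one hc 1 hjR hmin
    have hc0 : c' 0 = h⁻¹ := by
      rw [hag 0 ⟨le_rfl, Nat.cast_nonneg _⟩]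
      simpa using hγ.1
    have hci : c' (j : ℝ) = γ j := by
      rw [hag (j : ℝ) ⟨Nat.cast_nonneg _, le_rfl⟩]
      simp
    obtain ⟨r, hr, hr2⟩ := hU' T' c' ((Nat.cast_nonneg _).trans hT) hq hc0
      hend β hβ (j : ℝ) ⟨Nat.cast_nonneg _, hT⟩
    rw [hci] at hr2
    exact ⟨r, hr, hr2⟩
  -- near `h β`
  obtain ⟨w, hw, hw'⟩ : ∃ w ≤ wdist S 1 h, (wdist S (γ j) (h * β w) : ℝ) ≤ M := by
    obtain ⟨s, c', hs, hq, hc0, hag⟩ := qg_pre hS le_rfl zero_le_one hc 1 hjR hmin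
    have hci : c' s = γ j := by
      have := hag (j : ℝ) ⟨le_rfl, hjR.2⟩
      rw [sub_self, add_zero] at this
      rw [this]
      simp
    have hcT : c' (s + ((wdist S h⁻¹ h : ℝ) - j)) = h := by
      rw [hag _ ⟨hjR.2, le_rfl⟩]
      simpa using hγ.2.1
    have hT : 0 ≤ (wdist S h⁻¹ h : ℝ) - j := by linarith [hjR.2]
    obtain ⟨r, hr, hr2⟩ := hU _ c' (add_nonneg hs hT) hq hc0 hcT _ hα s ⟨hs, by linarith⟩
    rw [hci] at hr2
    exact ⟨r, hr, hr2⟩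
  have e0 : wdist S h⁻¹ 1 = wdist S 1 h := by
    have := wdist_left S h h⁻¹ 1
    rw [mul_inv_cancel, mul_one] at this
    exact this.symm
  have e0' : (wdist S h⁻¹ 1 : ℝ) = wdist S 1 h := by rw [e0]
  have c1 := Lox_coord hS hβ hv hv'
  have c2 := Lox_coord hS hα hw hw'
  rw [e0'] at c1
  have hv1 : v ≤ wdist S 1 h := by rw [← e0]; exact hv
  have hv2 : (wdist S (h * γ j) (h * β v) : ℝ) ≤ M := by rw [wdist_left]; exact hv'
  have d1 := Lox_two hS hα hw hv1 hw' hv2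
  rw [hdisp] at d1
  rw [abs_le, abs_le] at c1 c2
  obtain ⟨⟨c11, c12⟩, c13, c14⟩ := c1
  obtain ⟨⟨c21, c22⟩, c23, c24⟩ := c2
  rw [Lox_comm (γ j) 1] at c13 c14
  rcases le_or_gt ((wdist S 1 (γ j) : ℝ)) (2 * M) with hgood | hbad
  · left
    exact ⟨j, hjn, hgood⟩
  · right
    have e1 : wdist S h⁻¹ h = wdist S 1 (h * h) := by
      have := wdist_left S h h⁻¹ h
      rw [mul_inv_cancel] at this
      exact this.symm
    have e2 : (wdist S 1 (h * h) : ℝ) = wdist S h⁻¹ h := by rw [e1]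
    have t1 := Lox_tri hS h⁻¹ (γ j) h
    rw [e2]
    rcases abs_cases ((w : ℝ) - v) with ⟨h1, _⟩ | ⟨h1, _⟩ <;> rw [h1] at d1 <;> linarith

/-- At every scale there is a power `F^k` such that `1` is near the geodesics from `F^(-k)` to
`F^k`. -/
theorem ElemS_scale (hS : Gen S) {F : G} (hfin : ¬ IsOfFinOrder F)
    (hF : ∀ x : G, x⁻¹ * F * x = F ∨ x⁻¹ * F * x = F⁻¹)
    (hU : ∀ ε : ℝ, 0 < ε → ∃ B : ℝ, ∀ k : ℕ,
      USeg S (kk 1) (cc 1 1) (ε * wdist S 1 (F ^ k) + B) 1 (F ^ k)) :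
    ∀ ε : ℝ, 0 < ε → ∃ B : ℕ, ∀ R : ℕ, ∃ k : ℕ, R ≤ wdist S 1 (F ^ k) ∧
      wdist S 1 (F ^ k) ≤ 2 * R + B ∧ ∀ γ : ℕ → G, IsGeo S (F ^ k)⁻¹ (F ^ k) γ →
        ∃ i ≤ wdist S (F ^ k)⁻¹ (F ^ k), (wdist S 1 (γ i) : ℝ) ≤ ε * wdist S 1 (F ^ k) + B := by
  classical
  intro ε hε
  obtain ⟨ε', hε'⟩ : ∃ ε' : ℝ, ε' = min (ε / 2) (1 / 32) := ⟨_, rfl⟩
  have hε'0 : 0 < ε' := by rw [hε']; exact lt_min (by positivity) (by norm_num)
  have hε'1 : ε' ≤ ε / 2 := by rw [hε']; exact min_le_left _ _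
  have hε'2 : ε' ≤ 1 / 32 := by rw [hε']; exact min_le_right _ _
  obtain ⟨B₀, hB₀⟩ := hU ε' hε'0
  obtain ⟨b, hb⟩ := exists_nat_ge (max B₀ 0)
  have hbB : B₀ ≤ b := (le_max_left _ _).trans hb
  obtain ⟨ℓ, hℓ⟩ : ∃ ℓ : ℕ → ℕ, ∀ k, ℓ k = wdist S 1 (F ^ k) := ⟨fun k => wdist S 1 (F ^ k), fun _ => rfl⟩
  obtain ⟨L, hL⟩ : ∃ L, L = wlen S F := ⟨_, rfl⟩
  have hup : ∀ k, ℓ (k + 1) ≤ ℓ k + L := by
    intro k
    rw [hℓ, hℓ, wdist_one, wdist_one, pow_succ, hL]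
    exact wlen_mul hS _ _
  have hdown : ∀ k, ℓ k ≤ ℓ (k + 1) + L := by
    intro k
    rw [hℓ, hℓ, wdist_one, wdist_one, hL]
    have h1 := wlen_mul hS (F ^ (k + 1)) F⁻¹
    rw [wlen_inv, pow_succ, mul_inv_cancel_right] at h1
    rw [pow_succ]
    exact h1
  have hunb : ∀ R : ℕ, ∃ k, R ≤ ℓ k := by
    intro R
    by_contra hcon
    push Not at hcon
    have h1 : Function.Injective (fun j : ℕ => F ^ j) := injective_pow_iff_not_isOfFinOrder.2 hfin
    have h2 : (Set.range (fun j : ℕ => F ^ j)).Finite := by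
      apply (wlen_fin hS R).subset
      rintro _ ⟨j, rfl⟩
      have := hcon j
      rw [hℓ, wdist_one] at this
      exact this.le
    exact Set.infinite_range_of_injective h1 h2
  obtain ⟨C, hC⟩ : ∃ C : ℕ, C = 4 * L + 40 * b + 1 := ⟨_, rfl⟩
  refine ⟨C + L + 2 * b, fun R => ?_⟩
  have hex := hunb (2 * R + C)
  obtain ⟨k₀, hk₀⟩ : ∃ k₀, k₀ = Nat.find hex := ⟨_, rfl⟩
  have a1 : 2 * R + C ≤ ℓ k₀ := by rw [hk₀]; exact Nat.find_spec hex
  have a0 : ∀ k, k < k₀ → ℓ k < 2 * R + C := by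
    intro k hk
    rw [hk₀] at hk
    exact not_le.1 (Nat.find_min hex hk)
  have hk₀0 : k₀ ≠ 0 := by
    intro h0
    rw [h0, hℓ, pow_zero, wdist_self] at a1
    omega
  have a2 : ℓ k₀ ≤ 2 * R + C + L := by
    obtain ⟨j, hj⟩ : ∃ j, k₀ = j + 1 := ⟨k₀ - 1, by omega⟩
    have h1 := a0 j (by omega)
    have h2 := hup j
    rw [hj]
    omega
  obtain ⟨j, hj⟩ : ∃ j, j = (k₀ + 1) / 2 := ⟨_, rfl⟩
  have a3 : 2 * R + C ≤ ℓ (j + j) + L := by
    rcases Nat.even_or_odd' k₀ with ⟨m, hm | hm⟩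
    · have : j + j = k₀ := by omega
      rw [this]; omega
    · have : j + j = k₀ + 1 := by omega
      rw [this]
      have := hdown k₀
      omega
  have a4 : ℓ j ≤ 2 * R + C + L := by
    rcases Nat.lt_or_ge j k₀ with h1 | h1
    · have := a0 j h1; omega
    · have : j = k₀ := by omega
      rw [this]; exact a2
  have a5 : ℓ (j + j) ≤ 2 * ℓ j := by
    rw [hℓ, hℓ, wdist_one, wdist_one, pow_add]
    have := wlen_mul hS (F ^ j) (F ^ j)
    omega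
  refine ⟨j, ?_, ?_, fun γ hγ => ?_⟩
  · rw [← hℓ]; omega
  · rw [← hℓ]; omega
  · rcases ElemS_step hS hF (hB₀ j) hγ with ⟨i, hi, hi'⟩ | hbad
    · refine ⟨i, hi, hi'.trans ?_⟩
      push_cast
      have h1 : ε' * (wdist S 1 (F ^ j) : ℝ) ≤ ε / 2 * wdist S 1 (F ^ j) :=
        mul_le_mul_of_nonneg_right hε'1 (Nat.cast_nonneg _)
      have h2 : (0 : ℝ) ≤ C := Nat.cast_nonneg _
      have h3 : (0 : ℝ) ≤ L := Nat.cast_nonneg _
      linarith
    · exfalso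
      rw [← pow_add, ← hℓ, ← hℓ] at hbad
      have h1 : ε' * (ℓ j : ℝ) ≤ 1 / 32 * ℓ j :=
        mul_le_mul_of_nonneg_right hε'2 (Nat.cast_nonneg _)
      have h2 : (ℓ j : ℝ) ≤ 2 * R + C + L := by exact_mod_cast a4
      have h3 : (2 * R + C : ℝ) ≤ ℓ (j + j) + L := by exact_mod_cast a3
      have h4 : (C : ℝ) = 4 * L + 40 * b + 1 := by rw [hC]; push_cast; ring
      have h5 : (0 : ℝ) ≤ L := Nat.cast_nonneg _
      have h6 : (0 : ℝ) ≤ b := Nat.cast_nonneg _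
      have h7 : (0 : ℝ) ≤ R := Nat.cast_nonneg _
      linarith

end Pool.Agent.HMB
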