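import Pool.Agent.HMB.ElemS

set_option autoImplicit false

/-!
The elementary case of the sublinear theorem, second part.
-/

namespace Pool.Agent.HMB

open Pool.Agent.MHN

universe u

variable {G : Type u} [Group G] {S : Finset G}

/-- a quasi-geodesic from `1` through a given point of a quasi-geodesic to one of its ends -/
theorem near_end (hS : Gen S) {K₁ C₁ T₁ : ℝ} (hK₁ : 1 ≤ K₁) (hC₁ : 0 ≤ C₁) (hT₁ : 0 ≤ T₁)
    {c₁ : ℝ → G} (hq : IsQuasiGeodesic S K₁ C₁ T₁ c₁) {t' : ℝ} (ht' : t' ∈ Set.Icc 0 T₁) :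
    ∃ (T : ℝ) (c : ℝ → G), 0 ≤ T ∧ IsQuasiGeodesic S (kk K₁) (cc K₁ C₁) T c ∧ c 0 = 1 ∧
      (c T = c₁ 0 ∨ c T = c₁ T₁) ∧ ∃ t ∈ Set.Icc 0 T, c t = c₁ t' := by
  obtain ⟨τ, hτ, hmin⟩ := exists_min (S := S) hT₁ c₁ 1
  rcases le_total τ t' with hle | hle
  · obtain ⟨s, c'', hs, hq'', h0'', hag⟩ := qg_pre hS hK₁ hC₁ hq 1 hτ hmin
    refine ⟨s + (T₁ - τ), c'', by linarith [hτ.2], hq'', h0'', Or.inr ?_,
      s + (t' - τ), ⟨by linarith, by linarith [ht'.2]⟩, ?_⟩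
    · rw [hag T₁ ⟨hτ.2, le_rfl⟩]
    · rw [hag t' ⟨hle, ht'.2⟩]
  · have hqr := qg_rev hq
    have hτr : T₁ - τ ∈ Set.Icc 0 T₁ := ⟨by linarith [hτ.2], by linarith [hτ.1]⟩
    have hminr : ∀ t ∈ Set.Icc 0 T₁, wdist S ((fun t => c₁ (T₁ - t)) (T₁ - τ)) 1 ≤
        wdist S ((fun t => c₁ (T₁ - t)) t) 1 := by
      intro t ht
      simp only [sub_sub_cancel]
      exact hmin (T₁ - t) ⟨by linarith [ht.2], by linarith [ht.1]⟩
    obtain ⟨s, c'', hs, hq'', h0'', hag⟩ := qg_pre hS hK₁ hC₁ hqr 1 hτr hminr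
    refine ⟨s + (T₁ - (T₁ - τ)), c'', by linarith [hτ.1], hq'', h0'', Or.inl ?_,
      s + ((T₁ - t') - (T₁ - τ)), ⟨by linarith, by linarith [ht'.1]⟩, ?_⟩
    · rw [hag T₁ ⟨hτr.2, le_rfl⟩]
      simp only [sub_self]
    · rw [hag (T₁ - t') ⟨by linarith, by linarith [ht'.1]⟩]
      simp only [sub_sub_cancel]

theorem ElemT_near (hS : Gen S) (H : Subgroup G) [H.Normal] {F : G} (hFH : F ∈ H)
    (hfin : ¬ IsOfFinOrder F)
    (hscale : ∀ ε : ℝ, 0 < ε → ∃ B : ℕ, ∀ R : ℕ, ∃ k : ℕ, R ≤ wdist S 1 (F ^ k) ∧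
      wdist S 1 (F ^ k) ≤ 2 * R + B ∧ ∀ γ : ℕ → G, IsGeo S (F ^ k)⁻¹ (F ^ k) γ →
        ∃ i ≤ wdist S (F ^ k)⁻¹ (F ^ k), (wdist S 1 (γ i) : ℝ) ≤ ε * wdist S 1 (F ^ k) + B)
    (hU : ∀ ε : ℝ, 0 < ε → ∃ B : ℝ, ∀ h ∈ H,
      USeg S (kk (kk (kk 1))) (cc (kk (kk 1)) (cc (kk 1) (cc 1 1))) (ε * wdist S 1 h + B) 1 h) :
    ∃ κ : ℝ, 0 ≤ κ ∧ ∀ ε : ℝ, 0 < ε → ∃ E : ℝ, 0 ≤ E ∧ ∀ (g : G) (N : ℕ), ∃ h' ∈ H,
      N ≤ wdist S 1 h' ∧ (wdist S 1 h' : ℝ) ≤ κ * (wdist S 1 g + N + 1) ∧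
      ∀ γ : ℕ → G, IsGeo S 1 h' γ → ∃ i ≤ wdist S 1 h',
        (wdist S g (γ i) : ℝ) ≤ ε * (wdist S 1 g + N + 1) + E := by
  classical
  obtain ⟨L, hL⟩ : ∃ L, L = wlen S F := ⟨_, rfl⟩
  refine ⟨83 + L + 1, by positivity, fun ε hε => ?_⟩
  obtain ⟨ε₁, hε₁⟩ : ∃ ε₁ : ℝ, ε₁ = min (ε / 200) (1 / 8) := ⟨_, rfl⟩
  have hε₁0 : 0 < ε₁ := by rw [hε₁]; exact lt_min (by positivity) (by norm_num)
  have hε₁1 : ε₁ ≤ ε / 200 := by rw [hε₁]; exact min_le_left _ _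
  have hε₁2 : ε₁ ≤ 1 / 8 := by rw [hε₁]; exact min_le_right _ _
  obtain ⟨B₁, hB₁⟩ := hscale ε₁ hε₁0
  obtain ⟨B₂', hB₂'⟩ := hU (ε / 200) (by positivity)
  obtain ⟨B₂, hB₂⟩ : ∃ B₂ : ℝ, B₂ = max B₂' 0 := ⟨_, rfl⟩
  have hB₂0 : 0 ≤ B₂ := by rw [hB₂]; exact le_max_right _ _
  have hB₂1 : B₂' ≤ B₂ := by rw [hB₂]; exact le_max_left _ _
  have hB₁0 : (0 : ℝ) ≤ B₁ := Nat.cast_nonneg _
  refine ⟨B₁ + B₂, by positivity, fun g N => ?_⟩
  obtain ⟨W, hW⟩ : ∃ W : ℕ, W = wdist S 1 g + N + 1 := ⟨_, rfl⟩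
  have hWR : (W : ℝ) = wdist S 1 g + N + 1 := by rw [hW]; push_cast; ring
  have hW1 : (1 : ℝ) ≤ W := by
    have : 1 ≤ W := by omega
    exact_mod_cast this
  have hWg : (wdist S 1 g : ℝ) ≤ W := by
    have : wdist S 1 g ≤ W := by omega
    exact_mod_cast this
  rw [← hWR]
  have hup : ∀ k, wdist S 1 (F ^ (k + 1)) ≤ wdist S 1 (F ^ k) + L := by
    intro k
    rw [wdist_one, wdist_one, pow_succ, hL]
    exact wlen_mul hS _ _
  rcases Nat.lt_or_ge W B₁ with hsmall | hbig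
  · -- small case
    have hex : ∃ k, N ≤ wdist S 1 (F ^ k) := by
      by_contra hcon
      push Not at hcon
      have h1 : Function.Injective (fun j : ℕ => F ^ j) :=
        injective_pow_iff_not_isOfFinOrder.2 hfin
      have h2 : (Set.range (fun j : ℕ => F ^ j)).Finite := by
        apply (wlen_fin hS N).subset
        rintro _ ⟨j, rfl⟩
        have := hcon j
        rw [wdist_one] at this
        exact this.le
      exact Set.infinite_range_of_injective h1 h2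
    obtain ⟨k, hk⟩ : ∃ k, k = Nat.find hex := ⟨_, rfl⟩
    have a1 : N ≤ wdist S 1 (F ^ k) := by rw [hk]; exact Nat.find_spec hex
    have a2 : wdist S 1 (F ^ k) ≤ N + L := by
      rcases Nat.eq_zero_or_pos k with h0 | h0
      · rw [h0, pow_zero, wdist_self]; omega
      · obtain ⟨j, rfl⟩ : ∃ j, k = j + 1 := ⟨k - 1, by omega⟩
        have h1 : ¬ N ≤ wdist S 1 (F ^ j) := Nat.find_min hex (by omega)
        have h2 := hup j
        omega
    refine ⟨F ^ k, H.pow_mem hFH k, a1, ?_, fun γ hγ => ⟨0, Nat.zero_le _, ?_⟩⟩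
    · have h1 : (wdist S 1 (F ^ k) : ℝ) ≤ N + L := by exact_mod_cast a2
      have h2 : (N : ℝ) ≤ W := by
        have : N ≤ W := by omega
        exact_mod_cast this
      have h3 : (L : ℝ) * 1 ≤ L * W := mul_le_mul_of_nonneg_left hW1 (Nat.cast_nonneg _)
      have h4 : (83 + (L : ℝ) + 1) * W = 84 * W + L * W := by ring
      rw [h4]
      linarith
    · rw [hγ.1, wdist_comm]
      have h1 : (W : ℝ) ≤ B₁ := by exact_mod_cast hsmall.le
      have h2 : 0 ≤ ε * (W : ℝ) := by positivity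
      linarith
  · -- main case
    have hbigR : (B₁ : ℝ) ≤ W := by exact_mod_cast hbig
    obtain ⟨k, hk1, hk2, hk3⟩ := hB₁ (40 * W)
    obtain ⟨h, hh⟩ : ∃ h, h = F ^ k := ⟨_, rfl⟩
    rw [← hh] at hk1 hk2 hk3
    have hhH : h ∈ H := by rw [hh]; exact H.pow_mem hFH k
    obtain ⟨l, hl⟩ : ∃ l : ℝ, l = wdist S 1 h := ⟨_, rfl⟩
    have l1 : 40 * (W : ℝ) ≤ l := by rw [hl]; exact_mod_cast hk1
    have l2 : l ≤ 81 * (W : ℝ) := by
      have : (wdist S 1 h : ℝ) ≤ 2 * (40 * W) + B₁ := by exact_mod_cast hk2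
      rw [hl]; linarith
    obtain ⟨γ', hγ'⟩ := StepTwoB_geo hS h⁻¹ h
    obtain ⟨i, hi, hi'⟩ := hk3 γ' hγ'
    rw [← hl] at hi'
    obtain ⟨r, hr⟩ : ∃ r : ℝ, r = wdist S 1 (γ' i) := ⟨_, rfl⟩
    rw [← hr] at hi'
    have hr1 : r ≤ l / 4 := by
      have : ε₁ * l ≤ 1 / 8 * l := mul_le_mul_of_nonneg_right hε₁2 (by linarith)
      linarith
    have hr2 : r ≤ ε / 200 * (81 * W) + B₁ := by
      have h1 : ε₁ * l ≤ ε / 200 * (81 * W) := mul_le_mul hε₁1 l2 (by linarith) (by positivity)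
      linarith
    obtain ⟨T₀, hT₀⟩ : ∃ T₀ : ℝ, T₀ = wdist S h⁻¹ h := ⟨_, rfl⟩
    have hlinv : (wdist S 1 h⁻¹ : ℝ) = l := by rw [hl, wdist_one, wdist_one, wlen_inv]
    have i1 : (wdist S h⁻¹ (γ' i) : ℝ) = i := by
      have := hγ'.2.2 0 i (Nat.zero_le _) hi
      rw [hγ'.1, Nat.sub_zero] at this
      exact_mod_cast this
    have i2 : (wdist S (γ' i) h : ℝ) = T₀ - i := by
      have := hγ'.2.2 i (wdist S h⁻¹ h) hi le_rfl
      rw [hγ'.2.1] at this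
      rw [this, Nat.cast_sub hi, hT₀]
    have j1 : 3 / 4 * l ≤ i := by
      have := Lox_tri hS 1 (γ' i) h⁻¹
      rw [Lox_comm (γ' i) h⁻¹, i1, hlinv, ← hr] at this
      linarith
    have j2 : 3 / 4 * l ≤ T₀ - i := by
      have := Lox_tri hS 1 (γ' i) h
      rw [i2, ← hl, ← hr] at this
      linarith
    -- the line through `g`
    have hq₀ : IsQuasiGeodesic S 1 1 T₀ (fun t : ℝ => g * γ' ⌊t⌋₊) := by
      rw [hT₀]; exact qg_left g (qg_geo hγ')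
    obtain ⟨u, hu⟩ : ∃ u, u = g * h⁻¹ * g⁻¹ := ⟨_, rfl⟩
    obtain ⟨v, hv⟩ : ∃ v, v = g * h * g⁻¹ := ⟨_, rfl⟩
    have huH : u ∈ H := by rw [hu]; exact ‹H.Normal›.conj_mem _ (H.inv_mem hhH) _
    have hvH : v ∈ H := by rw [hv]; exact ‹H.Normal›.conj_mem _ hhH _
    have hx : (wdist S u ((fun t : ℝ => g * γ' ⌊t⌋₊) 0) : ℝ) ≤ wdist S 1 g := by
      simp only [Nat.floor_zero, hγ'.1]
      rw [hu, wdist_one]
      apply le_of_eq
      congr 1
      unfold wdist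
      congr 1
      group
    have hy : (wdist S ((fun t : ℝ => g * γ' ⌊t⌋₊) T₀) v : ℝ) ≤ wdist S 1 g := by
      simp only [hT₀, Nat.floor_natCast, hγ'.2.1]
      rw [hv, wdist_one, ← wlen_inv S g]
      apply le_of_eq
      congr 1
      unfold wdist
      congr 1
      group
    have hT₀0 : 0 ≤ T₀ := by rw [hT₀]; exact Nat.cast_nonneg _
    obtain ⟨T₁, c₁, hT₁, hq₁, h0₁, hT1₁, -, hlast⟩ := qg_two hS le_rfl zero_le_one hT₀0 hq₀ u v hx hy
    have n1 : kk (1 : ℝ) = 3 := by unfold kk; norm_num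
    have n2 : cc (1 : ℝ) 1 = 4 := by unfold cc; norm_num
    obtain ⟨t', ht', hct'⟩ := hlast (i : ℝ) (by rw [n1, n2]; linarith) (by linarith)
    simp only [Nat.floor_natCast] at hct'
    have k1 : (1 : ℝ) ≤ kk (kk 1) := by rw [n1]; unfold kk; norm_num
    have k2 : (0 : ℝ) ≤ cc (kk 1) (cc 1 1) := by rw [n1, n2]; unfold cc; norm_num
    obtain ⟨T, c, hT, hq, h0, hend, t, ht, hct⟩ := near_end hS k1 k2 hT₁ hq₁ ht'
    -- lengths
    have hlen : ∀ z w : G, w = g * z * g⁻¹ →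
        (wdist S 1 z : ℝ) ≤ wdist S 1 w + 2 * wdist S 1 g ∧
        (wdist S 1 w : ℝ) ≤ wdist S 1 z + 2 * wdist S 1 g := by
      intro z w hw
      simp only [wdist_one]
      constructor
      · have h1 := wlen_mul hS (g⁻¹ * w) g
        have h2 := wlen_mul hS g⁻¹ w
        rw [wlen_inv] at h2
        have h3 : g⁻¹ * w * g = z := by rw [hw]; group
        rw [h3] at h1
        have : wlen S z ≤ wlen S w + 2 * wlen S g := by omega
        exact_mod_cast this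
      · have h1 := wlen_mul hS (g * z) g⁻¹
        have h2 := wlen_mul hS g z
        rw [wlen_inv] at h1
        rw [← hw] at h1
        have : wlen S w ≤ wlen S z + 2 * wlen S g := by omega
        exact_mod_cast this
    have hfinal : ∀ h' ∈ H, c T = h' → l ≤ wdist S 1 h' + 2 * wdist S 1 g →
        (wdist S 1 h' : ℝ) ≤ l + 2 * wdist S 1 g → N ≤ wdist S 1 h' ∧
        (wdist S 1 h' : ℝ) ≤ (83 + (L : ℝ) + 1) * W ∧
        ∀ γ : ℕ → G, IsGeo S 1 h' γ → ∃ i ≤ wdist S 1 h',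
          (wdist S g (γ i) : ℝ) ≤ ε * W + (B₁ + B₂) := by
      intro h' hh' hcT m1 m2
      refine ⟨?_, ?_, fun γ hγ => ?_⟩
      · have h1 : (N : ℝ) ≤ W := by
          have : N ≤ W := by omega
          exact_mod_cast this
        have h2 : (N : ℝ) ≤ wdist S 1 h' := by linarith
        exact_mod_cast h2
      · have h4 : (83 + (L : ℝ) + 1) * W = 84 * W + L * W := by ring
        have h5 : 0 ≤ (L : ℝ) * W := by positivity
        rw [h4]; linarith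
      · obtain ⟨w, hw, hw'⟩ := hB₂' h' hh' T c hT hq h0 hcT γ hγ t ht
        rw [hct, hct'] at hw'
        refine ⟨w, hw, ?_⟩
        have t1 := Lox_tri hS g (g * γ' i) (γ w)
        have t2 : (wdist S g (g * γ' i) : ℝ) = r := by
          have := wdist_left S g 1 (γ' i)
          rw [mul_one] at this
          rw [this, hr]
        have h5 : ε / 200 * (wdist S 1 h' : ℝ) ≤ ε / 200 * (83 * W) :=
          mul_le_mul_of_nonneg_left (by linarith) (by positivity)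
        have h6 : 0 ≤ ε * (W : ℝ) := by positivity
        have h7 : ε / 200 * (83 * W) + ε / 200 * (81 * W) = ε * W * (164 / 200) := by ring
        linarith
    rcases hend with he | he
    · rw [h0₁] at he
      obtain ⟨m1, m2⟩ := hlen h⁻¹ u hu
      rw [hlinv] at m1 m2
      obtain ⟨b1, b2, b3⟩ := hfinal u huH he m1 m2
      exact ⟨u, huH, b1, b2, b3⟩
    · rw [hT1₁] at he
      obtain ⟨m1, m2⟩ := hlen h v hv
      rw [← hl] at m1 m2
      obtain ⟨b1, b2, b3⟩ := hfinal v hvH he m1 m2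
      exact ⟨v, hvH, b1, b2, b3⟩

/-- A virtually cyclic normal subgroup with uniformly sublinearly Morse elements. -/
theorem hyp_elem_S (hS : Gen S) (H : Subgroup G) [H.Normal] {h : H} (hh : ¬ IsOfFinOrder h)
    (hi : (Subgroup.zpowers h).index ≠ 0)
    (hU : ∀ K C : ℝ, 1 ≤ K → 0 ≤ C → ∀ ε : ℝ, 0 < ε → ∃ B : ℝ, ∀ h ∈ H,
      USeg S K C (ε * wdist S 1 h + B) 1 h) : IsHyperbolicGroup G := by
  obtain ⟨F, hFin, hF⟩ := exists_central hh hi
  have hFin' : ¬ IsOfFinOrder (F : G) := fun hf => hFin (Submonoid.isOfFinOrder_coe.1 hf)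
  have hU1 := hU (kk 1) (cc 1 1) (by norm_num [kk]) (by norm_num [cc])
  have hscale := ElemS_scale hS hFin' hF (fun ε hε => by
    obtain ⟨B, hB⟩ := hU1 ε hε
    exact ⟨B, fun k => hB _ (H.pow_mem F.2 k)⟩)
  obtain ⟨κ, hκ, hn⟩ := ElemT_near hS H F.2 hFin' hscale
    (hU _ _ (kk_ge (kk_ge (kk_ge le_rfl))) (cc_ge (kk_ge (kk_ge le_rfl))
      (cc_ge (kk_ge le_rfl) (cc_ge le_rfl zero_le_one))))
  exact hyp_of_near hS H hκ hn hU1

end Pool.Agent.HMB
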