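import Pool.Agent.HMB.QG

/-!
Module Pert: perturbation of the endpoints of a Morse pair.

`useg_triv`: `T / K - C ≤ d (c 0) (c T) = |h|`, so `T ≤ K (|h| + C)` and
`d (c t) (γ 0) = d (c t) (c 0) ≤ K T + C`.

`useg_pert`: let `c` be a `(K, C)`-quasi-geodesic from `1` to `h`, `γ` a geodesic from `1` to `h`,
`t ∈ [0, T]`. Apply `qg_two` to `q * c` (from `q` to `q * h`) with `x = 1`, `y`: the point `q * c t`
is within `bb K C R` of a point of a quasi-geodesic from `1` to `y`, so within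
`B := bb K C R + m` of `γ₁ s`, `γ₁` a fixed geodesic from `1` to `y`. Let `s₀ = min s |h|`. The same
for the `(1,1)`-quasi-geodesic `q * γ` (a `(K, C)`-quasi-geodesic by `qg_mono`): `q * γ s₀` is
within `B` of `γ₁ s₁`. Now `d 1 (γ₁ s₁) = s₁`, `|s₁ - d 1 (q γ s₀)| ≤ B`,
`|d 1 (q γ s₀) - s₀| ≤ d 1 q ≤ R`, `s ≤ d 1 y ≤ d 1 q + |h| + d (q h) y ≤ |h| + 2 R` so
`0 ≤ s - s₀ ≤ 2 R`. Hence `|s - s₁| ≤ 3 R + B` and
`d (c t) (γ s₀) = d (q c t) (q γ s₀) ≤ B + (3 R + B) + B`.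
-/

set_option autoImplicit false

namespace Pool.Agent.HMB

open Pool.Agent.MHN

variable {G : Type*} [Group G] {S : Finset G}

theorem useg_triv {K C : ℝ} (hK : 1 ≤ K) (hC : 0 ≤ C) (h : G) :
    USeg S K C (K * (K * (wdist S 1 h + C)) + C) 1 h := by
  intro T c hT hc h0 h1 γ hγ t ht
  refine ⟨0, Nat.zero_le _, ?_⟩
  have hK0 : (0 : ℝ) < K := lt_of_lt_of_le one_pos hK
  have e1 := (hc 0 ⟨le_refl _, hT⟩ T ⟨hT, le_refl _⟩).1
  rw [h0, h1, zero_sub, abs_neg, abs_of_nonneg hT] at e1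
  have e2 : T ≤ K * (wdist S 1 h + C) := by
    have : T / K ≤ wdist S 1 h + C := by linarith
    rwa [div_le_iff₀ hK0, mul_comm] at this
  have e3 := (hc t ht 0 ⟨le_refl _, hT⟩).2
  rw [h0, sub_zero, abs_of_nonneg ht.1] at e3
  rw [hγ.1]
  have e4 : K * t ≤ K * (K * (wdist S 1 h + C)) :=
    mul_le_mul_of_nonneg_left (ht.2.trans e2) hK0.le
  linarith

theorem useg_mono {K K' C C' M M' : ℝ} {x y : G} (hK : 1 ≤ K) (hKK : K ≤ K') (hCC : C ≤ C')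
    (hM : M' ≤ M) (h : USeg S K' C' M' x y) : USeg S K C M x y := by
  intro T c hT hc h0 h1 γ hγ t ht
  obtain ⟨i, hi, hd⟩ := h T c hT (qg_mono hK hKK hCC hc) h0 h1 γ hγ t ht
  exact ⟨i, hi, hd.trans hM⟩

private theorem Pert_tri (hS : Gen S) (a b c : G) :
    (wdist S a c : ℝ) ≤ wdist S a b + wdist S b c := by
  have := wdist_tri hS a b c
  exact_mod_cast this

private theorem Pert_near (hS : Gen S) {K C : ℝ} (hK : 1 ≤ K) (hC : 0 ≤ C) {R m : ℝ}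
    {y q h : G} (hq : (wdist S 1 q : ℝ) ≤ R) (hy : (wdist S (q * h) y : ℝ) ≤ R)
    (hU : USeg S (kk (kk K)) (cc (kk K) (cc K C)) m 1 y) {γ₁ : ℕ → G} (hγ₁ : IsGeo S 1 y γ₁)
    {T : ℝ} {c : ℝ → G} (hT : 0 ≤ T) (hc : IsQuasiGeodesic S K C T c) (h0 : c 0 = 1)
    (h1 : c T = h) {t : ℝ} (ht : t ∈ Set.Icc 0 T) :
    ∃ s ≤ wdist S 1 y, (wdist S (q * c t) (γ₁ s) : ℝ) ≤ bb K C R + m := by
  obtain ⟨T', c', hT', hc', h0', h1', hA, -⟩ := qg_two hS hK hC hT (qg_left q hc) 1 y (R := R)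
    (by simpa [h0] using hq) (by simpa [h1] using hy)
  obtain ⟨t', ht', hd'⟩ := hA t ht
  obtain ⟨s, hs, hd⟩ := hU T' c' hT' hc' h0' h1' γ₁ hγ₁ t' ht'
  refine ⟨s, hs, ?_⟩
  have := Pert_tri hS (q * c t) (c' t') (γ₁ s)
  linarith

theorem useg_pert (hS : Gen S) {K C : ℝ} (hK : 1 ≤ K) (hC : 1 ≤ C) {R m : ℝ} (hm : 0 ≤ m)
    {y q h : G} (hq : (wdist S 1 q : ℝ) ≤ R) (hy : (wdist S (q * h) y : ℝ) ≤ R)
    (hU : USeg S (kk (kk K)) (cc (kk K) (cc K C)) m 1 y) :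
    USeg S K C (3 * (bb K C R + m) + 3 * R) 1 h := by
  intro T c hT hc h0 h1 γ hγ t ht
  have hC0 : (0 : ℝ) ≤ C := le_trans zero_le_one hC
  have hR : 0 ≤ R := le_trans (Nat.cast_nonneg _) hq
  obtain ⟨γ₁, g0, g1, g2⟩ := (gmet hS).geod 1 y
  have hγ₁ : IsGeo S 1 y γ₁ := ⟨g0, g1, g2⟩
  obtain ⟨s, hs, hd⟩ := Pert_near hS hK hC0 hq hy hU hγ₁ hT hc h0 h1 ht
  -- the point of `γ`
  have hn : (0 : ℝ) ≤ (wdist S 1 h : ℝ) := Nat.cast_nonneg _
  have hs₀ : min s (wdist S 1 h) ≤ wdist S 1 h := min_le_right _ _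
  obtain ⟨s₁, hs₁, hd₁⟩ := Pert_near hS hK hC0 hq hy hU hγ₁ hn
    (qg_mono (le_refl 1) hK hC (qg_geo hγ)) (by simpa using hγ.1) (by simpa using hγ.2.1)
    (t := ((min s (wdist S 1 h) : ℕ) : ℝ)) ⟨Nat.cast_nonneg _, by exact_mod_cast hs₀⟩
  simp only [Nat.floor_natCast] at hd₁
  set s₀ := min s (wdist S 1 h) with hs₀def
  refine ⟨s₀, hs₀, ?_⟩
  -- distances along `γ₁` and `γ`
  have e1 : (wdist S 1 (γ₁ s₁) : ℝ) = s₁ := by
    have := g2 0 s₁ (Nat.zero_le _) hs₁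
    rw [g0] at this
    rw [this, Nat.sub_zero]
  have e2 : (wdist S q (q * γ s₀) : ℝ) = s₀ := by
    have := hγ.2.2 0 s₀ (Nat.zero_le _) hs₀
    rw [hγ.1] at this
    have e : wdist S q (q * γ s₀) = wdist S 1 (γ s₀) := by
      conv_lhs => rw [show q = q * 1 from (mul_one q).symm, mul_assoc, one_mul]
      exact wdist_left S q 1 (γ s₀)
    rw [e, this, Nat.sub_zero]
  have e3 : (wdist S (γ₁ s) (γ₁ s₁) : ℝ) = |(s : ℝ) - s₁| := by
    rcases le_total s s₁ with hh | hh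
    · have := g2 s s₁ hh hs₁
      rw [this, Nat.cast_sub hh, abs_sub_comm, abs_of_nonneg]
      have : (s : ℝ) ≤ s₁ := by exact_mod_cast hh
      linarith
    · have := g2 s₁ s hh hs
      rw [wdist_comm, this, Nat.cast_sub hh, abs_of_nonneg]
      have : (s₁ : ℝ) ≤ s := by exact_mod_cast hh
      linarith
  -- comparison of the parameters
  have f1 : (wdist S 1 y : ℝ) ≤ wdist S 1 h + 2 * R := by
    have a1 := Pert_tri hS 1 q y
    have a2 := Pert_tri hS q (q * h) y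
    have a3 : wdist S q (q * h) = wdist S 1 h := by
      have := wdist_left S q 1 h
      rwa [mul_one] at this
    rw [a3] at a2
    linarith
  have f2 : (s : ℝ) - s₀ ≤ 2 * R ∧ 0 ≤ (s : ℝ) - s₀ := by
    have b1 : (s : ℝ) ≤ wdist S 1 y := by exact_mod_cast hs
    have b2 : (s₀ : ℝ) ≤ s := by exact_mod_cast min_le_left s (wdist S 1 h)
    refine ⟨?_, by linarith⟩
    rcases le_total s (wdist S 1 h) with hh | hh
    · have : s₀ = s := min_eq_left hh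
      rw [this]
      linarith
    · have : s₀ = wdist S 1 h := min_eq_right hh
      rw [this]
      linarith
  have t1 := Pert_tri hS 1 (γ₁ s₁) (q * γ s₀)
  have t2 := Pert_tri hS 1 (q * γ s₀) (γ₁ s₁)
  have t3 := Pert_tri hS 1 q (q * γ s₀)
  have t4 := Pert_tri hS q 1 (q * γ s₀)
  have c1 : (wdist S q 1 : ℝ) = wdist S 1 q := by rw [wdist_comm]
  have c2 : (wdist S (γ₁ s₁) (q * γ s₀) : ℝ) = wdist S (q * γ s₀) (γ₁ s₁) := by
    rw [wdist_comm]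
  have u1 : |(s : ℝ) - s₁| ≤ 3 * R + (bb K C R + m) := by
    rw [abs_le]
    constructor <;> linarith [f2.1, f2.2]
  have w0 : wdist S (c t) (γ s₀) = wdist S (q * c t) (q * γ s₀) := (wdist_left S q _ _).symm
  have w1 := Pert_tri hS (q * c t) (γ₁ s) (q * γ s₀)
  have w2 := Pert_tri hS (γ₁ s) (γ₁ s₁) (q * γ s₀)
  rw [w0]
  linarith

end Pool.Agent.HMB
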