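import Pool.Agent.HMB.Defs
import Pool.Agent.MHN.Final

/-!
Module Top: the topology of the boundary.

`asym_unif`: for `n ≥ i + D`: `(ρ i | ρ' i)_1 ≥ min (ρ i | ρ n)_1 (ρ n | ρ' n)_1 (ρ' n | ρ' i)_1 - 2 δ
= min i (n - D/2) i - 2 δ = i - 2 δ`, so `d (ρ i) (ρ' i) = 2 i - 2 (ρ i | ρ' i)_1 ≤ 4 δ`.
`close_unif`: same computation with one `n ≥ i` and `d (ρ n) (ρ' n) ≤ D`:
`d (ρ i) (ρ' i) ≤ D + 4 δ`.

`Ray A` is compact: with the discrete topology on `H` it is (homeomorphic to) a closed subset of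
the product of the finite balls of radius `k` (`isCompact_univ_pi`). `Asym A` is an equivalence
relation (`Gen A`), so `Quot.mk ρ = Quot.mk ρ' ↔ Asym ρ ρ'` (`Quot.eqvGen_exact`,
`Equivalence.eqvGen_iff`).

`meagre_of`: the set is `⋃ m, F m`, `F m = {ξ | ∃ ρ, mk ρ = ξ ∧ ∀ i, P m (ρ i)}` (`isMeagre_iUnion`,
closed with empty interior → nowhere dense → meagre). `F m` is closed: its preimage in `Ray A` is
`{ρ' | ∃ ρ, (∀ i, P m (ρ i)) ∧ ∀ i, d (ρ i) (ρ' i) ≤ 4 δ}` (`asym_unif`), the projection of a closed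
subset of `Ray A × Ray A` (`isClosedMap_snd_of_compactSpace`). `F m` has empty interior: suppose
`V ⊆ F m` is open, `mk ρ₀ ∈ V`; `V' = mk ⁻¹' V` is open. There is `N` such that all `ρ` with
`∃ N' ≥ N, d (ρ N') (ρ₀ N') ≤ D` are in `V'`: otherwise the closed sets
`C N = {ρ ∉ V' | ∀ i ≤ N, d (ρ i) (ρ₀ i) ≤ D + 4 δ}` are nonempty (`close_unif`), decreasing, so have
a common point `ρ`; `Asym ρ ρ₀`, so `mk ρ = mk ρ₀`, contradiction. Now `hdense m ρ₀ N` gives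
`ρ ∈ V'`, so `mk ρ ∈ F m`, so some `ρ'` with `Asym ρ ρ'`, `∀ i, P m (ρ' i)`: contradiction.
-/

set_option autoImplicit false

namespace Pool.Agent.HMB

open Pool.Agent.MHN

variable {H : Type*} [Group H] {A : Finset H} {δ : ℝ}

theorem Top_close (hδ : Hyp δ (wdist A)) (ρ ρ' : Ray A) {n i : ℕ} (hi : i ≤ n) :
    (wdist A (ρ.1 i) (ρ'.1 i) : ℝ) ≤
      max ((wdist A (ρ.1 n) (ρ'.1 n) : ℝ) + 2 * ((i : ℝ) - n)) 0 + 4 * δ := by
  have h1n : wdist A (1 : H) (ρ.1 n) = n := by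
    have h := ρ.2.2 0 n (Nat.zero_le n)
    rw [ρ.2.1] at h
    simpa using h
  have h1i : wdist A (1 : H) (ρ.1 i) = i := by
    have h := ρ.2.2 0 i (Nat.zero_le i)
    rw [ρ.2.1] at h
    simpa using h
  have h2n : wdist A (1 : H) (ρ'.1 n) = n := by
    have h := ρ'.2.2 0 n (Nat.zero_le n)
    rw [ρ'.2.1] at h
    simpa using h
  have h2i : wdist A (1 : H) (ρ'.1 i) = i := by
    have h := ρ'.2.2 0 i (Nat.zero_le i)
    rw [ρ'.2.1] at h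
    simpa using h
  have h1in : (wdist A (ρ.1 i) (ρ.1 n) : ℝ) = n - i := by
    rw [ρ.2.2 i n hi, Nat.cast_sub hi]
  have h2in : (wdist A (ρ'.1 i) (ρ'.1 n) : ℝ) = n - i := by
    rw [ρ'.2.2 i n hi, Nat.cast_sub hi]
  have e1 : (wdist A (1 : H) (ρ.1 n) : ℝ) = n := by rw [h1n]
  have e2 : (wdist A (1 : H) (ρ.1 i) : ℝ) = i := by rw [h1i]
  have e3 : (wdist A (1 : H) (ρ'.1 n) : ℝ) = n := by rw [h2n]
  have e4 : (wdist A (1 : H) (ρ'.1 i) : ℝ) = i := by rw [h2i]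
  have hin : (i : ℝ) ≤ n := by exact_mod_cast hi
  have hδ0 : 0 ≤ δ := by
    have h := hδ 1 1 1 1
    rw [wdist_self] at h
    simp at h
    linarith
  have k1 := hδ (ρ.1 i) (ρ.1 n) (ρ'.1 n) 1
  have k2 := hδ (ρ.1 i) (ρ'.1 n) (ρ'.1 i) 1
  rw [wdist_comm A (ρ.1 n) 1, e1, wdist_comm A (ρ'.1 n) 1, e3, wdist_comm A (ρ.1 i) 1, e2,
    h1in] at k1
  rw [wdist_comm A (ρ'.1 n) 1, e3, wdist_comm A (ρ'.1 i) 1, e4, wdist_comm A (ρ.1 i) 1, e2,
    wdist_comm A (ρ'.1 n) (ρ'.1 i), h2in] at k2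
  rcases le_max_iff.1 (le_refl (max ((wdist A (ρ.1 n) (ρ'.1 n) : ℝ) + 2 * ((i : ℝ) - n)) 0))
    with hm | hm <;>
  rcases max_cases ((n : ℝ) - i + n) ((wdist A (ρ.1 n) (ρ'.1 n) : ℝ) + i) with ⟨a1, a2⟩ | ⟨a1, a2⟩ <;>
  rcases max_cases ((wdist A (ρ.1 i) (ρ'.1 n) : ℝ) + i) ((n : ℝ) - i + i) with
    ⟨b1, b2⟩ | ⟨b1, b2⟩ <;>
  have c1 := le_max_left ((wdist A (ρ.1 n) (ρ'.1 n) : ℝ) + 2 * ((i : ℝ) - n)) 0 <;>
  have c2 := le_max_right ((wdist A (ρ.1 n) (ρ'.1 n) : ℝ) + 2 * ((i : ℝ) - n)) 0 <;>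
  rw [a1] at k1 <;> rw [b1] at k2 <;> linarith

theorem asym_unif (hA : Gen A) (hδ : Hyp δ (wdist A)) {ρ ρ' : Ray A} (h : Asym A ρ ρ') (i : ℕ) :
    (wdist A (ρ.1 i) (ρ'.1 i) : ℝ) ≤ 4 * δ := by
  obtain ⟨D, hD⟩ := h
  have h1 := Top_close hδ ρ ρ' (n := i + D) (i := i) (Nat.le_add_right i D)
  have h2 : (wdist A (ρ.1 (i + D)) (ρ'.1 (i + D)) : ℝ) ≤ D := by exact_mod_cast hD (i + D)
  have h3 : (wdist A (ρ.1 (i + D)) (ρ'.1 (i + D)) : ℝ) + 2 * ((i : ℝ) - ((i + D : ℕ) : ℝ)) ≤ 0 := by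
    have h4 : (0 : ℝ) ≤ D := Nat.cast_nonneg D
    push_cast
    linarith
  rw [max_eq_right h3] at h1
  linarith

theorem close_unif (hA : Gen A) (hδ : Hyp δ (wdist A)) {ρ ρ' : Ray A} {D n : ℕ}
    (h : wdist A (ρ.1 n) (ρ'.1 n) ≤ D) {i : ℕ} (hi : i ≤ n) :
    (wdist A (ρ.1 i) (ρ'.1 i) : ℝ) ≤ D + 4 * δ := by
  have h1 := Top_close hδ ρ ρ' hi
  have h2 : (wdist A (ρ.1 n) (ρ'.1 n) : ℝ) ≤ D := by exact_mod_cast h
  have hin : (i : ℝ) ≤ n := by exact_mod_cast hi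
  have h3 : max ((wdist A (ρ.1 n) (ρ'.1 n) : ℝ) + 2 * ((i : ℝ) - n)) 0 ≤ D := by
    apply max_le
    · linarith
    · exact Nat.cast_nonneg D
  linarith

theorem ray_compact (hA : Gen A) : CompactSpace (Ray A) := by
  let : TopologicalSpace H := ⊥
  have : DiscreteTopology H := ⟨rfl⟩
  let K : Set (ℕ → H) := {ρ | ρ 0 = 1 ∧ ∀ i j, i ≤ j → wdist A (ρ i) (ρ j) = j - i}
  have hcont : ∀ i : ℕ, Continuous fun ρ : ℕ → H => ρ i := fun i => continuous_apply i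
  have hcl : IsClosed K := by
    have e : K = {ρ : ℕ → H | ρ 0 = 1} ∩ ⋂ i : ℕ, ⋂ j : ℕ,
        {ρ : ℕ → H | i ≤ j → wdist A (ρ i) (ρ j) = j - i} := by
      ext ρ
      simp only [K, Set.mem_inter_iff, Set.mem_iInter]
      exact Iff.rfl
    rw [e]
    apply IsClosed.inter
    · exact (isClosed_discrete ({1} : Set H)).preimage (hcont 0)
    · refine isClosed_iInter fun i => isClosed_iInter fun j => ?_
      exact (isClosed_discrete {q : H × H | i ≤ j → wdist A q.1 q.2 = j - i}).preimage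
        ((hcont i).prodMk (hcont j))
  have hball : IsCompact (Set.pi Set.univ fun k : ℕ => {a : H | wlen A a ≤ k}) :=
    isCompact_univ_pi fun k => (wlen_fin hA k).isCompact
  have hK : IsCompact K := by
    refine hball.of_isClosed_subset hcl ?_
    intro ρ hρ k _
    have h := hρ.2 0 k (Nat.zero_le k)
    rw [hρ.1, wdist_one] at h
    change wlen A (ρ k) ≤ k
    rw [h]
    simp
  exact isCompact_iff_compactSpace.mp hK

theorem Top_equiv (hA : Gen A) : Equivalence (Asym A) where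
  refl := fun ρ => ⟨0, fun i => by rw [wdist_self]⟩
  symm := by
    rintro ρ ρ' ⟨D, hD⟩
    exact ⟨D, fun i => by rw [wdist_comm]; exact hD i⟩
  trans := by
    rintro ρ ρ' ρ'' ⟨D, hD⟩ ⟨D', hD'⟩
    refine ⟨D + D', fun i => ?_⟩
    have h := wdist_tri hA (ρ.1 i) (ρ'.1 i) (ρ''.1 i)
    have h1 := hD i
    have h2 := hD' i
    omega

theorem mk_eq_iff (hA : Gen A) (ρ ρ' : Ray A) :
    Quot.mk (Asym A) ρ = Quot.mk (Asym A) ρ' ↔ Asym A ρ ρ' := by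
  constructor
  · intro h
    exact (Top_equiv hA).eqvGen_iff.1 (Quot.eqvGen_exact h)
  · intro h
    exact Quot.sound h

theorem Top_closed (i : ℕ) (U : Set H) : IsClosed {ρ : Ray A | ρ.1 i ∈ U} := by
  let : TopologicalSpace H := ⊥
  have : DiscreteTopology H := ⟨rfl⟩
  have hc : Continuous fun ρ : Ray A => ρ.1 i :=
    (continuous_apply (A := fun _ : ℕ => H) i).comp continuous_induced_dom
  exact (isClosed_discrete U).preimage hc

theorem Top_closed2 (i : ℕ) (U : Set (H × H)) :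
    IsClosed {x : Ray A × Ray A | (x.1.1 i, x.2.1 i) ∈ U} := by
  let : TopologicalSpace H := ⊥
  have : DiscreteTopology H := ⟨rfl⟩
  have hc : Continuous fun ρ : Ray A => ρ.1 i :=
    (continuous_apply (A := fun _ : ℕ => H) i).comp continuous_induced_dom
  exact (isClosed_discrete U).preimage ((hc.comp continuous_fst).prodMk (hc.comp continuous_snd))

theorem meagre_of (hA : Gen A) (hδ : Hyp δ (wdist A)) (P : ℕ → H → Prop) (D : ℕ)
    (hdense : ∀ (m : ℕ) (ρ₀ : Ray A) (N : ℕ), ∃ ρ : Ray A,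
      (∃ N' ≥ N, wdist A (ρ.1 N') (ρ₀.1 N') ≤ D) ∧
        ∀ ρ' : Ray A, Asym A ρ ρ' → ∃ i, ¬ P m (ρ'.1 i)) :
    IsMeagre {ξ : Bdry A | ∃ ρ : Ray A, Quot.mk (Asym A) ρ = ξ ∧ ∃ m, ∀ i, P m (ρ.1 i)} := by
  have := ray_compact hA
  let q : Ray A → Bdry A := Quot.mk (Asym A)
  have hq : Topology.IsQuotientMap q := isQuotientMap_quot_mk
  let F : ℕ → Set (Bdry A) := fun m => {ξ | ∃ ρ : Ray A, q ρ = ξ ∧ ∀ i, P m (ρ.1 i)}
  have hset : {ξ : Bdry A | ∃ ρ : Ray A, Quot.mk (Asym A) ρ = ξ ∧ ∃ m, ∀ i, P m (ρ.1 i)} =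
      ⋃ m, F m := by
    ext ξ
    rw [Set.mem_iUnion]
    constructor
    · rintro ⟨ρ, h1, m, h2⟩
      exact ⟨m, ρ, h1, h2⟩
    · rintro ⟨m, ρ, h1, h2⟩
      exact ⟨ρ, h1, m, h2⟩
  rw [hset]
  apply isMeagre_iUnion
  intro m
  have hclosed : IsClosed (F m) := by
    rw [← hq.isClosed_preimage]
    let Z : Set (Ray A × Ray A) := (⋂ i, {x | (x.1.1 i, x.2.1 i) ∈ {u : H × H | P m u.1}}) ∩
      ⋂ i, {x | (x.1.1 i, x.2.1 i) ∈ {u : H × H | (wdist A u.1 u.2 : ℝ) ≤ 4 * δ}}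
    have hZ : IsClosed Z :=
      (isClosed_iInter fun i => Top_closed2 i _).inter (isClosed_iInter fun i => Top_closed2 i _)
    have e : q ⁻¹' F m = Prod.snd '' Z := by
      ext ρ'
      constructor
      · rintro ⟨ρ, h1, h2⟩
        have h3 : Asym A ρ ρ' := (mk_eq_iff hA ρ ρ').1 h1
        refine ⟨(ρ, ρ'), ⟨?_, ?_⟩, rfl⟩
        · exact Set.mem_iInter.2 fun i => h2 i
        · exact Set.mem_iInter.2 fun i => asym_unif hA hδ h3 i
      · rintro ⟨⟨ρ, σ⟩, ⟨h1, h2⟩, h3⟩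
        change σ = ρ' at h3
        subst h3
        refine ⟨ρ, (mk_eq_iff hA ρ σ).2 ⟨⌈4 * δ⌉₊, fun i => ?_⟩, fun i => ?_⟩
        · have h4 : (wdist A (ρ.1 i) (σ.1 i) : ℝ) ≤ 4 * δ := Set.mem_iInter.1 h2 i
          exact_mod_cast h4.trans (Nat.le_ceil _)
        · exact Set.mem_iInter.1 h1 i
    rw [e]
    exact isClosedMap_snd_of_compactSpace _ hZ
  have hint : interior (F m) = ∅ := by
    by_contra hne
    obtain ⟨ξ, hξ⟩ := Set.nonempty_iff_ne_empty.2 hne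
    obtain ⟨ρ₀, rfl⟩ : ∃ ρ₀, q ρ₀ = ξ := Quot.exists_rep ξ
    let V : Set (Ray A) := q ⁻¹' interior (F m)
    have hV : IsOpen V := isOpen_interior.preimage hq.continuous
    have hN : ∃ N, ∀ ρ : Ray A, (∃ N' ≥ N, wdist A (ρ.1 N') (ρ₀.1 N') ≤ D) → ρ ∈ V := by
      by_contra hcon
      push Not at hcon
      let C : ℕ → Set (Ray A) := fun N => Vᶜ ∩ ⋂ i : ℕ, ⋂ _ : i ≤ N,
        {ρ | ρ.1 i ∈ {a : H | (wdist A a (ρ₀.1 i) : ℝ) ≤ D + 4 * δ}}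
      have hC : ∀ N, IsClosed (C N) := fun N =>
        hV.isClosed_compl.inter (isClosed_iInter fun i => isClosed_iInter fun _ => Top_closed i _)
      have hCd : ∀ N, C (N + 1) ⊆ C N := by
        rintro N ρ ⟨h1, h2⟩
        refine ⟨h1, Set.mem_iInter.2 fun i => Set.mem_iInter.2 fun hi => ?_⟩
        exact Set.mem_iInter.1 (Set.mem_iInter.1 h2 i) (by omega)
      have hCn : ∀ N, (C N).Nonempty := by
        intro N
        obtain ⟨ρ, ⟨N', h1, h2⟩, h3⟩ := hcon N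
        refine ⟨ρ, h3, Set.mem_iInter.2 fun i => Set.mem_iInter.2 fun hi => ?_⟩
        exact close_unif hA hδ h2 (hi.trans h1)
      obtain ⟨ρ, hρ⟩ := IsCompact.nonempty_iInter_of_sequence_nonempty_isCompact_isClosed C hCd hCn
        (hC 0).isCompact hC
      have h1 : ρ ∉ V := (Set.mem_iInter.1 hρ 0).1
      apply h1
      have h2 : Asym A ρ ρ₀ := by
        refine ⟨⌈(D : ℝ) + 4 * δ⌉₊, fun i => ?_⟩
        have h3 : (wdist A (ρ.1 i) (ρ₀.1 i) : ℝ) ≤ D + 4 * δ :=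
          Set.mem_iInter.1 (Set.mem_iInter.1 (Set.mem_iInter.1 hρ i).2 i) le_rfl
        exact_mod_cast h3.trans (Nat.le_ceil _)
      change q ρ ∈ interior (F m)
      rw [show q ρ = q ρ₀ from (mk_eq_iff hA ρ ρ₀).2 h2]
      exact hξ
    obtain ⟨N, hN⟩ := hN
    obtain ⟨ρ, h1, h2⟩ := hdense m ρ₀ N
    obtain ⟨ρ', h3, h4⟩ : q ρ ∈ F m := interior_subset (hN ρ h1)
    obtain ⟨i, hi⟩ := h2 ρ' ((mk_eq_iff hA ρ ρ').1 h3.symm)
    exact hi (h4 i)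
  have hnd : IsNowhereDense (F m) := by
    rw [IsNowhereDense, hclosed.closure_eq, hint]
  exact hnd.isMeagre

end Pool.Agent.HMB
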