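import Pool.Agent.HMB.StepTwo
import Pool.Agent.HMB.Pert
import Pool.Agent.HMB.Conn
import Pool.Agent.HMB.Top
import Pool.Agent.HMB.Elem

set_option autoImplicit false

namespace Pool.Agent.HMB

open Pool.Agent.MHN

universe u

theorem kk_ge {K : ℝ} (hK : 1 ≤ K) : 1 ≤ kk K := by unfold kk; linarith

theorem cc_ge {K C : ℝ} (hK : 1 ≤ K) (hC : 0 ≤ C) : 0 ≤ cc K C := by
  unfold cc; nlinarith [mul_nonneg (by linarith : (0 : ℝ) ≤ K) hC]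

theorem main_core {G : Type u} [Group G] {S : Finset G} (hS : Gen S) (H : Subgroup G)
    {A : Finset H} (hA : Gen A) {δ : ℝ} (hδ : Hyp δ (wdist A)) {f' : H}
    (hf'fin : ¬ IsOfFinOrder f') (hne : ∀ n : ℕ, ∃ z : H, ∀ i : ℤ, n ≤ wdist A z (f' ^ i))
    {K C : ℝ} (hK : 1 ≤ K) (hC : 1 ≤ C) (hbad : ∀ M : ℝ, ∃ h ∈ H, ¬ USeg S K C M 1 h) :
    IsMeagre {ξ : Bdry A | IsMorsePoint S A ξ} := by
  classical
  have hd : LMet H δ (wdist A) := lmet hA hδ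
  have hδ0 : 0 ≤ δ := hd.delta_nonneg
  have hC0 : 0 ≤ C := by linarith
  obtain ⟨F, L, D, hconn⟩ := conn hd hf'fin hne
  obtain ⟨κ, hκ⟩ := wlen_hom hA hS H.subtype
  have hκ' : ∀ a b : H, wdist S (a : G) (b : G) ≤ κ * wdist A a b := by
    intro a b
    have := hκ (a⁻¹ * b)
    simpa [wdist] using this
  have hK' : 1 ≤ kk (kk K) := kk_ge (kk_ge hK)
  have hC' : 0 ≤ cc (kk K) (cc K C) := cc_ge (kk_ge hK) (cc_ge hK hC0)
  have hsub : {ξ : Bdry A | IsMorsePoint S A ξ} ⊆ {ξ : Bdry A | ∃ ρ : Ray A,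
      Quot.mk (Asym A) ρ = ξ ∧ ∃ m, ∀ i, (fun (m : ℕ) (h : H) =>
        USeg S (kk (kk K)) (cc (kk K) (cc K C)) m 1 (h : G)) m (ρ.1 i)} := by
    rintro ξ ⟨ρ, hρ, M, hM⟩
    refine ⟨ρ, hρ, ⌈M (kk (kk K)) (cc (kk K) (cc K C))⌉₊, fun i => ?_⟩
    intro T c hT hc h0 h1 γ hγ t ht
    obtain ⟨j, hj, hj'⟩ := hM i γ hγ _ _ hK' hC' T c hT hc ⟨0, Nat.zero_le _, by rw [h0, hγ.1]⟩
      ⟨_, le_rfl, by rw [h1, hγ.2.1]⟩ t ht
    exact ⟨j, hj, hj'.trans (Nat.le_ceil _)⟩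
  refine IsMeagre.mono hsub ?_
  refine meagre_of hA hδ (fun (m : ℕ) (h : H) =>
        USeg S (kk (kk K)) (cc (kk K) (cc K C)) m 1 (h : G)) D ?_
  intro m ρ₀ N
  obtain ⟨N', hN'⟩ : ∃ N', N' = max N L := ⟨_, rfl⟩
  obtain ⟨g, hg⟩ : ∃ g, g = ρ₀.1 N' := ⟨_, rfl⟩
  have hgd : wdist A 1 g = N' := by
    have := ρ₀.2.2 0 N' (Nat.zero_le _)
    rw [ρ₀.2.1] at this
    rw [hg, this]; simp
  obtain ⟨W, hW⟩ : ∃ W : ℕ, ∀ a ∈ F, wlen A a ≤ W :=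
    ⟨F.sup (wlen A), fun a ha => Finset.le_sup (f := wlen A) ha⟩
  obtain ⟨Q, hQ⟩ : ∃ Q : ℕ, Q = ⌈4 * δ⌉₊ := ⟨_, rfl⟩
  obtain ⟨R, hR⟩ : ∃ R : ℝ, R = (κ : ℝ) * (N' + W) + κ * (D + Q) := ⟨_, rfl⟩
  have hκ0 : (0 : ℝ) ≤ κ := Nat.cast_nonneg _
  obtain ⟨h₀, hh₀, hbad'⟩ := hbad (max (3 * (bb K C R + m) + 3 * R)
    (K * (K * (((κ * L : ℕ) : ℝ) + C)) + C))
  obtain ⟨h, hh⟩ : ∃ h : H, (h : G) = h₀ := ⟨⟨h₀, hh₀⟩, rfl⟩
  rw [← hh] at hbad'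
  have hL : L ≤ wdist A 1 h := by
    by_contra hcon
    push Not at hcon
    apply hbad'
    refine useg_mono hK le_rfl le_rfl ?_ (useg_triv (S := S) hK hC0 (h : G))
    refine le_trans ?_ (le_max_right _ _)
    have h1 := hκ' 1 h
    have h2 : wdist S (1 : G) (h : G) ≤ κ * L :=
      (by simpa using h1 : wdist S (1 : G) (h : G) ≤ κ * wdist A 1 h).trans
        (Nat.mul_le_mul_left _ hcon.le)
    have h3 : (wdist S (1 : G) (h : G) : ℝ) ≤ ((κ * L : ℕ) : ℝ) := by exact_mod_cast h2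
    have h4 : K * (K * ((wdist S (1 : G) (h : G) : ℝ) + C)) ≤ K * (K * (((κ * L : ℕ) : ℝ) + C)) := by
      gcongr
    linarith
  obtain ⟨a, haF, ρ, hρ0, hρ, hρg, j, hj⟩ := hconn g h (by rw [hgd, hN']; exact le_max_right _ _) hL
  refine ⟨⟨ρ, hρ0, hρ⟩, ⟨N', by rw [hN']; exact le_max_left _ _, ?_⟩, ?_⟩
  · rw [hgd] at hρg
    rw [← hg]
    exact hρg
  · intro ρ' hρ'
    refine ⟨j, fun hP => hbad' ?_⟩
    have e1 := asym_unif hA hδ hρ' j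
    have e2 : wdist A (ρ j) (ρ'.1 j) ≤ Q := by
      have : (wdist A (ρ j) (ρ'.1 j) : ℝ) ≤ Q := by
        rw [hQ]; exact le_trans e1 (Nat.le_ceil _)
      exact_mod_cast this
    have e3 : wdist A (g * a * h) (ρ'.1 j) ≤ D + Q := by
      have := wdist_tri hA (g * a * h) (ρ j) (ρ'.1 j)
      rw [wdist_comm A (g * a * h) (ρ j)] at this
      omega
    have e4 : wdist A 1 (g * a) ≤ N' + W := by
      have h1 := wdist_tri hA 1 g (g * a)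
      have h2 : wdist A g (g * a) = wlen A a := by simp [wdist]
      have h3 := hW a haF
      omega
    have e5 : wdist S 1 ((g : G) * a) ≤ κ * (N' + W) := by
      have := hκ' 1 (g * a)
      simp only [Subgroup.coe_one, Subgroup.coe_mul] at this
      exact this.trans (Nat.mul_le_mul_left _ e4)
    have e6 : wdist S ((g : G) * a * h) (ρ'.1 j : G) ≤ κ * (D + Q) := by
      have := hκ' (g * a * h) (ρ'.1 j)
      simp only [Subgroup.coe_mul] at this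
      exact this.trans (Nat.mul_le_mul_left _ e3)
    have e5' : (wdist S 1 ((g : G) * a) : ℝ) ≤ κ * (N' + W) := by exact_mod_cast e5
    have e6' : (wdist S ((g : G) * a * h) (ρ'.1 j : G) : ℝ) ≤ κ * (D + Q) := by exact_mod_cast e6
    have p1 : (0 : ℝ) ≤ κ * (N' + W) := by positivity
    have p2 : (0 : ℝ) ≤ κ * (D + Q) := by positivity
    refine useg_mono hK le_rfl le_rfl (le_max_left _ _) (useg_pert hS hK hC (Nat.cast_nonneg m)
      (y := (ρ'.1 j : G)) (q := (g : G) * a) (h := (h : G)) (R := R) ?_ ?_ hP)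
    · rw [hR]; linarith
    · rw [hR]; linarith

end Pool.Agent.HMB
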