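import Pool.Agent.HMB.QG
import Pool.Agent.HMB.DefsS
import Pool.Agent.HMB.Pert

set_option autoImplicit false

namespace Pool.Agent.HMB

open Pool.Agent.MHN

variable {G : Type*} [Group G] {S : Finset G}

private theorem PertS_tri (hS : Gen S) (a b c : G) :
    (wdist S a c : ℝ) ≤ wdist S a b + wdist S b c := by
  have := wdist_tri hS a b c
  exact_mod_cast this

private theorem PertS_near (hS : Gen S) {K C : ℝ} (hK : 1 ≤ K) (hC : 0 ≤ C) {R m ε' W : ℝ}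
    (hε' : 0 ≤ ε')
    {y q h : G} (hq : (wdist S 1 q : ℝ) ≤ R) (hy : (wdist S (q * h) y : ℝ) ≤ R)
    (hV : VSeg S (kk (kk K)) (cc (kk K) (cc K C)) ε' m 1 y) {γ₁ : ℕ → G} (hγ₁ : IsGeo S 1 y γ₁)
    {T : ℝ} {c : ℝ → G} (hT : 0 ≤ T) (hc : IsQuasiGeodesic S K C T c) (h0 : c 0 = 1)
    (h1 : c T = h) {t : ℝ} (ht : t ∈ Set.Icc 0 T) (hW : (wdist S 1 (c t) : ℝ) ≤ W) :
    ∃ s ≤ wdist S 1 y, (wdist S (q * c t) (γ₁ s) : ℝ) ≤
      bb K C R + ε' * (R + W + bb K C R) + m := by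
  obtain ⟨T', c', hT', hc', h0', h1', hA, -⟩ := qg_two hS hK hC hT (qg_left q hc) 1 y (R := R)
    (by simpa [h0] using hq) (by simpa [h1] using hy)
  obtain ⟨t', ht', hd'⟩ := hA t ht
  obtain ⟨s, hs, hd⟩ := hV T' c' hT' hc' h0' h1' γ₁ hγ₁ t' ht'
  refine ⟨s, hs, ?_⟩
  have a1 := PertS_tri hS (q * c t) (c' t') (γ₁ s)
  have a2 := PertS_tri hS 1 (q * c t) (c' t')
  have a3 := PertS_tri hS 1 q (q * c t)
  have a4 : wdist S q (q * c t) = wdist S 1 (c t) := by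
    have := wdist_left S q 1 (c t)
    rwa [mul_one] at this
  rw [a4] at a3
  have a5 : (wdist S 1 (c' t') : ℝ) ≤ R + W + bb K C R := by linarith
  have a6 := mul_le_mul_of_nonneg_left a5 hε'
  linarith

theorem vseg_pert (hS : Gen S) {K C : ℝ} (hK : 1 ≤ K) (hC : 1 ≤ C) {ε : ℝ} (hε : 0 < ε)
    {R m : ℝ} (hR : 0 ≤ R) (hm : 0 ≤ m) :
    ∃ Φ : ℝ, ∀ y q h : G, (wdist S 1 q : ℝ) ≤ R → (wdist S (q * h) y : ℝ) ≤ R →
      VSeg S (kk (kk K)) (cc (kk K) (cc K C)) (ε / (3 * K ^ 2)) m 1 y →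
      USeg S K C (ε * wdist S 1 h + Φ) 1 h := by
  have hC0 : (0 : ℝ) ≤ C := le_trans zero_le_one hC
  have hK0 : (0 : ℝ) < K := lt_of_lt_of_le one_pos hK
  obtain ⟨ε', hε'⟩ : ∃ ε' : ℝ, ε' = ε / (3 * K ^ 2) := ⟨_, rfl⟩
  have hε'0 : 0 ≤ ε' := by rw [hε']; positivity
  have hε3 : 3 * ε' * K ^ 2 = ε := by rw [hε']; field_simp
  refine ⟨3 * (bb K C R + ε' * (R + C + bb K C R) + m) + 3 * R + ε * C, ?_⟩
  intro y q h hq hy hV
  rw [← hε'] at hV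
  intro T c hT hc h0 h1 γ hγ t ht
  obtain ⟨W, hWd⟩ : ∃ W : ℝ, W = K ^ 2 * (wdist S 1 h + C) + C := ⟨_, rfl⟩
  obtain ⟨γ₁, g0, g1, g2⟩ := (gmet hS).geod 1 y
  have hγ₁ : IsGeo S 1 y γ₁ := ⟨g0, g1, g2⟩
  have hn : (0 : ℝ) ≤ (wdist S 1 h : ℝ) := Nat.cast_nonneg _
  -- bound for `|c t|`
  have hct : (wdist S 1 (c t) : ℝ) ≤ W := by
    have e1 := (hc 0 ⟨le_refl _, hT⟩ T ⟨hT, le_refl _⟩).1
    rw [h0, h1, zero_sub, abs_neg, abs_of_nonneg hT] at e1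
    have e2 : T ≤ K * (wdist S 1 h + C) := by
      have : T / K ≤ wdist S 1 h + C := by linarith
      rwa [div_le_iff₀ hK0, mul_comm] at this
    have e3 := (hc 0 ⟨le_refl _, hT⟩ t ht).2
    rw [h0, zero_sub, abs_neg, abs_of_nonneg ht.1] at e3
    have e4 : K * t ≤ K * (K * (wdist S 1 h + C)) :=
      mul_le_mul_of_nonneg_left (ht.2.trans e2) hK0.le
    rw [hWd]
    nlinarith
  have hWh : (wdist S 1 h : ℝ) ≤ W := by
    rw [hWd]
    have : 1 ≤ K ^ 2 := one_le_pow₀ hK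
    nlinarith
  obtain ⟨s, hs, hd⟩ := PertS_near hS hK hC0 hε'0 hq hy hV hγ₁ hT hc h0 h1 ht hct
  -- the point of `γ`
  have hs₀ : min s (wdist S 1 h) ≤ wdist S 1 h := min_le_right _ _
  have hγs : (wdist S 1 (γ (min s (wdist S 1 h))) : ℝ) ≤ W := by
    have := hγ.2.2 0 _ (Nat.zero_le _) hs₀
    rw [hγ.1, Nat.sub_zero] at this
    rw [this]
    refine le_trans ?_ hWh
    exact_mod_cast hs₀
  obtain ⟨s₁, hs₁, hd₁⟩ := PertS_near hS hK hC0 hε'0 hq hy hV hγ₁ hn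
    (qg_mono (le_refl 1) hK hC (qg_geo hγ)) (by simpa using hγ.1) (by simpa using hγ.2.1)
    (t := ((min s (wdist S 1 h) : ℕ) : ℝ)) ⟨Nat.cast_nonneg _, by exact_mod_cast hs₀⟩
    (W := W) (by simpa only [Nat.floor_natCast] using hγs)
  simp only [Nat.floor_natCast] at hd₁
  obtain ⟨B, hB⟩ : ∃ B : ℝ, B = bb K C R + ε' * (R + W + bb K C R) + m := ⟨_, rfl⟩
  rw [← hB] at hd hd₁
  set s₀ := min s (wdist S 1 h) with hs₀def
  refine ⟨s₀, hs₀, ?_⟩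
  -- distances along `γ₁` and `γ`
  have e1 : (wdist S 1 (γ₁ s₁) : ℝ) = s₁ := by
    have := g2 0 s₁ (Nat.zero_le _) hs₁
    rw [g0] at this
    rw [this, Nat.sub_zero]
  have e2 : (wdist S q (q * γ s₀) : ℝ) = s₀ := by
    have := hγ.2.2 0 s₀ (Nat.zero_le _) hs₀
    rw [hγ.1] at this
    have e : wdist S q (q * γ s₀) = wdist S 1 (γ s₀) := by
      have := wdist_left S q 1 (γ s₀)
      rwa [mul_one] at this
    rw [e, this, Nat.sub_zero]
  have e3 : (wdist S (γ₁ s) (γ₁ s₁) : ℝ) = |(s : ℝ) - s₁| := by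
    rcases le_total s s₁ with hh | hh
    · have := g2 s s₁ hh hs₁
      rw [this, Nat.cast_sub hh, abs_sub_comm, abs_of_nonneg]
      have : (s : ℝ) ≤ s₁ := by exact_mod_cast hh
      linarith
    · have := g2 s₁ s hh hs
      rw [wdist_comm, this, Nat.cast_sub hh, abs_of_nonneg]
      have : (s₁ : ℝ) ≤ s := by exact_mod_cast hh
      linarith
  have f1 : (wdist S 1 y : ℝ) ≤ wdist S 1 h + 2 * R := by
    have a1 := PertS_tri hS 1 q y
    have a2 := PertS_tri hS q (q * h) y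
    have a3 : wdist S q (q * h) = wdist S 1 h := by
      have := wdist_left S q 1 h
      rwa [mul_one] at this
    rw [a3] at a2
    linarith
  have f2 : (s : ℝ) - s₀ ≤ 2 * R ∧ 0 ≤ (s : ℝ) - s₀ := by
    have b1 : (s : ℝ) ≤ wdist S 1 y := by exact_mod_cast hs
    have b2 : (s₀ : ℝ) ≤ s := by exact_mod_cast min_le_left s (wdist S 1 h)
    refine ⟨?_, by linarith⟩
    rcases le_total s (wdist S 1 h) with hh | hh
    · have : s₀ = s := min_eq_left hh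
      rw [this]
      linarith
    · have : s₀ = wdist S 1 h := min_eq_right hh
      rw [this]
      linarith
  have t1 := PertS_tri hS 1 (γ₁ s₁) (q * γ s₀)
  have t2 := PertS_tri hS 1 (q * γ s₀) (γ₁ s₁)
  have t3 := PertS_tri hS 1 q (q * γ s₀)
  have t4 := PertS_tri hS q 1 (q * γ s₀)
  have c1 : (wdist S q 1 : ℝ) = wdist S 1 q := by rw [wdist_comm]
  have c2 : (wdist S (γ₁ s₁) (q * γ s₀) : ℝ) = wdist S (q * γ s₀) (γ₁ s₁) := by
    rw [wdist_comm]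
  have u1 : |(s : ℝ) - s₁| ≤ 3 * R + B := by
    rw [abs_le]
    constructor <;> linarith [f2.1, f2.2]
  have w0 : wdist S (c t) (γ s₀) = wdist S (q * c t) (q * γ s₀) := (wdist_left S q _ _).symm
  have w1 := PertS_tri hS (q * c t) (γ₁ s) (q * γ s₀)
  have w2 := PertS_tri hS (γ₁ s) (γ₁ s₁) (q * γ s₀)
  rw [w0]
  have w3 : (wdist S (q * c t) (q * γ s₀) : ℝ) ≤ 3 * B + 3 * R := by linarith
  refine w3.trans (le_of_eq ?_)
  rw [hB, hWd]
  have : ε = 3 * ε' * K ^ 2 := hε3.symm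
  rw [this]
  ring

end Pool.Agent.HMB
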