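import Pool.Agent.HMB.StepTwoS
import Pool.Agent.HMB.PertS
import Pool.Agent.HMB.Conn
import Pool.Agent.HMB.Top
import Pool.Agent.HMB.Elem
import Pool.Agent.HMB.Final

set_option autoImplicit false

namespace Pool.Agent.HMB

open Pool.Agent.MHN

universe u

/-- a sublinear function is at most `ε n + B` -/
theorem sub_bound {κ : ℕ → ℝ} (hκ : Filter.Tendsto (fun n : ℕ => κ n / n) Filter.atTop (nhds 0))
    {ε : ℝ} (hε : 0 < ε) : ∃ B : ℕ, ∀ n : ℕ, κ n ≤ ε * n + B := by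
  have h1 : ∀ᶠ n : ℕ in Filter.atTop, κ n / n < ε := hκ.eventually (gt_mem_nhds hε)
  obtain ⟨N, hN⟩ := Filter.eventually_atTop.1 h1
  obtain ⟨b, hb⟩ := ((Set.finite_Iio (N + 1)).image κ).bddAbove
  refine ⟨⌈max b 0⌉₊, fun n => ?_⟩
  have h2 := Nat.le_ceil (max b 0)
  have h3 : (0 : ℝ) ≤ n := Nat.cast_nonneg n
  by_cases hn : n < N + 1
  · have h4 : κ n ≤ b := hb ⟨n, hn, rfl⟩
    have h5 := le_max_left b 0
    have h6 : 0 ≤ ε * n := by positivity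
    linarith
  · have h4 := hN n (by omega)
    have h5 : (0 : ℝ) < n := by
      have : 0 < n := by omega
      exact_mod_cast this
    rw [div_lt_iff₀ h5] at h4
    have h6 := le_max_right b 0
    linarith

theorem mainS_core {G : Type u} [Group G] {S : Finset G} (hS : Gen S) (H : Subgroup G) [H.Normal]
    {A : Finset H} (hA : Gen A) {δ : ℝ} (hδ : Hyp δ (wdist A)) {f' : H}
    (hf'fin : ¬ IsOfFinOrder f') (hne : ∀ n : ℕ, ∃ z : H, ∀ i : ℤ, n ≤ wdist A z (f' ^ i))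
    (hund : IsUndist S (f' : G)) (hG : ¬ IsHyperbolicGroup G) :
    IsMeagre {ξ : Bdry A | IsSubMorsePoint S A ξ} := by
  classical
  have hd : LMet H δ (wdist A) := lmet hA hδ
  have hδ0 : 0 ≤ δ := hd.delta_nonneg
  obtain ⟨K, C, ε, hK, hC, hε, hbad⟩ : ∃ K C ε : ℝ, 1 ≤ K ∧ 1 ≤ C ∧ 0 < ε ∧ ∀ B : ℝ, ∃ h ∈ H,
      ¬ USeg S K C (ε * wdist S 1 h + B) 1 h := by
    by_contra hcon
    push Not at hcon
    apply hG
    apply hyp_of_usub hS H f'.2 hund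
    intro K C hK hC ε hε
    obtain ⟨M, hM⟩ := hcon K (max C 1) ε hK (le_max_right _ _) hε
    exact ⟨M, fun h hh => useg_mono hK le_rfl (le_max_left _ _) le_rfl (hM h hh)⟩
  have hC0 : 0 ≤ C := by linarith
  have hKpos : 0 < K := by linarith
  obtain ⟨ε', hε'⟩ : ∃ ε' : ℝ, ε' = ε / (3 * K ^ 2) := ⟨_, rfl⟩
  have hε'0 : 0 < ε' := by rw [hε']; positivity
  obtain ⟨F, L, D, hconn⟩ := conn hd hf'fin hne
  obtain ⟨κ, hκ⟩ := wlen_hom hA hS H.subtype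
  have hκ' : ∀ a b : H, wdist S (a : G) (b : G) ≤ κ * wdist A a b := by
    intro a b
    have := hκ (a⁻¹ * b)
    simpa [wdist] using this
  have hK' : 1 ≤ kk (kk K) := kk_ge (kk_ge hK)
  have hC' : 0 ≤ cc (kk K) (cc K C) := cc_ge (kk_ge hK) (cc_ge hK hC0)
  have hsub : {ξ : Bdry A | IsSubMorsePoint S A ξ} ⊆ {ξ : Bdry A | ∃ ρ : Ray A,
      Quot.mk (Asym A) ρ = ξ ∧ ∃ m, ∀ i, (fun (m : ℕ) (h : H) =>
        VSeg S (kk (kk K)) (cc (kk K) (cc K C)) ε' m 1 (h : G)) m (ρ.1 i)} := by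
    rintro ξ ⟨ρ, hρ, hM⟩
    obtain ⟨κ₁, hκ₁, hM⟩ := hM _ _ hK' hC'
    obtain ⟨B, hB⟩ := sub_bound hκ₁ hε'0
    refine ⟨ρ, hρ, B, fun i => ?_⟩
    intro T c hT hc h0 h1 γ hγ t ht
    obtain ⟨j, hj, hj'⟩ := hM i γ hγ T c hT hc ⟨0, Nat.zero_le _, by rw [h0, hγ.1]⟩
      ⟨_, le_rfl, by rw [h1, hγ.2.1]⟩ t ht
    refine ⟨j, hj, hj'.trans ?_⟩
    have := hB (wlen S (c t))
    rwa [wdist_one]
  refine IsMeagre.mono hsub ?_
  refine meagre_of hA hδ (fun (m : ℕ) (h : H) =>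
        VSeg S (kk (kk K)) (cc (kk K) (cc K C)) ε' m 1 (h : G)) D ?_
  intro m ρ₀ N
  obtain ⟨N', hN'⟩ : ∃ N', N' = max N L := ⟨_, rfl⟩
  obtain ⟨g, hg⟩ : ∃ g, g = ρ₀.1 N' := ⟨_, rfl⟩
  have hgd : wdist A 1 g = N' := by
    have := ρ₀.2.2 0 N' (Nat.zero_le _)
    rw [ρ₀.2.1] at this
    rw [hg, this]; simp
  obtain ⟨W, hW⟩ : ∃ W : ℕ, ∀ a ∈ F, wlen A a ≤ W :=
    ⟨F.sup (wlen A), fun a ha => Finset.le_sup (f := wlen A) ha⟩
  obtain ⟨Q, hQ⟩ : ∃ Q : ℕ, Q = ⌈4 * δ⌉₊ := ⟨_, rfl⟩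
  obtain ⟨R, hR⟩ : ∃ R : ℝ, R = (κ : ℝ) * (N' + W) + κ * (D + Q) := ⟨_, rfl⟩
  have hκ0 : (0 : ℝ) ≤ κ := Nat.cast_nonneg _
  have p1 : (0 : ℝ) ≤ κ * (N' + W) := by positivity
  have p2 : (0 : ℝ) ≤ κ * (D + Q) := by positivity
  have hR0 : 0 ≤ R := by rw [hR]; linarith
  obtain ⟨Φ, hΦ⟩ := vseg_pert hS hK hC hε hR0 (Nat.cast_nonneg m : (0 : ℝ) ≤ m)
  obtain ⟨h₀, hh₀, hbad'⟩ := hbad (max Φ (K * (K * (((κ * L : ℕ) : ℝ) + C)) + C))
  obtain ⟨h, hh⟩ : ∃ h : H, (h : G) = h₀ := ⟨⟨h₀, hh₀⟩, rfl⟩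
  rw [← hh] at hbad'
  have hε0' : 0 ≤ ε * wdist S 1 (h : G) := by positivity
  have hL : L ≤ wdist A 1 h := by
    by_contra hcon
    push Not at hcon
    apply hbad'
    refine useg_mono hK le_rfl le_rfl ?_ (useg_triv (S := S) hK hC0 (h : G))
    have h1 := hκ' 1 h
    have h2 : wdist S (1 : G) (h : G) ≤ κ * L :=
      (by simpa using h1 : wdist S (1 : G) (h : G) ≤ κ * wdist A 1 h).trans
        (Nat.mul_le_mul_left _ hcon.le)
    have h3 : (wdist S (1 : G) (h : G) : ℝ) ≤ ((κ * L : ℕ) : ℝ) := by exact_mod_cast h2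
    have h4 : K * (K * ((wdist S (1 : G) (h : G) : ℝ) + C)) ≤ K * (K * (((κ * L : ℕ) : ℝ) + C)) := by
      gcongr
    have h5 := le_max_right Φ (K * (K * (((κ * L : ℕ) : ℝ) + C)) + C)
    linarith
  obtain ⟨a, haF, ρ, hρ0, hρ, hρg, j, hj⟩ := hconn g h (by rw [hgd, hN']; exact le_max_right _ _) hL
  refine ⟨⟨ρ, hρ0, hρ⟩, ⟨N', by rw [hN']; exact le_max_left _ _, ?_⟩, ?_⟩
  · rw [hgd] at hρg
    rw [← hg]
    exact hρg
  · intro ρ' hρ'
    refine ⟨j, fun hP => hbad' ?_⟩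
    have e1 := asym_unif hA hδ hρ' j
    have e2 : wdist A (ρ j) (ρ'.1 j) ≤ Q := by
      have : (wdist A (ρ j) (ρ'.1 j) : ℝ) ≤ Q := by
        rw [hQ]; exact le_trans e1 (Nat.le_ceil _)
      exact_mod_cast this
    have e3 : wdist A (g * a * h) (ρ'.1 j) ≤ D + Q := by
      have := wdist_tri hA (g * a * h) (ρ j) (ρ'.1 j)
      rw [wdist_comm A (g * a * h) (ρ j)] at this
      omega
    have e4 : wdist A 1 (g * a) ≤ N' + W := by
      have h1 := wdist_tri hA 1 g (g * a)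
      have h2 : wdist A g (g * a) = wlen A a := by simp [wdist]
      have h3 := hW a haF
      omega
    have e5 : wdist S 1 ((g : G) * a) ≤ κ * (N' + W) := by
      have := hκ' 1 (g * a)
      simp only [Subgroup.coe_one, Subgroup.coe_mul] at this
      exact this.trans (Nat.mul_le_mul_left _ e4)
    have e6 : wdist S ((g : G) * a * h) (ρ'.1 j : G) ≤ κ * (D + Q) := by
      have := hκ' (g * a * h) (ρ'.1 j)
      simp only [Subgroup.coe_mul] at this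
      exact this.trans (Nat.mul_le_mul_left _ e3)
    have e5' : (wdist S 1 ((g : G) * a) : ℝ) ≤ κ * (N' + W) := by exact_mod_cast e5
    have e6' : (wdist S ((g : G) * a * h) (ρ'.1 j : G) : ℝ) ≤ κ * (D + Q) := by exact_mod_cast e6
    rw [hε'] at hP
    refine useg_mono hK le_rfl le_rfl ?_ (hΦ (ρ'.1 j : G) ((g : G) * a) (h : G) ?_ ?_ hP)
    · have := le_max_left Φ (K * (K * (((κ * L : ℕ) : ℝ) + C)) + C)
      linarith
    · rw [hR]; linarith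
    · rw [hR]; linarith

end Pool.Agent.HMB
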