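import Pool.Agent.HMB.LoxD
import Pool.Agent.HMB.FinalS

set_option autoImplicit false

/-!
The theorems without the assumption that some element of `H` is Morse in `G`.
-/

namespace Pool.Agent.HMB

open Pool.Agent.MHN

universe u

variable {G : Type u} [Group G] {S : Finset G}

/-- in the elementary case no ray of `H` is Morse in `G` -/
private theorem FinalB_elem (hS : Gen S) (H : Subgroup G) [H.Normal] (hinf : Infinite H)
    {A : Finset H} (hA : Gen A) {f' : H} (hf'fin : ¬ IsOfFinOrder f') {n : ℕ}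
    (hn : ∀ z : H, ∃ i : ℤ, wdist A z (f' ^ i) < n) (hG : ¬ IsHyperbolicGroup G)
    (M : ℝ → ℝ → ℝ) (ρ : Ray A) : ¬ IsMorseRay S M ρ := by
  intro hρ
  apply hG
  apply hyp_of_useg_inf hS H hinf
  refine useg_elem hS H hA hf'fin (n := n) (fun z => ?_) ρ (fun K C hK hC => ?_)
  · obtain ⟨i, hi⟩ := hn z
    exact ⟨i, hi.le⟩
  · exact ⟨M K C, fun i => useg_of_morse (hρ i) hK hC le_rfl⟩

theorem porous (hS : Gen S) (H : Subgroup G) [H.Normal] (hinf : Infinite H)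
    {A : Finset H} (hA : Gen A) {δ : ℝ} (hδ : Hyp δ (wdist A)) (hG : ¬ IsHyperbolicGroup G) :
    ∃ D : ℕ, ∀ (M : ℝ → ℝ → ℝ) (E : ℕ), ∃ N : ℕ, ∀ (ρ₀ : Ray A) (n : ℕ), ∃ ρ : Ray A,
      wdist A (ρ.1 n) (ρ₀.1 n) ≤ D ∧
        ∀ ρ' : Ray A, IsMorseRay S M ρ' → E < wdist A (ρ'.1 (n + N)) (ρ.1 (n + N)) := by
  obtain ⟨f', hf'⟩ := exists_infinite_order hA hδ hinf
  by_cases hne : ∀ n : ℕ, ∃ z : H, ∀ i : ℤ, n ≤ wdist A z (f' ^ i)
  · obtain ⟨K, C, hK, hC, hbad⟩ := exists_bad_inf hS H hinf hG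
    exact porous_core hS H hA hδ hf' hne hK hC hbad
  · push Not at hne
    obtain ⟨n, hn⟩ := hne
    refine ⟨0, fun M E => ⟨0, fun ρ₀ k => ⟨ρ₀, by rw [wdist_self], fun ρ' hρ' => ?_⟩⟩⟩
    exact absurd hρ' (FinalB_elem hS H hinf hA hf' hn hG M ρ')

theorem meagre_morse (hS : Gen S) (H : Subgroup G) [H.Normal] (hinf : Infinite H)
    {A : Finset H} (hA : Gen A) {δ : ℝ} (hδ : Hyp δ (wdist A)) (hG : ¬ IsHyperbolicGroup G) :
    IsMeagre {ξ : Bdry A | IsMorsePoint S A ξ} := by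
  obtain ⟨f', hf'⟩ := exists_infinite_order hA hδ hinf
  by_cases hne : ∀ n : ℕ, ∃ z : H, ∀ i : ℤ, n ≤ wdist A z (f' ^ i)
  · obtain ⟨K, C, hK, hC, hbad⟩ := exists_bad_inf hS H hinf hG
    exact main_core hS H hA hδ hf' hne hK hC hbad
  · push Not at hne
    obtain ⟨n, hn⟩ := hne
    have : {ξ : Bdry A | IsMorsePoint S A ξ} = ∅ := by
      ext ξ
      simp only [Set.mem_setOf_eq, Set.mem_empty_iff_false, iff_false]
      rintro ⟨ρ, -, M, hM⟩
      exact FinalB_elem hS H hinf hA hf' hn hG M ρ hM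
    rw [this]
    exact IsMeagre.empty

end Pool.Agent.HMB
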