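import Pool.Agent.HMB.NearCore
import Pool.Agent.MHN.Final

set_option autoImplicit false

/-!
In a hyperbolic group the translation lengths of the elements of infinite order are bounded below.
Hence the elements of infinite order of a hyperbolic normal subgroup `H` (which is not elementary)
are undistorted in the ambient group.
-/

namespace Pool.Agent.HMB

open Pool.Agent.MHN

universe u

private theorem Undist_up {H : Type*} [Group H] {δ : ℝ} {d : H → H → ℕ} (hd : LMet H δ d) {f : H}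
    (hf : ¬ IsOfFinOrder f) {u : H} (hu : al d f u = 0) (n : ℤ) :
    (d u (f ^ n * u) : ℝ) ≤ |(n : ℝ)| * tl d f + 14 * δ := by
  have h1 := fermi_upper hd hf u (f ^ n * u)
  have h2 := (abs_le.1 (al_shift hd hf u n)).2
  have h3 := be_shift hd hf u n
  have ht := (tl_pos hd hf).le
  have h5 : |be d f u - be d f (f ^ n * u)| ≤ |(n : ℝ) * tl d f| + 6 * δ := by
    have e : be d f u - be d f (f ^ n * u) =
        -(be d f (f ^ n * u) - be d f u - n * tl d f) - n * tl d f := by ring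
    rw [e]
    refine (abs_sub _ _).trans ?_
    rw [abs_neg]
    linarith
  rw [abs_mul, abs_of_nonneg ht] at h5
  rw [hu] at h1 h2
  linarith

variable {G : Type u} [Group G] {S : Finset G}

theorem ell_lower {H : Subgroup G} [H.Normal] {A : Finset H} {δ : ℝ} (hA : Gen A)
    (hδ : Hyp δ (wdist A)) : ∃ l : ℝ, 0 < l ∧ ∀ h : H, ¬ IsOfFinOrder h → ∀ x : G,
      l ≤ ell A h x := by
  classical
  obtain ⟨r, hr⟩ := exists_nat_ge (1 + 14 * δ)
  have hfin := wlen_fin hA r
  obtain ⟨b, hb⟩ : ∃ b, b = hfin.toFinset.card := ⟨_, rfl⟩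
  have hb1 : (0 : ℝ) < (b : ℝ) + 1 := by positivity
  refine ⟨1 / ((b : ℝ) + 1), by positivity, fun h hh x => ?_⟩
  by_contra hcon
  push Not at hcon
  have hd := dx_lmet hA hδ x
  obtain ⟨u, hu, -⟩ := axis_point hd hh 1
  have hinj : Function.Injective (fun j : ℕ => h ^ j) := injective_pow_iff_not_isOfFinOrder.2 hh
  have key : ∀ j ∈ Finset.range (b + 1),
      (MulAut.conjNormal x⁻¹ (u⁻¹ * (h ^ j * u)) : H) ∈ hfin.toFinset := by
    intro j hj
    rw [Set.Finite.mem_toFinset, Set.mem_setOf_eq]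
    have h1 := Undist_up hd hh hu (j : ℤ)
    rw [zpow_natCast, Int.cast_natCast, abs_of_nonneg (Nat.cast_nonneg j)] at h1
    have h2 : (j : ℝ) ≤ (b : ℝ) + 1 := by
      have := Finset.mem_range.1 hj
      have h3 : (j : ℝ) < ((b + 1 : ℕ) : ℝ) := by exact_mod_cast this
      push_cast at h3
      exact h3.le
    have h0 : 0 ≤ ell A h x := (ell_pos hA hδ hh x).le
    have h3 : (j : ℝ) * ell A h x ≤ ((b : ℝ) + 1) * (1 / ((b : ℝ) + 1)) :=
      mul_le_mul h2 hcon.le h0 hb1.le
    rw [mul_one_div_cancel hb1.ne'] at h3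
    have h4 : (wlen A (MulAut.conjNormal x⁻¹ (u⁻¹ * (h ^ j * u))) : ℝ) ≤
        (j : ℝ) * ell A h x + 14 * δ := h1
    have h5 : (wlen A (MulAut.conjNormal x⁻¹ (u⁻¹ * (h ^ j * u))) : ℝ) ≤ r := by linarith
    exact_mod_cast h5
  have hcard : (Finset.range (b + 1)).card ≤ hfin.toFinset.card := by
    apply Finset.card_le_card_of_injOn
      (fun j : ℕ => (MulAut.conjNormal x⁻¹ (u⁻¹ * (h ^ j * u)) : H)) key
    intro i _ j _ hij
    have h1 := (MulAut.conjNormal (H := H) x⁻¹).injective hij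
    have h2 := mul_left_cancel h1
    exact hinj (mul_right_cancel h2)
  rw [Finset.card_range, ← hb] at hcard
  omega

theorem undist (hS : Gen S) {H : Subgroup G} [H.Normal] {A : Finset H} {δ : ℝ} (hA : Gen A)
    (hδ : Hyp δ (wdist A)) (k : H) (hk' : ¬ IsOfFinOrder k)
    (hne : ∀ n : ℕ, ∃ z : H, ∀ i : ℤ, n ≤ wdist A z (k ^ i)) : IsUndist S (k : G) := by
  obtain ⟨P, R, C₀, hC₀, hR, h1, h2, -⟩ := exists_P hA hδ k hk' hne
  obtain ⟨l, hl, hle'⟩ := ell_lower (A := A) hA hδ
  have hle := hle' k hk'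
  have hstep : ∃ E : ℝ, 0 ≤ E ∧ ∀ x w : G, wlen S w ≤ 1 → |P (x * w) - P x| ≤ E := by
    have hfin := wlen_fin hS 1
    obtain ⟨M, hM⟩ := (hfin.image R).bddAbove
    refine ⟨4 + (|M|) * (2 / l), by positivity, fun x w hw => ?_⟩
    have hRw : R w ≤ |M| := le_trans (hM ⟨w, hw, rfl⟩) (le_abs_self _)
    refine (h2 x w).trans ?_
    have e1 : 1 / ell A k x ≤ 1 / l := one_div_le_one_div_of_le hl (hle x)
    have e2 : 1 / ell A k (x * w) ≤ 1 / l := one_div_le_one_div_of_le hl (hle _)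
    have e3 : 0 ≤ 1 / l := by positivity
    have e4 : 1 / ell A k x + 1 / ell A k (x * w) ≤ 2 / l := by
      have : (2 : ℝ) / l = 1 / l + 1 / l := by ring
      rw [this]; linarith
    have e5 : 0 ≤ 1 / ell A k x + 1 / ell A k (x * w) := by
      have := lt_of_lt_of_le hl (hle x)
      have := lt_of_lt_of_le hl (hle (x * w))
      positivity
    have := mul_le_mul hRw e4 e5 (abs_nonneg M)
    linarith
  obtain ⟨E, hE0, hE⟩ := hstep
  have h1' : ∀ (x : G) (n : ℤ), |P ((k : G) ^ n * x) - P x - n| ≤ C₀ / l := by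
    intro x n
    refine (h1 x n).trans ?_
    exact div_le_div_of_nonneg_left hC₀ hl (hle x)
  exact qi_of_lip hS (k : G) P (C₀ / l) E h1' (lip_of_step hS hE)

end Pool.Agent.HMB
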