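import Pool.Agent.HMB.FinalB
import Pool.Agent.HMB.ElemT
import Pool.Agent.HMB.Undist

set_option autoImplicit false

/-!
The sublinear theorem without the assumption that some element of `H` is Morse in `G`.
-/

namespace Pool.Agent.HMB

open Pool.Agent.MHN

universe u

variable {G : Type u} [Group G] {S : Finset G}

theorem usub_elem (hS : Gen S) (H : Subgroup G) {A : Finset H} (hA : Gen A) {f : H}
    (hf : ¬ IsOfFinOrder f) {n : ℕ} (hn : ∀ z : H, ∃ i : ℤ, wdist A z (f ^ i) ≤ n) (ρ : Ray A)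
    (hρ : ∀ K C : ℝ, 1 ≤ K → 0 ≤ C → ∀ ε : ℝ, 0 < ε → ∃ m : ℕ, ∀ i,
      VSeg S K C ε m 1 (ρ.1 i : G)) :
    ∀ K C : ℝ, 1 ≤ K → 0 ≤ C → ∀ ε : ℝ, 0 < ε → ∃ B : ℝ, ∀ h ∈ H,
      USeg S K C (ε * wdist S 1 h + B) 1 h := by
  obtain ⟨κ, hκ⟩ := wlen_hom hA hS H.subtype
  have hκ' : ∀ a b : H, wdist S (a : G) (b : G) ≤ κ * wdist A a b := by
    intro a b
    have := hκ (a⁻¹ * b)
    simpa [wdist] using this
  obtain ⟨D, hD⟩ := ray_exp hA hf hn ρ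
  intro K' C' hK' hC' ε hε
  obtain ⟨C, hC⟩ : ∃ C : ℝ, C = max C' 1 := ⟨_, rfl⟩
  have hC1 : 1 ≤ C := by rw [hC]; exact le_max_right _ _
  obtain ⟨K₂, hK₂⟩ : ∃ K₂, K₂ = kk (kk K') := ⟨_, rfl⟩
  obtain ⟨C₂, hC₂⟩ : ∃ C₂, C₂ = cc (kk K') (cc K' C) := ⟨_, rfl⟩
  have hK₂1 : 1 ≤ K₂ := by rw [hK₂]; exact kk_ge (kk_ge hK')
  have hC₂1 : 1 ≤ C₂ := by rw [hC₂]; exact cc_one (kk_ge hK') (cc_ge hK' (by linarith))
  have hK₃1 : 1 ≤ kk (kk K₂) := kk_ge (kk_ge hK₂1)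
  have hC₃0 : 0 ≤ cc (kk K₂) (cc K₂ C₂) := cc_ge (kk_ge hK₂1) (cc_ge hK₂1 (by linarith))
  obtain ⟨ε₁, hε₁⟩ : ∃ ε₁ : ℝ, ε₁ = ε / 3 := ⟨_, rfl⟩
  have hε₁0 : 0 < ε₁ := by rw [hε₁]; positivity
  have hK₂0 : 0 < K₂ := by linarith
  obtain ⟨m, hm⟩ := hρ _ _ hK₃1 hC₃0 (ε₁ / (3 * K₂ ^ 2)) (by positivity)
  obtain ⟨R, hR⟩ : ∃ R : ℝ, R = ((κ * D : ℕ) : ℝ) := ⟨_, rfl⟩
  obtain ⟨R', hR'⟩ : ∃ R' : ℝ, R' = ((κ * n : ℕ) : ℝ) := ⟨_, rfl⟩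
  have hR0 : 0 ≤ R := by rw [hR]; exact Nat.cast_nonneg _
  have hR'0 : 0 ≤ R' := by rw [hR']; exact Nat.cast_nonneg _
  obtain ⟨Φ', hΦ'⟩ := vseg_pert hS hK₂1 hC₂1 hε₁0 hR0 (Nat.cast_nonneg m : (0 : ℝ) ≤ m)
  obtain ⟨Φ, hΦ⟩ : ∃ Φ : ℝ, Φ = max Φ' 0 := ⟨_, rfl⟩
  have hΦ0 : 0 ≤ Φ := by rw [hΦ]; exact le_max_right _ _
  have hΦ1 : Φ' ≤ Φ := by rw [hΦ]; exact le_max_left _ _
  have hpow : ∀ k : ℤ, USeg S K₂ C₂ (ε₁ * wdist S 1 ((f ^ k : H) : G) + Φ) 1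
      ((f ^ k : H) : G) := by
    intro k
    obtain ⟨i, k', hk', hi⟩ := hD k
    have h2 : USeg S K₂ C₂ (ε₁ * wdist S 1 ((f ^ k' : H) : G) + Φ) 1 ((f ^ k' : H) : G) := by
      refine useg_mono hK₂1 le_rfl le_rfl (by linarith)
        (hΦ' (ρ.1 i : G) 1 ((f ^ k' : H) : G) ?_ ?_ (hm i))
      · rw [wdist_self, Nat.cast_zero]; exact hR0
      · rw [one_mul, hR]
        exact_mod_cast (hκ' (f ^ k') (ρ.1 i)).trans (Nat.mul_le_mul_left _ hi)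
    rcases hk' with rfl | rfl
    · exact h2
    · have h3 := useg_inv h2
      rw [wdist_one, ← wlen_inv] at h3
      rw [wdist_one]
      rwa [zpow_neg, Subgroup.coe_inv, inv_inv] at h3
  refine ⟨3 * (bb K' C R' + (ε₁ * R' + Φ)) + 3 * R', fun h hh => ?_⟩
  obtain ⟨k, hk⟩ := hn ⟨h, hh⟩
  have hkR : (wdist S h ((f ^ k : H) : G) : ℝ) ≤ R' := by
    rw [hR']
    exact_mod_cast (hκ' ⟨h, hh⟩ (f ^ k)).trans (Nat.mul_le_mul_left _ hk)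
  have h3 := hpow k
  rw [hK₂, hC₂] at h3
  have hm0 : 0 ≤ ε₁ * wdist S 1 ((f ^ k : H) : G) + Φ := by positivity
  have h4 := useg_pert hS hK' hC1 hm0 (y := ((f ^ k : H) : G)) (q := 1) (h := h) (R := R')
    (by rw [wdist_self, Nat.cast_zero]; exact hR'0) (by rw [one_mul]; exact hkR) h3
  refine useg_mono hK' le_rfl (by rw [hC]; exact le_max_left _ _) ?_ h4
  have t1 := Lox_tri hS 1 h ((f ^ k : H) : G)
  have h5 : ε₁ * wdist S 1 ((f ^ k : H) : G) ≤ ε₁ * (wdist S 1 h + R') :=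
    mul_le_mul_of_nonneg_left (by linarith) hε₁0.le
  have h6 : ε = 3 * ε₁ := by rw [hε₁]; ring
  rw [h6]
  linarith

theorem meagre_sub (hS : Gen S) (H : Subgroup G) [H.Normal] (hinf : Infinite H)
    {A : Finset H} (hA : Gen A) {δ : ℝ} (hδ : Hyp δ (wdist A)) (hG : ¬ IsHyperbolicGroup G) :
    IsMeagre {ξ : Bdry A | IsSubMorsePoint S A ξ} := by
  obtain ⟨f', hf'⟩ := exists_infinite_order hA hδ hinf
  by_cases hne : ∀ n : ℕ, ∃ z : H, ∀ i : ℤ, n ≤ wdist A z (f' ^ i)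
  · exact mainS_core hS H hA hδ hf' hne (undist hS hA hδ f' hf' hne) hG
  · push Not at hne
    obtain ⟨n, hn⟩ := hne
    have : {ξ : Bdry A | IsSubMorsePoint S A ξ} = ∅ := by
      ext ξ
      simp only [Set.mem_setOf_eq, Set.mem_empty_iff_false, iff_false]
      rintro ⟨ρ, -, hM⟩
      apply hG
      apply hyp_elem_S hS H hf' (index_of_bounded hA f' hn)
      refine usub_elem hS H hA hf' (n := n) (fun z => ?_) ρ (fun K C hK hC ε hε => ?_)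
      · obtain ⟨i, hi⟩ := hn z
        exact ⟨i, hi.le⟩
      · obtain ⟨κ₁, hκ₁, hM⟩ := hM K C hK hC
        obtain ⟨B, hB⟩ := sub_bound hκ₁ hε
        refine ⟨B, fun i => ?_⟩
        intro T c hT hc h0 h1 γ hγ t ht
        obtain ⟨j, hj, hj'⟩ := hM i γ hγ T c hT hc ⟨0, Nat.zero_le _, by rw [h0, hγ.1]⟩
          ⟨_, le_rfl, by rw [h1, hγ.2.1]⟩ t ht
        refine ⟨j, hj, hj'.trans ?_⟩
        have := hB (wlen S (c t))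
        rwa [wdist_one]
    rw [this]
    exact IsMeagre.empty

end Pool.Agent.HMB
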