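import Pool.Agent.HMB.Third

set_option autoImplicit false

/-!
An infinite subgroup `H` of `G` for which the triangles with vertices in `H` are uniformly slim contains
an element `f` with `|f²| > |f| + 2δ`.

`P x y` is the Gromov product at `1`. If `|f²| ≤ |f| + 2δ` for all `f ∈ H` then
`P f g ≥ min |f| |g| / 2 - 3δ` for all `f, g ∈ H`. Hence, for `k ∈ H` long and `p` on a geodesic
from `1` to `k`, `p` is moved by a bounded amount by all `h ∈ H` with `|h| ≤ n`; but the number of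
such `h` is at most the number of elements of a ball.
-/

namespace Pool.Agent.HMB

open Pool.Agent.MHN

universe u

variable {G : Type u} [Group G] {S : Finset G}

/-- the length as a real number -/
private noncomputable def ln (S : Finset G) (g : G) : ℝ := (wdist S 1 g : ℝ)

/-- the Gromov product at `1` -/
private noncomputable def P (S : Finset G) (x y : G) : ℝ := (ln S x + ln S y - ln S (x⁻¹ * y)) / 2

private theorem ln_inv (x : G) : ln S x⁻¹ = ln S x := by
  unfold ln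
  rw [wdist_one, wdist_one, wlen_inv]

private theorem ln_dist (x y : G) : (wdist S x y : ℝ) = ln S (x⁻¹ * y) := by
  unfold ln
  rw [wdist_one]; rfl

private theorem P_symm (x y : G) : P S x y = P S y x := by
  unfold P
  have : ln S (y⁻¹ * x) = ln S (x⁻¹ * y) := by
    rw [← ln_inv (y⁻¹ * x)]
    congr 1
    group
  rw [this]
  ring

/-- four-point condition for the subgroup `H` -/
def FourH (S : Finset G) (H : Subgroup G) (δ : ℝ) : Prop :=
  ∀ x ∈ H, ∀ y ∈ H, ∀ z ∈ H, ∀ w ∈ H,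
    (wdist S x z : ℝ) + wdist S y w ≤
      max ((wdist S x y : ℝ) + wdist S z w) ((wdist S y z : ℝ) + wdist S x w) + 2 * δ

/-- slim triangles for the subgroup `H` -/
def SlimH (S : Finset G) (H : Subgroup G) (M : ℝ) : Prop :=
  ∀ x ∈ H, ∀ y ∈ H, ∀ z ∈ H, ∀ γ β β' : ℕ → G, IsGeo S x z γ → IsGeo S x y β →
    IsGeo S y z β' → ∀ i ≤ wdist S x z, (∃ v ≤ wdist S x y, (wdist S (γ i) (β v) : ℝ) ≤ M) ∨
      ∃ v ≤ wdist S y z, (wdist S (γ i) (β' v) : ℝ) ≤ M

private theorem P_min {H : Subgroup G} {δ : ℝ} (h4 : FourH S H δ) {x y z : G} (hx : x ∈ H)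
    (hy : y ∈ H) (hz : z ∈ H) : min (P S x y) (P S y z) - δ ≤ P S x z := by
  have h := h4 x hx 1 H.one_mem z hz y hy
  rw [ln_dist x z, ln_dist 1 y, ln_dist x 1, ln_dist z y, ln_dist 1 z, ln_dist x y] at h
  simp only [inv_one, one_mul, mul_one] at h
  rw [ln_inv x] at h
  have e : ln S (y⁻¹ * z) = ln S (z⁻¹ * y) := by
    rw [← ln_inv (y⁻¹ * z)]
    congr 1
    group
  unfold P
  rw [e]
  rcases le_max_iff.1 (show ln S (x⁻¹ * z) + ln S y - 2 * δ ≤
    max (ln S x + ln S (z⁻¹ * y)) (ln S z + ln S (x⁻¹ * y)) by linarith) with h1 | h1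
  · have := min_le_right ((ln S x + ln S y - ln S (x⁻¹ * y)) / 2) ((ln S y + ln S z - ln S (z⁻¹ * y)) / 2)
    linarith
  · have := min_le_left ((ln S x + ln S y - ln S (x⁻¹ * y)) / 2) ((ln S y + ln S z - ln S (z⁻¹ * y)) / 2)
    linarith

/-- use of `P_min` -/
private theorem P_le {H : Subgroup G} {δ : ℝ} (h4 : FourH S H δ) {x y z : G} (hx : x ∈ H)
    (hy : y ∈ H) (hz : z ∈ H) {a : ℝ} (h : P S x z ≤ a) (h1 : a + δ < P S x y) :
    P S y z ≤ a + δ := by
  have := P_min h4 hx hy hz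
  by_contra hcon
  push Not at hcon
  have h2 : a + δ < min (P S x y) (P S y z) := lt_min h1 hcon
  linarith

private theorem lox_or {H : Subgroup G} {δ : ℝ} (hδ : 0 ≤ δ) (h4 : FourH S H δ)
    (hno : ∀ f ∈ H, ln S (f * f) ≤ ln S f + 2 * δ) {f g : G} (hf : f ∈ H) (hg : g ∈ H) :
    min (ln S f) (ln S g) / 2 - (3 * δ + 1) ≤ P S f g := by
  by_contra hcon
  push Not at hcon
  obtain ⟨p, hp⟩ : ∃ p, p = P S f g := ⟨_, rfl⟩
  rw [← hp] at hcon
  have m1 := min_le_left (ln S f) (ln S g)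
  have m2 := min_le_right (ln S f) (ln S g)
  have hf' := H.inv_mem hf
  have hg' := H.inv_mem hg
  have hu : f * g ∈ H := H.mul_mem hf hg
  have hu' := H.inv_mem hu
  have nf := hno f hf
  have ng := hno g hg
  have nu := hno _ hu
  -- `P f f⁻¹`
  have a1 : P S f f⁻¹ = ln S f - ln S (f * f) / 2 := by
    unfold P
    have : ln S (f⁻¹ * f⁻¹) = ln S (f * f) := by
      rw [← ln_inv (f * f)]; congr 1; group
    rw [this, ln_inv]; ring
  have a2 : P S g g⁻¹ = ln S g - ln S (g * g) / 2 := by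
    unfold P
    have : ln S (g⁻¹ * g⁻¹) = ln S (g * g) := by
      rw [← ln_inv (g * g)]; congr 1; group
    rw [this, ln_inv]; ring
  have i1 : P S f⁻¹ g ≤ p + δ := P_le h4 hf hf' hg (by rw [hp]) (by linarith)
  have i2 : P S g⁻¹ f ≤ p + δ := P_le h4 hg hg' hf (by rw [hp, P_symm]) (by linarith)
  have e1 : P S f⁻¹ g = (ln S f + ln S g - ln S (f * g)) / 2 := by
    unfold P; rw [ln_inv, inv_inv]
  obtain ⟨U, hU⟩ : ∃ U, U = ln S (f * g) := ⟨_, rfl⟩
  rw [← hU] at e1 nu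
  have b1 : ln S f + ln S g - 2 * p - 2 * δ ≤ U := by linarith
  have e2 : P S g⁻¹ (f * g)⁻¹ = (ln S g + U - ln S f) / 2 := by
    unfold P
    rw [ln_inv, ln_inv, ← hU, inv_inv, mul_inv_rev, mul_inv_cancel_left, ln_inv]
  have i3 : P S (f * g)⁻¹ f ≤ p + 2 * δ := by
    have := P_le h4 hg' hu' hf i2 (by rw [e2]; linarith)
    linarith
  have e3 : P S f (f * g) = (ln S f + U - ln S g) / 2 := by
    unfold P
    rw [← hU, inv_mul_cancel_left]
  have i4 : P S (f * g) (f * g)⁻¹ ≤ p + 3 * δ := by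
    have := P_le h4 hf hu hu' (a := p + 2 * δ) (by rw [P_symm]; exact i3) (by rw [e3]; linarith)
    linarith
  have e4 : P S (f * g) (f * g)⁻¹ = U - ln S (f * g * (f * g)) / 2 := by
    unfold P
    have : ln S ((f * g)⁻¹ * (f * g)⁻¹) = ln S (f * g * (f * g)) := by
      rw [← ln_inv (f * g * (f * g))]; congr 1; group
    rw [this, ln_inv, ← hU]; ring
  rw [e4] at i4
  linarith

theorem Lox_tri (hS : Gen S) (a b c : G) :
    (wdist S a c : ℝ) ≤ wdist S a b + wdist S b c := by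
  exact_mod_cast wdist_tri hS a b c

theorem Lox_comm (a b : G) : (wdist S a b : ℝ) = wdist S b a := by
  rw [wdist_comm]

/-- coordinates of a point near a geodesic -/
theorem Lox_coord (hS : Gen S) {m : ℝ} {x y p : G} {β : ℕ → G} (hβ : IsGeo S x y β) {v : ℕ}
    (hv : v ≤ wdist S x y) (h : (wdist S p (β v) : ℝ) ≤ m) :
    |(wdist S x p : ℝ) - v| ≤ m ∧ |(wdist S p y : ℝ) - (wdist S x y - v)| ≤ m := by
  obtain ⟨h0, h1, h2⟩ := hβ
  have a1 : (wdist S x (β v) : ℝ) = v := by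
    have := h2 0 v (Nat.zero_le _) hv
    rw [h0, Nat.sub_zero] at this
    exact_mod_cast this
  have a2 : (wdist S (β v) y : ℝ) = wdist S x y - v := by
    have := h2 v (wdist S x y) hv le_rfl
    rw [h1] at this
    rw [this, Nat.cast_sub hv]
  have t1 := Lox_tri hS x p (β v)
  have t2 := Lox_tri hS x (β v) p
  have t3 := Lox_tri hS p (β v) y
  have t4 := Lox_tri hS (β v) p y
  have c3 := Lox_comm (S := S) (β v) p
  rw [abs_le, abs_le]
  refine ⟨⟨by linarith, by linarith⟩, ⟨by linarith, by linarith⟩⟩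

/-- two points near a geodesic -/
theorem Lox_two (hS : Gen S) {m : ℝ} {x y p q : G} {β : ℕ → G} (hβ : IsGeo S x y β)
    {v w : ℕ} (hv : v ≤ wdist S x y) (hw : w ≤ wdist S x y) (h : (wdist S p (β v) : ℝ) ≤ m)
    (h' : (wdist S q (β w) : ℝ) ≤ m) : (wdist S p q : ℝ) ≤ 2 * m + |(v : ℝ) - w| := by
  have e3 : (wdist S (β v) (β w) : ℝ) = |(v : ℝ) - w| := by
    rcases le_total v w with hh | hh
    · have := hβ.2.2 v w hh hw
      rw [this, Nat.cast_sub hh, abs_sub_comm, abs_of_nonneg]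
      have : (v : ℝ) ≤ w := by exact_mod_cast hh
      linarith
    · have := hβ.2.2 w v hh hv
      rw [wdist_comm, this, Nat.cast_sub hh, abs_of_nonneg]
      have : (w : ℝ) ≤ v := by exact_mod_cast hh
      linarith
  have t1 := Lox_tri hS p (β v) q
  have t2 := Lox_tri hS (β v) (β w) q
  have c1 := Lox_comm (S := S) (β w) q
  linarith

theorem geo_left {x y : G} {γ : ℕ → G} (g : G) (hγ : IsGeo S x y γ) :
    IsGeo S (g * x) (g * y) (fun i => g * γ i) := by
  obtain ⟨a0, a1, a2⟩ := hγ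
  refine ⟨by simp only [a0], ?_, fun i j hij hj => ?_⟩
  · rw [wdist_left]; simp only [a1]
  · rw [wdist_left] at hj ⊢
    exact a2 i j hij hj

/-- the displacement bound -/
private theorem Lox_move (hS : Gen S) {H : Subgroup G} {δ M : ℝ} (hδ : 0 ≤ δ) (hM : 0 ≤ M)
    (h4 : FourH S H δ) (hsl : SlimH S H M) (hno : ∀ f ∈ H, ln S (f * f) ≤ ln S f + 2 * δ)
    {n t : ℕ} (ht : (n : ℝ) + 2 * M < t) {k : G} (hk : k ∈ H)
    (hkl : 2 * (t : ℝ) + n + 8 * (3 * δ + 1) + 2 * M < ln S k) {γ : ℕ → G} (hγ : IsGeo S 1 k γ)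
    {h : G} (hh : h ∈ H) (hhn : ln S h ≤ n) :
    (wdist S (γ t) (h * γ t) : ℝ) ≤ 4 * M + 2 * (3 * δ + 1) := by
  obtain ⟨C, hC⟩ : ∃ C, C = 3 * δ + 1 := ⟨_, rfl⟩
  rw [← hC] at hkl ⊢
  have hhk : h * k ∈ H := H.mul_mem hh hk
  have hh' := H.inv_mem hh
  have n0 : (0 : ℝ) ≤ n := Nat.cast_nonneg _
  have h0 : 0 ≤ ln S h := Nat.cast_nonneg _
  have lt : 0 ≤ (t : ℝ) := Nat.cast_nonneg _
  have hC0 : 0 ≤ C := by rw [hC]; positivity
  have hhk1 : ln S k - ln S h ≤ ln S (h * k) := by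
    have := Lox_tri hS 1 h⁻¹ k
    rw [ln_dist 1 k, ln_dist 1 h⁻¹, ln_dist h⁻¹ k] at this
    simp only [inv_one, one_mul, inv_inv] at this
    rw [ln_inv] at this
    linarith
  -- upper and lower bound for `|hk|`
  have u1 : ln S (h * k) ≤ ln S k + 2 * C := by
    have := lox_or hδ h4 hno hh' hk
    rw [ln_inv, min_eq_left (by linarith), ← hC] at this
    unfold P at this
    rw [ln_inv, inv_inv] at this
    linarith
  have u2 : ln S k ≤ ln S (h * k) + 2 * C := by
    have := lox_or hδ h4 hno hh hhk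
    rw [min_eq_left (by linarith), ← hC] at this
    unfold P at this
    rw [inv_mul_cancel_left] at this
    linarith
  have u3 : ln S (k⁻¹ * (h * k)) ≤ ln S k + 6 * C := by
    have := lox_or hδ h4 hno hk hhk
    rw [← hC] at this
    have m : ln S k - 2 * C ≤ min (ln S k) (ln S (h * k)) := le_min (by linarith) (by linarith)
    unfold P at this
    linarith
  -- geodesics
  obtain ⟨β, hβ⟩ := StepTwoB_geo hS 1 (h * k)
  obtain ⟨β₁, hβ₁⟩ := StepTwoB_geo hS (h * k) k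
  obtain ⟨β₂, hβ₂⟩ := StepTwoB_geo hS h 1
  have htk : t ≤ wdist S 1 k := by
    have : (t : ℝ) ≤ ln S k := by linarith
    unfold ln at this
    exact_mod_cast this
  have p1 : (wdist S 1 (γ t) : ℝ) = t := by
    have := hγ.2.2 0 t (Nat.zero_le _) htk
    rw [hγ.1, Nat.sub_zero] at this
    exact_mod_cast this
  have p2 : (wdist S (γ t) k : ℝ) = ln S k - t := by
    have := hγ.2.2 t (wdist S 1 k) htk le_rfl
    rw [hγ.2.1] at this
    rw [this, Nat.cast_sub htk]; rfl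
  have q1 : (wdist S h (h * γ t) : ℝ) = t := by
    have := wdist_left S h 1 (γ t)
    rw [mul_one] at this
    rw [this]; exact p1
  have q2 : (wdist S (h * γ t) (h * k) : ℝ) = ln S k - t := by
    rw [wdist_left]; exact p2
  -- `γ t` is near `β`
  obtain ⟨v, hv, hv'⟩ : ∃ v ≤ wdist S 1 (h * k), (wdist S (γ t) (β v) : ℝ) ≤ M := by
    rcases hsl 1 H.one_mem (h * k) hhk k hk γ β β₁ hγ hβ hβ₁ t htk with h1 | ⟨v, hv, hv'⟩
    · exact h1
    · exfalso
      have c := Lox_coord hS hβ₁ hv hv'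
      rw [abs_le, abs_le] at c
      have e1 : (wdist S (h * k) k : ℝ) = ln S (k⁻¹ * (h * k)) := by
        rw [Lox_comm, ln_dist]
      have t1 := Lox_tri hS 1 (γ t) (h * k)
      have e2 : (wdist S 1 (h * k) : ℝ) = ln S (h * k) := rfl
      rw [Lox_comm (γ t) (h * k), e2, p1] at t1
      rw [e1, p2] at c
      obtain ⟨⟨c1, c2⟩, c3, c4⟩ := c
      linarith
  -- `h γ t` is near `β`
  obtain ⟨w, hw, hw'⟩ : ∃ w ≤ wdist S 1 (h * k), (wdist S (h * γ t) (β w) : ℝ) ≤ M := by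
    have hγ' := geo_left h hγ
    rw [mul_one] at hγ'
    have htk' : t ≤ wdist S h (h * k) := by
      have := wdist_left S h 1 k
      rw [mul_one] at this
      rw [this]; exact htk
    rcases hsl h hh 1 H.one_mem (h * k) hhk _ β₂ β hγ' hβ₂ hβ t htk' with ⟨v, hv, hv'⟩ | h1
    · exfalso
      have c := Lox_coord hS hβ₂ hv hv'
      rw [abs_le, abs_le] at c
      obtain ⟨⟨c1, c2⟩, c3, c4⟩ := c
      rw [q1] at c2
      have e1 : (wdist S h 1 : ℝ) = ln S h := by rw [Lox_comm]; rfl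
      have hvR : (v : ℝ) ≤ wdist S h 1 := by exact_mod_cast hv
      rw [e1] at hvR
      linarith
    · exact h1
  have cv := (Lox_coord hS hβ hv hv').1
  have cw := (Lox_coord hS hβ hw hw').2
  rw [p1] at cv
  have e2 : (wdist S 1 (h * k) : ℝ) = ln S (h * k) := rfl
  rw [q2, e2] at cw
  rw [abs_le] at cv cw
  have d1 := Lox_two hS hβ hv hw hv' hw'
  have f1 : |(v : ℝ) - w| ≤ 2 * M + 2 * C := by
    rw [abs_le]; constructor <;> linarith [cv.1, cv.2, cw.1, cw.2]
  linarith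

theorem exists_lox (hS : Gen S) (H : Subgroup G) (hinf : Infinite H) {δ M : ℝ} (hδ : 0 ≤ δ)
    (hM : 0 ≤ M) (h4 : FourH S H δ) (hsl : SlimH S H M) :
    ∃ f ∈ H, (wdist S 1 f : ℝ) + 2 * δ < wdist S 1 (f * f) := by
  classical
  by_contra hcon
  push Not at hcon
  have hno : ∀ f ∈ H, ln S (f * f) ≤ ln S f + 2 * δ := hcon
  -- the ball
  obtain ⟨r, hr⟩ := exists_nat_ge (4 * M + 2 * (3 * δ + 1))
  have hfin := wlen_fin hS r
  obtain ⟨b, hb⟩ : ∃ b, b = hfin.toFinset.card := ⟨_, rfl⟩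
  obtain ⟨T, hT⟩ := Infinite.exists_subset_card_eq (α := H) (b + 1)
  obtain ⟨n, hn⟩ : ∃ n : ℕ, ∀ h ∈ T, wlen S (h : G) ≤ n :=
    ⟨T.sup (fun h => wlen S (h : G)), fun h hh => Finset.le_sup (f := fun h : H => wlen S (h : G)) hh⟩
  obtain ⟨t, ht⟩ := exists_nat_gt ((n : ℝ) + 2 * M)
  obtain ⟨m, hm⟩ := exists_nat_ge (2 * (t : ℝ) + n + 8 * (3 * δ + 1) + 2 * M)
  -- a long element
  obtain ⟨k, hk, hkl⟩ : ∃ k ∈ H, (m : ℝ) < ln S k := by
    by_contra hc
    push Not at hc
    have h1 : (H : Set G) ⊆ {g : G | wlen S g ≤ m} := by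
      intro g hg
      have := hc g hg
      unfold ln at this
      rw [wdist_one] at this
      exact_mod_cast this
    have h2 : (H : Set G).Finite := (wlen_fin hS m).subset h1
    exact Set.infinite_coe_iff.1 hinf h2
  obtain ⟨γ, hγ⟩ := StepTwoB_geo hS 1 k
  have key : ∀ h ∈ T, (γ t)⁻¹ * (h : G) * γ t ∈ hfin.toFinset := by
    intro h hh
    rw [Set.Finite.mem_toFinset, Set.mem_setOf_eq]
    have h1 := Lox_move hS hδ hM h4 hsl hno ht hk (hm.trans_lt hkl) hγ h.2 (by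
      unfold ln
      rw [wdist_one]
      exact_mod_cast hn h hh)
    have h2 : wdist S (γ t) (h * γ t) = wlen S ((γ t)⁻¹ * (h : G) * γ t) := by
      unfold wdist
      rw [mul_assoc]
    rw [h2] at h1
    exact_mod_cast h1.trans hr
  have hcard : T.card ≤ hfin.toFinset.card := by
    apply Finset.card_le_card_of_injOn (fun h : H => (γ t)⁻¹ * (h : G) * γ t) key
    intro a _ c _ hac
    simp only [mul_left_inj, mul_right_inj] at hac
    exact Subtype.ext hac
  rw [hT, ← hb] at hcard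
  omega

end Pool.Agent.HMB
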