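import Pool.Agent.HMB.Lox

set_option autoImplicit false

/-!
If the elements of an infinite subgroup `H` are uniformly Morse in `G` then some element of `H` is
Morse in `G`.
-/

namespace Pool.Agent.HMB

open Pool.Agent.MHN

universe u

variable {G : Type u} [Group G] {S : Finset G}

private theorem LoxB_tri (hS : Gen S) (a b c : G) :
    (wdist S a c : ℝ) ≤ wdist S a b + wdist S b c := by
  exact_mod_cast wdist_tri hS a b c

private theorem LoxB_comm (a b : G) : (wdist S a b : ℝ) = wdist S b a := by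
  rw [wdist_comm]

private theorem LoxB_pow (f : G) (m k : ℕ) : wdist S (f ^ m) (f ^ (m + k)) = wdist S 1 (f ^ k) := by
  have := wdist_left S (f ^ m) 1 (f ^ k)
  rwa [mul_one, ← pow_add] at this

theorem lox_growth (hS : Gen S) {H : Subgroup G} {δ : ℝ} (hδ : 0 ≤ δ) (h4 : FourH S H δ) {f : G}
    (hf : f ∈ H) (h : (wdist S 1 f : ℝ) + 2 * δ < wdist S 1 (f * f)) :
    ∃ c : ℝ, 0 < c ∧ ∀ n : ℕ, c * n ≤ wdist S 1 (f ^ n) := by
  obtain ⟨c, hc⟩ : ∃ c : ℝ, c = wdist S 1 (f * f) - wdist S 1 f - 2 * δ := ⟨_, rfl⟩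
  have hc0 : 0 < c := by linarith
  have h2 : (wdist S 1 (f * f) : ℝ) ≤ 2 * wdist S 1 f := by
    have := LoxB_tri hS 1 f (f * f)
    have e : wdist S f (f * f) = wdist S 1 f := by
      have := wdist_left S f 1 f
      rwa [mul_one] at this
    rw [e] at this
    linarith
  have step : ∀ n : ℕ, (wdist S 1 (f ^ n) : ℝ) + c ≤ wdist S 1 (f ^ (n + 1)) := by
    intro n
    induction n with
    | zero =>
      rw [pow_zero, wdist_self, zero_add, pow_one]
      push_cast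
      linarith
    | succ n ih =>
      have := h4 1 H.one_mem (f ^ n) (H.pow_mem hf n) (f ^ (n + 1)) (H.pow_mem hf _)
        (f ^ (n + 2)) (H.pow_mem hf _)
      have e1 : wdist S (f ^ n) (f ^ (n + 2)) = wdist S 1 (f * f) := by
        rw [LoxB_pow, pow_two]
      have e2 : wdist S (f ^ (n + 1)) (f ^ (n + 2)) = wdist S 1 f := by
        rw [show n + 2 = n + 1 + 1 from rfl, LoxB_pow, pow_one]
      have e3 : wdist S (f ^ n) (f ^ (n + 1)) = wdist S 1 f := by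
        rw [LoxB_pow, pow_one]
      rw [e1, e2, e3] at this
      rcases le_max_iff.1 (show (wdist S 1 (f ^ (n + 1)) : ℝ) + wdist S 1 (f * f) - 2 * δ ≤
        max ((wdist S 1 (f ^ n) : ℝ) + wdist S 1 f) ((wdist S 1 f : ℝ) + wdist S 1 (f ^ (n + 2)))
        by linarith) with h1 | h1
      · linarith
      · have e : n + 1 + 1 = n + 2 := rfl
        rw [e]
        linarith
  refine ⟨c, hc0, fun n => ?_⟩
  induction n with
  | zero => rw [Nat.cast_zero, mul_zero]; exact Nat.cast_nonneg _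
  | succ n ih =>
    have := step n
    push_cast
    linarith

theorem not_fin_of_growth {f : G} {c : ℝ} (hc : 0 < c)
    (h : ∀ n : ℕ, c * n ≤ wdist S 1 (f ^ n)) : ¬ IsOfFinOrder f := by
  intro hf
  obtain ⟨n, hn, he⟩ := isOfFinOrder_iff_pow_eq_one.1 hf
  have := h n
  rw [he, wdist_self, Nat.cast_zero] at this
  have h1 : (0 : ℝ) < n := by exact_mod_cast hn
  have h2 : 0 < c * n := by positivity
  linarith

/-- slim triangles from uniform Morseness -/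
theorem slim_of_useg (hS : Gen S) (H : Subgroup G) {M : ℝ}
    (hU : ∀ h ∈ H, USeg S (kk 1) (cc 1 1) M 1 h) : SlimH S H M := by
  intro x hx y hy z hz γ β β' hγ hβ hβ' i hi
  have hc := qg_geo hγ
  obtain ⟨τ', hτ', hmin'⟩ := exists_min (S := S) (Nat.cast_nonneg (wdist S x z) : (0 : ℝ) ≤ wdist S x z)
    (fun t : ℝ => γ ⌊t⌋₊) y
  obtain ⟨j, hj⟩ : ∃ j, j = ⌊τ'⌋₊ := ⟨_, rfl⟩
  have hjn : j ≤ wdist S x z := by
    rw [hj]
    have := Nat.floor_le_floor hτ'.2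
    rwa [Nat.floor_natCast] at this
  have hjR : ((j : ℝ)) ∈ Set.Icc (0 : ℝ) (wdist S x z) :=
    ⟨Nat.cast_nonneg _, by exact_mod_cast hjn⟩
  have hmin : ∀ t ∈ Set.Icc (0 : ℝ) (wdist S x z),
      wdist S ((fun t : ℝ => γ ⌊t⌋₊) (j : ℝ)) y ≤ wdist S ((fun t : ℝ => γ ⌊t⌋₊) t) y := by
    intro t ht
    have := hmin' t ht
    simp only [Nat.floor_natCast]
    rw [hj]
    exact this
  rcases le_total i j with hij | hij
  · left
    have hijR : (i : ℝ) ≤ j := by exact_mod_cast hij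
    obtain ⟨T', c', hT, hq, hend, hag⟩ := qg_app hS le_rfl zero_le_one hc y hjR hmin
    have hc0 : c' 0 = x := by
      rw [hag 0 ⟨le_rfl, Nat.cast_nonneg _⟩]
      simpa using hγ.1
    have hci : c' (i : ℝ) = γ i := by
      rw [hag (i : ℝ) ⟨Nat.cast_nonneg _, hijR⟩]
      simp
    obtain ⟨r, hr, hr2⟩ := StepTwoB_useg H hU hx hy T' c' ((Nat.cast_nonneg _).trans hT) hq hc0
      hend β hβ (i : ℝ) ⟨Nat.cast_nonneg _, hijR.trans hT⟩
    rw [hci] at hr2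
    exact ⟨r, hr, hr2⟩
  · right
    have hijR : (j : ℝ) ≤ i := by exact_mod_cast hij
    have hiR : (i : ℝ) ≤ wdist S x z := by exact_mod_cast hi
    obtain ⟨s, c', hs, hq, hc0, hag⟩ := qg_pre hS le_rfl zero_le_one hc y hjR hmin
    have hci : c' (s + ((i : ℝ) - j)) = γ i := by
      rw [hag (i : ℝ) ⟨hijR, hiR⟩]
      simp
    have hcT : c' (s + ((wdist S x z : ℝ) - j)) = z := by
      rw [hag _ ⟨hjR.2, le_rfl⟩]
      simpa using hγ.2.1
    obtain ⟨r, hr, hr2⟩ := StepTwoB_useg H hU hy hz _ c' (by linarith [hjR.2]) hq hc0 hcT β' hβ'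
      (s + ((i : ℝ) - j)) ⟨by linarith, by linarith⟩
    rw [hci] at hr2
    exact ⟨r, hr, hr2⟩

/-- the orbit of `f` as a quasi-geodesic -/
private theorem LoxB_orbit (hS : Gen S) {f : G} {c : ℝ} (hc : 0 < c)
    (hg : ∀ n : ℕ, c * n ≤ wdist S 1 (f ^ n)) {Kf : ℝ} (hKf : Kf = max 1 (max (1 / c) (wlen S f)))
    (k l : ℕ) : |(k : ℝ) - l| / Kf ≤ (wdist S (f ^ k) (f ^ l) : ℝ) ∧
      (wdist S (f ^ k) (f ^ l) : ℝ) ≤ Kf * |(k : ℝ) - l| := by
  have hnat : ∀ j : ℕ, wlen S (f ^ j) ≤ wlen S f * j := by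
    intro j
    induction j with
    | zero => simp [wlen_one]
    | succ j ih =>
      rw [pow_succ, mul_add, mul_one]
      exact (wlen_mul hS _ _).trans (Nat.add_le_add_right ih _)
  have hK1 : 1 ≤ Kf := by rw [hKf]; exact le_max_left _ _
  have hKc : 1 / c ≤ Kf := by rw [hKf]; exact (le_max_left _ _).trans (le_max_right _ _)
  have hKw : (wlen S f : ℝ) ≤ Kf := by rw [hKf]; exact (le_max_right _ _).trans (le_max_right _ _)
  have hK0 : 0 < Kf := by linarith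
  have main : ∀ m j : ℕ, (j : ℝ) / Kf ≤ (wdist S (f ^ m) (f ^ (m + j)) : ℝ) ∧
      (wdist S (f ^ m) (f ^ (m + j)) : ℝ) ≤ Kf * j := by
    intro m j
    rw [LoxB_pow]
    have hj0 : (0 : ℝ) ≤ j := Nat.cast_nonneg _
    constructor
    · refine le_trans ?_ (hg j)
      rw [div_le_iff₀ hK0]
      have h1 : 1 ≤ c * Kf := by
        have := (div_le_iff₀ hc).1 hKc
        linarith
      have h2 : (j : ℝ) * 1 ≤ j * (c * Kf) := mul_le_mul_of_nonneg_left h1 hj0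
      linarith
    · rw [wdist_one]
      have h1 : (wlen S (f ^ j) : ℝ) ≤ wlen S f * j := by exact_mod_cast hnat j
      have h2 : (wlen S f : ℝ) * j ≤ Kf * j := mul_le_mul_of_nonneg_right hKw hj0
      linarith
  rcases le_total k l with hkl | hkl
  · obtain ⟨j, rfl⟩ := Nat.exists_eq_add_of_le hkl
    have e : |(k : ℝ) - ((k + j : ℕ) : ℝ)| = j := by
      push_cast
      rw [abs_sub_comm, add_sub_cancel_left, abs_of_nonneg (Nat.cast_nonneg _)]
    rw [e]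
    exact main k j
  · obtain ⟨j, rfl⟩ := Nat.exists_eq_add_of_le hkl
    have e : |((l + j : ℕ) : ℝ) - (l : ℝ)| = j := by
      push_cast
      rw [add_sub_cancel_left, abs_of_nonneg (Nat.cast_nonneg _)]
    rw [e, wdist_comm]
    exact main l j

/-- a geodesic from `1` to `f ^ n` is near the orbit of `f` -/
private theorem LoxB_near (hS : Gen S) {f : G} {c : ℝ} (hc : 0 < c)
    (hg : ∀ n : ℕ, c * n ≤ wdist S 1 (f ^ n)) {Kf : ℝ} (hKf : Kf = max 1 (max (1 / c) (wlen S f)))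
    {M : ℝ} {n : ℕ} (hU : USeg S Kf Kf M 1 (f ^ n)) {γ : ℕ → G} (hγ : IsGeo S 1 (f ^ n) γ) {i : ℕ}
    (hi : i ≤ wdist S 1 (f ^ n)) :
    ∃ k : ℕ, (wdist S (γ i) (f ^ k) : ℝ) ≤ 2 * M + wlen S f := by
  classical
  have hK1 : 1 ≤ Kf := by rw [hKf]; exact le_max_left _ _
  have hK0 : 0 < Kf := by linarith
  have hq : IsQuasiGeodesic S Kf Kf (n : ℝ) (fun t : ℝ => f ^ ⌊t⌋₊) := by
    intro s hs t ht
    obtain ⟨h1, h2⟩ := LoxB_orbit hS hc hg hKf ⌊s⌋₊ ⌊t⌋₊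
    have f1 := Nat.floor_le hs.1
    have f2 := Nat.lt_floor_add_one s
    have f3 := Nat.floor_le ht.1
    have f4 := Nat.lt_floor_add_one t
    have g1 : |s - t| - 1 ≤ |((⌊s⌋₊ : ℕ) : ℝ) - ((⌊t⌋₊ : ℕ) : ℝ)| := by
      rcases abs_cases (s - t) with h | h <;>
        rcases abs_cases (((⌊s⌋₊ : ℕ) : ℝ) - ((⌊t⌋₊ : ℕ) : ℝ)) with h' | h' <;> linarith
    have g2 : |((⌊s⌋₊ : ℕ) : ℝ) - ((⌊t⌋₊ : ℕ) : ℝ)| ≤ |s - t| + 1 := by
      rcases abs_cases (s - t) with h | h <;>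
        rcases abs_cases (((⌊s⌋₊ : ℕ) : ℝ) - ((⌊t⌋₊ : ℕ) : ℝ)) with h' | h' <;> linarith
    constructor
    · refine le_trans ?_ h1
      have h3 : (|s - t| - 1) / Kf ≤ |((⌊s⌋₊ : ℕ) : ℝ) - ((⌊t⌋₊ : ℕ) : ℝ)| / Kf :=
        div_le_div_of_nonneg_right g1 hK0.le
      have h4 : (|s - t| - 1) / Kf = |s - t| / Kf - 1 / Kf := by ring
      have h5 : 1 / Kf ≤ Kf := by
        rw [div_le_iff₀ hK0]; nlinarith
      linarith
    · refine h2.trans ?_
      have h3 : Kf * |((⌊s⌋₊ : ℕ) : ℝ) - ((⌊t⌋₊ : ℕ) : ℝ)| ≤ Kf * (|s - t| + 1) :=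
        mul_le_mul_of_nonneg_left g2 hK0.le
      linarith
  have hex : ∃ k : ℕ, i ≤ wdist S 1 (f ^ k) := ⟨n, hi⟩
  obtain ⟨k, hk⟩ : ∃ k, k = Nat.find hex := ⟨_, rfl⟩
  have hkn : k ≤ n := by rw [hk]; exact Nat.find_min' hex hi
  have hk1 : i ≤ wdist S 1 (f ^ k) := by rw [hk]; exact Nat.find_spec hex
  have hk2 : wdist S 1 (f ^ k) ≤ i + wlen S f := by
    rcases Nat.eq_zero_or_pos k with h0 | h0
    · rw [h0, pow_zero, wdist_self]; omega
    · obtain ⟨j, rfl⟩ : ∃ j, k = j + 1 := ⟨k - 1, by omega⟩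
      have h1 : ¬ i ≤ wdist S 1 (f ^ j) := Nat.find_min hex (by omega)
      have h2 := wdist_tri hS 1 (f ^ j) (f ^ (j + 1))
      rw [LoxB_pow, pow_one, wdist_one S f] at h2
      omega
  obtain ⟨v, hv, hv'⟩ := hU (n : ℝ) _ (Nat.cast_nonneg _) hq (by simp) (by simp) γ hγ (k : ℝ)
    ⟨Nat.cast_nonneg _, by exact_mod_cast hkn⟩
  simp only [Nat.floor_natCast] at hv'
  have a1 : (wdist S 1 (γ v) : ℝ) = v := by
    have := hγ.2.2 0 v (Nat.zero_le _) hv
    rw [hγ.1, Nat.sub_zero] at this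
    exact_mod_cast this
  have t1 := LoxB_tri hS 1 (f ^ k) (γ v)
  have t2 := LoxB_tri hS 1 (γ v) (f ^ k)
  have c1 := LoxB_comm (S := S) (γ v) (f ^ k)
  have b1 : (i : ℝ) ≤ wdist S 1 (f ^ k) := by exact_mod_cast hk1
  have b2 : (wdist S 1 (f ^ k) : ℝ) ≤ i + wlen S f := by exact_mod_cast hk2
  have e3 : (wdist S (γ i) (γ v) : ℝ) = |(i : ℝ) - v| := by
    rcases le_total i v with hh | hh
    · have := hγ.2.2 i v hh hv
      rw [this, Nat.cast_sub hh, abs_sub_comm, abs_of_nonneg]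
      have : (i : ℝ) ≤ v := by exact_mod_cast hh
      linarith
    · have := hγ.2.2 v i hh hi
      rw [wdist_comm, this, Nat.cast_sub hh, abs_of_nonneg]
      have : (v : ℝ) ≤ i := by exact_mod_cast hh
      linarith
  have f1 : |(i : ℝ) - v| ≤ M + wlen S f := by
    have : (0 : ℝ) ≤ wlen S f := Nat.cast_nonneg _
    rw [abs_le]; constructor <;> linarith
  refine ⟨k, ?_⟩
  have t3 := LoxB_tri hS (γ i) (γ v) (f ^ k)
  linarith

theorem morse_of_growth (hS : Gen S) (H : Subgroup G) {f : G} (hfH : f ∈ H) {c : ℝ} (hc : 0 < c)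
    (hg : ∀ n : ℕ, c * n ≤ wdist S 1 (f ^ n))
    (hU : ∀ K C : ℝ, 1 ≤ K → 0 ≤ C → ∃ M : ℝ, ∀ h ∈ H, USeg S K C M 1 h) : IsMorse S f := by
  obtain ⟨Kf, hKf⟩ : ∃ Kf : ℝ, Kf = max 1 (max (1 / c) (wlen S f)) := ⟨_, rfl⟩
  have hK1 : 1 ≤ Kf := by rw [hKf]; exact le_max_left _ _
  have hcpos := hc
  -- translation of pairs of powers
  have hz : ∀ m n : ℤ, m ≤ n → ∃ j : ℕ, (n : ℝ) - m = j ∧ f ^ n = f ^ m * f ^ j := by
    intro m n hmn
    obtain ⟨j, hj⟩ := Int.eq_ofNat_of_zero_le (sub_nonneg.2 hmn)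
    refine ⟨j, by exact_mod_cast hj, ?_⟩
    rw [← zpow_natCast, ← zpow_add]
    congr 1
    omega
  refine ⟨⟨Kf, 0, hK1, le_rfl, ?_⟩, ?_⟩
  · have main : ∀ m n : ℤ, m ≤ n → |(m : ℝ) - n| / Kf - 0 ≤ (wdist S (f ^ m) (f ^ n) : ℝ) ∧
        (wdist S (f ^ m) (f ^ n) : ℝ) ≤ Kf * |(m : ℝ) - n| + 0 := by
      intro m n hmn
      obtain ⟨j, hj, hj'⟩ := hz m n hmn
      have e1 : |(m : ℝ) - n| = |((0 : ℕ) : ℝ) - j| := by
        rw [abs_sub_comm, hj, abs_sub_comm]; simp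
      have e2 : wdist S (f ^ m) (f ^ n) = wdist S (f ^ 0) (f ^ j) := by
        rw [hj', pow_zero]
        have := wdist_left S (f ^ m) 1 (f ^ j)
        rwa [mul_one] at this
      rw [e1, e2]
      obtain ⟨h1, h2⟩ := LoxB_orbit hS hc hg hKf 0 j
      constructor <;> linarith
    intro m n
    rcases le_total m n with h | h
    · exact main m n h
    · have := main n m h
      rw [wdist_comm, abs_sub_comm]
      exact this
  · intro K C hK hC
    obtain ⟨M, hM⟩ := hU K C hK hC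
    obtain ⟨M₂, hM₂⟩ := hU Kf Kf hK1 (by linarith)
    refine ⟨M + (2 * M₂ + wlen S f), ?_⟩
    have main : ∀ (T : ℝ) (c : ℝ → G), 0 ≤ T → IsQuasiGeodesic S K C T c → ∀ m n : ℤ, m ≤ n →
        c 0 = f ^ m → c T = f ^ n → ∀ t ∈ Set.Icc 0 T, ∃ i : ℤ,
          (wdist S (c t) (f ^ i) : ℝ) ≤ M + (2 * M₂ + wlen S f) := by
      intro T c hT hq m n hmn h0 h1 t ht
      obtain ⟨j, hj, hj'⟩ := hz m n hmn
      obtain ⟨γ, hγ⟩ := StepTwoB_geo hS 1 (f ^ j)
      obtain ⟨i, hi, hi'⟩ := hM (f ^ j) (H.pow_mem hfH j) T (fun t => (f ^ m)⁻¹ * c t) hT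
        (qg_left _ hq) (by simp only [h0, inv_mul_cancel])
        (by simp only [h1, hj', inv_mul_cancel_left]) γ hγ t ht
      obtain ⟨k, hk⟩ := LoxB_near hS hcpos hg hKf (hM₂ (f ^ j) (H.pow_mem hfH j)) hγ hi
      refine ⟨m + k, ?_⟩
      have e : wdist S (c t) (f ^ (m + (k : ℤ))) = wdist S ((f ^ m)⁻¹ * c t) (f ^ k) := by
        have := wdist_left S (f ^ m) ((f ^ m)⁻¹ * c t) (f ^ k)
        rw [mul_inv_cancel_left] at this
        rw [← this, zpow_add, zpow_natCast]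
      rw [e]
      have t1 := LoxB_tri hS ((f ^ m)⁻¹ * c t) (γ i) (f ^ k)
      linarith
    intro T c hT hq ⟨m, hm⟩ ⟨n, hn⟩ t ht
    rcases le_total m n with h | h
    · exact main T c hT hq m n h hm hn t ht
    · obtain ⟨i, hi⟩ := main T (fun t => c (T - t)) hT (qg_rev hq) n m h (by simpa using hn)
        (by simpa using hm) (T - t) ⟨by linarith [ht.2], by linarith [ht.1]⟩
      refine ⟨i, ?_⟩
      simpa using hi

end Pool.Agent.HMB
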