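import Pool.Agent.HMB.Porous

set_option autoImplicit false

/-!
Products of boundedly many Morse elements are uniformly Morse.
-/

namespace Pool.Agent.HMB

open Pool.Agent.MHN

universe u

variable {G : Type u} [Group G] {S : Finset G}

theorem useg_inv {K C m : ℝ} {g : G} (h : USeg S K C m 1 g) : USeg S K C m 1 g⁻¹ := by
  have := useg_left g⁻¹ (useg_symm h)
  rwa [inv_mul_cancel, mul_one] at this

theorem useg_prod (hS : Gen S) (M : ℝ → ℝ → ℝ) (k : ℕ) : ∀ K C : ℝ, 1 ≤ K → 1 ≤ C →
    ∃ m : ℝ, 0 ≤ m ∧ ∀ l : List G, l.length = k → (∀ g ∈ l, IsMorseElt S M g) →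
      USeg S K C m 1 l.prod := by
  induction k with
  | zero =>
    intro K C hK hC
    refine ⟨K * (K * (((0 : ℕ) : ℝ) + C)) + C, by positivity, fun l hl _ => ?_⟩
    rw [List.length_eq_zero_iff.1 hl, List.prod_nil]
    have := useg_triv (S := S) hK (by linarith : (0 : ℝ) ≤ C) (1 : G)
    rwa [wdist_self] at this
  | succ k ih =>
    intro K C hK hC
    have h1 : 1 ≤ kk K := kk_ge hK
    have h2 : 1 ≤ cc K C := by
      unfold cc
      have : 0 ≤ K * C := by positivity
      linarith
    obtain ⟨m, hm, hl⟩ := ih (kk K) (cc K C) h1 h2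
    obtain ⟨m', hm'⟩ : ∃ m', m' = max m (M (kk K) (cc K C)) := ⟨_, rfl⟩
    have hm'0 : 0 ≤ m' := by rw [hm']; exact hm.trans (le_max_left _ _)
    refine ⟨tt K C m', by unfold tt; positivity, fun l hlen hM => ?_⟩
    rcases l with _ | ⟨g, l⟩
    · simp at hlen
    · have hl1 := hl l (by simpa using hlen) (fun a ha => hM a (List.mem_cons_of_mem _ ha))
      have hg : USeg S (kk K) (cc K C) m' 1 g := useg_of_morse (hM g List.mem_cons_self) h1
        (by linarith) (by rw [hm']; exact le_max_right _ _)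
      have hl2 : USeg S (kk K) (cc K C) m' 1 l.prod :=
        useg_mono h1 le_rfl le_rfl (by rw [hm']; exact le_max_left _ _) hl1
      have := useg_left g (useg_third hS hK hC hm'0 (useg_inv hg) hl2)
      rwa [mul_inv_cancel] at this

end Pool.Agent.HMB
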