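import Pool.Agent.HMB.LoxB
import Pool.Agent.HMB.Width

set_option autoImplicit false

/-!
Consequences: no Morse element has to be assumed.
-/

namespace Pool.Agent.HMB

open Pool.Agent.MHN

universe u

variable {G : Type u} [Group G] {S : Finset G}

theorem morse_of_useg (hS : Gen S) (H : Subgroup G) (hinf : Infinite H)
    (hU : ∀ K C : ℝ, 1 ≤ K → 0 ≤ C → ∃ M : ℝ, ∀ h ∈ H, USeg S K C M 1 h) :
    ∃ f ∈ H, IsMorse S f := by
  obtain ⟨M₀, hM₀⟩ := hU (kk 1) (cc 1 1) (by norm_num [kk]) (by norm_num [cc])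
  obtain ⟨M, hM⟩ : ∃ M : ℝ, M = max M₀ 0 := ⟨_, rfl⟩
  have hM0 : 0 ≤ M := by rw [hM]; exact le_max_right _ _
  have hUM : ∀ h ∈ H, USeg S (kk 1) (cc 1 1) M 1 h := fun h hh =>
    useg_mono (by norm_num [kk]) le_rfl le_rfl (by rw [hM]; exact le_max_left _ _) (hM₀ h hh)
  have h4 : FourH S H (2 * M) := four_of_star (gmet hS) (H : Set G) (2 * M)
    (fun x hx z hz y hy => star_H hS H hUM x hx z hz y hy)
  obtain ⟨f, hf, hlox⟩ := exists_lox hS H hinf (by linarith) hM0 h4 (slim_of_useg hS H hUM)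
  obtain ⟨c, hc, hg⟩ := lox_growth hS (by linarith) h4 hf hlox
  exact ⟨f, hf, morse_of_growth hS H hf hc hg hU⟩

/-- An infinite normal subgroup with uniformly Morse elements: the group is hyperbolic. -/
theorem hyp_of_useg_inf (hS : Gen S) (H : Subgroup G) [H.Normal] (hinf : Infinite H)
    (hU : ∀ K C : ℝ, 1 ≤ K → 0 ≤ C → ∃ M : ℝ, ∀ h ∈ H, USeg S K C M 1 h) :
    IsHyperbolicGroup G := by
  obtain ⟨f, hf, hm⟩ := morse_of_useg hS H hinf hU
  exact hyp_of_useg hS H hf hm hU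

theorem exists_bad_inf (hS : Gen S) (H : Subgroup G) [H.Normal] (hinf : Infinite H)
    (hG : ¬ IsHyperbolicGroup G) :
    ∃ K C : ℝ, 1 ≤ K ∧ 1 ≤ C ∧ ∀ M : ℝ, ∃ h ∈ H, ¬ USeg S K C M 1 h := by
  by_contra hcon
  push Not at hcon
  apply hG
  apply hyp_of_useg_inf hS H hinf
  intro K C hK hC
  obtain ⟨M, hM⟩ := hcon K (max C 1) hK (le_max_right _ _)
  exact ⟨M, fun h hh => useg_mono hK le_rfl (le_max_left _ _) le_rfl (hM h hh)⟩

theorem width (hS : Gen S) (H : Subgroup G) [H.Normal] (hinf : Infinite H)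
    (hG : ¬ IsHyperbolicGroup G) (M : ℝ → ℝ → ℝ) (k : ℕ) :
    ∃ h ∈ H, ∀ l : List G, l.length = k → (∀ g ∈ l, IsMorseElt S M g) → l.prod ≠ h := by
  obtain ⟨K, C, hK, hC, hbad⟩ := exists_bad_inf hS H hinf hG
  obtain ⟨m, _, hm⟩ := useg_prod hS M k K C hK hC
  obtain ⟨h, hh, hb⟩ := hbad m
  refine ⟨h, hh, fun l hl hM he => hb ?_⟩
  rw [← he]
  exact hm l hl hM

/-! ### an element of infinite order in an infinite hyperbolic group -/

private theorem LoxC_near {δ : ℝ} (hδ : 0 ≤ δ) (hyp : Hyp δ (wdist S)) {x y p : G} {β : ℕ → G}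
    (hβ : IsGeo S x y β) (h : (wdist S x p : ℝ) + wdist S p y ≤ wdist S x y + 2 * δ) :
    ∃ v ≤ wdist S x y, (wdist S p (β v) : ℝ) ≤ 4 * δ := by
  rcases le_or_gt (wdist S x p) (wdist S x y) with hle | hlt
  · refine ⟨wdist S x p, hle, ?_⟩
    have a1 : (wdist S x (β (wdist S x p)) : ℝ) = wdist S x p := by
      have := hβ.2.2 0 (wdist S x p) (Nat.zero_le _) hle
      rw [hβ.1, Nat.sub_zero] at this
      exact_mod_cast this
    have a2 : (wdist S y (β (wdist S x p)) : ℝ) = wdist S x y - wdist S x p := by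
      have := hβ.2.2 (wdist S x p) (wdist S x y) hle le_rfl
      rw [hβ.2.1] at this
      rw [wdist_comm, this, Nat.cast_sub hle]
    have h4 := hyp x p y (β (wdist S x p))
    rw [a1, a2] at h4
    rcases le_max_iff.1 (show (wdist S x y : ℝ) + wdist S p (β (wdist S x p)) - 2 * δ ≤
      max ((wdist S x p : ℝ) + (wdist S x y - wdist S x p)) ((wdist S p y : ℝ) + wdist S x p)
      by linarith) with h1 | h1 <;> linarith
  · refine ⟨wdist S x y, le_rfl, ?_⟩
    rw [hβ.2.1]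
    have : (wdist S x y : ℝ) ≤ wdist S x p := by exact_mod_cast hlt.le
    linarith

private theorem LoxC_slim {δ : ℝ} (hδ : 0 ≤ δ) (hyp : Hyp δ (wdist S)) :
    SlimH S (⊤ : Subgroup G) (4 * δ) := by
  intro x _ y _ z _ γ β β' hγ hβ hβ' i hi
  have a1 : (wdist S x (γ i) : ℝ) = i := by
    have := hγ.2.2 0 i (Nat.zero_le _) hi
    rw [hγ.1, Nat.sub_zero] at this
    exact_mod_cast this
  have a2 : (wdist S (γ i) z : ℝ) = wdist S x z - i := by
    have := hγ.2.2 i (wdist S x z) hi le_rfl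
    rw [hγ.2.1] at this
    rw [this, Nat.cast_sub hi]
  have h4 := hyp x (γ i) z y
  rw [a1, a2] at h4
  have c1 : (wdist S z y : ℝ) = wdist S y z := by rw [wdist_comm]
  have c2 : (wdist S y (γ i) : ℝ) = wdist S (γ i) y := by rw [wdist_comm]
  rcases le_max_iff.1 (show (wdist S x z : ℝ) + wdist S (γ i) y - 2 * δ ≤
    max ((i : ℝ) + wdist S z y) ((wdist S x z : ℝ) - i + wdist S x y) by linarith) with h1 | h1
  · right
    exact LoxC_near hδ hyp hβ' (by rw [a2, c2]; linarith)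
  · left
    exact LoxC_near hδ hyp hβ (by rw [a1]; linarith)

theorem exists_infinite_order {H : Type u} [Group H] {A : Finset H} (hA : Gen A) {δ : ℝ}
    (hδ : Hyp δ (wdist A)) (hinf : Infinite H) : ∃ f : H, ¬ IsOfFinOrder f := by
  have hδ0 : 0 ≤ δ := (lmet hA hδ).delta_nonneg
  have h4 : FourH A (⊤ : Subgroup H) δ := fun x _ y _ z _ w _ => hδ x y z w
  have hi : Infinite (⊤ : Subgroup H) := Subgroup.topEquiv.toEquiv.infinite_iff.2 hinf
  obtain ⟨f, hf, hlox⟩ := exists_lox hA ⊤ hi hδ0 (by linarith) h4 (LoxC_slim hδ0 hδ)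
  obtain ⟨c, hc, hg⟩ := lox_growth hA hδ0 h4 hf hlox
  exact ⟨f, not_fin_of_growth hc hg⟩

end Pool.Agent.HMB
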