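import Pool.Agent.HMB.LoxC

set_option autoImplicit false

/-!
The elementary case: `H` is within bounded distance of `⟨f⟩`. If one ray of `H` is Morse in `G` then
all elements of `H` are uniformly Morse in `G`.
-/

namespace Pool.Agent.HMB

open Pool.Agent.MHN

universe u

theorem cc_one {K C : ℝ} (hK : 1 ≤ K) (hC : 0 ≤ C) : 1 ≤ cc K C := by
  unfold cc
  have : 0 ≤ K * C := mul_nonneg (by linarith) hC
  linarith

/-- the exponents of the points near the ray -/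
theorem ray_exp {H : Type u} [Group H] {A : Finset H} (hA : Gen A) {f : H}
    (hf : ¬ IsOfFinOrder f) {n : ℕ} (hn : ∀ z : H, ∃ i : ℤ, wdist A z (f ^ i) ≤ n) (ρ : Ray A) :
    ∃ D : ℕ, ∀ k : ℤ, ∃ (i : ℕ) (k' : ℤ), (k' = k ∨ k' = -k) ∧ wdist A (f ^ k') (ρ.1 i) ≤ D := by
  classical
  choose e he using fun i : ℕ => hn (ρ.1 i)
  -- powers of `f` in a ball
  have hfin : {j : ℤ | wlen A (f ^ j) ≤ 2 * n + 1}.Finite := by
    have h1 := wlen_fin hA (2 * n + 1)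
    have h2 : Function.Injective (fun j : ℤ => f ^ j) := by
      rw [injective_zpow_iff_not_isOfFinOrder]; exact hf
    exact h1.preimage h2.injOn
  obtain ⟨L, hL⟩ : ∃ L : ℕ, ∀ j : ℤ, wlen A (f ^ j) ≤ 2 * n + 1 → j.natAbs ≤ L := by
    refine ⟨hfin.toFinset.sup Int.natAbs, fun j hj => ?_⟩
    exact Finset.le_sup (f := Int.natAbs) (hfin.mem_toFinset.2 hj)
  have hd : ∀ a b : ℤ, wdist A (f ^ a) (f ^ b) = wlen A (f ^ (b - a)) := by
    intro a b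
    unfold wdist
    congr 1
    rw [← zpow_neg, ← zpow_add]
    congr 1
    ring
  have hint : ∀ j : ℤ, wlen A (f ^ j) ≤ wlen A f * j.natAbs := by
    have hnat : ∀ j : ℕ, wlen A (f ^ j) ≤ wlen A f * j := by
      intro j
      induction j with
      | zero => simp [wlen_one]
      | succ j ih =>
        rw [pow_succ, mul_add, mul_one]
        exact (wlen_mul hA _ _).trans (Nat.add_le_add_right ih _)
    intro j
    rcases Int.eq_nat_or_neg j with ⟨k, hk | hk⟩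
    · rw [hk, zpow_natCast, Int.natAbs_natCast]
      exact hnat k
    · rw [hk, zpow_neg, zpow_natCast, wlen_inv, Int.natAbs_neg, Int.natAbs_natCast]
      exact hnat k
  have h0 : (e 0).natAbs ≤ L := by
    apply hL
    have h1 := he 0
    rw [ρ.2.1, wdist_one] at h1
    omega
  have hstep : ∀ i, (e (i + 1) - e i).natAbs ≤ L := by
    intro i
    apply hL
    rw [← hd]
    have h1 := he i
    have h2 := he (i + 1)
    have h3 := ρ.2.2 i (i + 1) (Nat.le_succ i)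
    have t1 := wdist_tri hA (f ^ e i) (ρ.1 i) (f ^ e (i + 1))
    have t2 := wdist_tri hA (ρ.1 i) (ρ.1 (i + 1)) (f ^ e (i + 1))
    rw [wdist_comm A (f ^ e i) (ρ.1 i)] at t1
    omega
  have hunb : ∀ k : ℕ, ∃ i, k ≤ (e i).natAbs := by
    intro k
    by_contra hcon
    push Not at hcon
    obtain ⟨i, hi⟩ : ∃ i, i = wlen A f * k + n + 1 := ⟨_, rfl⟩
    have h1 := hcon i
    have h2 := he i
    have h3 := ρ.2.2 0 i (Nat.zero_le _)
    rw [ρ.2.1, wdist_one] at h3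
    have t1 := wdist_tri hA 1 (f ^ e i) (ρ.1 i)
    rw [wdist_one, wdist_one, wdist_comm] at t1
    have h4 := hint (e i)
    have h5 : wlen A f * (e i).natAbs ≤ wlen A f * k := Nat.mul_le_mul_left _ h1.le
    omega
  refine ⟨n + wlen A f * L, fun k => ?_⟩
  have hex := hunb k.natAbs
  obtain ⟨i, hi⟩ : ∃ i, i = Nat.find hex := ⟨_, rfl⟩
  have h1 : k.natAbs ≤ (e i).natAbs := by rw [hi]; exact Nat.find_spec hex
  have h2 : (e i).natAbs ≤ k.natAbs + L := by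
    rcases Nat.eq_zero_or_pos i with hz | hz
    · rw [hz]; omega
    · obtain ⟨j, rfl⟩ : ∃ j, i = j + 1 := ⟨i - 1, by omega⟩
      have h3 : ¬ k.natAbs ≤ (e j).natAbs := Nat.find_min hex (by omega)
      have h4 := hstep j
      omega
  have key : ∀ k' : ℤ, (e i - k').natAbs ≤ L → wdist A (f ^ k') (ρ.1 i) ≤ n + wlen A f * L := by
    intro k' hk'
    have t1 := wdist_tri hA (f ^ k') (f ^ e i) (ρ.1 i)
    have h3 := hint (e i - k')
    rw [← hd] at h3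
    have h4 : wlen A f * (e i - k').natAbs ≤ wlen A f * L := Nat.mul_le_mul_left _ hk'
    have h5 := he i
    rw [wdist_comm] at h5
    omega
  by_cases hc : (e i - k).natAbs ≤ L
  · exact ⟨i, k, Or.inl rfl, key k hc⟩
  · exact ⟨i, -k, Or.inr rfl, key (-k) (by omega)⟩

variable {G : Type u} [Group G] {S : Finset G}

theorem useg_elem (hS : Gen S) (H : Subgroup G) {A : Finset H} (hA : Gen A) {f : H}
    (hf : ¬ IsOfFinOrder f) {n : ℕ} (hn : ∀ z : H, ∃ i : ℤ, wdist A z (f ^ i) ≤ n) (ρ : Ray A)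
    (hρ : ∀ K C : ℝ, 1 ≤ K → 0 ≤ C → ∃ m : ℝ, ∀ i, USeg S K C m 1 (ρ.1 i : G)) :
    ∀ K C : ℝ, 1 ≤ K → 0 ≤ C → ∃ M : ℝ, ∀ h ∈ H, USeg S K C M 1 h := by
  obtain ⟨κ, hκ⟩ := wlen_hom hA hS H.subtype
  have hκ' : ∀ a b : H, wdist S (a : G) (b : G) ≤ κ * wdist A a b := by
    intro a b
    have := hκ (a⁻¹ * b)
    simpa [wdist] using this
  obtain ⟨D, hD⟩ := ray_exp hA hf hn ρ
  intro K' C' hK' hC'
  obtain ⟨C, hC⟩ : ∃ C : ℝ, C = max C' 1 := ⟨_, rfl⟩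
  have hC1 : 1 ≤ C := by rw [hC]; exact le_max_right _ _
  obtain ⟨K₂, hK₂⟩ : ∃ K₂, K₂ = kk (kk K') := ⟨_, rfl⟩
  obtain ⟨C₂, hC₂⟩ : ∃ C₂, C₂ = cc (kk K') (cc K' C) := ⟨_, rfl⟩
  have hK₂1 : 1 ≤ K₂ := by rw [hK₂]; exact kk_ge (kk_ge hK')
  have hC₂1 : 1 ≤ C₂ := by rw [hC₂]; exact cc_one (kk_ge hK') (cc_ge hK' (by linarith))
  have hK₃1 : 1 ≤ kk (kk K₂) := kk_ge (kk_ge hK₂1)
  have hC₃0 : 0 ≤ cc (kk K₂) (cc K₂ C₂) := cc_ge (kk_ge hK₂1) (cc_ge hK₂1 (by linarith))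
  obtain ⟨m₀, hm₀⟩ := hρ _ _ hK₃1 hC₃0
  obtain ⟨m, hm⟩ : ∃ m : ℝ, m = max m₀ 0 := ⟨_, rfl⟩
  have hm0 : 0 ≤ m := by rw [hm]; exact le_max_right _ _
  obtain ⟨R, hR⟩ : ∃ R : ℝ, R = ((κ * D : ℕ) : ℝ) := ⟨_, rfl⟩
  obtain ⟨R', hR'⟩ : ∃ R' : ℝ, R' = ((κ * n : ℕ) : ℝ) := ⟨_, rfl⟩
  have hR0 : 0 ≤ R := by rw [hR]; exact Nat.cast_nonneg _
  have hR'0 : 0 ≤ R' := by rw [hR']; exact Nat.cast_nonneg _
  have hpow : ∀ k : ℤ, USeg S K₂ C₂ (3 * (bb K₂ C₂ R + m) + 3 * R) 1 ((f ^ k : H) : G) := by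
    intro k
    obtain ⟨i, k', hk', hi⟩ := hD k
    have h1 : USeg S (kk (kk K₂)) (cc (kk K₂) (cc K₂ C₂)) m 1 (ρ.1 i : G) :=
      useg_mono hK₃1 le_rfl le_rfl (by rw [hm]; exact le_max_left _ _) (hm₀ i)
    have h2 : USeg S K₂ C₂ (3 * (bb K₂ C₂ R + m) + 3 * R) 1 ((f ^ k' : H) : G) := by
      apply useg_pert hS hK₂1 hC₂1 hm0 (y := (ρ.1 i : G)) (q := 1) ?_ ?_ h1
      · rw [wdist_self, Nat.cast_zero]; exact hR0
      · rw [one_mul, hR]
        exact_mod_cast (hκ' (f ^ k') (ρ.1 i)).trans (Nat.mul_le_mul_left _ hi)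
    rcases hk' with rfl | rfl
    · exact h2
    · have := useg_inv h2
      rwa [zpow_neg, Subgroup.coe_inv, inv_inv] at this
  have hB0 : 0 ≤ bb K₂ C₂ R := by
    have k1 : 0 ≤ kk K₂ := by linarith [kk_ge hK₂1]
    have k2 : 0 ≤ cc K₂ C₂ := cc_ge hK₂1 (by linarith)
    unfold bb
    positivity
  obtain ⟨M₁, hM₁⟩ : ∃ M₁, M₁ = 3 * (bb K₂ C₂ R + m) + 3 * R := ⟨_, rfl⟩
  rw [← hM₁] at hpow
  have hM₁0 : 0 ≤ M₁ := by rw [hM₁]; positivity
  refine ⟨3 * (bb K' C R' + M₁) + 3 * R', fun h hh => ?_⟩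
  obtain ⟨k, hk⟩ := hn ⟨h, hh⟩
  have h3 := hpow k
  rw [hK₂, hC₂] at h3
  have h4 : USeg S K' C (3 * (bb K' C R' + M₁) + 3 * R') 1 h := by
    apply useg_pert hS hK' hC1 hM₁0 (y := ((f ^ k : H) : G)) (q := 1) ?_ ?_ h3
    · rw [wdist_self, Nat.cast_zero]; exact hR'0
    · rw [one_mul, hR']
      exact_mod_cast (hκ' ⟨h, hh⟩ (f ^ k)).trans (Nat.mul_le_mul_left _ hk)
  exact useg_mono hK' le_rfl (by rw [hC]; exact le_max_left _ _) le_rfl h4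

end Pool.Agent.HMB
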