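import Pool.Agent.HMB.StepTwo
import Pool.Agent.HMB.Pert

set_option autoImplicit false

/-!
The third side of a triangle with two Morse sides.

Let `c` be a quasi-geodesic from `x` to `y`, `τ` a minimiser of the distance to `1` on `c`. By
`qg_pre` the part of `c` after `τ` is near a geodesic `β` from `1` to `y`, the part before `τ` is near
a geodesic `α` from `1` to `x`. The same holds for a geodesic `σ` from `x` to `y`, with a minimiser
`s₀`. The heights `u` of `c τ` and `w` of `σ s₀` satisfy `w - u ≤ const`, since `c` passes near `α w` and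
near `β w`, which are both near `σ s₀`.
-/

namespace Pool.Agent.HMB

open Pool.Agent.MHN

universe u

variable {G : Type u} [Group G] {S : Finset G}

private theorem Third_tri (hS : Gen S) (a b c : G) :
    (wdist S a c : ℝ) ≤ wdist S a b + wdist S b c := by
  exact_mod_cast wdist_tri hS a b c

private theorem Third_comm (a b : G) : (wdist S a b : ℝ) = wdist S b a := by
  rw [wdist_comm]

theorem geo_rev {x y : G} {γ : ℕ → G} (hγ : IsGeo S x y γ) :
    IsGeo S y x (fun i => γ (wdist S x y - i)) := by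
  obtain ⟨a0, a1, a2⟩ := hγ
  have hd := wdist_comm S x y
  refine ⟨?_, ?_, fun i j hij hj => ?_⟩
  · simpa using a1
  · simp only [← hd, Nat.sub_self]
    exact a0
  · rw [← hd] at hj
    rw [wdist_comm, a2 _ _ (by omega) (by omega)]
    omega

theorem useg_symm {K C M : ℝ} {x y : G} (h : USeg S K C M x y) : USeg S K C M y x := by
  intro T c hT hc h0 h1 γ hγ t ht
  have hd := wdist_comm S x y
  obtain ⟨i, hi, hi'⟩ := h T (fun t => c (T - t)) hT (qg_rev hc) (by simpa using h1)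
    (by simpa using h0) _ (geo_rev hγ) (T - t) ⟨by linarith [ht.2], by linarith [ht.1]⟩
  refine ⟨wdist S y x - i, by omega, ?_⟩
  simpa using hi'

/-- coordinates of a point near a geodesic -/
private theorem Third_coord (hS : Gen S) {m : ℝ} {y p : G} {β : ℕ → G} (hβ : IsGeo S 1 y β) {v : ℕ}
    (hv : v ≤ wdist S 1 y) (h : (wdist S p (β v) : ℝ) ≤ m) :
    |(wdist S p 1 : ℝ) - v| ≤ m ∧ |(wdist S p y : ℝ) - (wdist S 1 y - v)| ≤ m := by
  obtain ⟨h0, h1, h2⟩ := hβ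
  have a1 : (wdist S 1 (β v) : ℝ) = v := by
    have := h2 0 v (Nat.zero_le _) hv
    rw [h0, Nat.sub_zero] at this
    exact_mod_cast this
  have a2 : (wdist S (β v) y : ℝ) = wdist S 1 y - v := by
    have := h2 v (wdist S 1 y) hv le_rfl
    rw [h1] at this
    rw [this, Nat.cast_sub hv]
  have t1 := Third_tri hS p (β v) 1
  have t2 := Third_tri hS 1 p (β v)
  have t3 := Third_tri hS p (β v) y
  have t4 := Third_tri hS (β v) p y
  have c1 := Third_comm (S := S) 1 p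
  have c2 := Third_comm (S := S) (β v) 1
  have c3 := Third_comm (S := S) (β v) p
  rw [abs_le, abs_le]
  refine ⟨⟨by linarith, by linarith⟩, ⟨by linarith, by linarith⟩⟩

/-- two points near a geodesic -/
private theorem Third_two (hS : Gen S) {m : ℝ} {y p q : G} {β : ℕ → G} (hβ : IsGeo S 1 y β)
    {v w : ℕ} (hv : v ≤ wdist S 1 y) (hw : w ≤ wdist S 1 y) (h : (wdist S p (β v) : ℝ) ≤ m)
    (h' : (wdist S q (β w) : ℝ) ≤ m) : (wdist S p q : ℝ) ≤ 2 * m + |(v : ℝ) - w| := by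
  have e3 : (wdist S (β v) (β w) : ℝ) = |(v : ℝ) - w| := by
    rcases le_total v w with hh | hh
    · have := hβ.2.2 v w hh hw
      rw [this, Nat.cast_sub hh, abs_sub_comm, abs_of_nonneg]
      have : (v : ℝ) ≤ w := by exact_mod_cast hh
      linarith
    · have := hβ.2.2 w v hh hv
      rw [wdist_comm, this, Nat.cast_sub hh, abs_of_nonneg]
      have : (w : ℝ) ≤ v := by exact_mod_cast hh
      linarith
  have t1 := Third_tri hS p (β v) q
  have t2 := Third_tri hS (β v) (β w) q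
  have c1 := Third_comm (S := S) (β w) q
  linarith

/-- the part of a quasi-geodesic after the point nearest to `1` is near `β` -/
private theorem Third_side (hS : Gen S) {K C m : ℝ} (hK : 1 ≤ K) (hC : 0 ≤ C) {y : G}
    (hy : USeg S (kk K) (cc K C) m 1 y) {β : ℕ → G} (hβ : IsGeo S 1 y β) {T : ℝ} {c : ℝ → G}
    (hc : IsQuasiGeodesic S K C T c) (h1 : c T = y) {τ : ℝ} (hτ : τ ∈ Set.Icc 0 T)
    (hmin : ∀ t ∈ Set.Icc 0 T, wdist S (c τ) 1 ≤ wdist S (c t) 1) {t : ℝ}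
    (ht : t ∈ Set.Icc τ T) : ∃ v ≤ wdist S 1 y, (wdist S (c t) (β v) : ℝ) ≤ m := by
  obtain ⟨s, c', hs, hq, hc0, hag⟩ := qg_pre hS hK hC hc 1 hτ hmin
  obtain ⟨v, hv, hv'⟩ := hy (s + (T - τ)) c' (by linarith [hτ.2]) hq hc0
    (by rw [hag T ⟨hτ.2, le_rfl⟩]; exact h1) β hβ (s + (t - τ))
    ⟨by linarith [ht.1], by linarith [ht.2]⟩
  rw [hag t ht] at hv'
  exact ⟨v, hv, hv'⟩

/-- discrete intermediate value theorem for the distance to `1` -/
private theorem Third_ivt (hS : Gen S) {K C T : ℝ} (hK : 1 ≤ K) (hC : 0 ≤ C) {c : ℝ → G}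
    (hc : IsQuasiGeodesic S K C T c) {a b : ℝ} (ha : 0 ≤ a) (hab : a ≤ b) (hb : b ≤ T) {w : ℝ}
    (h1 : (wdist S (c a) 1 : ℝ) < w) (h2 : w ≤ wdist S (c b) 1) :
    ∃ t ∈ Set.Icc a b, w ≤ wdist S (c t) 1 ∧ (wdist S (c t) 1 : ℝ) ≤ w + K + C := by
  classical
  have hex : ∃ i : ℕ, w ≤ wdist S (c (min (a + i) b)) 1 := by
    obtain ⟨n, hn⟩ := exists_nat_ge (b - a)
    refine ⟨n, ?_⟩
    rw [min_eq_right (by linarith)]
    exact h2
  have hs := Nat.find_spec hex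
  obtain ⟨n, hn⟩ : ∃ n, Nat.find hex = n := ⟨_, rfl⟩
  rw [hn] at hs
  rcases n with _ | k
  · exfalso
    rw [Nat.cast_zero, add_zero, min_eq_left hab] at hs
    linarith
  · have hk : ¬ w ≤ wdist S (c (min (a + k) b)) 1 := Nat.find_min hex (by omega)
    push Not at hk
    have m1 : a ≤ min (a + ((k + 1 : ℕ) : ℝ)) b := le_min (by push_cast; linarith [(Nat.cast_nonneg k : (0 : ℝ) ≤ k)]) hab
    have m2 : a ≤ min (a + (k : ℝ)) b := le_min (by linarith [(Nat.cast_nonneg k : (0 : ℝ) ≤ k)]) hab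
    have m3 : min (a + ((k + 1 : ℕ) : ℝ)) b ≤ b := min_le_right _ _
    have m4 : min (a + (k : ℝ)) b ≤ b := min_le_right _ _
    have m5 : |min (a + (k : ℝ)) b - min (a + ((k + 1 : ℕ) : ℝ)) b| ≤ 1 := by
      have := abs_min_sub_min_le_max (a + (k : ℝ)) b (a + ((k + 1 : ℕ) : ℝ)) b
      refine this.trans ?_
      push_cast
      rw [sub_self, abs_zero]
      apply max_le _ zero_le_one
      rw [show a + (k : ℝ) - (a + (k + 1)) = -1 by ring]
      simp
    refine ⟨_, ⟨m1, m3⟩, hs, ?_⟩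
    have h3 := (hc (min (a + (k : ℝ)) b) ⟨by linarith, by linarith⟩
      (min (a + ((k + 1 : ℕ) : ℝ)) b) ⟨by linarith, by linarith⟩).2
    have h4 : K * |min (a + (k : ℝ)) b - min (a + ((k + 1 : ℕ) : ℝ)) b| ≤ K * 1 :=
      mul_le_mul_of_nonneg_left m5 (by linarith)
    have h5 := Third_tri hS (c (min (a + ((k + 1 : ℕ) : ℝ)) b)) (c (min (a + (k : ℝ)) b)) 1
    rw [Third_comm (c (min (a + ((k + 1 : ℕ) : ℝ)) b)) (c (min (a + (k : ℝ)) b))] at h5
    linarith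

/-- bound for the third side -/
def tt (K C m : ℝ) : ℝ := 4 * m + (K * (K * (2 * (4 * m + K + C) + C)) + C)

private theorem Third_core (hS : Gen S) {K C m : ℝ} (hK : 1 ≤ K) (hC : 1 ≤ C) (hm : 0 ≤ m)
    {x y : G} (hx : USeg S (kk K) (cc K C) m 1 x) (hy : USeg S (kk K) (cc K C) m 1 y)
    {T : ℝ} {c : ℝ → G} (hc : IsQuasiGeodesic S K C T c) (h0 : c 0 = x) (h1 : c T = y)
    {σ : ℕ → G} (hσ : IsGeo S x y σ) {τ : ℝ} (hτ : τ ∈ Set.Icc 0 T)
    (hmin : ∀ t ∈ Set.Icc 0 T, wdist S (c τ) 1 ≤ wdist S (c t) 1) {t : ℝ}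
    (ht : t ∈ Set.Icc τ T) : ∃ s ≤ wdist S x y, (wdist S (c t) (σ s) : ℝ) ≤ tt K C m := by
  have hC0 : (0 : ℝ) ≤ C := le_trans zero_le_one hC
  have hK0 : (0 : ℝ) < K := lt_of_lt_of_le zero_lt_one hK
  obtain ⟨α, hα⟩ := StepTwoB_geo hS 1 x
  obtain ⟨β, hβ⟩ := StepTwoB_geo hS 1 y
  -- the geodesic as a quasi-geodesic
  obtain ⟨n, hn⟩ : ∃ n, n = wdist S x y := ⟨_, rfl⟩
  have hσq : IsQuasiGeodesic S K C (n : ℝ) (fun t : ℝ => σ ⌊t⌋₊) := by
    rw [hn]; exact qg_mono le_rfl hK hC (qg_geo hσ)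
  obtain ⟨τ', hτ', hmin'⟩ := exists_min (S := S) (Nat.cast_nonneg n : (0 : ℝ) ≤ n)
    (fun t : ℝ => σ ⌊t⌋₊) 1
  obtain ⟨s₀, hs₀⟩ : ∃ s₀, s₀ = ⌊τ'⌋₊ := ⟨_, rfl⟩
  have hs₀n : s₀ ≤ n := by
    rw [hs₀]
    have := Nat.floor_le_floor hτ'.2
    rwa [Nat.floor_natCast] at this
  have hs₀I : (s₀ : ℝ) ∈ Set.Icc (0 : ℝ) n := ⟨Nat.cast_nonneg _, by exact_mod_cast hs₀n⟩
  have hmin'' : ∀ t ∈ Set.Icc (0 : ℝ) n, wdist S ((fun t : ℝ => σ ⌊t⌋₊) (s₀ : ℝ)) 1 ≤
      wdist S ((fun t : ℝ => σ ⌊t⌋₊) t) 1 := by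
    intro t ht
    have := hmin' t ht
    simp only [Nat.floor_natCast]
    rw [hs₀]
    exact this
  have hσ1 : (fun t : ℝ => σ ⌊t⌋₊) (n : ℝ) = y := by
    simp only [Nat.floor_natCast]
    rw [hn]; exact hσ.2.1
  have hσ0 : (fun t : ℝ => σ ⌊t⌋₊) 0 = x := by
    simp only [Nat.floor_zero]
    exact hσ.1
  -- the sides
  have sβ : ∀ s, s₀ ≤ s → s ≤ n → ∃ v ≤ wdist S 1 y, (wdist S (σ s) (β v) : ℝ) ≤ m := by
    intro s h1 h2
    have := Third_side hS hK hC0 hy hβ hσq hσ1 hs₀I hmin'' (t := (s : ℝ))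
      ⟨by exact_mod_cast h1, by exact_mod_cast h2⟩
    simpa using this
  have sα : ∃ v ≤ wdist S 1 x, (wdist S (σ s₀) (α v) : ℝ) ≤ m := by
    have e : (n : ℝ) - ((n : ℝ) - s₀) = s₀ := by ring
    have := Third_side hS hK hC0 hx hα (qg_rev hσq) (by simpa using hσ.1)
      (τ := (n : ℝ) - s₀) ⟨by linarith [hs₀I.2], by linarith [hs₀I.1]⟩ (by
        intro t ht
        simp only [e]
        exact hmin'' ((n : ℝ) - t) ⟨by linarith [ht.2], by linarith [ht.1]⟩)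
      (t := (n : ℝ) - s₀) ⟨le_rfl, by linarith [hs₀I.1]⟩
    simp only [e] at this
    simpa using this
  have cβ : ∀ t ∈ Set.Icc τ T, ∃ v ≤ wdist S 1 y, (wdist S (c t) (β v) : ℝ) ≤ m := fun t ht =>
    Third_side hS hK hC0 hy hβ hc h1 hτ hmin ht
  have hτ2 : T - τ ∈ Set.Icc 0 T := ⟨by linarith [hτ.2], by linarith [hτ.1]⟩
  have eT : T - (T - τ) = τ := by ring
  have cα : ∀ t ∈ Set.Icc 0 τ, ∃ v ≤ wdist S 1 x, (wdist S (c t) (α v) : ℝ) ≤ m := by
    intro t ht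
    have := Third_side hS hK hC0 hx hα (qg_rev hc) (by simpa using h0) hτ2 (by
        intro t ht
        simp only [eT]
        exact hmin (T - t) ⟨by linarith [ht.2], by linarith [ht.1]⟩)
      (t := T - t) ⟨by linarith [ht.2], by linarith [ht.1]⟩
    simpa using this
  -- heights
  obtain ⟨w, hw⟩ : ∃ w : ℝ, w = (wdist S (σ s₀) 1 : ℝ) := ⟨_, rfl⟩
  obtain ⟨v₄, hv₄, hv₄'⟩ := sβ s₀ le_rfl hs₀n
  obtain ⟨v₃, hv₃, hv₃'⟩ := sα
  have k4 := Third_coord hS hβ hv₄ hv₄'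
  have k3 := Third_coord hS hα hv₃ hv₃'
  rw [← hw] at k4 k3
  have hZ0 : 0 ≤ K * (K * (2 * (4 * m + K + C) + C)) + C := by positivity
  have hwu : w - wdist S (c τ) 1 ≤ K * (K * (2 * (4 * m + K + C) + C)) + C := by
    rcases le_or_gt w (wdist S (c τ) 1 : ℝ) with hle | hlt
    · linarith
    · have hwx : w ≤ wdist S x 1 := by
        have := hmin'' 0 ⟨le_rfl, Nat.cast_nonneg _⟩
        rw [hσ0] at this
        simp only [Nat.floor_natCast] at this
        rw [hw]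
        exact_mod_cast this
      have hwy : w ≤ wdist S y 1 := by
        have := hmin'' n ⟨Nat.cast_nonneg _, le_rfl⟩
        rw [hσ1] at this
        simp only [Nat.floor_natCast] at this
        rw [hw]
        exact_mod_cast this
      obtain ⟨t₂, ht₂, b1, b2⟩ := Third_ivt hS hK hC0 hc hτ.1 hτ.2 le_rfl hlt (by rw [h1]; exact hwy)
      obtain ⟨t₁, ht₁, b3, b4⟩ := Third_ivt hS hK hC0 (qg_rev hc) (a := T - τ) (b := T) (w := w)
        hτ2.1 hτ2.2 le_rfl (by simp only [eT]; exact hlt) (by simpa [h0] using hwx)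
      obtain ⟨t₁', ht₁'⟩ : ∃ t₁' : ℝ, t₁' = T - t₁ := ⟨_, rfl⟩
      simp only [← ht₁'] at b3 b4
      have ht₁I : t₁' ∈ Set.Icc 0 τ := ⟨by rw [ht₁']; linarith [ht₁.2], by rw [ht₁']; linarith [ht₁.1]⟩
      obtain ⟨v₁, hv₁, hv₁'⟩ := cα t₁' ht₁I
      obtain ⟨v₂, hv₂, hv₂'⟩ := cβ t₂ ht₂
      have k1 := (Third_coord hS hα hv₁ hv₁').1
      have k2 := (Third_coord hS hβ hv₂ hv₂').1
      have d1 := Third_two hS hα hv₁ hv₃ hv₁' hv₃'
      have d2 := Third_two hS hβ hv₂ hv₄ hv₂' hv₄'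
      have k3' := k3.1
      have k4' := k4.1
      rw [abs_le] at k1 k2 k3' k4'
      have f1 : |(v₁ : ℝ) - v₃| ≤ 2 * m + K + C := by
        rw [abs_le]; constructor <;> linarith [k1.1, k1.2, k3'.1, k3'.2]
      have f2 : |(v₂ : ℝ) - v₄| ≤ 2 * m + K + C := by
        rw [abs_le]; constructor <;> linarith [k2.1, k2.2, k4'.1, k4'.2]
      have d3 := Third_tri hS (c t₁') (σ s₀) (c t₂)
      rw [Third_comm (σ s₀) (c t₂)] at d3
      have hI1 : t₁' ∈ Set.Icc 0 T := ⟨ht₁I.1, by linarith [ht₁I.2, hτ.2]⟩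
      have hI2 : t₂ ∈ Set.Icc 0 T := ⟨by linarith [ht₂.1, hτ.1], ht₂.2⟩
      have q1 := (hc t₁' hI1 t₂ hI2).1
      have q2 := (hc τ hτ t₁' hI1).2
      have e1 : |t₁' - t₂| = t₂ - t₁' := by
        rw [abs_sub_comm, abs_of_nonneg]; linarith [ht₁I.2, ht₂.1]
      have e2 : |τ - t₁'| = τ - t₁' := abs_of_nonneg (by linarith [ht₁I.2])
      rw [e1] at q1
      rw [e2] at q2
      have g1 : (t₂ - t₁') / K ≤ 2 * (4 * m + K + C) + C := by linarith
      rw [div_le_iff₀ hK0] at g1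
      have g2 : K * (τ - t₁') ≤ K * (K * (2 * (4 * m + K + C) + C)) := by
        apply mul_le_mul_of_nonneg_left _ hK0.le
        have := ht₂.1
        linarith [mul_comm K (2 * (4 * m + K + C) + C)]
      have d4 := Third_tri hS (c t₁') (c τ) 1
      rw [Third_comm (c t₁') (c τ)] at d4
      linarith
  -- the point
  obtain ⟨v, hv, hv'⟩ := cβ t ht
  have kv := Third_coord hS hβ hv hv'
  have htI : t ∈ Set.Icc 0 T := ⟨by linarith [ht.1, hτ.1], ht.2⟩
  have hup : (wdist S (c τ) 1 : ℝ) ≤ wdist S (c t) 1 := by exact_mod_cast hmin t htI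
  have hsy : ∀ s, s ≤ n → (wdist S (σ s) y : ℝ) = n - s := by
    intro s hs
    have := hσ.2.2 s n hs (by rw [hn])
    have e : σ n = y := by rw [hn]; exact hσ.2.1
    rw [e] at this
    rw [this, Nat.cast_sub hs]
  rw [hsy s₀ hs₀n] at k4
  obtain ⟨kv1, kv2⟩ := kv
  obtain ⟨k41, k42⟩ := k4
  rw [abs_le] at kv1 kv2 k41 k42
  obtain ⟨r, hr⟩ : ∃ r, r = wdist S (c t) y := ⟨_, rfl⟩
  rw [← hr] at kv2
  rcases le_or_gt r (n - s₀) with hrle | hrgt
  · refine ⟨n - r, by rw [← hn]; exact Nat.sub_le _ _, ?_⟩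
    obtain ⟨v', hv'1, hv'2⟩ := sβ (n - r) (by omega) (Nat.sub_le _ _)
    have kk2 := (Third_coord hS hβ hv'1 hv'2).2
    rw [hsy _ (Nat.sub_le _ _), Nat.cast_sub (by omega : r ≤ n)] at kk2
    rw [abs_le] at kk2
    have d1 := Third_two hS hβ hv hv'1 hv' hv'2
    have f1 : |(v : ℝ) - v'| ≤ 2 * m := by
      rw [abs_le]; constructor <;> linarith [kk2.1, kk2.2, kv2.1, kv2.2]
    unfold tt
    linarith
  · refine ⟨s₀, by rw [← hn]; exact hs₀n, ?_⟩
    have hr' : (n : ℝ) - s₀ ≤ r := by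
      have : ((n - s₀ : ℕ) : ℝ) ≤ r := by exact_mod_cast hrgt.le
      rwa [Nat.cast_sub hs₀n] at this
    have d1 := Third_two hS hβ hv hv₄ hv' hv₄'
    have f1 : |(v : ℝ) - v₄| ≤ 2 * m + (K * (K * (2 * (4 * m + K + C) + C)) + C) := by
      rw [abs_le]
      constructor <;> linarith [kv1.1, kv1.2, kv2.1, kv2.2, k41.1, k41.2, k42.1, k42.2]
    unfold tt
    linarith

/-- The third side of a triangle with two Morse sides is Morse. -/
theorem useg_third (hS : Gen S) {K C m : ℝ} (hK : 1 ≤ K) (hC : 1 ≤ C) (hm : 0 ≤ m) {x y : G}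
    (hx : USeg S (kk K) (cc K C) m 1 x) (hy : USeg S (kk K) (cc K C) m 1 y) :
    USeg S K C (tt K C m) x y := by
  intro T c hT hc h0 h1 σ hσ t ht
  obtain ⟨τ, hτ, hmin⟩ := exists_min (S := S) hT c 1
  rcases le_total τ t with hle | hle
  · exact Third_core hS hK hC hm hx hy hc h0 h1 hσ hτ hmin ⟨hle, ht.2⟩
  · have eT : T - (T - τ) = τ := by ring
    obtain ⟨s, hs, hs'⟩ := Third_core hS hK hC hm hy hx (qg_rev hc) (by simpa using h1)
      (by simpa using h0) (geo_rev hσ) (τ := T - τ) ⟨by linarith [hτ.2], by linarith [hτ.1]⟩ (by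
        intro t ht
        simp only [eT]
        exact hmin (T - t) ⟨by linarith [ht.2], by linarith [ht.1]⟩) (t := T - t)
      ⟨by linarith, by linarith [ht.1]⟩
    refine ⟨wdist S x y - s, Nat.sub_le _ _, ?_⟩
    simpa using hs'

end Pool.Agent.HMB
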