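import Pool.Agent.HMB.Final
import Pool.Agent.HMB.Third
import Pool.Agent.HMB.DefsM

set_option autoImplicit false

/-!
Uniform porosity of the set of `M`-Morse points.
-/

namespace Pool.Agent.HMB

open Pool.Agent.MHN

universe u

theorem useg_of_morse {G : Type u} [Group G] {S : Finset G} {M : ℝ → ℝ → ℝ} {x : G}
    (h : IsMorseElt S M x) {K C m : ℝ} (hK : 1 ≤ K) (hC : 0 ≤ C)
    (hm : M K C ≤ m) : USeg S K C m 1 x := by
  intro T c hT hc h0 h1 γ hγ t ht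
  obtain ⟨j, hj, hj'⟩ := h γ hγ _ _ hK hC T c hT hc ⟨0, Nat.zero_le _, by rw [h0, hγ.1]⟩
    ⟨_, le_rfl, by rw [h1, hγ.2.1]⟩ t ht
  exact ⟨j, hj, hj'.trans hm⟩

theorem porous_core {G : Type u} [Group G] {S : Finset G} (hS : Gen S) (H : Subgroup G)
    {A : Finset H} (hA : Gen A) {δ : ℝ} (hδ : Hyp δ (wdist A)) {f' : H}
    (hf'fin : ¬ IsOfFinOrder f') (hne : ∀ n : ℕ, ∃ z : H, ∀ i : ℤ, n ≤ wdist A z (f' ^ i))
    {K C : ℝ} (hK : 1 ≤ K) (hC : 1 ≤ C) (hbad : ∀ M : ℝ, ∃ h ∈ H, ¬ USeg S K C M 1 h) :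
    ∃ D : ℕ, ∀ (M : ℝ → ℝ → ℝ) (E : ℕ), ∃ N : ℕ, ∀ (ρ₀ : Ray A) (n : ℕ), ∃ ρ : Ray A,
      wdist A (ρ.1 n) (ρ₀.1 n) ≤ D ∧
        ∀ ρ' : Ray A, IsMorseRay S M ρ' → E < wdist A (ρ'.1 (n + N)) (ρ.1 (n + N)) := by
  classical
  have hd : LMet H δ (wdist A) := lmet hA hδ
  have hδ0 : 0 ≤ δ := hd.delta_nonneg
  have hC0 : 0 ≤ C := by linarith
  obtain ⟨F, L, D, hconn⟩ := conn hd hf'fin hne
  obtain ⟨κ, hκ⟩ := wlen_hom hA hS H.subtype
  have hκ' : ∀ a b : H, wdist S (a : G) (b : G) ≤ κ * wdist A a b := by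
    intro a b
    have := hκ (a⁻¹ * b)
    simpa [wdist] using this
  obtain ⟨Q, hQ⟩ : ∃ Q : ℕ, Q = ⌈4 * δ⌉₊ := ⟨_, rfl⟩
  have hQ' : 4 * δ ≤ Q := by rw [hQ]; exact Nat.le_ceil _
  obtain ⟨W, hW⟩ : ∃ W : ℕ, ∀ a ∈ F, wlen A a ≤ W :=
    ⟨F.sup (wlen A), fun a ha => Finset.le_sup (f := wlen A) ha⟩
  refine ⟨D + Q, fun M E => ?_⟩
  -- constants
  obtain ⟨K₁, hK₁⟩ : ∃ K₁, K₁ = kk (kk K) := ⟨_, rfl⟩
  obtain ⟨C₁, hC₁⟩ : ∃ C₁, C₁ = cc (kk K) (cc K C) := ⟨_, rfl⟩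
  have hK₁1 : 1 ≤ K₁ := by rw [hK₁]; exact kk_ge (kk_ge hK)
  have hC₁1 : 1 ≤ C₁ := by
    have h1 : 0 ≤ cc K C := cc_ge hK hC0
    have h2 := kk_ge hK
    have h3 : 0 ≤ kk K * cc K C := mul_nonneg (by linarith) h1
    rw [hC₁]
    conv_rhs => unfold cc
    have h4 : cc K C = K * C + C + 2 := rfl
    rw [← h4]
    linarith
  have hK₂1 : 1 ≤ kk K₁ := kk_ge hK₁1
  have hC₂0 : 0 ≤ cc K₁ C₁ := cc_ge hK₁1 (by linarith)
  obtain ⟨m, hm⟩ : ∃ m, m = max (M (kk K₁) (cc K₁ C₁)) 0 := ⟨_, rfl⟩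
  have hm0 : 0 ≤ m := by rw [hm]; exact le_max_right _ _
  have hm1 : M (kk K₁) (cc K₁ C₁) ≤ m := by rw [hm]; exact le_max_left _ _
  have htt : 0 ≤ tt K₁ C₁ m := by unfold tt; positivity
  obtain ⟨R, hR⟩ : ∃ R : ℝ, R = (κ : ℝ) * (E + Q + D + W) := ⟨_, rfl⟩
  obtain ⟨h₀, hh₀, hbad'⟩ := hbad (max (3 * (bb K C R + tt K₁ C₁ m) + 3 * R)
    (K * (K * (((κ * L : ℕ) : ℝ) + C)) + C))
  obtain ⟨h, hh⟩ : ∃ h : H, (h : G) = h₀ := ⟨⟨h₀, hh₀⟩, rfl⟩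
  rw [← hh] at hbad'
  have hL : L ≤ wdist A 1 h := by
    by_contra hcon
    push Not at hcon
    apply hbad'
    refine useg_mono hK le_rfl le_rfl ?_ (useg_triv (S := S) hK hC0 (h : G))
    refine le_trans ?_ (le_max_right _ _)
    have h1 := hκ' 1 h
    have h2 : wdist S (1 : G) (h : G) ≤ κ * L :=
      (by simpa using h1 : wdist S (1 : G) (h : G) ≤ κ * wdist A 1 h).trans
        (Nat.mul_le_mul_left _ hcon.le)
    have h3 : (wdist S (1 : G) (h : G) : ℝ) ≤ ((κ * L : ℕ) : ℝ) := by exact_mod_cast h2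
    have h4 : K * (K * ((wdist S (1 : G) (h : G) : ℝ) + C)) ≤ K * (K * (((κ * L : ℕ) : ℝ) + C)) := by
      gcongr
    linarith
  obtain ⟨N, hN⟩ : ∃ N : ℕ, N = L + W + wdist A 1 h + D := ⟨_, rfl⟩
  refine ⟨N, fun ρ₀ n => ?_⟩
  obtain ⟨n', hn'⟩ : ∃ n', n' = max n L := ⟨_, rfl⟩
  have hnn' : n ≤ n' := by rw [hn']; exact le_max_left _ _
  have hLn' : L ≤ n' := by rw [hn']; exact le_max_right _ _
  have hn'N : n' ≤ n + L := by rw [hn']; exact max_le (by omega) (by omega)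
  obtain ⟨g, hg⟩ : ∃ g, g = ρ₀.1 n' := ⟨_, rfl⟩
  have hgd : wdist A 1 g = n' := by
    have := ρ₀.2.2 0 n' (Nat.zero_le _)
    rw [ρ₀.2.1] at this
    rw [hg, this]; simp
  obtain ⟨a, haF, ρ, hρ0, hρ, hρg, j, hj⟩ := hconn g h (by rw [hgd]; exact hLn') hL
  rw [hgd] at hρg
  have hjd : wdist A 1 (ρ j) = j := by
    have := hρ 0 j (Nat.zero_le _)
    rw [hρ0] at this
    rw [this]; simp
  have hjN : j ≤ n + N := by
    have h1 := wdist_tri hA 1 (g * a * h) (ρ j)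
    rw [wdist_comm A (g * a * h) (ρ j)] at h1
    have h2 := wdist_tri hA 1 g (g * a * h)
    have h3 := wdist_tri hA g (g * a) (g * a * h)
    have h4 : wdist A g (g * a) = wlen A a := by simp [wdist]
    have h5 : wdist A (g * a) (g * a * h) = wdist A 1 h := by
      have := wdist_left A (g * a) 1 h
      rwa [mul_one] at this
    have h6 := hW a haF
    omega
  refine ⟨⟨ρ, hρ0, hρ⟩, ?_, ?_⟩
  · have h1 : wdist A ((⟨ρ, hρ0, hρ⟩ : Ray A).1 n') (ρ₀.1 n') ≤ D := by rw [← hg]; exact hρg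
    have h2 := close_unif hA hδ h1 hnn'
    have h3 : (wdist A ((⟨ρ, hρ0, hρ⟩ : Ray A).1 n) (ρ₀.1 n) : ℝ) ≤ ((D + Q : ℕ) : ℝ) := by
      push_cast; linarith
    exact_mod_cast h3
  · intro ρ' hρ'
    by_contra hcon
    push Not at hcon
    apply hbad'
    have hclose : ∀ i, i ≤ n + N → wdist A (ρ'.1 i) (ρ i) ≤ E + Q := by
      intro i hi
      have h2 := close_unif hA hδ (ρ := ρ') (ρ' := ⟨ρ, hρ0, hρ⟩) hcon hi
      have h3 : (wdist A (ρ'.1 i) (ρ i) : ℝ) ≤ ((E + Q : ℕ) : ℝ) := by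
        push_cast
        linarith
      exact_mod_cast h3
    obtain ⟨x, hx⟩ : ∃ x, x = ρ'.1 n' := ⟨_, rfl⟩
    obtain ⟨y, hy⟩ : ∃ y, y = ρ'.1 j := ⟨_, rfl⟩
    have ux : USeg S (kk K₁) (cc K₁ C₁) m 1 (x : G) := by
      rw [hx]; exact useg_of_morse (hρ' n') hK₂1 hC₂0 hm1
    have uy : USeg S (kk K₁) (cc K₁ C₁) m 1 (y : G) := by
      rw [hy]; exact useg_of_morse (hρ' j) hK₂1 hC₂0 hm1
    have uxy := useg_left (x : G)⁻¹ (useg_third hS hK₁1 hC₁1 hm0 ux uy)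
    rw [inv_mul_cancel] at uxy
    have e1 : wdist A x (g * a) ≤ E + Q + D + W := by
      have h1 := wdist_tri hA x (ρ n') (g * a)
      have h2 := wdist_tri hA (ρ n') g (g * a)
      have h4 : wdist A g (g * a) = wlen A a := by simp [wdist]
      have h6 := hW a haF
      have h7 := hclose n' (by omega)
      rw [← hx] at h7
      omega
    have e2 : wdist A (g * a * h) y ≤ E + Q + D + W := by
      have h1 := wdist_tri hA (g * a * h) (ρ j) y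
      have h7 := hclose j hjN
      rw [← hy] at h7
      rw [wdist_comm A (g * a * h) (ρ j), wdist_comm A (ρ j) y] at h1
      omega
    have e3 : (wdist S 1 ((x : G)⁻¹ * ((g : G) * a)) : ℝ) ≤ R := by
      have h1 := hκ' x (g * a)
      simp only [Subgroup.coe_mul] at h1
      have h2 := h1.trans (Nat.mul_le_mul_left _ e1)
      have h3 : wdist S 1 ((x : G)⁻¹ * ((g : G) * a)) = wdist S (x : G) ((g : G) * a) := by
        simp [wdist]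
      rw [h3, hR]
      exact_mod_cast h2
    have e4 : (wdist S ((x : G)⁻¹ * ((g : G) * a) * h) ((x : G)⁻¹ * y) : ℝ) ≤ R := by
      have h1 := hκ' (g * a * h) y
      simp only [Subgroup.coe_mul] at h1
      have h2 := h1.trans (Nat.mul_le_mul_left _ e2)
      rw [mul_assoc, wdist_left, hR]
      exact_mod_cast h2
    refine useg_mono hK le_rfl le_rfl (le_max_left _ _) ?_
    rw [hK₁, hC₁] at uxy
    have := useg_pert hS hK hC (by rw [hK₁, hC₁] at htt; exact htt) e3 e4 uxy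
    rw [hK₁, hC₁]
    exact this

end Pool.Agent.HMB
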