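import Pool.Agent.HMB.Defs
import Pool.Agent.MHN.Word

/-!
Module QG: surgery on quasi-geodesics.

`d = wdist S`. Facts on `d`: `gmet hS : GMet G (wdist S)` (`self, symm, tri, geod`),
`wdist_left`, `wdist_comm`, `wdist_tri hS`.

`exists_min`: `{d (c t) z | t ∈ [0, T]}` is a nonempty set of natural numbers.

`qg_app`: let `n = d (c τ) z`, `γ` a geodesic from `c τ` to `z` (`GMet.geod`), `T' = τ + n`,
`c' t = c t` for `t ≤ τ`, `c' t = γ ⌊t - τ⌋₊` for `t > τ` (if `n = 0` then `c τ = z`: `c' T' = z`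
still; careful with this case, e.g. define `c' t = if t ≤ τ then c t else ..` and use
`wdist = 0 → eq`, `wlen_eq_zero`). Mixed case `s ≤ τ < t`, `j = ⌊t - τ⌋₊ ≤ n`, `w = γ j`,
`D = d (c s) w`. Upper: `D ≤ K (τ - s) + C + j ≤ K (t - s) + C`. Lower: `n ≤ d (c s) z ≤ D + (n - j)`
so `j ≤ D`; `t - τ < j + 1 ≤ D + 1`; `d (c s) (c τ) ≤ D + j ≤ 2 D`, so `τ - s ≤ K (2 D + C)`;
`t - s ≤ (2 K + 1) D + K C + 1`.

`qg_pre`: reverse `c`, `qg_app`, reverse.

`qg_two`: minimiser `t₁` of `d (c t) y`; `d (c t₁) y ≤ d (c T) y ≤ R`, `d (c t₁) (c T) ≤ 2 R`,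
`T - t₁ ≤ K (2 R + C)`; `qg_app` gives `c₁` on `[0, T₁]`. Minimiser `t₀` of `d (c₁ t) x` on
`[0, T₁]`: `d (c₁ t₀) x ≤ d (c₁ 0) x ≤ R`, `t₀ ≤ kk K (2 R + cc K C)`; `qg_pre` gives `c'`.
-/

set_option autoImplicit false

namespace Pool.Agent.HMB

open Pool.Agent.MHN

variable {G : Type*} [Group G] {S : Finset G}

theorem exists_min {T : ℝ} (hT : 0 ≤ T) (c : ℝ → G) (z : G) :
    ∃ τ ∈ Set.Icc 0 T, ∀ t ∈ Set.Icc 0 T, wdist S (c τ) z ≤ wdist S (c t) z := by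
  classical
  have h : ∃ n : ℕ, ∃ τ ∈ Set.Icc 0 T, wdist S (c τ) z = n :=
    ⟨_, 0, ⟨le_refl _, hT⟩, rfl⟩
  obtain ⟨τ, hτ, he⟩ := Nat.find_spec h
  refine ⟨τ, hτ, fun t ht => ?_⟩
  rw [he]
  exact Nat.find_min' h ⟨t, ht, rfl⟩

theorem qg_mono {K K' C C' T : ℝ} {c : ℝ → G} (hK : 1 ≤ K) (hKK : K ≤ K') (hCC : C ≤ C')
    (hc : IsQuasiGeodesic S K C T c) : IsQuasiGeodesic S K' C' T c := by
  intro s hs t ht
  obtain ⟨h1, h2⟩ := hc s hs t ht
  have h0 := abs_nonneg (s - t)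
  have hK0 : 0 < K := by linarith
  have h3 : |s - t| / K' ≤ |s - t| / K := div_le_div_of_nonneg_left h0 hK0 hKK
  have h4 : K * |s - t| ≤ K' * |s - t| := mul_le_mul_of_nonneg_right hKK h0
  constructor <;> linarith

theorem qg_left {K C T : ℝ} {c : ℝ → G} (g : G) (hc : IsQuasiGeodesic S K C T c) :
    IsQuasiGeodesic S K C T (fun t => g * c t) := by
  intro s hs t ht
  simp only [wdist_left]
  exact hc s hs t ht

theorem qg_rev {K C T : ℝ} {c : ℝ → G} (hc : IsQuasiGeodesic S K C T c) :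
    IsQuasiGeodesic S K C T (fun t => c (T - t)) := by
  intro s hs t ht
  have h := hc (T - s) ⟨by linarith [hs.2], by linarith [hs.1]⟩ (T - t)
    ⟨by linarith [ht.2], by linarith [ht.1]⟩
  have e : |T - s - (T - t)| = |s - t| := by
    rw [abs_sub_comm s t]
    congr 1
    ring
  rw [e] at h
  exact h

/-- a symmetric criterion -/
private theorem QG_symm {K C T : ℝ} {c : ℝ → G}
    (h : ∀ s t, 0 ≤ s → s ≤ t → t ≤ T → (t - s) / K - C ≤ (wdist S (c s) (c t) : ℝ) ∧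
      (wdist S (c s) (c t) : ℝ) ≤ K * (t - s) + C) : IsQuasiGeodesic S K C T c := by
  intro s hs t ht
  rcases le_total s t with hst | hst
  · have := h s t hs.1 hst ht.2
    rw [abs_sub_comm, abs_of_nonneg (by linarith)]
    exact this
  · have := h t s ht.1 hst hs.2
    rw [wdist_comm, abs_of_nonneg (by linarith)]
    exact this

private theorem QG_floor {s t : ℝ} {n : ℕ} (hs : 0 ≤ s) (hst : s ≤ t) (ht : t ≤ n) :
    ⌊s⌋₊ ≤ ⌊t⌋₊ ∧ ⌊t⌋₊ ≤ n ∧ (t - s) - 1 ≤ ((⌊t⌋₊ - ⌊s⌋₊ : ℕ) : ℝ) ∧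
      ((⌊t⌋₊ - ⌊s⌋₊ : ℕ) : ℝ) ≤ (t - s) + 1 := by
  have h1 : ⌊s⌋₊ ≤ ⌊t⌋₊ := Nat.floor_le_floor hst
  have h2 : ⌊t⌋₊ ≤ n := Nat.floor_le_of_le ht
  have h3 := Nat.floor_le hs
  have h4 := Nat.lt_floor_add_one s
  have h5 := Nat.floor_le (hs.trans hst)
  have h6 := Nat.lt_floor_add_one t
  refine ⟨h1, h2, ?_, ?_⟩
  · rw [Nat.cast_sub h1]
    linarith
  · rw [Nat.cast_sub h1]
    linarith

theorem qg_geo {x y : G} {γ : ℕ → G} (hγ : IsGeo S x y γ) :
    IsQuasiGeodesic S 1 1 (wdist S x y) (fun t => γ ⌊t⌋₊) := by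
  apply QG_symm
  intro s t hs hst ht
  obtain ⟨h1, h2, h3, h4⟩ := QG_floor hs hst ht
  show _ ≤ ((wdist S (γ ⌊s⌋₊) (γ ⌊t⌋₊) : ℕ) : ℝ) ∧ ((wdist S (γ ⌊s⌋₊) (γ ⌊t⌋₊) : ℕ) : ℝ) ≤ _
  rw [hγ.2.2 _ _ h1 h2]
  constructor <;> linarith

private theorem QG_kk {K : ℝ} (hK : 1 ≤ K) : 1 ≤ kk K ∧ K ≤ kk K := by
  unfold kk
  constructor <;> linarith

private theorem QG_cc {K C : ℝ} (hK : 1 ≤ K) (hC : 0 ≤ C) : 0 ≤ cc K C ∧ C ≤ cc K C ∧
    2 ≤ cc K C := by
  unfold cc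
  have := mul_nonneg (by linarith : (0 : ℝ) ≤ K) hC
  refine ⟨by linarith, by linarith, by linarith⟩

theorem qg_app (hS : Gen S) {K C T : ℝ} {c : ℝ → G} (hK : 1 ≤ K) (hC : 0 ≤ C)
    (hc : IsQuasiGeodesic S K C T c) (z : G) {τ : ℝ} (hτ : τ ∈ Set.Icc 0 T)
    (hmin : ∀ t ∈ Set.Icc 0 T, wdist S (c τ) z ≤ wdist S (c t) z) :
    ∃ (T' : ℝ) (c' : ℝ → G), τ ≤ T' ∧ IsQuasiGeodesic S (kk K) (cc K C) T' c' ∧ c' T' = z ∧
      ∀ t ∈ Set.Icc 0 τ, c' t = c t := by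
  classical
  obtain ⟨γ, g0, g1, g2⟩ := (gmet hS).geod (c τ) z
  have hn0 : (0 : ℝ) ≤ (wdist S (c τ) z : ℝ) := Nat.cast_nonneg _
  have hKC := mul_nonneg (by linarith : (0 : ℝ) ≤ K) hC
  have hkk : kk K = 2 * K + 1 := rfl
  have hcc : cc K C = K * C + C + 2 := rfl
  refine ⟨τ + wdist S (c τ) z, fun t => if t ≤ τ then c t else γ ⌊t - τ⌋₊, by linarith, ?_, ?_,
    ?_⟩
  · apply QG_symm
    intro s t hs hst ht
    rcases le_or_gt t τ with h1 | h1
    · have h2 : s ≤ τ := hst.trans h1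
      simp only [if_pos h1, if_pos h2]
      have h3 := (qg_mono hK (QG_kk hK).2 (QG_cc hK hC).2.1 hc) s ⟨hs, h2.trans hτ.2⟩ t
        ⟨hs.trans hst, h1.trans hτ.2⟩
      rw [abs_sub_comm, abs_of_nonneg (by linarith)] at h3
      exact h3
    · rcases le_or_gt s τ with h2 | h2
      · simp only [if_neg (not_le.2 h1), if_pos h2]
        obtain ⟨f1, f2, f3, f4⟩ := QG_floor (s := 0) (t := t - τ) (n := wdist S (c τ) z)
          (le_refl _) (by linarith) (by linarith)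
        set j := ⌊t - τ⌋₊ with hj
        have f5 := Nat.floor_le (by linarith : 0 ≤ t - τ)
        have f6 := Nat.lt_floor_add_one (t - τ)
        rw [← hj] at f5 f6
        have e1 : wdist S (c τ) (γ j) = j := by
          have := g2 0 j (Nat.zero_le _) f2
          rw [g0] at this
          simpa using this
        have e2 : wdist S (γ j) z = wdist S (c τ) z - j := by
          have := g2 j _ f2 (le_refl _)
          rw [g1] at this
          exact this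
        have t1 := wdist_tri hS (c s) (c τ) (γ j)
        have t2 := wdist_tri hS (c s) (γ j) z
        have t3 := wdist_tri hS (c s) (γ j) (c τ)
        have t4 := hmin s ⟨hs, h2.trans hτ.2⟩
        rw [wdist_comm S (γ j) (c τ)] at t3
        have hjD : j ≤ wdist S (c s) (γ j) := by omega
        have hD : wdist S (c s) (c τ) ≤ 2 * wdist S (c s) (γ j) := by omega
        obtain ⟨q1, q2⟩ := hc s ⟨hs, h2.trans hτ.2⟩ τ hτ
        rw [abs_sub_comm, abs_of_nonneg (by linarith)] at q1 q2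
        have hK0 : 0 < K := by linarith
        have t1' : (wdist S (c s) (γ j) : ℝ) ≤ wdist S (c s) (c τ) + j := by
          have : wdist S (c s) (γ j) ≤ wdist S (c s) (c τ) + j := by omega
          exact_mod_cast this
        have hjD' : (j : ℝ) ≤ wdist S (c s) (γ j) := by exact_mod_cast hjD
        have hD' : (wdist S (c s) (c τ) : ℝ) ≤ 2 * wdist S (c s) (γ j) := by exact_mod_cast hD
        have q3 : τ - s ≤ K * (wdist S (c s) (c τ) + C) := by
          have : (τ - s) / K ≤ wdist S (c s) (c τ) + C := by linarith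
          rwa [div_le_iff₀ hK0, mul_comm] at this
        have q4 : τ - s ≤ K * (2 * wdist S (c s) (γ j) + C) :=
          q3.trans (mul_le_mul_of_nonneg_left (by linarith) hK0.le)
        constructor
        · have h5 : t - s ≤ (2 * K + 1) * (wdist S (c s) (γ j) + cc K C) := by
            have h6 : (0 : ℝ) ≤ K * (K * C) := mul_nonneg hK0.le hKC
            rw [hcc]
            nlinarith
          have h7 : (t - s) / kk K ≤ wdist S (c s) (γ j) + cc K C := by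
            rw [hkk, div_le_iff₀ (by linarith), mul_comm]
            exact h5
          linarith
        · rw [hkk, hcc]
          have h8 : K * (τ - s) ≤ (2 * K + 1) * (τ - s) :=
            mul_le_mul_of_nonneg_right (by linarith) (by linarith)
          have h9 : (t - τ) ≤ (2 * K + 1) * (t - τ) := by nlinarith
          nlinarith
      · simp only [if_neg (not_le.2 h1), if_neg (not_le.2 h2)]
        obtain ⟨f1, f2, f3, f4⟩ := QG_floor (s := s - τ) (t := t - τ) (n := wdist S (c τ) z)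
          (by linarith) (by linarith) (by linarith)
        rw [g2 _ _ f1 f2]
        have h3 : t - τ - (s - τ) = t - s := by ring
        rw [h3] at f3 f4
        obtain ⟨hk1, -⟩ := QG_kk hK
        obtain ⟨-, -, hc2⟩ := QG_cc hK hC
        have h5 : (t - s) / kk K ≤ t - s := div_le_self (by linarith) hk1
        have h6 : t - s ≤ kk K * (t - s) := le_mul_of_one_le_left (by linarith) hk1
        constructor <;> linarith
  · rcases Nat.eq_zero_or_pos (wdist S (c τ) z) with h | h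
    · have h1 : c τ = z := by
        have h2 : wlen S ((c τ)⁻¹ * z) = 0 := h
        rw [wlen_eq_zero hS, inv_mul_eq_one] at h2
        exact h2
      show (if τ + (wdist S (c τ) z : ℝ) ≤ τ then _ else _) = z
      rw [h, if_pos (by simp)]
      simpa using h1
    · have h1 : (0 : ℝ) < wdist S (c τ) z := by exact_mod_cast h
      show (if τ + (wdist S (c τ) z : ℝ) ≤ τ then _ else _) = z
      rw [if_neg (by linarith)]
      have h2 : τ + (wdist S (c τ) z : ℝ) - τ = (wdist S (c τ) z : ℝ) := by ring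
      rw [h2, Nat.floor_natCast]
      exact g1
  · intro t ht
    simp only [if_pos ht.2]

theorem qg_pre (hS : Gen S) {K C T : ℝ} {c : ℝ → G} (hK : 1 ≤ K) (hC : 0 ≤ C)
    (hc : IsQuasiGeodesic S K C T c) (z : G) {τ : ℝ} (hτ : τ ∈ Set.Icc 0 T)
    (hmin : ∀ t ∈ Set.Icc 0 T, wdist S (c τ) z ≤ wdist S (c t) z) :
    ∃ (s : ℝ) (c' : ℝ → G), 0 ≤ s ∧ IsQuasiGeodesic S (kk K) (cc K C) (s + (T - τ)) c' ∧
      c' 0 = z ∧ ∀ t ∈ Set.Icc τ T, c' (s + (t - τ)) = c t := by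
  have hτ' : T - τ ∈ Set.Icc 0 T := ⟨by linarith [hτ.2], by linarith [hτ.1]⟩
  have e0 : T - (T - τ) = τ := by ring
  obtain ⟨T', c', h1, h2, h3, h4⟩ := qg_app hS hK hC (qg_rev hc) z hτ' (by
    intro t ht
    simp only [e0]
    exact hmin (T - t) ⟨by linarith [ht.2], by linarith [ht.1]⟩)
  refine ⟨T' - (T - τ), fun t => c' (T' - t), by linarith, ?_, ?_, ?_⟩
  · have e1 : T' - (T - τ) + (T - τ) = T' := by ring
    rw [e1]
    exact qg_rev h2
  · simp only [sub_zero]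
    exact h3
  · intro t ht
    have e2 : T' - (T' - (T - τ) + (t - τ)) = T - t := by ring
    simp only [e2]
    rw [h4 (T - t) ⟨by linarith [ht.2], by linarith [ht.1]⟩]
    congr 1
    ring

theorem qg_two (hS : Gen S) {K C T : ℝ} {c : ℝ → G} (hK : 1 ≤ K) (hC : 0 ≤ C) (hT : 0 ≤ T)
    (hc : IsQuasiGeodesic S K C T c) (x y : G) {R : ℝ} (hx : (wdist S x (c 0) : ℝ) ≤ R)
    (hy : (wdist S (c T) y : ℝ) ≤ R) :
    ∃ (T' : ℝ) (c' : ℝ → G), 0 ≤ T' ∧
      IsQuasiGeodesic S (kk (kk K)) (cc (kk K) (cc K C)) T' c' ∧ c' 0 = x ∧ c' T' = y ∧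
      (∀ t ∈ Set.Icc 0 T, ∃ t' ∈ Set.Icc 0 T', (wdist S (c t) (c' t') : ℝ) ≤ bb K C R) ∧
      ∀ t, kk K * (2 * R + cc K C) ≤ t → t ≤ T - K * (2 * R + C) →
        ∃ t' ∈ Set.Icc 0 T', c' t' = c t := by
  have hK0 : 0 < K := by linarith
  have hR : 0 ≤ R := le_trans (Nat.cast_nonneg _) hx
  obtain ⟨hk1, hk2⟩ := QG_kk hK
  obtain ⟨hc0, hc1, hc2⟩ := QG_cc hK hC
  have hk0 : 0 < kk K := by linarith
  obtain ⟨t₁, ht₁, m1⟩ := exists_min (S := S) hT c y
  obtain ⟨T₁, c₁, a1, a2, a3, a4⟩ := qg_app hS hK hC hc y ht₁ m1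
  have hT₁ : 0 ≤ T₁ := ht₁.1.trans a1
  have d1 : (wdist S (c t₁) y : ℝ) ≤ R := by
    have h := m1 T ⟨hT, le_refl _⟩
    have h' : (wdist S (c t₁) y : ℝ) ≤ wdist S (c T) y := by exact_mod_cast h
    linarith
  have d2 : (wdist S (c t₁) (c T) : ℝ) ≤ 2 * R := by
    have h := wdist_tri hS (c t₁) y (c T)
    rw [wdist_comm S y (c T)] at h
    have h' : (wdist S (c t₁) (c T) : ℝ) ≤ wdist S (c t₁) y + wdist S (c T) y := by
      exact_mod_cast h
    linarith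
  have d3 : T - t₁ ≤ K * (2 * R + C) := by
    have h := (hc t₁ ht₁ T ⟨hT, le_refl _⟩).1
    rw [abs_sub_comm, abs_of_nonneg (by linarith [ht₁.2])] at h
    have h' : (T - t₁) / K ≤ 2 * R + C := by linarith
    rwa [div_le_iff₀ hK0, mul_comm] at h'
  have e0 : c₁ 0 = c 0 := a4 0 ⟨le_refl _, ht₁.1⟩
  obtain ⟨t₀, ht₀, m0⟩ := exists_min (S := S) hT₁ c₁ x
  obtain ⟨s, c', b1, b2, b3, b4⟩ := qg_pre hS hk1 hc0 a2 x ht₀ m0
  have d4 : (wdist S (c₁ 0) x : ℝ) ≤ R := by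
    rw [e0, wdist_comm]
    exact hx
  have d5 : (wdist S (c₁ t₀) x : ℝ) ≤ R := by
    have h := m0 0 ⟨le_refl _, hT₁⟩
    have h' : (wdist S (c₁ t₀) x : ℝ) ≤ wdist S (c₁ 0) x := by exact_mod_cast h
    linarith
  have d6 : (wdist S (c₁ 0) (c₁ t₀) : ℝ) ≤ 2 * R := by
    have h := wdist_tri hS (c₁ 0) x (c₁ t₀)
    rw [wdist_comm S x (c₁ t₀)] at h
    have h' : (wdist S (c₁ 0) (c₁ t₀) : ℝ) ≤ wdist S (c₁ 0) x + wdist S (c₁ t₀) x := by
      exact_mod_cast h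
    linarith
  have d7 : t₀ ≤ kk K * (2 * R + cc K C) := by
    have h := (a2 0 ⟨le_refl _, hT₁⟩ t₀ ht₀).1
    rw [abs_sub_comm, sub_zero, abs_of_nonneg ht₀.1] at h
    have h' : t₀ / kk K ≤ 2 * R + cc K C := by linarith
    rwa [div_le_iff₀ hk0, mul_comm] at h'
  have hU : ∀ t ∈ Set.Icc t₀ T₁, s + (t - t₀) ∈ Set.Icc 0 (s + (T₁ - t₀)) := fun t ht =>
    ⟨by linarith [ht.1], by linarith [ht.2]⟩
  set P : ℝ := kk K * (kk K * (2 * R + cc K C)) + cc K C with hP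
  set Q : ℝ := K * (K * (2 * R + C)) + C with hQ
  have hb : bb K C R = P + Q := by
    rw [hP, hQ]
    unfold bb
    ring
  have hP0 : 0 ≤ P := by
    have : 0 ≤ 2 * R + cc K C := by linarith
    positivity
  have hQ0 : 0 ≤ Q := by
    have : 0 ≤ 2 * R + C := by linarith
    positivity
  -- points of `c₁` are near `c'`
  have key : ∀ t ∈ Set.Icc 0 T₁, ∃ t' ∈ Set.Icc 0 (s + (T₁ - t₀)),
      (wdist S (c₁ t) (c' t') : ℝ) ≤ P := by
    intro t ht
    rcases le_or_gt t₀ t with h | h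
    · refine ⟨s + (t - t₀), hU t ⟨h, ht.2⟩, ?_⟩
      rw [b4 t ⟨h, ht.2⟩, wdist_self]
      simpa using hP0
    · refine ⟨s + (t₀ - t₀), hU t₀ ⟨le_refl _, ht₀.2⟩, ?_⟩
      rw [b4 t₀ ⟨le_refl _, ht₀.2⟩]
      have h1 := (a2 t ht t₀ ht₀).2
      rw [abs_sub_comm, abs_of_nonneg (by linarith)] at h1
      have h2 : kk K * (t₀ - t) ≤ kk K * (kk K * (2 * R + cc K C)) :=
        mul_le_mul_of_nonneg_left (by linarith [ht.1]) hk0.le
      linarith
  refine ⟨s + (T₁ - t₀), c', by linarith [ht₀.2], b2, b3, ?_, ?_, ?_⟩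
  · rw [b4 T₁ ⟨ht₀.2, le_refl _⟩]
    exact a3
  · intro t ht
    rcases le_or_gt t t₁ with h | h
    · obtain ⟨t', ht', h1⟩ := key t ⟨ht.1, h.trans a1⟩
      refine ⟨t', ht', ?_⟩
      rw [a4 t ⟨ht.1, h⟩] at h1
      linarith
    · obtain ⟨t', ht', h1⟩ := key t₁ ⟨ht₁.1, a1⟩
      refine ⟨t', ht', ?_⟩
      rw [a4 t₁ ⟨ht₁.1, le_refl _⟩] at h1
      have h2 := (hc t ht t₁ ht₁).2
      rw [abs_of_nonneg (by linarith)] at h2
      have h3 : K * (t - t₁) ≤ K * (K * (2 * R + C)) :=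
        mul_le_mul_of_nonneg_left (by linarith [ht.2]) hK0.le
      have h4 := wdist_tri hS (c t) (c t₁) (c' t')
      have h5 : (wdist S (c t) (c' t') : ℝ) ≤ wdist S (c t) (c t₁) + wdist S (c t₁) (c' t') := by
        exact_mod_cast h4
      linarith
  · intro t h1 h2
    have h3 : t₀ ≤ t := by linarith
    have h4 : t ≤ t₁ := by linarith
    refine ⟨s + (t - t₀), hU t ⟨h3, h4.trans a1⟩, ?_⟩
    rw [b4 t ⟨h3, h4.trans a1⟩]
    exact a4 t ⟨ht₀.1.trans h3, h4⟩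

end Pool.Agent.HMB
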