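import Pool.Agent.MHN.Final

set_option autoImplicit false

namespace Pool.Agent.HMB

open Pool.Agent.MHN

variable {H : Type*} [Group H] {δ : ℝ} {d : H → H → ℕ} {f : H}

private theorem Three_up (hd : LMet H δ d) (hf : ¬ IsOfFinOrder f) (n : ℤ) :
    (d 1 (f ^ n) : ℝ) ≤ 2 * al d f 1 + |(n : ℝ)| * tl d f + 14 * δ := by
  have h1 := fermi_upper hd hf 1 (f ^ n)
  have h2 := al_shift hd hf 1 n
  have h3 := be_shift hd hf 1 n
  rw [mul_one] at h2 h3
  rw [be_one hd, sub_zero] at h3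
  rw [be_one hd, zero_sub, abs_neg] at h1
  have h4 := (abs_le.1 h2).2
  have ht := (tl_pos hd hf).le
  have h5 : |be d f (f ^ n)| ≤ |(n : ℝ) * tl d f| + 6 * δ := by
    have := abs_add_le (be d f (f ^ n) - n * tl d f) (n * tl d f)
    rw [sub_add_cancel] at this
    linarith
  rw [abs_mul, abs_of_nonneg ht] at h5
  linarith

private theorem Three_low (hd : LMet H δ d) (hf : ¬ IsOfFinOrder f) (n : ℤ) :
    |(n : ℝ)| * tl d f - 6 * δ ≤ (d 1 (f ^ n) : ℝ) := by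
  have h1 := be_lip hd (h := f) 1 (f ^ n)
  have h3 := be_shift hd hf 1 n
  rw [mul_one] at h3
  rw [be_one hd, sub_zero] at h3
  rw [be_one hd, zero_sub, abs_neg] at h1
  have ht := (tl_pos hd hf).le
  have h5 : |(n : ℝ) * tl d f| ≤ |be d f (f ^ n)| + 6 * δ := by
    have := abs_add_le ((n : ℝ) * tl d f - be d f (f ^ n)) (be d f (f ^ n))
    rw [sub_add_cancel, abs_sub_comm] at this
    linarith
  rw [abs_mul, abs_of_nonneg ht] at h5
  linarith

private theorem Three_dist (hd : LMet H δ d) (z : H) (i j : ℤ) :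
    d (z * f ^ i) (z * f ^ j) = d 1 (f ^ (j - i)) := by
  rw [hd.left]
  have h := hd.left (f ^ i) 1 (f ^ (j - i))
  rw [mul_one, ← zpow_add, add_sub_cancel] at h
  exact h

private theorem Three_comm (hd : LMet H δ d) (hf : ¬ IsOfFinOrder f) {y : H} {k l : ℤ}
    (hk : k ≠ 0) (h : y * f ^ k = f ^ l * y) : al d f y ≤ 2 * al d f 1 + 44 * δ := by
  have hδ := hd.delta_nonneg
  have ht := tl_pos hd hf
  have hc : ∀ j : ℤ, y * f ^ (k * j) = f ^ (l * j) * y := by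
    intro j
    have h1 : y * f ^ k * y⁻¹ = f ^ l := by rw [h]; group
    have h2 : (y * f ^ k * y⁻¹) ^ j = y * (f ^ k) ^ j * y⁻¹ := conj_zpow
    rw [h1] at h2
    rw [zpow_mul, zpow_mul, h2]; group
  have hl : l ≠ 0 := by
    rintro rfl
    rw [zpow_zero, one_mul, mul_eq_left] at h
    exact hf (isOfFinOrder_iff_zpow_eq_one.2 ⟨k, hk, h⟩)
  obtain ⟨J, hJ⟩ : ∃ J : ℕ, 7 * δ < J * tl d f := by
    obtain ⟨J, hJ⟩ := exists_nat_gt (7 * δ / tl d f)
    exact ⟨J, by rwa [div_lt_iff₀ ht] at hJ⟩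
  have hJ0 : (0 : ℝ) ≤ J := Nat.cast_nonneg _
  have hl1 : (1 : ℝ) ≤ |(l : ℝ)| := by exact_mod_cast Int.one_le_abs hl
  -- the points
  obtain ⟨v, hv⟩ : ∃ v, v = f ^ (l * J) * y := ⟨_, rfl⟩
  obtain ⟨u, hu⟩ : ∃ u, u = f ^ (l * (-J : ℤ)) * y := ⟨_, rfl⟩
  have hv' : v = y * f ^ (k * J) := by rw [hv, hc]
  have hu' : u = y * f ^ (k * (-J : ℤ)) := by rw [hu, hc]
  have av := al_shift hd hf y (l * J)
  have bv := be_shift hd hf y (l * J)
  have au := al_shift hd hf y (l * (-J : ℤ))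
  have bu := be_shift hd hf y (l * (-J : ℤ))
  rw [← hv] at av bv
  rw [← hu] at au bu
  push_cast at bv bu
  have hP : |((l : ℝ) * J) * tl d f| = |(l : ℝ)| * (J * tl d f) := by
    rw [abs_mul, abs_mul, abs_of_nonneg hJ0, abs_of_pos ht]; ring
  have hPJ : 7 * δ < |(l : ℝ)| * (J * tl d f) := by nlinarith
  have b1 : |(l : ℝ)| * (J * tl d f) - 6 * δ ≤ |be d f y - be d f v| := by
    have := abs_add_le ((l : ℝ) * J * tl d f - (be d f v - be d f y)) (be d f v - be d f y)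
    rw [sub_add_cancel, hP, abs_sub_comm, abs_sub_comm (be d f v) (be d f y)] at this
    linarith
  have e1 := fermi_lower hd hf y v (by linarith)
  have d1 : d y v = d 1 (f ^ (k * J)) := by
    have := Three_dist (f := f) hd y 0 (k * J)
    rw [zpow_zero, mul_one, sub_zero, ← hv'] at this
    exact this
  have e2 := Three_up hd hf (k * J)
  rw [← d1] at e2
  have d2 : d u v = d 1 (f ^ (k * J - k * (-J : ℤ))) := by
    rw [hu', hv']; exact Three_dist hd y _ _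
  have e3 := Three_low hd hf (k * J - k * (-J : ℤ))
  rw [← d2] at e3
  have e4 := fermi_upper hd hf u v
  have b2 : |be d f u - be d f v| ≤ 2 * (|(l : ℝ)| * (J * tl d f)) + 12 * δ := by
    have hb : be d f u - be d f v = (be d f u - be d f y - (l : ℝ) * (-J) * tl d f)
      - (be d f v - be d f y - (l : ℝ) * J * tl d f) - 2 * ((l : ℝ) * J * tl d f) := by ring
    rw [hb]
    have t1 := abs_sub (be d f u - be d f y - (l : ℝ) * (-J) * tl d f
      - (be d f v - be d f y - (l : ℝ) * J * tl d f)) (2 * ((l : ℝ) * J * tl d f))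
    have t2 := abs_sub (be d f u - be d f y - (l : ℝ) * (-J) * tl d f)
      (be d f v - be d f y - (l : ℝ) * J * tl d f)
    have t3 : |2 * ((l : ℝ) * J * tl d f)| = 2 * (|(l : ℝ)| * (J * tl d f)) := by
      rw [abs_mul, hP]; norm_num
    rw [t3] at t1
    linarith
  have k1 : |((k * J : ℤ) : ℝ)| = |(k : ℝ)| * J := by
    push_cast; rw [abs_mul, abs_of_nonneg hJ0]
  have k2 : |((k * J - k * (-J : ℤ) : ℤ) : ℝ)| = 2 * (|(k : ℝ)| * J) := by
    push_cast
    rw [show (k : ℝ) * J - k * -J = 2 * (k * J) by ring, abs_mul, abs_mul, abs_of_nonneg hJ0]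
    norm_num
  rw [k1] at e2
  rw [k2] at e3
  have := (abs_le.1 av).1
  have := (abs_le.1 av).2
  have := (abs_le.1 au).2
  nlinarith

private theorem Three_fin (hd : LMet H δ d) (hf : ¬ IsOfFinOrder f) {y : H}
    (hy : 2 * al d f 1 + 44 * δ < al d f y) (R : ℝ) :
    {m : ℤ | al d f (y * f ^ m) ≤ R}.Finite := by
  by_contra hinf
  have hinf : {m : ℤ | al d f (y * f ^ m) ≤ R}.Infinite := hinf
  obtain ⟨C, hC⟩ := near_orbit hd hf
  choose i hi using hC
  have hmap : Set.MapsTo (fun m : ℤ => f ^ (-(i (y * f ^ m))) * (y * f ^ m))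
      {m : ℤ | al d f (y * f ^ m) ≤ R} {a : H | d 1 a ≤ ⌈R + C⌉₊} := by
    intro m hm
    have h1 := hi (y * f ^ m)
    have hm' : al d f (y * f ^ m) ≤ R := hm
    have h2 : d 1 (f ^ (-(i (y * f ^ m))) * (y * f ^ m)) =
        d (y * f ^ m) (f ^ (i (y * f ^ m))) := by
      have h := hd.left (f ^ (-(i (y * f ^ m)))) (f ^ (i (y * f ^ m))) (y * f ^ m)
      rw [← zpow_add, neg_add_cancel, zpow_zero] at h
      rw [h, hd.symm]
    show d 1 (f ^ (-(i (y * f ^ m))) * (y * f ^ m)) ≤ ⌈R + C⌉₊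
    have h3 : ((d 1 (f ^ (-(i (y * f ^ m))) * (y * f ^ m)) : ℕ) : ℝ) ≤ ⌈R + C⌉₊ := by
      rw [h2]
      refine h1.trans (le_trans ?_ (Nat.le_ceil _))
      linarith
    exact_mod_cast h3
  obtain ⟨m, hm, m', hm', hne, heq⟩ := hinf.exists_ne_map_eq_of_mapsTo hmap (hd.fin _)
  have h4 : y * f ^ (m - m') = f ^ (i (y * f ^ m) - i (y * f ^ m')) * y := by
    have h5 : y * f ^ m = f ^ (i (y * f ^ m)) * (f ^ (-(i (y * f ^ m'))) * (y * f ^ m')) := by
      rw [← heq]; group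
    generalize i (y * f ^ m) = p at h5
    generalize i (y * f ^ m') = q at h5
    calc y * f ^ (m - m') = (y * f ^ m) * (f ^ m')⁻¹ := by rw [zpow_sub, mul_assoc]
      _ = f ^ p * (f ^ (-q) * (y * f ^ m')) * (f ^ m')⁻¹ := by rw [h5]
      _ = f ^ (p - q) * y := by group
  have h6 := Three_comm hd hf (sub_ne_zero.2 hne) h4
  linarith

private theorem Three_core (hd : LMet H δ d) (hf : ¬ IsOfFinOrder f) {z : H} {ε : ℤ}
    (hε : |ε| = 1) (hz : ∀ j : ℕ, 2 * al d f 1 + 20 * δ < al d f (z * f ^ (ε * j))) (j : ℕ) :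
    |be d f (z * f ^ (ε * j)) - be d f z| ≤ 2 * δ + d 1 f := by
  classical
  have hδ := hd.delta_nonneg
  have ht := (tl_pos hd hf).le
  by_contra hcon
  push Not at hcon
  have hex : ∃ k : ℕ, δ < |be d f (z * f ^ (ε * k)) - be d f z| :=
    ⟨j, by linarith [(Nat.cast_nonneg (d 1 f) : (0 : ℝ) ≤ d 1 f)]⟩
  obtain ⟨k, hk, hmin⟩ : ∃ k : ℕ, δ < |be d f (z * f ^ (ε * k)) - be d f z| ∧
      ∀ k' < k, |be d f (z * f ^ (ε * k')) - be d f z| ≤ δ :=
    ⟨Nat.find hex, Nat.find_spec hex, fun k' hk' => not_lt.1 (Nat.find_min hex hk')⟩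
  have hkj : k ≤ j := by
    by_contra hlt
    have := hmin j (not_le.1 hlt)
    linarith [(Nat.cast_nonneg (d 1 f) : (0 : ℝ) ≤ d 1 f)]
  have hstep : ∀ e : ℤ, |e| = 1 → d 1 (f ^ e) = d 1 f := by
    intro e he
    rcases (abs_eq (by norm_num)).1 he with h | h
    · rw [h, zpow_one]
    · rw [h, zpow_neg, zpow_one]
      have := hd.left f 1 f⁻¹
      rw [mul_inv_cancel, mul_one] at this
      rw [← this, hd.symm]
  have hk1 : |be d f (z * f ^ (ε * k)) - be d f z| ≤ δ + d 1 f := by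
    cases k with
    | zero =>
      simp only [Nat.cast_zero, mul_zero, zpow_zero, mul_one, sub_self, abs_zero] at hk ⊢
      linarith
    | succ k =>
      have h1 := hmin k (Nat.lt_succ_self k)
      have h2 := be_lip hd (h := f) (z * f ^ (ε * ((k + 1 : ℕ) : ℤ))) (z * f ^ (ε * (k : ℤ)))
      rw [Three_dist hd, hstep _ (by push_cast; rw [show ε * (k : ℤ) - ε * (k + 1) = -ε by ring, abs_neg, hε])] at h2
      have h3 := abs_sub_le (be d f (z * f ^ (ε * ((k + 1 : ℕ) : ℤ)))) (be d f (z * f ^ (ε * (k : ℤ)))) (be d f z)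
      linarith
  have hwv : δ < |be d f (z * f ^ (ε * k)) - be d f (z * f ^ (ε * j))| := by
    have h3 := abs_sub_le (be d f (z * f ^ (ε * j))) (be d f (z * f ^ (ε * k))) (be d f z)
    rw [abs_sub_comm (be d f (z * f ^ (ε * j))) (be d f (z * f ^ (ε * k)))] at h3
    linarith
  have huw : δ < |be d f z - be d f (z * f ^ (ε * k))| := by rwa [abs_sub_comm]
  have e1 := fermi_lower hd hf z (z * f ^ (ε * k)) huw
  have e2 := fermi_lower hd hf (z * f ^ (ε * k)) (z * f ^ (ε * j)) hwv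
  have e3 := fermi_upper hd hf z (z * f ^ (ε * j))
  have e4 := abs_sub_le (be d f z) (be d f (z * f ^ (ε * k))) (be d f (z * f ^ (ε * j)))
  have d1 : d z (z * f ^ (ε * k)) = d 1 (f ^ (ε * (k : ℤ))) := by
    have := Three_dist (f := f) hd z 0 (ε * k)
    rwa [zpow_zero, mul_one, sub_zero] at this
  have d2 : d z (z * f ^ (ε * j)) = d 1 (f ^ (ε * (j : ℤ))) := by
    have := Three_dist (f := f) hd z 0 (ε * j)
    rwa [zpow_zero, mul_one, sub_zero] at this
  have d3 := Three_dist (f := f) hd z (ε * k) (ε * j)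
  have u1 := Three_up hd hf (ε * k)
  have u2 := Three_up hd hf (ε * j - ε * k)
  have u3 := Three_low hd hf (ε * j)
  rw [← d1] at u1
  rw [← d3] at u2
  rw [← d2] at u3
  have hε' : |(ε : ℝ)| = 1 := by exact_mod_cast hε
  have k1 : |((ε * k : ℤ) : ℝ)| = k := by
    push_cast; rw [abs_mul, hε', one_mul, abs_of_nonneg (Nat.cast_nonneg _)]
  have k2 : |((ε * j : ℤ) : ℝ)| = j := by
    push_cast; rw [abs_mul, hε', one_mul, abs_of_nonneg (Nat.cast_nonneg _)]
  have hkj' : (k : ℝ) ≤ j := by exact_mod_cast hkj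
  have k3 : |((ε * j - ε * k : ℤ) : ℝ)| = (j : ℝ) - k := by
    push_cast; rw [← mul_sub, abs_mul, hε', one_mul, abs_of_nonneg (by linarith)]
  rw [k1] at u1
  rw [k2] at u3
  rw [k3] at u2
  have := hz k
  nlinarith

private theorem Three_be (hd : LMet H δ d) (hf : ¬ IsOfFinOrder f) {y : H}
    (hy : 2 * al d f 1 + 44 * δ < al d f y) :
    ∃ B : ℝ, ∀ m : ℤ, |be d f (y * f ^ m)| ≤ B := by
  have hδ := hd.delta_nonneg
  have hfin := Three_fin hd hf hy (2 * al d f 1 + 20 * δ)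
  obtain ⟨M, hM⟩ : ∃ M : ℕ, ∀ m : ℤ, al d f (y * f ^ m) ≤ 2 * al d f 1 + 20 * δ →
      |m| ≤ (M : ℤ) := by
    obtain ⟨b, hb⟩ := (hfin.image (fun m : ℤ => m.natAbs)).bddAbove
    refine ⟨b, fun m hm => ?_⟩
    have : m.natAbs ≤ b := hb ⟨m, hm, rfl⟩
    rw [Int.abs_eq_natAbs]
    exact_mod_cast this
  -- the two tails
  have tail : ∀ ε : ℤ, |ε| = 1 → ∀ j : ℕ,
      |be d f (y * f ^ (ε * ((M : ℤ) + 1 + j)))| ≤
        |be d f (y * f ^ (ε * ((M : ℤ) + 1)))| + 2 * δ + d 1 f := by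
    intro ε hε j
    have h1 := Three_core hd hf (z := y * f ^ (ε * ((M : ℤ) + 1))) hε (by
      intro j
      by_contra hcon
      push Not at hcon
      rw [mul_assoc, ← zpow_add] at hcon
      have h2 := hM _ hcon
      rw [← mul_add, abs_mul, hε, one_mul, abs_of_nonneg (by positivity)] at h2
      linarith [(Nat.cast_nonneg j : (0 : ℤ) ≤ j)]) j
    rw [mul_assoc, ← zpow_add, ← mul_add] at h1
    have h3 := abs_add_le (be d f (y * f ^ (ε * ((M : ℤ) + 1 + j))) -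
      be d f (y * f ^ (ε * ((M : ℤ) + 1)))) (be d f (y * f ^ (ε * ((M : ℤ) + 1))))
    rw [sub_add_cancel] at h3
    linarith
  obtain ⟨B₀, hB₀⟩ : ∃ B₀ : ℝ, ∀ m : ℤ, |m| ≤ (M : ℤ) → |be d f (y * f ^ m)| ≤ B₀ := by
    have hfs : {m : ℤ | |m| ≤ (M : ℤ)}.Finite := by
      refine (Set.finite_Icc (-(M : ℤ)) M).subset ?_
      intro m hm
      exact abs_le.1 hm
    obtain ⟨b, hb⟩ := (hfs.image (fun m : ℤ => |be d f (y * f ^ m)|)).bddAbove
    exact ⟨b, fun m hm => hb ⟨m, hm, rfl⟩⟩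
  refine ⟨max B₀ (max (|be d f (y * f ^ ((1 : ℤ) * ((M : ℤ) + 1)))| + 2 * δ + d 1 f)
    (|be d f (y * f ^ ((-1 : ℤ) * ((M : ℤ) + 1)))| + 2 * δ + d 1 f)), fun m => ?_⟩
  by_cases hm : |m| ≤ (M : ℤ)
  · exact (hB₀ m hm).trans (le_max_left _ _)
  · push Not at hm
    rcases le_total 0 m with h0 | h0
    · rw [abs_of_nonneg h0] at hm
      have h1 := tail 1 (by norm_num) (m - (M + 1)).toNat
      rw [Int.toNat_of_nonneg (by omega)] at h1
      rw [show (1 : ℤ) * ((M : ℤ) + 1 + (m - (M + 1))) = m by ring] at h1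
      exact h1.trans ((le_max_left _ _).trans (le_max_right _ _))
    · rw [abs_of_nonpos h0] at hm
      have h1 := tail (-1) (by norm_num) (-m - (M + 1)).toNat
      rw [Int.toNat_of_nonneg (by omega)] at h1
      rw [show (-1 : ℤ) * ((M : ℤ) + 1 + (-m - (M + 1))) = m by ring] at h1
      exact h1.trans ((le_max_right _ _).trans (le_max_right _ _))

theorem three (hd : LMet H δ d) (hf : ¬ IsOfFinOrder f)
    (hne : ∀ n : ℕ, ∃ z : H, ∀ i : ℤ, n ≤ d z (f ^ i)) :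
    ∃ (y : H) (C₀ : ℝ), (∀ n m : ℤ, gp d (f ^ n) (y * f ^ m * y⁻¹) 1 ≤ C₀) ∧
      ∀ n m : ℕ, gp d (f ^ n) ((f ^ m)⁻¹) 1 ≤ C₀ := by
  have hδ := hd.delta_nonneg
  have ht := (tl_pos hd hf).le
  obtain ⟨z, _, _, hz⟩ := exists_far_seq hd hf hne
  obtain ⟨j, hj⟩ := exists_nat_gt (2 * al d f 1 + 44 * δ)
  obtain ⟨y, hy⟩ : ∃ y, y = z j := ⟨_, rfl⟩
  have hy' : 2 * al d f 1 + 44 * δ < al d f y := by rw [hy]; exact hj.trans_le (hz j)
  obtain ⟨B, hB⟩ := Three_be hd hf hy'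
  have ha1 := al_nonneg hd hf 1
  have hB0 : 0 ≤ B := (abs_nonneg _).trans (hB 0)
  refine ⟨y, 2 * al d f 1 + B + 17 * δ + d 1 y⁻¹, fun n m => ?_, fun n m => ?_⟩
  · have e1 := fermi_upper hd hf 1 (f ^ n)
    have e2 := fermi_upper hd hf 1 (y * f ^ m)
    rw [be_one hd, zero_sub, abs_neg] at e1 e2
    have e3 := hB m
    have e4 : d 1 (y * f ^ m * y⁻¹) ≤ d 1 (y * f ^ m) + d 1 y⁻¹ := by
      have h1 := hd.tri 1 (y * f ^ m) (y * f ^ m * y⁻¹)
      have h2 := hd.left (y * f ^ m) 1 y⁻¹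
      rw [mul_one] at h2
      omega
    have e5 : d (f ^ n) (y * f ^ m) ≤ d (f ^ n) (y * f ^ m * y⁻¹) + d 1 y⁻¹ := by
      have h1 := hd.tri (f ^ n) (y * f ^ m * y⁻¹) (y * f ^ m)
      have h2 := hd.left (y * f ^ m) 1 y⁻¹
      rw [mul_one] at h2
      rw [hd.symm (y * f ^ m * y⁻¹)] at h1
      omega
    have e4' : (d 1 (y * f ^ m * y⁻¹) : ℝ) ≤ d 1 (y * f ^ m) + d 1 y⁻¹ := by exact_mod_cast e4
    have e5' : (d (f ^ n) (y * f ^ m) : ℝ) ≤ d (f ^ n) (y * f ^ m * y⁻¹) + d 1 y⁻¹ := by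
      exact_mod_cast e5
    have e6 := al_shift hd hf 1 n
    rw [mul_one] at e6
    have e7 := (abs_le.1 e6).2
    unfold gp
    by_cases hcase : δ < |be d f (f ^ n) - be d f (y * f ^ m)|
    · have e8 := fermi_lower hd hf _ _ hcase
      have e9 := abs_add_le (be d f (f ^ n) - be d f (y * f ^ m)) (be d f (y * f ^ m))
      rw [sub_add_cancel] at e9
      linarith
    · push Not at hcase
      have e9 := abs_add_le (be d f (f ^ n) - be d f (y * f ^ m)) (be d f (y * f ^ m))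
      rw [sub_add_cancel] at e9
      have e10 := al_lip hd hf (y * f ^ m) (f ^ n)
      have e11 := (abs_le.1 e10).2
      rw [hd.symm] at e11
      linarith
  · have e1 := Three_up hd hf n
    have e2 := Three_up hd hf (-(m : ℤ))
    have e3 := Three_low hd hf (-(m : ℤ) - n)
    have e4 : d (f ^ (n : ℤ)) (f ^ (-(m : ℤ))) = d 1 (f ^ (-(m : ℤ) - n)) := by
      have := Three_dist (f := f) hd 1 n (-(m : ℤ))
      rwa [one_mul, one_mul] at this
    rw [← e4] at e3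
    have k1 : |((n : ℤ) : ℝ)| = n := by simp
    have k2 : |((-(m : ℤ) : ℤ) : ℝ)| = m := by simp
    have k3 : |((-(m : ℤ) - n : ℤ) : ℝ)| = (m : ℝ) + n := by
      push_cast
      rw [show -(m : ℝ) - n = -(m + n) by ring, abs_neg, abs_of_nonneg (by positivity)]
    rw [k1] at e1
    rw [k2] at e2
    rw [k3] at e3
    rw [← zpow_natCast, ← zpow_natCast, ← zpow_neg]
    unfold gp
    have : (0 : ℝ) ≤ d 1 y⁻¹ := Nat.cast_nonneg _
    nlinarith

end Pool.Agent.HMB
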